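import Pool.Agent.FQ.T4x
import Pool.Agent.SP.StepQ

/-!
# FQ-StepMin: removal of a support by a parity argument

If the number of elements of `T` (regular, support `Q`) is smaller than the number of classes, or if
`Q` has an odd number of elements, then the part of the support `Q` comes from smaller supports.
-/

set_option autoImplicit false

namespace Pool.Agent.FQ

open Finset Pool.Agent.FS
open Pool.Agent.FF
open Pool.Agent.SP (nn KK BB co Reg hh SS f_box co_bij rr_co hb_dvd_of_reg)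

/-- the class up to sign -/
def mu (k a : ℕ) : ℕ := min (a % k) (k - a % k)

theorem mu_congr {k a b : ℕ} (h : a ≡ b [MOD k]) : mu k a = mu k b := by
  unfold mu
  rw [show a % k = b % k from h]

theorem mu_neg {k a b : ℕ} (hk : ¬ k ∣ a) (h : a + b ≡ 0 [MOD k]) : mu k b = mu k a := by
  have hk0 : 0 < k := by
    rcases Nat.eq_zero_or_pos k with rfl | h0
    · exfalso
      have h1 : a + b = 0 := by
        have h2 : (a + b) % 0 = 0 % 0 := h
        simpa using h2
      exact hk (by rw [show a = 0 by omega])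
    · exact h0
  have ha : a % k ≠ 0 := fun h' => hk (Nat.dvd_of_mod_eq_zero h')
  have hd : k ∣ a % k + b % k := by
    have h1 : k ∣ a + b := (Nat.modEq_zero_iff_dvd).1 h
    have h2 : (a % k + b % k) % k = (a + b) % k := (Nat.add_mod a b k).symm
    rw [Nat.dvd_iff_mod_eq_zero, h2]
    exact Nat.mod_eq_zero_of_dvd h1
  have h1 := Nat.mod_lt a hk0
  have h2 := Nat.mod_lt b hk0
  obtain ⟨c, hc⟩ := hd
  have hc1 : c = 1 := by
    have h3 : c ≠ 0 := by rintro rfl; omega
    have h4 : c < 2 := by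
      by_contra h5
      have h6 : k * 2 ≤ k * c := Nat.mul_le_mul_left k (by omega)
      omega
    omega
  rw [hc1, mul_one] at hc
  unfold mu
  have e1 : b % k = k - a % k := by omega
  rw [e1, min_comm]
  congr 1
  omega

theorem hh_eq {l : ℕ} (hl : l.Prime) : hh l = (hb l - 1) / 2 := by
  unfold hh hb
  split_ifs with h
  · decide
  · rw [Nat.totient_prime hl]

theorem mu_mem {l a : ℕ} (hl : l.Prime) (ha : a.Coprime (hb l)) :
    mu (hb l) a ∈ Icc 1 (hh l) := by
  have h2 := hl.two_le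
  have h3 : 3 ≤ hb l := by
    unfold hb
    split_ifs with h <;> omega
  have h4 := Nat.mod_lt a (show 0 < hb l by omega)
  have h5 : a % hb l ≠ 0 := by
    intro h
    have h6 : hb l ∣ a := Nat.dvd_of_mod_eq_zero h
    have h7 := Nat.eq_one_of_dvd_coprimes ha h6 dvd_rfl
    omega
  -- for `l = 2` the residue is odd
  have h6 : 2 * (a % hb l) ≠ hb l := by
    intro h
    by_cases h2 : l = 2
    · subst h2
      have e : hb 2 = 4 := rfl
      rw [e] at h ha h5
      have h7 : ¬ 2 ∣ a := fun h8 => by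
        have := Nat.eq_one_of_dvd_coprimes ha h8 (by norm_num)
        omega
      omega
    · have e : hb l = l := if_neg h2
      rw [e] at h
      rcases hl.eq_two_or_odd with h8 | h8
      · exact h2 h8
      · omega
  rw [hh_eq hl, mem_Icc]
  unfold mu
  omega

theorem mu_self {l c : ℕ} (hl : l.Prime) (hc : c ∈ Icc 1 (hh l)) :
    c.Coprime (hb l) ∧ mu (hb l) c = c := by
  rw [mem_Icc, hh_eq hl] at hc
  have h2 := hl.two_le
  have h3 : 3 ≤ hb l := by
    unfold hb
    split_ifs with h <;> omega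
  refine ⟨?_, ?_⟩
  · by_cases h : l = 2
    · subst h
      have e : hb 2 = 4 := rfl
      rw [e] at hc ⊢
      have h4 : c = 1 := by omega
      rw [h4]
      norm_num
    · have e : hb l = l := if_neg h
      rw [e] at hc ⊢
      exact ((Nat.Prime.coprime_iff_not_dvd hl).2 fun h5 => by
        have := Nat.le_of_dvd (by omega) h5
        omega).symm
  · unfold mu
    rw [Nat.mod_eq_of_lt (by omega)]
    omega

section

variable {m : ℕ} [NeZero m] {A : Type} [AddCommGroup A] (D : Datum m A)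

theorem T_oddx {n : ℕ} [NeZero n] (hn : n ∣ m) (hu : n.Coprime (m / n)) (ls : List ℕ)
    (hnd : ls.Nodup) (hlen : Odd ls.length) (hp : ∀ l ∈ ls, l.Prime ∧ hb l ∣ n)
    (hall : ∀ l : ℕ, l.Prime → l ∣ n → l ∈ ls) (L L₀ : Set ℕ)
    (hL : ∀ n' ∈ L, ∃ l ∈ ls, ¬ l ∣ n')
    (hLo : ∀ l ∈ ls, ordCompl[l] n ∈ L₀)
    (N : (ZMod n)ˣ → ℤ) (b : A) (hb : b ∈ D.lev L)
    (hW : ∀ t : (ZMod m)ˣ, D.W t (∑ w : (ZMod n)ˣ, N w • D.f (emb m n w) + b) = 0) :
    ∑ w : (ZMod n)ˣ, N w • D.f (emb m n w) ∈ D.lev L₀ := by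
  have hdvhb : ∀ l : ℕ, l ∣ Pool.Agent.FS.hb l := by
    intro l
    unfold Pool.Agent.FS.hb
    split_ifs with h2
    · rw [h2]; norm_num
    · exact dvd_rfl
  have hp1 : ∀ l ∈ ls, l.Prime := fun l hl => (hp l hl).1
  have hp2 : ∀ l ∈ ls, l.Prime ∧ l ∣ n := fun l hl => ⟨hp1 l hl, (hdvhb l).trans (hp l hl).2⟩
  obtain ⟨κ, hκ⟩ := exists_proj n ls hp1
  have hP := proj_dec n ls hnd hp1 hall κ hκ
  have hH := half_sys n ls hp
  obtain ⟨R, hR, E, hE, hNE⟩ := comb_odd hP hH hlen N
    (fun ks hks g => mixed D hn hu ls hp2 hall L hL N b hb hW ks hks g)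
  have h3 : 3 ≤ n := by
    obtain ⟨l, hl⟩ : ∃ l, l ∈ ls := List.exists_mem_of_ne_nil ls (by
      rintro rfl
      simp at hlen)
    have h1 : 3 ≤ Pool.Agent.FS.hb l := by
      unfold Pool.Agent.FS.hb
      split_ifs with h2
      · norm_num
      · have := (hp1 l hl).two_le
        omega
    exact h1.trans (Nat.le_of_dvd (Nat.pos_of_ne_zero (NeZero.ne n)) (hp l hl).2)
  have h4 : ∑ w : (ZMod n)ˣ, N w • D.f (emb m n w) =
      ∑ w : (ZMod n)ˣ, R w • D.f (emb m n w) + ∑ w : (ZMod n)ˣ, E w • D.f (emb m n w) := by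
    rw [← Finset.sum_add_distrib]
    exact Finset.sum_congr rfl fun w _ => by rw [← add_smul, ← hNE]
  rw [h4, even_sum D hn h3 E hE, add_zero]
  exact dec_mem D hn hu ls hp2 L₀ hLo R hR

/-- a regular element and its class -/
theorem box_class {Q : Finset ℕ} (x : ZMod m) (hreg : Reg x)
    (hx : (addOrderOf x).primeFactors = Q) :
    ∃ τ : Q → ℕ, ∃ N : (ZMod (nn m Q))ˣ → ℤ,
      D.f x = ∑ w : (ZMod (nn m Q))ˣ, N w • D.f (emb m (nn m Q) w) ∧
      ∀ w, N w ≠ 0 → ∀ i : Q, mu (hb i) (rr w) = τ i := by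
  have hQ : ∀ l ∈ Q, hb l ∣ qq m l := by
    intro l hl
    apply hb_dvd_of_reg x hreg l
    rw [hx]
    exact hl
  obtain ⟨B, hB, hf⟩ := f_box D x hreg hx
  choose d hd1 hd2 a ha using hB
  refine ⟨fun i => mu (hb i) (rr (a i)), fun w => Pool.Agent.SP.ind B (co m Q w), hf, ?_⟩
  intro w hw i
  have h1 : ∀ i, co m Q w i ∈ B i := by
    by_contra hcon
    exact hw (if_neg hcon)
  have h2 := h1 i
  rw [ha i] at h2
  have h3 : rr (co m Q w i) ≡ rr (a i) [MOD d i] := h2
  have h4 := h3.of_dvd (hd1 i)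
  have h5 := (rr_co w i).of_dvd (hQ i i.2)
  exact mu_congr (h5.symm.trans h4)

/-- a multiset of regular elements and the classes -/
theorem sum_class {Q : Finset ℕ} (T : Multiset (ZMod m))
    (hT : ∀ x ∈ T, Reg x ∧ (addOrderOf x).primeFactors = Q) :
    ∃ s : Multiset (Q → ℕ), s.card = T.card ∧ ∃ N : (ZMod (nn m Q))ˣ → ℤ,
      (T.map D.f).sum = ∑ w : (ZMod (nn m Q))ˣ, N w • D.f (emb m (nn m Q) w) ∧
      ∀ w, N w ≠ 0 → (fun i : Q => mu (hb i) (rr w)) ∈ s := by
  induction T using Multiset.induction_on with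
  | empty =>
    refine ⟨0, rfl, 0, ?_, fun w h => absurd rfl h⟩
    simp
  | cons x T ih =>
    obtain ⟨s, hs, N, hN, hNs⟩ := ih fun y hy => hT y (Multiset.mem_cons_of_mem hy)
    obtain ⟨τ, N', hN', hNs'⟩ := box_class D x (hT x (Multiset.mem_cons_self _ _)).1
      (hT x (Multiset.mem_cons_self _ _)).2
    refine ⟨τ ::ₘ s, by rw [Multiset.card_cons, Multiset.card_cons, hs], fun w => N' w + N w,
      ?_, ?_⟩
    · rw [Multiset.map_cons, Multiset.sum_cons, hN, hN', ← Finset.sum_add_distrib]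
      exact Finset.sum_congr rfl fun w _ => by rw [add_smul]
    · intro w hw
      by_cases h : N' w = 0
      · refine Multiset.mem_cons_of_mem (hNs w ?_)
        intro h2
        refine hw ?_
        change N' w + N w = 0
        rw [h, h2, add_zero]
      · have h2 : (fun i : Q => mu (hb i) (rr w)) = τ := by
          funext i
          exact hNs' w h i
        rw [h2]
        exact Multiset.mem_cons_self _ _

/-- elements of the group of a set of levels are sums of values -/
theorem lev_multiset {L : Set ℕ} (a : A) (ha : a ∈ D.lev L) :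
    ∃ S : Multiset (ZMod m), (∀ x ∈ S, addOrderOf x ∈ L) ∧ a = (S.map D.f).sum := by
  induction ha using AddSubgroup.closure_induction with
  | mem x hx =>
    obtain ⟨z, hz, rfl⟩ := hx
    refine ⟨{z}, fun x hx => ?_, by simp⟩
    rw [Multiset.mem_singleton] at hx
    rw [hx]
    exact hz
  | zero => exact ⟨0, by simp, by simp⟩
  | add x y _ _ hx hy =>
    obtain ⟨S, hS, rfl⟩ := hx
    obtain ⟨T, hT, rfl⟩ := hy
    refine ⟨S + T, fun x hx => ?_, by rw [Multiset.map_add, Multiset.sum_add]⟩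
    rcases Multiset.mem_add.1 hx with h | h
    · exact hS x h
    · exact hT x h
  | neg x _ hx =>
    obtain ⟨S, hS, rfl⟩ := hx
    refine ⟨S.map fun x => -x, fun x hx => ?_, ?_⟩
    · obtain ⟨y, hy, rfl⟩ := Multiset.mem_map.1 hx
      rw [addOrderOf_neg]
      exact hS y hy
    · rw [Multiset.map_map]
      have h1 : S.map (D.f ∘ fun x => -x) = S.map fun x => - D.f x :=
        Multiset.map_congr rfl fun x _ => by rw [Function.comp_apply, D.odd]
      rw [h1, Multiset.sum_map_neg]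

/-- the supports of the levels -/
theorem nR_support {R : Finset ℕ} (hR : ∀ l ∈ R, l.Prime ∧ hb l ∣ qq m l) {x : ZMod m}
    (hx : addOrderOf x = nR m R) : Reg x ∧ (addOrderOf x).primeFactors = R := by
  have hRp : ∀ l ∈ R, l.Prime := fun l hl => (hR l hl).1
  refine ⟨?_, ?_⟩
  · by_cases h2 : 2 ∈ R
    · right
      rw [hx]
      exact ((hR 2 h2).2).trans (qq_dvd_nR h2)
    · left
      rw [hx]
      exact fun h => h2 (mem_of_dvd_nR hRp Nat.prime_two h)
  · ext l
    rw [hx, Nat.mem_primeFactors]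
    constructor
    · rintro ⟨h1, h2, _⟩
      exact mem_of_dvd_nR hRp h1 h2
    · intro hl
      refine ⟨hRp l hl, ?_, nR_ne hRp⟩
      refine dvd_trans ?_ (qq_dvd_nR hl)
      refine dvd_trans ?_ (hR l hl).2
      unfold hb
      split_ifs with h
      · rw [h]; norm_num
      · exact dvd_rfl

private theorem hb_dvd_compl {n l l' : ℕ} (hl : l.Prime) (hl' : l'.Prime) (hne : l' ≠ l)
    (h : hb l ∣ n) : hb l ∣ ordCompl[l'] n := by
  have h3 : (hb l).Coprime (ordProj[l'] n) := by
    refine Nat.Coprime.pow_right _ ?_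
    unfold hb
    split_ifs with h
    · subst h
      exact Nat.Coprime.pow_left 2 ((Nat.coprime_primes hl hl').2 (Ne.symm hne))
    · exact (Nat.coprime_primes hl hl').2 (Ne.symm hne)
  refine h3.dvd_of_dvd_mul_left ?_
  rw [Nat.ordProj_mul_ordCompl_eq_self]
  exact h

private theorem hb_dvd_proj {n l : ℕ} [NeZero n] (hl : l.Prime) (h : hb l ∣ n) :
    hb l ∣ ordProj[l] n := by
  have h1 : (hb l).Coprime (ordCompl[l] n) := by
    unfold hb
    split_ifs with h2
    · have h3 := (Nat.coprime_ordCompl hl (NeZero.ne n)).pow_left 2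
      rw [h2] at h3 ⊢
      exact h3
    · exact Nat.coprime_ordCompl hl (NeZero.ne n)
  refine h1.dvd_of_dvd_mul_right ?_
  rw [Nat.ordProj_mul_ordCompl_eq_self]
  exact h

/-- changing signs at a prime does not change the class -/
theorem mu_flip {n : ℕ} [NeZero n] {κ : ℕ → (ZMod n)ˣ →* (ZMod n)ˣ} {ls : List ℕ}
    (hκ : IsProj n κ ls) {l i : ℕ} (hl : l ∈ ls) (hlp : l.Prime) (hip : i.Prime)
    (hi : hb i ∣ n) (g : (ZMod n)ˣ) :
    mu (hb i) (rr (κ l (-1) * g)) = mu (hb i) (rr g) := by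
  by_cases h : l = i
  · subst h
    have h1 : rr (κ l (-1) * g) ≡ rr (-1 * g) [MOD hb l] := by
      refine ((rr_mul (κ l (-1)) g).of_dvd hi).trans ?_
      refine Nat.ModEq.trans ?_ ((rr_mul (-1) g).of_dvd hi).symm
      exact (((hκ l hl (-1)).2).of_dvd (hb_dvd_proj hlp hi)).mul_right _
    rw [mu_congr h1]
    refine mu_neg ?_ ?_
    · intro h2
      have h3 := (rr_coprime g).coprime_dvd_right hi
      have h4 := Nat.eq_one_of_dvd_coprimes h3 h2 dvd_rfl
      have h5 := hlp.two_le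
      unfold hb at h4
      split_ifs at h4 <;> omega
    · rw [add_comm]
      exact (rr_neg g).of_dvd hi
  · exact mu_congr (Kl_mul_mod (hκ l hl (-1)).1 (hb_dvd_compl hip hlp h hi) g)

theorem oss_zero {G : Type*} [CommGroup G] (P : G → Prop) (F : G → ℤ) (hF : ∀ g, P g → F g = 0)
    (σs : List G) (hσ : ∀ σ ∈ σs, ∀ g, P g → P (σ * g)) (g : G) (hg : P g) :
    oss σs F g = 0 := by
  induction σs generalizing g with
  | nil => exact hF g hg
  | cons σ σs ih =>
    have e : oss (σ :: σs) F g = oss σs F g + oss σs F (σ * g) := rfl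
    rw [e, ih (fun τ hτ => hσ τ (List.mem_cons_of_mem _ hτ)) g hg,
      ih (fun τ hτ => hσ τ (List.mem_cons_of_mem _ hτ)) (σ * g) (hσ σ List.mem_cons_self g hg),
      add_zero]

theorem stepMin {Q : Finset ℕ} (hp : ∀ l ∈ Q, l.Prime) (T : Multiset (ZMod m))
    (hT : ∀ x ∈ T, Reg x ∧ (addOrderOf x).primeFactors = Q) (L : Set ℕ)
    (hL : ∀ n' ∈ L, ∃ l ∈ Q, ¬ l ∣ n') (b : A) (hb' : b ∈ D.lev L)
    (hW : ∀ t, D.W t ((T.map D.f).sum + b) = 0)
    (hc : Odd Q.card ∨ T.card < ∏ l ∈ Q, hh l) :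
    ∃ T' : Multiset (ZMod m),
      (∀ x ∈ T', Reg x ∧ ∃ l ∈ Q, (addOrderOf x).primeFactors = Q.erase l) ∧
      (T.map D.f).sum = (T'.map D.f).sum := by
  classical
  by_cases hT0 : T = 0
  · subst hT0
    exact ⟨0, by simp, by simp⟩
  rcases Q.eq_empty_or_nonempty with hQe | hne
  · refine ⟨0, by simp, ?_⟩
    rw [Multiset.map_zero, Multiset.sum_zero]
    apply Multiset.sum_eq_zero
    intro a ha
    rw [Multiset.mem_map] at ha
    obtain ⟨x, hx, rfl⟩ := ha
    have h1 := (hT x hx).2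
    rw [hQe, Nat.primeFactors_eq_empty] at h1
    have h2 : 0 < addOrderOf x := addOrderOf_pos x
    have h3 : addOrderOf x = 1 := by omega
    rw [AddMonoid.addOrderOf_eq_one_iff] at h3
    rw [h3, D.zero]
  obtain ⟨x0, hx0⟩ := Multiset.exists_mem_of_ne_zero hT0
  have hQ : ∀ l ∈ Q, hb l ∣ qq m l := by
    intro l hl
    apply hb_dvd_of_reg x0 (hT x0 hx0).1 l
    rw [(hT x0 hx0).2]
    exact hl
  obtain ⟨s, hs, N, hN, hNs⟩ := sum_class D T hT
  have hnm : nn m Q ∣ m := nR_dvd hp
  have hu : (nn m Q).Coprime (m / nn m Q) := nR_unitary hp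
  have hpL : ∀ l ∈ Q.toList, l.Prime ∧ hb l ∣ nn m Q := by
    intro l hl
    rw [mem_toList] at hl
    exact ⟨hp l hl, (hQ l hl).trans (qq_dvd_nR hl)⟩
  have hall : ∀ l : ℕ, l.Prime → l ∣ nn m Q → l ∈ Q.toList := by
    intro l hl h
    rw [mem_toList]
    exact mem_of_dvd_nR hp hl h
  set L₀ : Set ℕ := {n' | ∃ l ∈ Q, n' = nR m (Q.erase l)} with hL₀
  have hLo : ∀ l ∈ Q.toList, ordCompl[l] (nn m Q) ∈ L₀ := by
    intro l hl
    rw [mem_toList] at hl
    exact ⟨l, hl, ordCompl_nR hp hl⟩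
  have hL' : ∀ n' ∈ L, ∃ l ∈ Q.toList, ¬ l ∣ n' := by
    intro n' hn'
    obtain ⟨l, hl, h⟩ := hL n' hn'
    exact ⟨l, mem_toList.2 hl, h⟩
  have hnl : Q.toList ≠ [] := by
    rw [ne_eq, toList_eq_nil]
    exact hne.ne_empty
  have hW' : ∀ t : (ZMod m)ˣ, D.W t (∑ w : (ZMod (nn m Q))ˣ, N w • D.f (emb m (nn m Q) w) + b) =
      0 := fun t => by rw [← hN]; exact hW t
  have hmem : ∑ w : (ZMod (nn m Q))ˣ, N w • D.f (emb m (nn m Q) w) ∈ D.lev L₀ := by
    rcases Nat.even_or_odd Q.card with hev | hodd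
    · have hc' : T.card < ∏ l ∈ Q, hh l := by
        rcases hc with h | h
        · exact absurd h (Nat.not_odd_iff_even.2 hev)
        · exact h
      obtain ⟨κ, hκ⟩ := exists_proj (nn m Q) Q.toList fun l hl => (hpL l hl).1
      -- a free class
      obtain ⟨c, hc1, hc2⟩ : ∃ c ∈ Fintype.piFinset fun i : Q => Icc 1 (hh i), c ∉ s.toFinset := by
        refine Finset.exists_mem_notMem_of_card_lt_card ?_
        rw [Fintype.card_piFinset]
        refine (Multiset.toFinset_card_le s).trans_lt ?_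
        rw [hs]
        refine hc'.trans_eq ?_
        rw [← Finset.prod_attach Q]
        refine Finset.prod_congr rfl fun i _ => ?_
        rw [Nat.card_Icc]
        omega
      rw [Fintype.mem_piFinset] at hc1
      rw [Multiset.mem_toFinset] at hc2
      -- a unit with this class
      have hunit : ∀ i : Q, ∃ u : KK m Q i, rr u ≡ c i [MOD hb i] := by
        intro i
        obtain ⟨h1, -⟩ := mu_self (hp i i.2) (hc1 i)
        have hne0 : NeZero (hb (i : ℕ)) := ⟨by
          have := (hp i i.2).two_le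
          unfold hb
          split_ifs <;> omega⟩
        obtain ⟨u, hu⟩ := ZMod.unitsMap_surjective (hQ i i.2) (ZMod.unitOfCoprime (c i) h1)
        refine ⟨u, ?_⟩
        have h2 := congrArg (fun v : (ZMod (hb (i : ℕ)))ˣ => (v : ZMod (hb (i : ℕ)))) hu
        rw [← ZMod.natCast_eq_natCast_iff]
        have h3 : ((ZMod.unitsMap (hQ i i.2) u : (ZMod (hb (i : ℕ)))ˣ) : ZMod (hb (i : ℕ))) =
            ((rr u : ℕ) : ZMod (hb (i : ℕ))) := by
          change (ZMod.castHom (hQ i i.2) (ZMod (hb (i : ℕ)))) (u : ZMod (qq m i)) = _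
          rw [ZMod.castHom_apply]
          unfold rr
          rw [ZMod.natCast_val]
        rw [← h3]
        refine h2.trans ?_
        rw [ZMod.coe_unitOfCoprime]
      choose u hu' using hunit
      obtain ⟨g, hg⟩ := (co_bij (m := m) hp).2 u
      have hgc : ∀ i : Q, mu (hb i) (rr g) = c i := by
        intro i
        have h1 := (rr_co g i).of_dvd (hQ i i.2)
        rw [hg] at h1
        rw [mu_congr (h1.symm.trans (hu' i))]
        exact (mu_self (hp i i.2) (hc1 i)).2
      have hpar : ∃ g, Even (oss (Q.toList.map fun l => κ l (-1)) N g) := by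
        refine ⟨g, ?_⟩
        rw [oss_zero (fun w => ∀ i : Q, mu (hb i) (rr w) = c i) N ?_ _ ?_ g hgc]
        · exact Even.zero
        · intro w hw
          by_contra hcon
          have h1 := hNs w hcon
          have h2 : (fun i : Q => mu (hb i) (rr w)) = c := funext hw
          rw [h2] at h1
          exact hc2 h1
        · intro σ hσ w hw i
          obtain ⟨l, hl, rfl⟩ := List.mem_map.1 hσ
          rw [mu_flip hκ hl (hpL l hl).1 (hp i i.2) ((hQ i i.2).trans (qq_dvd_nR i.2))]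
          exact hw i
      exact T4x D hnm hu Q.toList (nodup_toList Q) (by rw [length_toList]; exact hev) hnl hpL
        hall L L₀ hL' hLo κ hκ N b hb' hW' hpar
    · exact T_oddx D hnm hu Q.toList (nodup_toList Q) (by rw [length_toList]; exact hodd) hpL
        hall L L₀ hL' hLo N b hb' hW'
  obtain ⟨T', hT', hsum⟩ := lev_multiset D _ hmem
  refine ⟨T', ?_, by rw [hN, hsum]⟩
  intro x hx
  obtain ⟨l, hl, hlx⟩ := hT' x hx
  obtain ⟨h1, h2⟩ := nR_support (R := Q.erase l) (fun l' hl' =>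
    ⟨hp l' (mem_of_mem_erase hl'), hQ l' (mem_of_mem_erase hl')⟩) hlx
  exact ⟨h1, l, hl, h2⟩

end

end Pool.Agent.FQ
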