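import Pool.Agent.FQ.Fam

/-!
# FQ-Allow: elements of allowed orders
-/

set_option autoImplicit false

namespace Pool.Agent.FQ

open Finset Pool.Agent.FS
open Pool.Agent.FF
open Pool.Agent.Helper9.Fermat (fib mem_fib)

/-- `e` or `e / 2` is a number whose set of prime factors is allowed -/
def GoodA (Al : Finset ℕ → Prop) (e : ℕ) : Prop :=
  ∃ e' : ℕ, (e = e' ∨ e = 2 * e') ∧ Al e'.primeFactors

open Classical in
/-- the allowed sets of primes with local part at least three -/
noncomputable def famA (Al : Finset ℕ → Prop) (m : ℕ) : Finset (Finset ℕ) :=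
  (prs m).powerset.filter Al

theorem mem_famA {Al : Finset ℕ → Prop} {m : ℕ} {T : Finset ℕ} :
    T ∈ famA Al m ↔ T ⊆ prs m ∧ Al T := by
  classical
  rw [famA, mem_filter, mem_powerset]

section

variable {m : ℕ} [NeZero m] {A : Type} [AddCommGroup A] (D : Datum m A)
  {Al : Finset ℕ → Prop} (hAl : ∀ T, Al T → ∀ T' ⊆ T, Al T')

include hAl

/-- elements of odd order or of order divisible by four -/
theorem f_mem_of_orderA (y : ZMod m) (h2 : ¬ 2 ∣ addOrderOf y ∨ 4 ∣ addOrderOf y)
    (hA : Al (addOrderOf y).primeFactors) : D.f y ∈ D.lev (levF m (famA Al m)) := by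
  have hm0 : m ≠ 0 := NeZero.ne m
  by_cases hy : y = 0
  · rw [hy, D.zero]
    exact zero_mem _
  have hem : addOrderOf y ∣ m := by
    have := addOrderOf_dvd_card (x := y)
    rwa [ZMod.card] at this
  have h := f_mem_lev D y hy
  refine lev_mono D ?_ h
  rw [Set.singleton_subset_iff]
  refine ⟨(addOrderOf y).primeFactors, mem_famA.2 ⟨?_, hA⟩, rfl⟩
  intro l hl
  have hlp := Nat.prime_of_mem_primeFactors hl
  have hld := Nat.dvd_of_mem_primeFactors hl
  refine mem_prs hlp (Pool.Agent.FS.qq_ge hlp ?_)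
  unfold hb
  split_ifs with hl2
  · rcases h2 with h2 | h2
    · exact absurd (hl2 ▸ hld) h2
    · exact h2.trans hem
  · exact hld.trans hem

theorem f_mem_of_mulA (e : ℕ) (he : ¬ 2 ∣ e) (hA : Al e.primeFactors) (y : ZMod m)
    (hy : (e : ZMod m) * y = 0) : D.f y ∈ D.lev (levF m (famA Al m)) := by
  have he0 : e ≠ 0 := by rintro rfl; exact he (dvd_zero 2)
  have h1 : addOrderOf y ∣ e := by
    rw [addOrderOf_dvd_iff_nsmul_eq_zero, nsmul_eq_mul]
    exact hy
  refine f_mem_of_orderA D hAl y (Or.inl fun h => he (h.trans h1)) (hAl _ hA _ ?_)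
  exact Nat.primeFactors_mono h1 he0

theorem f_goodA (hm : 2 ∣ m) (x : ZMod m) (hx : GoodA Al (addOrderOf x)) :
    D.f x ∈ D.lev (levF m (famA Al m)) := by
  have hm0 : m ≠ 0 := NeZero.ne m
  have hpos : 0 < addOrderOf x := addOrderOf_pos x
  obtain ⟨e', he', hA⟩ := hx
  have hsub : ∀ e₁ : ℕ, ¬ 2 ∣ e₁ → e₁ ∣ addOrderOf x → e₁.primeFactors ⊆ e'.primeFactors := by
    intro e₁ h2 hd l hl
    have hlp := Nat.prime_of_mem_primeFactors hl
    have hld := Nat.dvd_of_mem_primeFactors hl
    have hl2 : l ≠ 2 := by rintro rfl; exact h2 hld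
    rcases he' with he' | he'
    · rw [he'] at hd hpos
      exact Nat.mem_primeFactors.2 ⟨hlp, hld.trans hd, hpos.ne'⟩
    · rw [he'] at hd hpos
      have h3 : l ∣ e' := by
        rcases hlp.dvd_mul.1 (hld.trans hd) with h | h
        · exact absurd ((Nat.prime_dvd_prime_iff_eq hlp Nat.prime_two).1 h) hl2
        · exact h
      exact Nat.mem_primeFactors.2 ⟨hlp, h3, by rintro rfl; simp at hpos⟩
  by_cases h2 : 2 ∣ addOrderOf x
  · by_cases h4 : 4 ∣ addOrderOf x
    · refine f_mem_of_orderA D hAl x (Or.inr h4) (hAl _ hA _ ?_)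
      rcases he' with he' | he'
      · rw [he']
      · rw [he'] at h4 ⊢
        have h5 : 2 ∣ e' := by omega
        have he0 : e' ≠ 0 := by rintro rfl; rw [he'] at hpos; simp at hpos
        rw [Nat.primeFactors_mul (by norm_num) he0, Nat.prime_two.primeFactors]
        refine union_subset ?_ subset_rfl
        rw [singleton_subset_iff]
        exact Nat.mem_primeFactors.2 ⟨Nat.prime_two, h5, he0⟩
    · -- order `2 e₁` with `e₁` odd
      obtain ⟨e₁, he₁⟩ := h2
      have hodd : ¬ 2 ∣ e₁ := fun h => h4 (by rw [he₁]; obtain ⟨c, rfl⟩ := h; exact ⟨c, by ring⟩)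
      have hA1 : Al e₁.primeFactors :=
        hAl _ hA _ (hsub e₁ hodd (he₁ ▸ Dvd.intro_left 2 rfl))
      set h := ((m / 2 : ℕ) : ZMod m) with hh
      have hh2 : h + h = 0 := by
        have := Pool.Agent.Helper9.Fermat.half_neg (m := m) hm
        rw [neg_eq_iff_add_eq_zero] at this
        exact this
      -- `e₁ x = m / 2`
      have h1 : (e₁ : ZMod m) * x = h := by
        have h3 : ((2 : ℕ) : ZMod m) * ((e₁ : ZMod m) * x) = 0 := by
          rw [← mul_assoc, ← Nat.cast_mul, ← he₁, ← nsmul_eq_mul]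
          exact addOrderOf_nsmul_eq_zero x
        have h4' : (e₁ : ZMod m) * x ≠ 0 := by
          intro h5
          rw [← nsmul_eq_mul, ← addOrderOf_dvd_iff_nsmul_eq_zero, he₁] at h5
          have he1 : 0 < e₁ := Nat.pos_of_ne_zero (by rintro rfl; exact hodd (dvd_zero 2))
          have := Nat.le_of_dvd he1 h5
          omega
        have h6 : (e₁ : ZMod m) * x ∈ Pool.Agent.Helper9.Fermat.fib m 2 (((2 : ℕ) : ZMod m) * 0) := by
          rw [Pool.Agent.Helper9.Fermat.mem_fib, h3, mul_zero]
        have h7 : Pool.Agent.Helper9.Fermat.fib m 2 (((2 : ℕ) : ZMod m) * 0) = {0, h} := by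
          symm
          refine Finset.eq_of_subset_of_card_le ?_ ?_
          · intro z hz
            rw [mem_insert, mem_singleton] at hz
            rw [Pool.Agent.Helper9.Fermat.mem_fib]
            rcases hz with rfl | rfl
            · rfl
            · push_cast
              linear_combination hh2
          · rw [Pool.Agent.Helper9.Fermat.fib_card (by norm_num) hm,
              card_pair (Pool.Agent.Helper9.Fermat.half_ne hm).symm]
        rw [h7, mem_insert, mem_singleton] at h6
        exact h6.resolve_left h4'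
      obtain ⟨c, hc⟩ : ∃ c, e₁ = 2 * c + 1 := ⟨e₁ / 2, by omega⟩
      have h5 : (e₁ : ZMod m) * (x + h) = 0 := by
        have h6 : (e₁ : ZMod m) * h = h := by
          rw [hc]
          push_cast
          linear_combination (c : ZMod m) * hh2
        rw [mul_add, h1, h6, hh2]
      have hx' : x = (x + h) + h := by rw [add_assoc, hh2, add_zero]
      rw [hx', f_half D hm (x + h)]
      refine sub_mem (f_mem_of_mulA D hAl e₁ hodd hA1 _ ?_) (f_mem_of_mulA D hAl e₁ hodd hA1 _ h5)
      linear_combination 2 * h5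
  · refine f_mem_of_orderA D hAl x (Or.inl h2) (hAl _ hA _ (hsub _ h2 dvd_rfl))

/-- Elements of the subgroup generated by the values at elements of allowed order with zero weights
are zero, if there are killers. -/
theorem zero_of_allowed (hm : 2 ∣ m)
    (hkill : ∀ R, R ⊆ prs m → Al R → R.Nonempty → Even R.card →
      Killer D R (lowF m (famA Al m) R)) (a : A)
    (ha : a ∈ AddSubgroup.closure {a | ∃ x : ZMod m, GoodA Al (addOrderOf x) ∧ a = D.f x})
    (hW : ∀ t, D.W t a = 0) : a = 0 := by
  refine zero_of_family D (famA Al m) ?_ ?_ ?_ _ (famA Al m) (Subset.refl _) rfl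
    (fun R hR h => absurd hR h) a ?_ hW
  · intro R hR l hl
    have h1 := (mem_famA.1 hR).1 hl
    rw [prs, mem_filter] at h1
    exact ⟨Nat.prime_of_mem_primeFactors h1.1, h1.2⟩
  · intro R hR R' hR'
    rw [mem_famA] at hR ⊢
    exact ⟨hR'.trans hR.1, hAl _ hR.2 _ hR'⟩
  · intro R hR hne hev
    rw [mem_famA] at hR
    exact hkill R hR.1 hR.2 hne hev
  · refine (AddSubgroup.closure_le _).2 ?_ ha
    rintro b ⟨x, hx, rfl⟩
    exact f_goodA D hAl hm x hx

end

end Pool.Agent.FQ
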