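import Pool.Agent.FQ.Defs

/-!
# FQ-Calc: the rules for the brackets `Bk D R φ`

Plan. All statements are elementary.
* `bk_congr`: `rr w` is prime to `nR m R`, so to every `l ∈ R` (`l ∣ qq m l` since `hb l ∣ m`).
* `bk_neg`: reindex by `w ↦ -1 * w` (`Equiv.sum_comp (Equiv.mulLeft (-1))`), `D.odd` and
  `Pool.Agent.FS.emb_neg` (`emb m n (-w) = - emb m n w`), `rr_neg : rr (-1 * g) + rr g ≡ 0 [MOD n]`
  and `hb l ∣ nR m R` (`Pool.Agent.FS.hb_dvd_qq`).
* `bk_even`: `Pool.Agent.FS.even_sum` (`3 ≤ hb l ≤ nR m R` for an `l ∈ R`).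
* `bk_mem`: every `emb m n w` has order `n` (`Pool.Agent.FS.exists_emb`), `f_mem`.
* `w_bk_...`: nothing else.
-/

set_option autoImplicit false

namespace Pool.Agent.FQ

open Finset Pool.Agent.FS

variable {m : ℕ} [NeZero m] {A : Type} [AddCommGroup A] (D : Datum m A)

private theorem calc_hb {R : Finset ℕ} (hR : OKR m R) {l : ℕ} (hl : l ∈ R) : hb l ∣ nR m R :=
  (hb_dvd_qq (hR l hl).1 (hR l hl).2).trans (qq_dvd_nR hl)

private theorem calc_l_hb (l : ℕ) : l ∣ hb l := by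
  unfold hb
  split_ifs with h
  · rw [h]; norm_num
  · exact dvd_rfl

private theorem calc_cop {R : Finset ℕ} (hR : OKR m R) (w : (ZMod (nR m R))ˣ) :
    ∀ l ∈ R, (rr w).Coprime l := fun l hl =>
  (rr_coprime w).coprime_dvd_right ((calc_l_hb l).trans (calc_hb hR hl))

theorem bk_congr {R : Finset ℕ} (hR : OKR m R) {φ ψ : ℕ → ℤ}
    (h : ∀ a : ℕ, (∀ l ∈ R, a.Coprime l) → φ a = ψ a) : Bk D R φ = Bk D R ψ := by
  unfold Bk
  refine Finset.sum_congr rfl fun w _ => ?_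
  rw [h (rr w) (calc_cop hR w)]

theorem bk_add (R : Finset ℕ) (φ ψ : ℕ → ℤ) :
    Bk D R (fun a => φ a + ψ a) = Bk D R φ + Bk D R ψ := by
  unfold Bk
  rw [← Finset.sum_add_distrib]
  refine Finset.sum_congr rfl fun w _ => ?_
  rw [add_smul]

theorem bk_sub (R : Finset ℕ) (φ ψ : ℕ → ℤ) :
    Bk D R (fun a => φ a - ψ a) = Bk D R φ - Bk D R ψ := by
  unfold Bk
  rw [← Finset.sum_sub_distrib]
  refine Finset.sum_congr rfl fun w _ => ?_
  rw [sub_smul]

theorem bk_smul (R : Finset ℕ) (k : ℤ) (φ : ℕ → ℤ) :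
    Bk D R (fun a => k * φ a) = k • Bk D R φ := by
  unfold Bk
  rw [Finset.smul_sum]
  refine Finset.sum_congr rfl fun w _ => ?_
  rw [mul_smul]

theorem bk_neg {R : Finset ℕ} (hR : OKR m R) {φ ψ : ℕ → ℤ}
    (h : ∀ a b : ℕ, (∀ l ∈ R, a.Coprime l) → (∀ l ∈ R, a + b ≡ 0 [MOD hb l]) → φ b = ψ a) :
    Bk D R φ = - Bk D R ψ := by
  have hn : nR m R ∣ m := nR_dvd fun l hl => (hR l hl).1
  unfold Bk
  rw [← Finset.sum_neg_distrib,
    ← Equiv.sum_comp (Equiv.mulLeft (-1 : (ZMod (nR m R))ˣ))]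
  refine Finset.sum_congr rfl fun w _ => ?_
  rw [Equiv.coe_mulLeft]
  have h1 : φ (rr (-1 * w)) = ψ (rr w) := by
    refine h (rr w) (rr (-1 * w)) (calc_cop hR w) fun l hl => ?_
    rw [add_comm]
    exact (rr_neg w).of_dvd (calc_hb hR hl)
  rw [h1, emb_neg hn, D.odd, smul_neg]

theorem bk_even {R : Finset ℕ} (hR : OKR m R) (hne : R.Nonempty) {φ : ℕ → ℤ}
    (h : ∀ a b : ℕ, (∀ l ∈ R, a.Coprime l) → (∀ l ∈ R, a + b ≡ 0 [MOD hb l]) → φ b = φ a) :
    Bk D R φ = 0 := by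
  have hn : nR m R ∣ m := nR_dvd fun l hl => (hR l hl).1
  obtain ⟨l, hl⟩ := hne
  have h3 : 3 ≤ nR m R := by
    have h4 : 3 ≤ hb l := hb_pos (hR l hl).1
    exact h4.trans (Nat.le_of_dvd (Nat.pos_of_ne_zero (nR_ne fun l hl => (hR l hl).1))
      (calc_hb hR hl))
  unfold Bk
  refine even_sum D hn h3 (fun w => φ (rr w)) fun w => ?_
  refine h (rr w) (rr (-1 * w)) (calc_cop hR w) fun l hl => ?_
  rw [add_comm]
  exact (rr_neg w).of_dvd (calc_hb hR hl)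

theorem bk_mem {R : Finset ℕ} (hR : OKR m R) (φ : ℕ → ℤ) (L : Set ℕ) (hL : nR m R ∈ L) :
    Bk D R φ ∈ D.lev L := by
  have hn : nR m R ∣ m := nR_dvd fun l hl => (hR l hl).1
  unfold Bk
  refine AddSubgroup.sum_mem _ fun w _ => AddSubgroup.zsmul_mem _ ?_ _
  refine f_mem D ?_
  rw [(exists_emb hn (emb m (nR m R) (w : ZMod (nR m R)))).2 ⟨w, rfl⟩]
  exact hL

/-- the level one -/
theorem bk_empty (φ : ℕ → ℤ) : Bk D ∅ φ = 0 := by
  unfold Bk
  refine Finset.sum_eq_zero fun w _ => ?_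
  have h1 : emb m (nR m ∅) (w : ZMod (nR m ∅)) = 0 := by
    have h2 : ((w : ZMod (nR m ∅)) : ZMod (nR m ∅)) = 0 := by
      have h3 : nR m ∅ = 1 := by
        unfold nR
        exact Finset.prod_empty
      have : Subsingleton (ZMod (nR m ∅)) := by
        rw [h3]
        infer_instance
      exact Subsingleton.elim _ _
    unfold emb
    rw [h2, ZMod.val_zero, mul_zero, Nat.cast_zero]
  rw [h1, D.zero, smul_zero]

end Pool.Agent.FQ
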