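import Pool.Agent.FQ.StepMin
import Pool.Agent.SP.ChainS

/-!
# FQ-ChainM: the chain over all supports, with the parity argument for minimal sets

A set of primes which is not allowed and all of whose proper subsets are allowed is treated by
`stepMin`, the other sets which are not allowed by `Pool.Agent.SP.stepQ`.
-/

set_option autoImplicit false

namespace Pool.Agent.FQ

open Finset Pool.Agent.FS
open Pool.Agent.SP (Reg hh cntT stepQ ChainS_add ChainS_le ChainS_eq ChainS_zero ChainS_sub)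

/-- the condition for a set of primes which is not allowed -/
def CondT {m : ℕ} (𝒢 : Finset ℕ → Prop) (S : Multiset (ZMod m)) (T : Finset ℕ) : Prop :=
  ((∀ l ∈ T, 𝒢 (T.erase l)) ∧ (Odd T.card ∨ cntT S T < ∏ l ∈ T, hh l)) ∨
    ∀ p ∈ T, ∀ q ∈ T, p < q → cntT S T < hh p * hh q ∨
      (p = 5 ∧ q = 7 ∧ cntT S T < 10 ∧ ∃ r ∈ T, 3 < hh r)

theorem CondT.mono {m : ℕ} {𝒢 : Finset ℕ → Prop} {S S' : Multiset (ZMod m)} {T : Finset ℕ}
    (h : CondT 𝒢 S T) (hc : cntT S' T ≤ cntT S T) : CondT 𝒢 S' T := by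
  rcases h with ⟨h1, h2⟩ | h
  · left
    refine ⟨h1, ?_⟩
    rcases h2 with h2 | h2
    · exact Or.inl h2
    · exact Or.inr (hc.trans_lt h2)
  · right
    intro p hp q hq hpq
    rcases h p hp q hq hpq with h | ⟨h3, h4, h5, h6⟩
    · exact Or.inl (hc.trans_lt h)
    · exact Or.inr ⟨h3, h4, hc.trans_lt h5, h6⟩

open Classical in
theorem ChainM_ind {m : ℕ} [NeZero m] {A : Type} [AddCommGroup A] (D : Datum m A)
    (𝒢 : Finset ℕ → Prop) (h𝒢 : ∀ T, 𝒢 T → ∀ l ∈ T, 𝒢 (T.erase l)) (k : ℕ) :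
    ∀ F : Finset (Finset ℕ), F.card = k → (∀ T ∈ F, ¬ 𝒢 T ∧ ∀ l ∈ T, l.Prime) →
      (∀ T ∈ F, ∀ l ∈ T, ¬ 𝒢 (T.erase l) → T.erase l ∈ F) →
      ∀ S : Multiset (ZMod m), (∀ x ∈ S, Reg x) →
      (∀ T : Finset ℕ, (∀ l ∈ T, l.Prime) → ¬ 𝒢 T → CondT 𝒢 S T) →
      (∀ t, D.W t (S.map D.f).sum = 0) →
      (∀ x ∈ S, 𝒢 (addOrderOf x).primeFactors ∨ (addOrderOf x).primeFactors ∈ F) →
      ∃ S₁ : Multiset (ZMod m), (∀ x ∈ S₁, Reg x ∧ 𝒢 (addOrderOf x).primeFactors) ∧
        (S.map D.f).sum = (S₁.map D.f).sum := by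
  induction k with
  | zero =>
    intro F hk _ _ S hreg _ _ hF
    refine ⟨S, fun x hx => ⟨hreg x hx, ?_⟩, rfl⟩
    rcases hF x hx with h | h
    · exact h
    · rw [Finset.card_eq_zero.1 hk] at h
      exact absurd h (Finset.notMem_empty _)
  | succ k ih =>
    intro F hk hF1 hF2 S hreg hc hW hF
    obtain ⟨T, hTF, hTmax⟩ := Finset.exists_max_image F (fun T => T.card)
      (Finset.card_pos.1 (by omega))
    set ST : Multiset (ZMod m) := S.filter fun x => (addOrderOf x).primeFactors = T with hST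
    set S' : Multiset (ZMod m) := S.filter fun x => ¬ (addOrderOf x).primeFactors = T with hS'
    have hadd : ST + S' = S := Multiset.filter_add_not _ S
    have hmemT : ∀ x ∈ ST, x ∈ S ∧ (addOrderOf x).primeFactors = T := fun x hx =>
      Multiset.mem_filter.1 hx
    have hmem' : ∀ x ∈ S', x ∈ S ∧ ¬ (addOrderOf x).primeFactors = T := fun x hx =>
      Multiset.mem_filter.1 hx
    have hsum : (S.map D.f).sum = (ST.map D.f).sum + (S'.map D.f).sum := by
      rw [← hadd, Multiset.map_add, Multiset.sum_add]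
    have hcard : ST.card ≤ cntT S T := by
      rw [← hadd, ChainS_add, ChainS_eq ST T fun x hx => (hmemT x hx).2.ge]
      exact Nat.le_add_right _ _
    -- the levels of the remaining elements
    have hL : ∀ n' ∈ {n' : ℕ | ∃ x ∈ S', n' = addOrderOf x}, ∃ l ∈ T, ¬ l ∣ n' := by
      rintro n' ⟨x, hx, rfl⟩
      by_contra hcon
      push Not at hcon
      have hne : addOrderOf x ≠ 0 := (addOrderOf_pos x).ne'
      have hsub : T ⊆ (addOrderOf x).primeFactors := fun l hl =>
        Nat.mem_primeFactors.2 ⟨(hF1 T hTF).2 l hl, hcon l hl, hne⟩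
      rcases hF x (hmem' x hx).1 with h | h
      · exact (hF1 T hTF).1 (ChainS_sub 𝒢 h𝒢 _ _ T h hsub rfl)
      · exact (hmem' x hx).2 (Finset.eq_of_subset_of_card_le hsub (hTmax _ h)).symm
    have hb : (S'.map D.f).sum ∈ D.lev {n' : ℕ | ∃ x ∈ S', n' = addOrderOf x} := by
      refine AddSubgroup.multiset_sum_mem _ _ ?_
      intro a ha
      obtain ⟨x, hx, rfl⟩ := Multiset.mem_map.1 ha
      exact f_mem D ⟨x, hx, rfl⟩
    -- the elements of the support `T` are replaced
    obtain ⟨T', hT'm, hT's, hcnt⟩ : ∃ T' : Multiset (ZMod m),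
        (∀ x ∈ T', Reg x ∧ ∃ l ∈ T, (addOrderOf x).primeFactors = T.erase l) ∧
        (ST.map D.f).sum = (T'.map D.f).sum ∧
        ∀ T₁ : Finset ℕ, ¬ 𝒢 T₁ → cntT (S' + T') T₁ ≤ cntT S T₁ := by
      rcases hc T (hF1 T hTF).2 (hF1 T hTF).1 with ⟨hmin, hpar⟩ | hpair
      · obtain ⟨T', hT'm, hT's⟩ := stepMin D (Q := T) (hF1 T hTF).2 ST
          (fun x hx => ⟨hreg x (hmemT x hx).1, (hmemT x hx).2⟩) _ hL _ hb
          (fun t => by rw [← hsum]; exact hW t) (by
            rcases hpar with h | h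
            · exact Or.inl h
            · exact Or.inr (hcard.trans_lt h))
        refine ⟨T', hT'm, hT's, fun T₁ hT₁ => ?_⟩
        rw [← hadd, ChainS_add, ChainS_add, ChainS_zero T' T₁ fun x hx hcon => ?_]
        · omega
        · obtain ⟨_, l, hl, hle⟩ := hT'm x hx
          rw [hle] at hcon
          exact hT₁ (ChainS_sub 𝒢 h𝒢 _ _ T₁ (hmin l hl) hcon rfl)
      · obtain ⟨T', hT'c, hT'm, hT's⟩ := stepQ D (Q := T) (hF1 T hTF).2 ST
          (fun x hx => ⟨hreg x (hmemT x hx).1, (hmemT x hx).2⟩) _ hL _ hb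
          (fun t => by rw [← hsum]; exact hW t) (by
            intro p hp q hq hpq
            rcases hpair p hp q hq hpq with h | ⟨h1, h2, h3, h4⟩
            · exact Or.inl (hcard.trans_lt h)
            · exact Or.inr ⟨h1, h2, hcard.trans_lt h3, h4⟩)
        refine ⟨T', hT'm, hT's, fun T₁ _ => ?_⟩
        rw [← hadd, ChainS_add, ChainS_add, add_comm]
        refine Nat.add_le_add_right ?_ _
        by_cases hs : T₁ ⊆ T
        · rw [ChainS_eq ST T₁ fun x hx => by rw [(hmemT x hx).2]; exact hs]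
          exact (ChainS_le T' T₁).trans hT'c
        · rw [ChainS_zero T' T₁ fun x hx hcon => by
            obtain ⟨_, l, _, hl⟩ := hT'm x hx
            rw [hl] at hcon
            exact hs (hcon.trans (Finset.erase_subset _ _))]
          exact Nat.zero_le _
    have hsum2 : (S.map D.f).sum = ((S' + T').map D.f).sum := by
      rw [hsum, hT's, Multiset.map_add, Multiset.sum_add, add_comm]
    rw [hsum2]
    refine ih (F.erase T) (by rw [Finset.card_erase_of_mem hTF, hk, Nat.add_sub_cancel])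
      (fun T₁ hT₁ => hF1 T₁ (Finset.mem_of_mem_erase hT₁)) ?_ (S' + T') ?_ ?_ ?_ ?_
    · intro T₁ hT₁ l hl hn
      refine Finset.mem_erase.2 ⟨?_, hF2 T₁ (Finset.mem_of_mem_erase hT₁) l hl hn⟩
      intro he
      have h1 : T₁.card ≤ T.card := hTmax T₁ (Finset.mem_of_mem_erase hT₁)
      have h2 : (T₁.erase l).card < T₁.card := Finset.card_erase_lt_of_mem hl
      rw [he] at h2
      omega
    · intro x hx
      rcases Multiset.mem_add.1 hx with h | h
      · exact hreg x (hmem' x h).1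
      · exact (hT'm x h).1
    · intro T₁ h1 h2
      exact (hc T₁ h1 h2).mono (hcnt T₁ h2)
    · intro t
      rw [← hsum2]
      exact hW t
    · intro x hx
      rcases Multiset.mem_add.1 hx with h | h
      · rcases hF x (hmem' x h).1 with h' | h'
        · exact Or.inl h'
        · exact Or.inr (Finset.mem_erase.2 ⟨(hmem' x h).2, h'⟩)
      · obtain ⟨_, l, hlT, hl⟩ := hT'm x h
        rw [hl]
        by_cases hG : 𝒢 (T.erase l)
        · exact Or.inl hG
        · refine Or.inr (Finset.mem_erase.2 ⟨?_, hF2 T hTF l hlT hG⟩)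
          intro he
          have h2 : (T.erase l).card < T.card := Finset.card_erase_lt_of_mem hlT
          rw [he] at h2
          exact lt_irrefl _ h2

theorem chainM {m : ℕ} [NeZero m] {A : Type} [AddCommGroup A] (D : Datum m A)
    (𝒢 : Finset ℕ → Prop) (h𝒢 : ∀ T, 𝒢 T → ∀ l ∈ T, 𝒢 (T.erase l)) (S : Multiset (ZMod m))
    (hreg : ∀ x ∈ S, Reg x)
    (hc : ∀ T : Finset ℕ, (∀ l ∈ T, l.Prime) → ¬ 𝒢 T → CondT 𝒢 S T)
    (hW : ∀ t, D.W t (S.map D.f).sum = 0) :
    ∃ S₁ : Multiset (ZMod m), (∀ x ∈ S₁, Reg x ∧ 𝒢 (addOrderOf x).primeFactors) ∧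
      (S.map D.f).sum = (S₁.map D.f).sum := by
  classical
  refine ChainM_ind D 𝒢 h𝒢 _ (m.primeFactors.powerset.filter fun T => ¬ 𝒢 T) rfl ?_ ?_ S hreg hc
    hW ?_
  · intro T hT
    have h1 := Finset.mem_filter.1 hT
    exact ⟨h1.2, fun l hl => Nat.prime_of_mem_primeFactors (Finset.mem_powerset.1 h1.1 hl)⟩
  · intro T hT l _ hn
    have h1 := Finset.mem_filter.1 hT
    exact Finset.mem_filter.2 ⟨Finset.mem_powerset.2
      ((Finset.erase_subset _ _).trans (Finset.mem_powerset.1 h1.1)), hn⟩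
  · intro x _
    by_cases hG : 𝒢 (addOrderOf x).primeFactors
    · exact Or.inl hG
    · refine Or.inr (Finset.mem_filter.2 ⟨Finset.mem_powerset.2 ?_, hG⟩)
      have h1 : addOrderOf x ∣ m := by
        have := addOrderOf_dvd_card (x := x)
        rwa [ZMod.card] at this
      exact Nat.primeFactors_mono h1 (NeZero.ne m)

end Pool.Agent.FQ
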