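import Pool.Agent.FQ.KillQ
import Pool.Agent.FQ.RemQ
import Pool.Agent.FSU.Main
import Pool.Agent.SP.ArD

/-!
# The chain over all allowed sets of primes

Induction on `N = F.card`. `F = ∅`: `D.lev ∅ = ⊥`. Otherwise let `T ∈ F` have the largest cardinality (`exists_max_image`),
`L := {n | ∃ T' ∈ F.erase T, n = nn m T'}`; `{n | ∃ T' ∈ F, ..} ⊆ insert (nn m T) L` (`FS.lev_mono`). It suffices to show `a ∈ D.lev L`.
If `T = ∅`, then `F = {∅}` and `a = 0`. If `T.card` is odd: `remQ` with `exists_H`. If `T.card` is even,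
either `T = {p, q}`, `p < q`, `Kill P p q`: then `FS.remove2` with `Pool.Agent.FSU.Y_memX`, or all `l ∈ T` are in `R` and `2` or `3`
modulo `4`: then `remQ` with `H := Hsq T`, `Hsq_half` and `kill_sq`.
-/

set_option autoImplicit false

namespace Pool.Agent.FQ

open Finset
open Pool.Agent.FS
open Pool.Agent.SP (nn Reg)

variable {m : ℕ} [NeZero m] {A : Type} [AddCommGroup A] {P : Set (ℕ × ℕ)} {R : Set ℕ}

/-- all subsets of members are members -/
private theorem ChainQ_sub {F : Finset (Finset ℕ)} (her : ∀ T ∈ F, ∀ l ∈ T, T.erase l ∈ F) (k : ℕ) :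
    ∀ T J : Finset ℕ, T ∈ F → J ⊆ T → (T \ J).card = k → J ∈ F := by
  induction k with
  | zero =>
    intro T J hT hs hk
    have h1 : T ⊆ J := Finset.sdiff_eq_empty_iff_subset.1 (Finset.card_eq_zero.1 hk)
    rwa [Finset.Subset.antisymm hs h1]
  | succ k ih =>
    intro T J hT hs hk
    obtain ⟨l, hl⟩ : (T \ J).Nonempty := Finset.card_pos.1 (by omega)
    have hl' := Finset.mem_sdiff.1 hl
    refine ih (T.erase l) J (her T hT l hl'.1) ?_ ?_
    · intro a ha
      refine Finset.mem_erase.2 ⟨?_, hs ha⟩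
      rintro rfl
      exact hl'.2 ha
    · have h1 : T.erase l \ J = (T \ J).erase l := by
        ext a
        simp only [Finset.mem_sdiff, Finset.mem_erase]
        tauto
      rw [h1, Finset.card_erase_of_mem hl, hk, Nat.add_sub_cancel]

theorem chainQ (D : DatumQ P R m A) (hm : 2 ∣ m) (N : ℕ) : ∀ (F : Finset (Finset ℕ)), F.card = N →
    (∀ T ∈ F, ∀ l ∈ T, l ∈ prs m) → (∀ T ∈ F, Al P R T) → (∀ T ∈ F, ∀ l ∈ T, T.erase l ∈ F) →
    ∀ a : A, a ∈ D.lev {n | ∃ T ∈ F, n = nn m T} → (∀ t, D.W t a = 0) → a = 0 := by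
  induction N with
  | zero =>
    intro F hN _ _ _ a ha _
    rw [Finset.card_eq_zero] at hN
    subst hN
    have h1 : D.lev {n | ∃ T ∈ (∅ : Finset (Finset ℕ)), n = nn m T} ≤ ⊥ := by
      refine (AddSubgroup.closure_le _).2 ?_
      rintro b ⟨z, ⟨T, hT, _⟩, _⟩
      exact absurd hT (Finset.notMem_empty T)
    exact AddSubgroup.mem_bot.1 (h1 ha)
  | succ N ih =>
    intro F hN hpr hAl her a ha hW
    have hne : F.Nonempty := card_pos.1 (by omega)
    obtain ⟨T, hTF, hmax⟩ := exists_max_image F card hne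
    have hcard : (F.erase T).card = N := by rw [card_erase_of_mem hTF, hN]; rfl
    rcases T.eq_empty_or_nonempty with hT0 | hTne
    · have h1 : D.lev {n | ∃ T ∈ F, n = nn m T} ≤ ⊥ := by
        refine (AddSubgroup.closure_le _).2 ?_
        rintro b ⟨z, ⟨T', hT', hz⟩, rfl⟩
        have h2 := hmax T' hT'
        rw [hT0, card_empty, Nat.le_zero, card_eq_zero] at h2
        rw [h2, nn, prod_empty, AddMonoid.addOrderOf_eq_one_iff] at hz
        rw [hz, D.zero]
        exact AddSubgroup.zero_mem _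
      exact AddSubgroup.mem_bot.1 (h1 ha)
    refine ih (F.erase T) hcard (fun T' hT' => hpr T' (mem_of_mem_erase hT'))
      (fun T' hT' => hAl T' (mem_of_mem_erase hT')) ?_ a ?_ hW
    · intro T' hT' l hl
      rw [mem_erase] at hT' ⊢
      refine ⟨?_, her T' hT'.2 l hl⟩
      intro h
      have h1 := hmax T' hT'.2
      rw [← h, card_erase_of_mem hl] at h1
      have h2 : 0 < T'.card := card_pos.2 ⟨l, hl⟩
      omega
    · have h3 : ∀ T' ∈ F, ∀ l ∈ T', l.Prime ∧ 3 ≤ qq m l := by
        intro T' hT' l hl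
        have h := hpr T' hT' l hl
        rw [prs, mem_filter] at h
        exact ⟨Nat.prime_of_mem_primeFactors h.1, h.2⟩
      have hTp : ∀ l ∈ T, l.Prime := fun l hl => (h3 T hTF l hl).1
      have hQ : ∀ l ∈ T, hb l ∣ qq m l := fun l hl => hb_dvd_qq' (h3 T hTF l hl).2
      have hJ : ∀ J ⊂ T, J ∈ F.erase T := fun J hJ => mem_erase.2
        ⟨hJ.ne, ChainQ_sub her _ T J hTF hJ.subset rfl⟩
      have hJL : ∀ J ⊂ T, nn m J ∈ {n | ∃ T' ∈ F.erase T, n = nn m T'} := fun J hJ' =>
        ⟨J, hJ J hJ', rfl⟩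
      have hLe : ∀ l ∈ T, nn m (T.erase l) ∈ {n | ∃ T' ∈ F.erase T, n = nn m T'} := fun l hl =>
        hJL _ (erase_ssubset hl)
      have hL : ∀ n' ∈ {n | ∃ T' ∈ F.erase T, n = nn m T'}, ∃ l ∈ T, ¬ l ∣ n' := by
        rintro n' ⟨T', hT', rfl⟩
        by_contra hcon
        push Not at hcon
        have hT'' := mem_erase.1 hT'
        have hsub : T ⊆ T' := fun l hl => (Pool.Agent.SP.prime_dvd_nn
          (fun l hl => (h3 T' hT''.2 l hl).1)
          (fun l hl => hb_dvd_qq' (h3 T' hT''.2 l hl).2) (hTp l hl)).1 (hcon l hl)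
        exact hT''.1 (eq_of_subset_of_card_le hsub (hmax T' hT''.2)).symm
      have hins : {n | ∃ T' ∈ F, n = nn m T'} ⊆
          insert (nn m T) {n | ∃ T' ∈ F.erase T, n = nn m T'} := by
        rintro n ⟨T', hT', rfl⟩
        by_cases h : T' = T
        · rw [h]
          exact Or.inl rfl
        · exact Or.inr ⟨T', mem_erase.2 ⟨h, hT'⟩, rfl⟩
      have ha' := lev_mono D.toDatum hins ha
      rcases Nat.even_or_odd T.card with heven | hodd
      · rcases hAl T hTF T Subset.rfl hTne heven with ⟨p, q, hpq, hT, hK⟩ | hRT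
        · have hpT : p ∈ T := by rw [hT]; simp
          have hqT : q ∈ T := by rw [hT]; simp
          have hprod : nn m T = qq m p * qq m q := by
            rw [nn, hT, prod_pair hpq.ne]
          have hq1 : qq m p ∈ {n | ∃ T' ∈ F.erase T, n = nn m T'} := by
            refine ⟨{p}, hJ _ ?_, ?_⟩
            · rw [hT, ssubset_iff_subset_ne]
              refine ⟨by simp, ?_⟩
              intro h
              have h4 : q ∈ ({p} : Finset ℕ) := by rw [h]; simp
              exact hpq.ne' (mem_singleton.1 h4)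
            · rw [nn, prod_singleton]
          have hq2 : qq m q ∈ {n | ∃ T' ∈ F.erase T, n = nn m T'} := by
            refine ⟨{q}, hJ _ ?_, ?_⟩
            · rw [hT, ssubset_iff_subset_ne]
              refine ⟨by simp, ?_⟩
              intro h
              have h4 : p ∈ ({q} : Finset ℕ) := by rw [h]; simp
              exact hpq.ne (mem_singleton.1 h4)
            · rw [nn, prod_singleton]
          have hnd : ∀ n' ∈ {n | ∃ T' ∈ F.erase T, n = nn m T'}, ¬ p ∣ n' ∨ ¬ q ∣ n' := by
            intro n' hn'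
            obtain ⟨l, hl, hln⟩ := hL n' hn'
            rw [hT, mem_insert, mem_singleton] at hl
            rcases hl with rfl | rfl
            · exact Or.inl hln
            · exact Or.inr hln
          rw [hprod] at ha'
          exact remove2 D.toDatum p q (hTp p hpT) (hTp q hqT) hpq.ne (h3 T hTF p hpT).2
            (h3 T hTF q hqT).2 _ hq1 hq2 hnd
            (Pool.Agent.FSU.Y_memX D.toDatumX hm p q hK (hb_dvd (h3 T hTF p hpT).2)
              (hb_dvd (h3 T hTF q hqT).2) _ hq1 hq2) a ha' hW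
        · have hG : ∀ l ∈ T, l ∈ R ∧ Gp m l := fun l hl =>
            ⟨(hRT l hl).1, hTp l hl, (hRT l hl).2, hb_dvd (h3 T hTF l hl).2⟩
          exact remQ D.toDatum hTp hQ hTne _ hLe hL (Hsq T)
            (fun i ρ => Hsq_half (fun l hl => ⟨hTp l hl, (hRT l hl).2⟩) i ρ)
            (Or.inr (kill_sq D hQ hG heven _ hJL)) a ha' hW
      · obtain ⟨H, hH⟩ := exists_H hTp
        exact remQ D.toDatum hTp hQ hTne _ hLe hL H hH (Or.inl hodd) a ha' hW

theorem zero_of_goodQ (D : DatumQ P R m A) (hm : 2 ∣ m) (a : A)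
    (ha : a ∈ AddSubgroup.closure {a | ∃ x : ZMod m, Reg x ∧ Al P R (addOrderOf x).primeFactors ∧
      a = D.f x}) (hW : ∀ t, D.W t a = 0) : a = 0 := by
  classical
  have hmem : ∀ T : Finset ℕ, T ∈ (prs m).powerset.filter (fun T => Al P R T) ↔
      T ⊆ prs m ∧ Al P R T := by
    intro T
    rw [mem_filter, mem_powerset]
  refine chainQ D hm _ ((prs m).powerset.filter fun T => Al P R T) rfl ?_ ?_ ?_ a ?_ hW
  · intro T hT l hl
    exact ((hmem T).1 hT).1 hl
  · intro T hT
    exact ((hmem T).1 hT).2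
  · intro T hT l _
    rw [hmem] at hT ⊢
    exact ⟨(erase_subset l T).trans hT.1, fun U hU => hT.2 U (hU.trans (erase_subset l T))⟩
  · refine (AddSubgroup.closure_le _).2 ?_ ha
    rintro b ⟨x, hreg, hAx, rfl⟩
    by_cases hx : x = 0
    · rw [hx, D.zero]
      exact zero_mem _
    · have h := f_mem_lev D.toDatum x hx
      refine lev_mono D.toDatum ?_ h
      rw [Set.singleton_subset_iff]
      refine ⟨(addOrderOf x).primeFactors, (hmem _).2 ⟨?_, hAx⟩, rfl⟩
      intro l hl
      have hlp := Nat.prime_of_mem_primeFactors hl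
      exact mem_prs hlp (qq_ge hlp ((Pool.Agent.SP.hb_dvd_of_reg x hreg l hl).trans (qq_dvd m l)))

end Pool.Agent.FQ
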