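import Pool.Agent.FQ.Chi

/-!
# FQ-Char1: the norm relation for character sums
-/

set_option autoImplicit false

namespace Pool.Agent.FQ

open Finset Pool.Agent.FS
open Pool.Agent.FF

section

variable {m : ℕ} [NeZero m]

/-- the base element of a set of primes -/
def bR (m : ℕ) (R : Finset ℕ) : ZMod m := ((m / nR m R : ℕ) : ZMod m)

/-- product of characters -/
def chiT (T : Finset ℕ) (w : ℕ) : ℤ := ∏ l ∈ T, chi l w

/-- character sums -/
def SS (g : ZMod m → ℤ) (R T : Finset ℕ) : ℤ :=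
  ∑ u : (ZMod m)ˣ, chiT T (rr u) * g ((u : ZMod m) * bR m R)

theorem chiT_mul (T : Finset ℕ) (a b : ℕ) : chiT T (a * b) = chiT T a * chiT T b := by
  unfold chiT
  rw [← prod_mul_distrib]
  exact prod_congr rfl fun l _ => chi_mul l a b

theorem chiT_mod {T : Finset ℕ} {n a b : ℕ} (hT : ∀ l ∈ T, hb l ∣ n) (h : a ≡ b [MOD n]) :
    chiT T a = chiT T b :=
  prod_congr rfl fun l hl => chi_mod (h.of_dvd (hT l hl))

theorem chiT_one (T : Finset ℕ) : chiT T 1 = 1 := by
  unfold chiT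
  exact prod_eq_one fun l _ => chi_one l

theorem chiT_rr_mul {T : Finset ℕ} (hT : ∀ l ∈ T, hb l ∣ m) (u v : (ZMod m)ˣ) :
    chiT T (rr (u * v)) = chiT T (rr u) * chiT T (rr v) := by
  rw [← chiT_mul]
  exact chiT_mod hT (rr_mul u v)

theorem chiT_sq {T : Finset ℕ} (hT : ∀ l ∈ T, PPr l ∧ hb l ∣ m) (u : (ZMod m)ˣ) :
    chiT T (rr u) * chiT T (rr u) = 1 := by
  unfold chiT
  rw [← prod_mul_distrib]
  refine prod_eq_one fun l hl => ?_
  have h3 : (rr u).Coprime l := by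
    refine (rr_coprime u).coprime_dvd_right (dvd_trans ?_ (hT l hl).2)
    unfold hb
    split_ifs with h
    · rw [h]; norm_num
    · exact dvd_rfl
  rcases chi_sq (hT l hl).1.1 h3 with h | h <;> rw [h] <;> norm_num

theorem bR_erase {R : Finset ℕ} (hR : ∀ l ∈ R, l.Prime) {l : ℕ} (hl : l ∈ R) :
    (qq m l : ZMod m) * bR m R = bR m (R.erase l) := by
  unfold bR
  have h1 : nR m R = qq m l * nR m (R.erase l) := by
    unfold nR
    rw [← mul_prod_erase R _ hl]
  have h2 := nR_dvd (m := m) hR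
  have h3 := nR_ne (m := m) hR
  obtain ⟨c, hc⟩ := h2
  have hq0 : 0 < qq m l := Nat.ordProj_pos m l
  have h4 : nR m (R.erase l) ≠ 0 := by
    intro h
    rw [h1, h, mul_zero] at h3
    exact h3 rfl
  have e1 : m / nR m R = c := Nat.div_eq_of_eq_mul_right (Nat.pos_of_ne_zero h3) hc
  have e2 : m / nR m (R.erase l) = qq m l * c := by
    refine Nat.div_eq_of_eq_mul_right (Nat.pos_of_ne_zero h4) ?_
    calc m = nR m R * c := hc
      _ = qq m l * nR m (R.erase l) * c := by rw [h1]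
      _ = nR m (R.erase l) * (qq m l * c) := by ring
  rw [e1, e2, Nat.cast_mul]

theorem order_bR {R : Finset ℕ} (hR : ∀ l ∈ R, l.Prime) (u : (ZMod m)ˣ) :
    addOrderOf ((u : ZMod m) * bR m R) = nR m R := by
  have h3 := nR_ne (m := m) hR
  have h2 := nR_dvd (m := m) hR
  have : NeZero (nR m R) := ⟨h3⟩
  have h4 : addOrderOf ((u : ZMod m) * bR m R) = addOrderOf (bR m R) := by
    refine Nat.dvd_antisymm ?_ ?_
    · rw [addOrderOf_dvd_iff_nsmul_eq_zero, nsmul_eq_mul, mul_left_comm, ← nsmul_eq_mul,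
        addOrderOf_nsmul_eq_zero, mul_zero]
    · rw [addOrderOf_dvd_iff_nsmul_eq_zero, nsmul_eq_mul]
      have h5 := addOrderOf_nsmul_eq_zero ((u : ZMod m) * bR m R)
      rw [nsmul_eq_mul, mul_left_comm] at h5
      exact (u.isUnit.mul_right_eq_zero).1 h5
  rw [h4, bR, ZMod.addOrderOf_coe _ (NeZero.ne m)]
  obtain ⟨c, hc⟩ := h2
  have hc0 : c ≠ 0 := by
    rintro rfl
    rw [mul_zero] at hc
    exact NeZero.ne m hc
  have e1 : m / nR m R = c := Nat.div_eq_of_eq_mul_right (Nat.pos_of_ne_zero h3) hc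
  rw [e1]
  have h5 : m.gcd c = c := Nat.gcd_eq_right (Dvd.intro_left _ hc.symm)
  rw [h5]
  refine Nat.div_eq_of_eq_mul_right (Nat.pos_of_ne_zero hc0) ?_
  rw [mul_comm]
  exact hc

/-- the norm relation for the elements of order `n` -/
theorem norm_rel {g : ZMod m → ℤ} (hg : IsDist g) {R : Finset ℕ} (hR : ∀ l ∈ R, l.Prime)
    {l : ℕ} (hl : l ∈ R) (hlm : l ∣ m) (u : (ZMod m)ˣ) :
    ∑ᶠ k : Kl m l, g (((k : (ZMod m)ˣ) : ZMod m) * ((u : ZMod m) * bR m R)) =
      g (al m l * ((u : ZMod m) * bR m R)) - g (be m l * ((u : ZMod m) * bR m R)) := by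
  have h3 := nR_ne (m := m) hR
  have h2 := nR_dvd (m := m) hR
  have : NeZero (nR m R) := ⟨h3⟩
  have hlp := hR l hl
  have hln : l ∣ nR m R := by
    refine dvd_trans ?_ (qq_dvd_nR hl)
    have h1 : 1 ≤ m.factorization l := hlp.factorization_pos_of_dvd (NeZero.ne m) hlm
    exact dvd_pow_self l (by omega)
  have huni : Uni m (nR m R) := ⟨h2, nR_unitary hR⟩
  obtain ⟨w, hw⟩ := (exists_emb h2 ((u : ZMod m) * bR m R)).1 (order_bR hR u)
  have h4 := rel_of_dist huni hlp hln (hg l hlp hlm) w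
  rw [rel_units huni hlp hln w, ← hw] at h4
  exact h4

/-- the unit which is `l` on the part prime to `l` -/
theorem exists_lunit {l : ℕ} (hl : l.Prime) : ∃ w : (ZMod m)ˣ,
    rr w ≡ 1 [MOD qq m l] ∧ rr w ≡ l [MOD ordCompl[l] m] :=
  exists_unit_crt (RNorm_qq_mul l).symm (RNorm_qq_coprime hl) 1 l (Nat.coprime_one_left _)
    (Nat.coprime_ordCompl hl (NeZero.ne m))

theorem al_bR {R : Finset ℕ} (hR : ∀ l ∈ R, l.Prime) {l : ℕ} (hl : l ∈ R) (u : (ZMod m)ˣ) :
    al m l * ((u : ZMod m) * bR m R) = (u : ZMod m) * bR m (R.erase l) := by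
  rw [mul_left_comm, RNorm_al l (hR l hl), bR_erase hR hl]

theorem be_bR {R : Finset ℕ} (hR : ∀ l ∈ R, l.Prime) {l : ℕ} (hl : l ∈ R) (hlm : l ∣ m)
    (w : (ZMod m)ˣ) (hw : rr w ≡ l [MOD ordCompl[l] m]) (u : (ZMod m)ˣ) :
    be m l * (((u * w : (ZMod m)ˣ) : ZMod m) * bR m R) = (u : ZMod m) * bR m (R.erase l) := by
  have hlp := hR l hl
  rw [← al_bR hR hl u, Units.val_mul]
  have h1 : (w : ZMod m) * ide m l = (l : ZMod m) * ide m l := by
    have h2 : ((ordCompl[l] m : ℕ) : ZMod m) * ide m l = 0 := RNorm_compl_ide l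
    obtain ⟨M, hM⟩ : ∃ M, M = ordCompl[l] m := ⟨_, rfl⟩
    rw [← hM] at hw h2
    obtain ⟨c, hc⟩ := (Nat.modEq_iff_dvd.1 hw.symm)
    have h3 := congrArg (Int.cast : ℤ → ZMod m) hc
    push_cast at h3
    have h4 : ((rr w : ℕ) : ZMod m) = (w : ZMod m) := ZMod.natCast_zmod_val _
    rw [h4] at h3
    linear_combination ide m l * h3 + (c : ZMod m) * h2
  have h5 : ((qq m l / l : ℕ) : ZMod m) * (l : ZMod m) = (qq m l : ZMod m) := by
    rw [← Nat.cast_mul]
    congr 1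
    refine Nat.div_mul_cancel ?_
    have h1 : 1 ≤ m.factorization l := hlp.factorization_pos_of_dvd (NeZero.ne m) hlm
    exact dvd_pow_self l (by omega)
  unfold be al
  linear_combination ((qq m l / l : ℕ) : ZMod m) * (u : ZMod m) * bR m R * h1 +
    ide m l * (u : ZMod m) * bR m R * h5

theorem SS_rel {g : ZMod m → ℤ} (hg : IsDist g) {R T : Finset ℕ}
    (hR : ∀ l ∈ R, PPr l ∧ hb l ∣ m) {l : ℕ} (hl : l ∈ R) (hT : T ⊆ R.erase l) :
    (Nat.card (Kl m l) : ℤ) * SS g R T = (1 - chiT T l) * SS g (R.erase l) T := by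
  classical
  have hRp : ∀ l ∈ R, l.Prime := fun l hl => (hR l hl).1.1
  have hlp := hRp l hl
  have hlhb : l ∣ hb l := by
    unfold hb
    split_ifs with h
    · rw [h]; norm_num
    · exact dvd_rfl
  have hlm : l ∣ m := hlhb.trans (hR l hl).2
  have hTR : ∀ a ∈ T, PPr a ∧ hb a ∣ m := fun a ha => hR a (mem_of_mem_erase (hT ha))
  have hTm : ∀ a ∈ T, hb a ∣ m := fun a ha => (hTR a ha).2
  have hTl : ∀ a ∈ T, hb a ∣ ordCompl[l] m := by
    intro a ha
    have hne : a ≠ l := (mem_erase.1 (hT ha)).1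
    have h3 : (hb a).Coprime (ordProj[l] m) := by
      refine Nat.Coprime.pow_right _ ?_
      unfold hb
      split_ifs with h
      · subst h
        have h4 := (Nat.coprime_primes (hTR 2 ha).1.1 hlp).2 hne
        exact Nat.Coprime.pow_left 2 h4
      · exact (Nat.coprime_primes (hTR a ha).1.1 hlp).2 hne
    refine h3.dvd_of_dvd_mul_left ?_
    rw [Nat.ordProj_mul_ordCompl_eq_self]
    exact hTm a ha
  -- the character is invariant under `Kl m l`
  have hk : ∀ (k : Kl m l) (u : (ZMod m)ˣ), chiT T (rr ((k : (ZMod m)ˣ) * u)) = chiT T (rr u) :=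
    fun k u => prod_congr rfl fun a ha => chi_mod (Kl_mul_mod k.2 (hTl a ha) u)
  -- sum over the cosets
  have e1 : (Nat.card (Kl m l) : ℤ) * SS g R T =
      ∑ u : (ZMod m)ˣ, chiT T (rr u) *
        ∑ᶠ k : Kl m l, g (((k : (ZMod m)ˣ) : ZMod m) * ((u : ZMod m) * bR m R)) := by
    have e2 : ∀ k : Kl m l, SS g R T = ∑ u : (ZMod m)ˣ, chiT T (rr u) *
        g (((k : (ZMod m)ˣ) : ZMod m) * ((u : ZMod m) * bR m R)) := by
      intro k
      unfold SS
      rw [← Equiv.sum_comp (Equiv.mulLeft (k : (ZMod m)ˣ))]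
      refine sum_congr rfl fun u _ => ?_
      rw [Equiv.coe_mulLeft, hk, Units.val_mul, mul_assoc]
    have e3 : (Nat.card (Kl m l) : ℤ) * SS g R T = ∑ k : Kl m l, SS g R T := by
      rw [sum_const, card_univ, ← Nat.card_eq_fintype_card, nsmul_eq_mul]
    rw [e3, sum_congr rfl fun k _ => e2 k, sum_comm]
    refine sum_congr rfl fun u _ => ?_
    rw [finsum_eq_sum_of_fintype, mul_sum]
  rw [e1]
  obtain ⟨w, _, hw⟩ := exists_lunit (m := m) hlp
  have e4 : ∀ u : (ZMod m)ˣ, chiT T (rr u) *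
      ∑ᶠ k : Kl m l, g (((k : (ZMod m)ˣ) : ZMod m) * ((u : ZMod m) * bR m R)) =
      chiT T (rr u) * g ((u : ZMod m) * bR m (R.erase l)) -
        chiT T (rr u) * g (be m l * ((u : ZMod m) * bR m R)) := by
    intro u
    rw [norm_rel hg hRp hl hlm u, al_bR hRp hl u]
    ring
  rw [sum_congr rfl fun u _ => e4 u, sum_sub_distrib]
  have e5 : ∑ u : (ZMod m)ˣ, chiT T (rr u) * g (be m l * ((u : ZMod m) * bR m R)) =
      chiT T l * SS g (R.erase l) T := by
    rw [← Equiv.sum_comp (Equiv.mulRight w)]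
    unfold SS
    rw [mul_sum]
    refine sum_congr rfl fun u _ => ?_
    rw [Equiv.coe_mulRight, be_bR hRp hl hlm w hw u, chiT_rr_mul hTm]
    have h1 : chiT T (rr w) = chiT T l := chiT_mod hTl hw
    rw [h1]
    ring
  rw [e5]
  unfold SS
  ring

end

end Pool.Agent.FQ
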