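import Pool.Agent.FQ.Char1

/-!
# FQ-Char2: quadratic sets of an even number of primes
-/

set_option autoImplicit false

namespace Pool.Agent.FQ

open Finset Pool.Agent.FS
open Pool.Agent.FF

section

variable {m : ℕ} [NeZero m]

/-- the number of units of the level -/
noncomputable def Ph (m : ℕ) [NeZero m] (R : Finset ℕ) : ℤ := ∏ l ∈ R, (Nat.card (Kl m l) : ℤ)

/-- the sum over the quadratic set -/
noncomputable def AA (g : ZMod m → ℤ) (R : Finset ℕ) : ℤ :=
  Ph m R * ∑ u ∈ univ.filter (fun u : (ZMod m)ˣ => ∀ l ∈ R, chi l (rr u) = 1),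
    g ((u : ZMod m) * bR m R)

/-- the character sum -/
noncomputable def aa (g : ZMod m → ℤ) (T : Finset ℕ) : ℤ := Ph m T * SS g T T

theorem SS_prod {g : ZMod m → ℤ} (hg : IsDist g) {T : Finset ℕ}
    (hT : ∀ l ∈ T, PPr l ∧ hb l ∣ m) (E : Finset ℕ) (hE : ∀ l ∈ E, PPr l ∧ hb l ∣ m)
    (hTE : Disjoint T E) :
    Ph m (T ∪ E) * SS g (T ∪ E) T = (∏ l ∈ E, (1 - chiT T l)) * aa g T := by
  induction E using Finset.induction_on with
  | empty => rw [union_empty, prod_empty, one_mul, aa]
  | insert l E hl ih =>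
    have hE' : ∀ l ∈ E, PPr l ∧ hb l ∣ m := fun l' hl' => hE l' (mem_insert_of_mem hl')
    have hTE' : Disjoint T E := hTE.mono_right (subset_insert l E)
    have hlT : l ∉ T := fun h => (disjoint_left.1 hTE) h (mem_insert_self l E)
    have ih' := ih hE' hTE'
    have h1 : T ∪ insert l E = insert l (T ∪ E) := union_insert _ _ _
    have hlTE : l ∉ T ∪ E := by
      rw [mem_union, not_or]
      exact ⟨hlT, hl⟩
    have h2 : (insert l (T ∪ E)).erase l = T ∪ E := erase_insert hlTE
    have hR : ∀ a ∈ insert l (T ∪ E), PPr a ∧ hb a ∣ m := by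
      intro a ha
      rw [mem_insert, mem_union] at ha
      rcases ha with rfl | ha | ha
      · exact hE a (mem_insert_self _ _)
      · exact hT a ha
      · exact hE' a ha
    have h3 := SS_rel hg hR (mem_insert_self l (T ∪ E)) (T := T) (by
      rw [h2]
      exact subset_union_left)
    rw [h2] at h3
    have h4 : Ph m (insert l (T ∪ E)) = (Nat.card (Kl m l) : ℤ) * Ph m (T ∪ E) := by
      unfold Ph
      rw [prod_insert hlTE]
    rw [h1, h4, prod_insert hl]
    linear_combination Ph m (T ∪ E) * h3 + (1 - chiT T l) * ih'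

theorem chiT_unit {T : Finset ℕ} (hT : ∀ l ∈ T, l.Prime) {l : ℕ} (hl : l.Prime) (hlT : l ∉ T) :
    chiT T l = 1 ∨ chiT T l = -1 := by
  unfold chiT
  induction T using Finset.induction_on with
  | empty => left; rw [prod_empty]
  | insert a T ha ih =>
    have h1 := ih (fun b hb => hT b (mem_insert_of_mem hb)) (fun h => hlT (mem_insert_of_mem h))
    have h2 : l.Coprime a := by
      refine (Nat.coprime_primes hl (hT a (mem_insert_self _ _))).2 ?_
      rintro rfl
      exact hlT (mem_insert_self _ _)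
    rw [prod_insert ha]
    rcases chi_sq (hT a (mem_insert_self _ _)) h2 with h3 | h3 <;> rcases h1 with h1 | h1 <;>
      rw [h3, h1] <;> norm_num

theorem prod_two {T : Finset ℕ} (hT : ∀ l ∈ T, l.Prime) (E : Finset ℕ)
    (hE : ∀ l ∈ E, l.Prime) (hTE : Disjoint T E) :
    ∃ e : ℤ, ∏ l ∈ E, (1 - chiT T l) = 2 ^ E.card * e := by
  induction E using Finset.induction_on with
  | empty => exact ⟨1, by simp⟩
  | insert l E hl ih =>
    obtain ⟨e, he⟩ := ih (fun a ha => hE a (mem_insert_of_mem ha))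
      (hTE.mono_right (subset_insert l E))
    have hlT : l ∉ T := fun h => (disjoint_left.1 hTE) h (mem_insert_self l E)
    rcases chiT_unit hT (hE l (mem_insert_self _ _)) hlT with h | h
    · refine ⟨0, ?_⟩
      rw [prod_insert hl, h]
      ring
    · refine ⟨e, ?_⟩
      rw [prod_insert hl, h, he, card_insert_of_notMem hl, pow_succ]
      ring

theorem two_ind {R : Finset ℕ} (hR : ∀ l ∈ R, PPr l ∧ hb l ∣ m) (u : (ZMod m)ˣ) :
    (2 : ℤ) ^ R.card * (if ∀ l ∈ R, chi l (rr u) = 1 then 1 else 0) =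
      ∑ T ∈ R.powerset, chiT T (rr u) := by
  have h1 : ∑ T ∈ R.powerset, chiT T (rr u) = ∏ l ∈ R, (1 + chi l (rr u)) :=
    (prod_one_add (f := fun l => chi l (rr u)) R).symm
  rw [h1]
  have hsq : ∀ l ∈ R, chi l (rr u) = 1 ∨ chi l (rr u) = -1 := by
    intro l hl
    refine chi_sq (hR l hl).1.1 ((rr_coprime u).coprime_dvd_right (dvd_trans ?_ (hR l hl).2))
    unfold hb
    split_ifs with h
    · rw [h]; norm_num
    · exact dvd_rfl
  by_cases h : ∀ l ∈ R, chi l (rr u) = 1
  · rw [if_pos h, mul_one, prod_congr rfl fun l hl => by rw [h l hl], prod_const]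
    norm_num
  · rw [if_neg h, mul_zero]
    push Not at h
    obtain ⟨l, hl, hne⟩ := h
    symm
    refine prod_eq_zero hl ?_
    rw [(hsq l hl).resolve_left hne]
    norm_num

theorem AA_eq {g : ZMod m → ℤ} (hg : IsDist g) {R : Finset ℕ}
    (hR : ∀ l ∈ R, PPr l ∧ hb l ∣ m) :
    (2 : ℤ) ^ R.card * AA g R = ∑ T ∈ R.powerset, (∏ l ∈ R \ T, (1 - chiT T l)) * aa g T := by
  have h1 : (2 : ℤ) ^ R.card * AA g R = ∑ T ∈ R.powerset, Ph m R * SS g R T := by
    unfold AA SS
    rw [sum_filter, ← mul_sum, sum_comm, mul_left_comm, mul_sum]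
    congr 1
    refine sum_congr rfl fun u _ => ?_
    rw [← sum_mul, ← two_ind hR u]
    split_ifs <;> ring
  rw [h1]
  refine sum_congr rfl fun T hT => ?_
  rw [mem_powerset] at hT
  have h2 := SS_prod hg (T := T) (fun l hl => hR l (hT hl)) (R \ T)
    (fun l hl => hR l (sdiff_subset hl)) disjoint_sdiff
  rw [union_sdiff_of_subset hT] at h2
  exact h2

theorem aa_even {g : ZMod m → ℤ} (hodd : ∀ x, g (-x) = - g x) {T : Finset ℕ}
    (hT : ∀ l ∈ T, PPr l ∧ hb l ∣ m) (hev : Even T.card) : aa g T = 0 := by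
  have h1 : SS g T T = - SS g T T := by
    conv_lhs => rw [SS, ← Equiv.sum_comp (Equiv.mulLeft (-1 : (ZMod m)ˣ))]
    rw [SS, ← sum_neg_distrib]
    refine sum_congr rfl fun u _ => ?_
    rw [Equiv.coe_mulLeft]
    have h2 : chiT T (rr (-1 * u)) = chiT T (rr u) := by
      have h3 : ∀ l ∈ T, chi l (rr (-1 * u)) = -1 * chi l (rr u) := by
        intro l hl
        have h4 : rr u + rr (-1 * u) ≡ 0 [MOD hb l] := by
          rw [add_comm]
          exact (rr_neg u).of_dvd (hT l hl).2
        rw [chi_neg (hT l hl).1 h4]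
        ring
      unfold chiT
      rw [prod_congr rfl h3, prod_mul_distrib, prod_const, hev.neg_one_pow, one_mul]
    rw [h2, Units.val_mul, Units.val_neg, Units.val_one, neg_one_mul, neg_mul, hodd]
    ring
  unfold aa
  have h2 : SS g T T = 0 := by omega
  rw [h2, mul_zero]

/-- the vector of the sums over the quadratic set, for a family of distributions -/
noncomputable def vec {ι : Type} (g : ι → ZMod m → ℤ) (R : Finset ℕ) : ι → ℤ := fun i => AA (g i) R

theorem vec_closure {ι : Type} (g : ι → ZMod m → ℤ) (hg : ∀ i, IsDist (g i)) (R : Finset ℕ) :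
    (∀ l ∈ R, PPr l ∧ hb l ∣ m) →
    ∃ z ∈ AddSubgroup.closure {v | ∃ T ⊂ R, v = vec g T},
      (fun i => aa (g i) R) = (2 : ℤ) ^ R.card • (vec g R + z) := by
  induction R using Finset.strongInduction with
  | H R ih =>
    intro hR
    set C := AddSubgroup.closure {v | ∃ T ⊂ R, v = vec g T} with hC
    -- the proper subsets
    have h1 : ∀ T ⊂ R, ∃ y ∈ C, (fun i => (∏ l ∈ R \ T, (1 - chiT T l)) * aa (g i) T) =
        (2 : ℤ) ^ R.card • y := by
      intro T hT
      obtain ⟨z, hz, hzT⟩ := ih T hT fun l hl => hR l (hT.subset hl)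
      obtain ⟨e, he⟩ := prod_two (T := T) (fun l hl => (hR l (hT.subset hl)).1.1) (R \ T)
        (fun l hl => (hR l (sdiff_subset hl)).1.1) disjoint_sdiff
      refine ⟨e • (vec g T + z), ?_, ?_⟩
      · refine AddSubgroup.zsmul_mem _ (add_mem ?_ ?_) e
        · exact AddSubgroup.subset_closure ⟨T, hT, rfl⟩
        · refine AddSubgroup.closure_mono ?_ hz
          rintro v ⟨T', hT', rfl⟩
          exact ⟨T', hT'.trans hT, rfl⟩
      · funext i
        have h2 := congrFun hzT i
        simp only [Pi.smul_apply, Pi.add_apply, smul_eq_mul] at h2 ⊢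
        have h3 : R.card = (R \ T).card + T.card := by
          rw [card_sdiff_add_card_eq_card hT.subset]
        rw [he, h2, h3, pow_add]
        ring
    choose! y hy hyT using h1
    refine ⟨- ∑ T ∈ R.ssubsets, y T, neg_mem (sum_mem fun T hT => hy T (mem_ssubsets.1 hT)), ?_⟩
    funext i
    have h2 := AA_eq (hg i) hR
    rw [← insert_erase (mem_powerset_self R), sum_insert (notMem_erase _ _)] at h2
    have h3 : (R.powerset.erase R) = R.ssubsets := rfl
    rw [h3, sdiff_self, bot_eq_empty, prod_empty, one_mul] at h2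
    have h4 : ∑ T ∈ R.ssubsets, (∏ l ∈ R \ T, (1 - chiT T l)) * aa (g i) T =
        (2 : ℤ) ^ R.card * ∑ T ∈ R.ssubsets, y T i := by
      rw [mul_sum]
      refine sum_congr rfl fun T hT => ?_
      have h5 := congrFun (hyT T (mem_ssubsets.1 hT)) i
      simp only [Pi.smul_apply, smul_eq_mul] at h5
      exact h5
    rw [h4] at h2
    simp only [Pi.smul_apply, Pi.add_apply, Pi.neg_apply, Finset.sum_apply, smul_eq_mul, vec]
    linarith

theorem vec_even {ι : Type} (g : ι → ZMod m → ℤ) (hg : ∀ i, IsDist (g i))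
    (hodd : ∀ i x, g i (-x) = - g i x) (R : Finset ℕ) (hR : ∀ l ∈ R, PPr l ∧ hb l ∣ m)
    (hev : Even R.card) :
    ∃ z ∈ AddSubgroup.closure {v | ∃ T ⊂ R, v = vec g T}, vec g R + z = 0 := by
  obtain ⟨z, hz, h⟩ := vec_closure g hg R hR
  refine ⟨z, hz, ?_⟩
  funext i
  have h1 := congrFun h i
  simp only [Pi.smul_apply, Pi.add_apply, smul_eq_mul] at h1
  rw [aa_even (hodd i) hR hev] at h1
  have h2 : (2 : ℤ) ^ R.card ≠ 0 := by positivity
  exact (mul_eq_zero.1 h1.symm).resolve_left h2

end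

end Pool.Agent.FQ
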