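import Pool.Agent.FQ.Fam

/-!
# FQ-Chi: the quadratic characters of the primes `2` and `3` modulo `4`
-/

set_option autoImplicit false

namespace Pool.Agent.FQ

open Finset Pool.Agent.FS
open Pool.Agent.FF

/-- the primes `2` and `3` modulo `4` -/
def PPr (l : ℕ) : Prop := l.Prime ∧ (l = 2 ∨ l % 4 = 3)

/-- the odd quadratic character of the prime `l` -/
def chi (l w : ℕ) : ℤ := if l = 2 then ZMod.χ₄ (w : ZMod 4) else jacobiSym (w : ℤ) l

theorem chi_mul (l a b : ℕ) : chi l (a * b) = chi l a * chi l b := by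
  unfold chi
  split_ifs with h
  · push_cast
    rw [map_mul]
  · push_cast
    rw [jacobiSym.mul_left]

theorem chi_one (l : ℕ) : chi l 1 = 1 := by
  unfold chi
  split_ifs with h
  · push_cast
    rw [map_one]
  · push_cast
    rw [jacobiSym.one_left]

theorem chi_mod {l a b : ℕ} (h : a ≡ b [MOD hb l]) : chi l a = chi l b := by
  unfold chi
  unfold hb at h
  split_ifs with h2
  · rw [if_pos h2] at h
    rw [(ZMod.natCast_eq_natCast_iff a b 4).2 h]
  · rw [if_neg h2] at h
    have h3 : ((a : ℤ)) % l = (b : ℤ) % l := by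
      have h4 : a % l = b % l := h
      exact_mod_cast congrArg (Nat.cast : ℕ → ℤ) h4
    rw [jacobiSym.mod_left (a : ℤ), jacobiSym.mod_left (b : ℤ), h3]

theorem chi_sq {l a : ℕ} (hl : l.Prime) (h : a.Coprime l) : chi l a = 1 ∨ chi l a = -1 := by
  unfold chi
  split_ifs with h2
  · subst h2
    have h3 : a % 4 = 1 ∨ a % 4 = 3 := by
      have h4 : ¬ 2 ∣ a := fun h5 => by
        have := Nat.dvd_gcd h5 (dvd_refl 2)
        rw [h] at this
        omega
      omega
    rcases h3 with h3 | h3
    · left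
      exact ZMod.χ₄_nat_one_mod_four h3
    · right
      exact ZMod.χ₄_nat_three_mod_four h3
  · refine jacobiSym.eq_one_or_neg_one ?_
    rw [Int.gcd_natCast_natCast]
    exact h

theorem chi_neg {l a b : ℕ} (hl : PPr l) (h : a + b ≡ 0 [MOD hb l]) :
    chi l b = - chi l a := by
  unfold chi
  unfold hb at h
  split_ifs with h2
  · rw [if_pos h2] at h
    have h3 : ((b : ℕ) : ZMod 4) = -1 * ((a : ℕ) : ZMod 4) := by
      have h4 := (ZMod.natCast_eq_natCast_iff (a + b) 0 4).2 h
      push_cast at h4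
      linear_combination h4
    rw [h3, map_mul]
    have h4 : ZMod.χ₄ (-1) = -1 := by decide
    rw [h4]
    ring
  · rw [if_neg h2] at h
    have h43 : l % 4 = 3 := hl.2.resolve_left h2
    have hodd : Odd l := Nat.odd_iff.2 (by omega)
    have h3 : ((b : ℤ)) % l = (-(a : ℤ)) % l := by
      have h4 : (l : ℤ) ∣ (a : ℤ) + b := by
        have h5 : l ∣ a + b := (Nat.modEq_zero_iff_dvd).1 h
        exact_mod_cast h5
      have h6 : (-(a : ℤ)) ≡ (b : ℤ) [ZMOD l] := by
        rw [Int.modEq_iff_dvd]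
        have h5 : (b : ℤ) - -(a : ℤ) = (a : ℤ) + b := by ring
        rw [h5]
        exact h4
      exact h6.symm
    rw [jacobiSym.mod_left (b : ℤ), h3, ← jacobiSym.mod_left, jacobiSym.neg _ hodd,
      ZMod.χ₄_nat_three_mod_four h43]
    ring

/-- the half systems given by the characters -/
theorem half_chi (n : ℕ) [NeZero n] (ls : List ℕ) (hp : ∀ l ∈ ls, PPr l ∧ hb l ∣ n) :
    HalfSys (Kl n) (-1) (fun l => {g : (ZMod n)ˣ | chi l (rr g) = 1}) ls := by
  refine ⟨by simp, ?_, ?_⟩
  · intro l hl g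
    obtain ⟨hl1, hl2⟩ := hp l hl
    have h1 : rr g + rr (-1 * g) ≡ 0 [MOD hb l] := by
      rw [add_comm]
      exact (rr_neg g).of_dvd hl2
    have h2 := chi_neg hl1 h1
    have h3 : (rr g).Coprime l := by
      refine (rr_coprime g).coprime_dvd_right (dvd_trans ?_ hl2)
      unfold hb
      split_ifs with h
      · rw [h]; norm_num
      · exact dvd_rfl
    simp only [Set.mem_setOf_eq]
    rcases chi_sq hl1.1 h3 with h4 | h4
    · rw [h2, h4]
      norm_num
    · rw [h2, h4]
      norm_num
  · intro l hl l' hl' hne k hk g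
    obtain ⟨hl1, hl2⟩ := hp l hl
    obtain ⟨hl1', hl2'⟩ := hp l' hl'
    simp only [Set.mem_setOf_eq]
    have h1 : hb l ∣ ordCompl[l'] n := by
      have h3 : (hb l).Coprime (ordProj[l'] n) := by
        refine Nat.Coprime.pow_right _ ?_
        unfold hb
        split_ifs with h
        · subst h
          have h4 := (Nat.coprime_primes hl1.1 hl1'.1).2 (Ne.symm hne)
          exact Nat.Coprime.pow_left 2 h4
        · exact (Nat.coprime_primes hl1.1 hl1'.1).2 (Ne.symm hne)
      refine h3.dvd_of_dvd_mul_left ?_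
      rw [Nat.ordProj_mul_ordCompl_eq_self]
      exact hl2
    rw [chi_mod (Kl_mul_mod hk h1 g)]

end Pool.Agent.FQ
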