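import Pool.Agent.FF.Comb4

/-!
# FQ-CombOdd: the decomposition for an odd number of components
-/

set_option autoImplicit false

namespace Pool.Agent.FQ

open Finset Pool.Agent.FS
open Pool.Agent.FF

variable {G : Type*} [CommGroup G]

private theorem difs_cons (k : G) (ks : List G) (F : G → ℤ) (g : G) :
    difs (k :: ks) F g = difs ks F g - difs ks F (k * g) := rfl

private theorem difs_add (ks : List G) (F F' : G → ℤ) (g : G) :
    difs ks (fun g => F g + F' g) g = difs ks F g + difs ks F' g := by
  induction ks generalizing g with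
  | nil => rfl
  | cons k ks ih => rw [difs_cons, difs_cons, difs_cons, ih, ih]; ring

private theorem difs_mul (ks : List G) (w F : G → ℤ) (hw : ∀ k ∈ ks, ∀ g, w (k * g) = w g)
    (g : G) : difs ks (fun g => w g * F g) g = w g * difs ks F g := by
  induction ks generalizing g with
  | nil => rfl
  | cons k ks ih =>
    have ih' := ih fun k' hk' => hw k' (List.mem_cons_of_mem _ hk')
    rw [difs_cons, difs_cons, ih', ih', hw k List.mem_cons_self]
    ring

private theorem difs_shift (ks : List G) (F : G → ℤ) (τ : G) (g : G) :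
    difs ks (fun g => F (τ * g)) g = difs ks F (τ * g) := by
  induction ks generalizing g with
  | nil => rfl
  | cons k ks ih => rw [difs_cons, difs_cons, ih, ih, mul_left_comm]

private theorem difs_sub (ks : List G) (F F' : G → ℤ) (g : G) :
    difs ks (fun g => F g - F' g) g = difs ks F g - difs ks F' g := by
  induction ks generalizing g with
  | nil => rfl
  | cons k ks ih => rw [difs_cons, difs_cons, difs_cons, ih, ih]; ring

private theorem difs_inv (ks : List G) (F : G → ℤ) (τ : G) (hτ : τ ∈ ks)
    (hF : ∀ g, F (τ * g) = F g) (g : G) : difs ks F g = 0 := by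
  induction ks generalizing g with
  | nil => simp at hτ
  | cons k ks ih =>
    rw [difs_cons]
    rcases List.mem_cons.1 hτ with rfl | h
    · have h1 : difs ks F (τ * g) = difs ks F g := by
        rw [← difs_shift ks F τ g]
        exact congrArg (fun f => difs ks f g) (funext hF)
      rw [h1, sub_self]
    · rw [ih h, ih h, sub_self]

private theorem difs_invol (ks : List G) (F : G → ℤ) (τ : G) (hτ : τ ∈ ks) (h1 : τ * τ = 1)
    (g : G) : difs ks F (τ * g) = - difs ks F g := by
  induction ks generalizing g with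
  | nil => simp at hτ
  | cons k ks ih =>
    rw [difs_cons, difs_cons]
    rcases List.mem_cons.1 hτ with rfl | h
    · rw [← mul_assoc, h1, one_mul]
      ring
    · rw [ih h g, mul_left_comm, ih h (k * g)]
      ring

private theorem difs_prod (ks : List G) (F : G → ℤ) (hk : ∀ k ∈ ks, k * k = 1) (τs : List G)
    (hτ : ∀ τ ∈ τs, τ ∈ ks) (g : G) :
    difs ks F (τs.prod * g) = (-1) ^ τs.length * difs ks F g := by
  induction τs with
  | nil => simp
  | cons τ τs ih =>
    rw [List.prod_cons, mul_assoc, difs_invol ks F τ (hτ τ List.mem_cons_self)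
      (hk τ (hτ τ List.mem_cons_self)), ih fun τ hτ' => hτ τ (List.mem_cons_of_mem _ hτ'),
      List.length_cons, pow_succ]
    ring

private theorem kappa {K : ℕ → Subgroup G} {κ : ℕ → G →* G} {ls : List ℕ}
    (hP : ProdDec K κ ls) (c : G) (l : ℕ) (hl : l ∈ ls) (as : List ℕ) (has : ∀ a ∈ as, a ∈ ls)
    (hnd : as.Nodup) :
    κ l (as.map fun a => κ a c).prod = if l ∈ as then κ l c else 1 := by
  induction as with
  | nil => simp
  | cons a as ih =>
    rw [List.map_cons, List.prod_cons, map_mul,
      ih (fun b hb => has b (List.mem_cons_of_mem _ hb)) (List.nodup_cons.1 hnd).2]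
    have ha := has a List.mem_cons_self
    have hna := (List.nodup_cons.1 hnd).1
    by_cases h : l = a
    · subst h
      rw [if_neg hna, if_pos List.mem_cons_self, mul_one, hP.fix l hl _ (hP.mem l hl c)]
    · rw [hP.one l hl a ha (Ne.symm h) _ (hP.mem a ha c), one_mul]
      simp only [List.mem_cons, h, false_or]

private theorem c_eq {K : ℕ → Subgroup G} {κ : ℕ → G →* G} {ls : List ℕ}
    (hP : ProdDec K κ ls) {c : G} (hc : c * c = 1) : c = (ls.map fun a => κ a c).prod := by
  have h1 : c * (ls.map fun a => κ a c).prod = 1 := by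
    apply hP.gen
    intro l hl
    rw [map_mul, kappa hP c l hl ls (fun a ha => ha) hP.nodup, if_pos hl, ← map_mul, hc,
      map_one]
  calc c = c * (c * (ls.map fun a => κ a c).prod) := by rw [h1, mul_one]
    _ = (ls.map fun a => κ a c).prod := by rw [← mul_assoc, hc, one_mul]

private theorem H_inv {K : ℕ → Subgroup G} {κ : ℕ → G →* G} {ls : List ℕ}
    (hP : ProdDec K κ ls) {c : G} {H : ℕ → Set G} (hH : HalfSys K c H ls) (l : ℕ) (hl : l ∈ ls)
    (as : List ℕ) (has : ∀ a ∈ as, a ∈ ls) (hla : l ∉ as) (g : G) :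
    (as.map fun a => κ a c).prod * g ∈ H l ↔ g ∈ H l := by
  induction as with
  | nil => simp
  | cons a as ih =>
    have ha := has a List.mem_cons_self
    have h1 : a ≠ l := fun h => hla (h ▸ List.mem_cons_self)
    rw [List.map_cons, List.prod_cons, mul_assoc,
      hH.inv l hl a ha h1 _ (hP.mem a ha c),
      ih (fun b hb => has b (List.mem_cons_of_mem _ hb)) (fun h => hla (List.mem_cons_of_mem _ h))]

private theorem flip {K : ℕ → Subgroup G} {κ : ℕ → G →* G} {ls : List ℕ}
    (hP : ProdDec K κ ls) {c : G} {H : ℕ → Set G} (hH : HalfSys K c H ls) (l : ℕ) (hl : l ∈ ls)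
    (g : G) : κ l c * g ∈ H l ↔ g ∉ H l := by
  rw [← hH.neg l hl g]
  have h1 : c * g = ((ls.erase l).map fun a => κ a c).prod * (κ l c * g) := by
    have h2 := List.prod_map_erase (fun a => κ a c) hl
    rw [← mul_assoc, mul_comm ((ls.erase l).map fun a => κ a c).prod, h2,
      ← c_eq hP hH.sq]
  rw [h1, H_inv hP hH l hl (ls.erase l) (fun a ha => List.mem_of_mem_erase ha)
    hP.nodup.not_mem_erase]

open Classical in
private noncomputable def sg (H : ℕ → Set G) (l : ℕ) (g : G) : ℤ := if g ∈ H l then 1 else -1

private theorem difs_ind {K : ℕ → Subgroup G} {κ : ℕ → G →* G} {ls : List ℕ}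
    (hP : ProdDec K κ ls) {c : G} {H : ℕ → Set G} (hH : HalfSys K c H ls) (as : List ℕ)
    (has : ∀ a ∈ as, a ∈ ls) (hnd : as.Nodup) (g : G) :
    difs (as.map fun l => κ l c) (ind H as) g = (as.map fun l => sg H l g).prod := by
  classical
  induction as generalizing g with
  | nil => simp [difs, ind]
  | cons a as ih =>
    have ha := has a List.mem_cons_self
    have hna := (List.nodup_cons.1 hnd).1
    have ih' := ih (fun b hb => has b (List.mem_cons_of_mem _ hb)) (List.nodup_cons.1 hnd).2
    have h1 : ind H (a :: as) = fun g => (if g ∈ H a then 1 else 0) * ind H as g := by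
      funext g
      unfold ind
      by_cases h2 : g ∈ H a
      · by_cases h3 : ∀ l ∈ as, g ∈ H l
        · rw [if_pos h2, if_pos h3, if_pos]
          · ring
          · intro l hl
            rcases List.mem_cons.1 hl with rfl | hl
            · exact h2
            · exact h3 l hl
        · rw [if_neg h3, if_neg]
          · ring
          · intro h4
            exact h3 fun l hl => h4 l (List.mem_cons_of_mem _ hl)
      · rw [if_neg h2, if_neg]
        · ring
        · intro h4
          exact h2 (h4 a List.mem_cons_self)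
    have hw : ∀ k ∈ as.map (fun l => κ l c), ∀ g : G,
        (fun g : G => if g ∈ H a then (1 : ℤ) else 0) (k * g) =
          (fun g : G => if g ∈ H a then (1 : ℤ) else 0) g := by
      intro σ hσ g
      obtain ⟨b, hb, rfl⟩ := List.mem_map.1 hσ
      have hb' := has b (List.mem_cons_of_mem _ hb)
      have h2 : b ≠ a := fun h => hna (h ▸ hb)
      have h3 := hH.inv a ha b hb' h2 _ (hP.mem b hb' c) g
      simp only
      by_cases h4 : g ∈ H a
      · rw [if_pos h4, if_pos (h3.2 h4)]
      · rw [if_neg h4, if_neg (fun h => h4 (h3.1 h))]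
    have hsg : ∀ g : G, (as.map fun l => sg H l (κ a c * g)).prod =
        (as.map fun l => sg H l g).prod := by
      intro g
      refine congrArg List.prod (List.map_congr_left fun b hb => ?_)
      have hb' := has b (List.mem_cons_of_mem _ hb)
      have h2 : a ≠ b := fun h => hna (h.symm ▸ hb)
      have h3 := hH.inv b hb' a ha h2 _ (hP.mem a ha c) g
      unfold sg
      by_cases h4 : g ∈ H b
      · rw [if_pos h4, if_pos (h3.2 h4)]
      · rw [if_neg h4, if_neg (fun h => h4 (h3.1 h))]
    rw [List.map_cons, difs_cons, h1, difs_mul _ _ _ hw, difs_mul _ _ _ hw, ih', ih', hsg,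
      List.map_cons, List.prod_cons]
    have h2 := flip hP hH a ha g
    by_cases h3 : g ∈ H a
    · have h4 : κ a c * g ∉ H a := fun h => (h2.1 h) h3
      have h5 : sg H a g = 1 := if_pos h3
      rw [if_pos h3, if_neg h4, h5]
      ring
    · have h4 : κ a c * g ∈ H a := h2.2 h3
      have h5 : sg H a g = -1 := if_neg h3
      rw [if_neg h3, if_pos h4, h5]
      ring

private theorem difs_dec {K : ℕ → Subgroup G} {κ : ℕ → G →* G} {ls : List ℕ}
    (hP : ProdDec K κ ls) (c : G) (R : G → ℤ) (hR : R ∈ Dec K [] ls) (g : G) :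
    difs (ls.map fun l => κ l c) R g = 0 := by
  revert g
  unfold Dec at hR
  induction hR using AddSubgroup.closure_induction with
  | mem F hF =>
    intro g
    obtain ⟨l, hl, hF⟩ := hF
    refine difs_inv _ F (κ l c) (List.mem_map.2 ⟨l, hl, rfl⟩) (fun g => ?_) g
    exact hF l List.mem_cons_self _ (hP.mem l hl c) g
  | zero =>
    intro g
    have h1 := difs_mul (ls.map fun l => κ l c) (fun _ => (0 : ℤ)) (fun _ => 0)
      (fun _ _ _ => rfl) g
    have h2 : (fun g : G => (fun _ => (0 : ℤ)) g * (fun _ => (0 : ℤ)) g) = 0 := by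
      funext g
      simp
    rw [h2] at h1
    rw [h1, zero_mul]
  | add F F' _ _ h h' =>
    intro g
    have h1 : F + F' = fun g => F g + F' g := rfl
    rw [h1, difs_add, h, h', add_zero]
  | neg F _ h =>
    intro g
    have h1 : -F = fun g => (-1) * F g := by
      funext g
      simp
    rw [h1, difs_mul _ (fun _ => (-1 : ℤ)) F (fun _ _ _ => rfl), h, mul_zero]

theorem comb_odd {K : ℕ → Subgroup G} {κ : ℕ → G →* G} {ls : List ℕ} (hP : ProdDec K κ ls)
    {c : G} {H : ℕ → Set G} (hH : HalfSys K c H ls) (hlen : Odd ls.length) (N : G → ℤ)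
    (hN : ∀ ks : List G, List.Forall₂ (fun l k => k ∈ K l) ls ks →
      ∀ g, difs ks (fun g => N g - N (c * g)) g = 0) :
    ∃ R ∈ Dec K [] ls, ∃ E : G → ℤ, (∀ g, E (c * g) = E g) ∧ ∀ g, N g = R g + E g := by
  have hcc : ∀ g : G, c * (c * g) = g := by
    intro g
    rw [← mul_assoc, hH.sq, one_mul]
  have hd0 : (fun g => N g - N (c * g)) ∈ Dec K [] ls :=
    dec_of_difs K κ ls hP.nodup hP.mem hP.fix hP.one _ hN
  have hd : (fun g => N g - 1 * N (c * g)) ∈ Dec K [] ls := by
    have e : (fun g => N g - 1 * N (c * g)) = (fun g => N g - N (c * g)) := by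
      funext g
      rw [one_mul]
    rw [e]
    exact hd0
  have hinv : InvA K [] N := fun l hl => absurd hl List.not_mem_nil
  obtain ⟨κ₀, R, hR, ψ, _, hNe⟩ := comb_ind hP hH ls [] (List.Perm.refl _) 1 (Or.inl rfl) N hinv hd
  have hNe' : N = fun g => κ₀ * ind H ls g + R g + (ψ g + ψ (c * g)) := by
    funext g
    rw [hNe g, one_mul]
  -- the list of the involutions
  have hsq : ∀ σ ∈ ls.map (fun l => κ l c), σ * σ = 1 := by
    intro σ hσ
    obtain ⟨l, _, rfl⟩ := List.mem_map.1 hσ
    show κ l c * κ l c = 1
    rw [← map_mul, hH.sq, map_one]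
  have hc : ∀ (F : G → ℤ) (g : G),
      difs (ls.map fun l => κ l c) F (c * g) = - difs (ls.map fun l => κ l c) F g := by
    intro F g
    have h1 := difs_prod (ls.map fun l => κ l c) F hsq (ls.map fun l => κ l c)
      (fun τ hτ => hτ) g
    rw [← c_eq hP hH.sq, List.length_map, hlen.neg_one_pow] at h1
    rw [h1]
    ring
  have hκ : κ₀ = 0 := by
    have h1 := difs_dec hP c _ hd0 1
    rw [difs_sub, difs_shift, hc] at h1
    have h2 : difs (ls.map fun l => κ l c) N 1 = 0 := by omega
    rw [hNe', difs_add _ (fun g => κ₀ * ind H ls g + R g) (fun g => ψ g + ψ (c * g)),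
      difs_add _ (fun g => κ₀ * ind H ls g) R, difs_add _ ψ (fun g => ψ (c * g)),
      difs_shift, hc, difs_dec hP c R hR, difs_mul _ (fun _ => κ₀) (ind H ls) (fun _ _ _ => rfl),
      difs_ind hP hH ls (fun a ha => ha) hP.nodup] at h2
    have h3 : ∀ as : List ℕ, (as.map fun l => sg H l (1 : G)).prod ≠ 0 := by
      intro as
      induction as with
      | nil => simp
      | cons a as ih =>
        rw [List.map_cons, List.prod_cons]
        refine mul_ne_zero ?_ ih
        unfold sg
        split_ifs <;> norm_num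
    have h4 : κ₀ * (ls.map fun l => sg H l (1 : G)).prod = 0 := by linarith
    exact (mul_eq_zero.1 h4).resolve_right (h3 ls)
  refine ⟨R, hR, fun g => ψ g + ψ (c * g), fun g => ?_, fun g => ?_⟩
  · simp only
    rw [hcc g, add_comm]
  · rw [hNe' ]
    simp only
    rw [hκ]
    ring

end Pool.Agent.FQ
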