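import Pool.Agent.FQ.Restr

/-!
# FQ-CoreQ: removal of the large primes
-/

set_option autoImplicit false

namespace Pool.Agent.FQ

open Finset Pool.Agent.FS
open Pool.Agent.Helper9.Fermat (io io_val io_cast mul_io io_neg io_mul io_ne_zero fib mem_fib
  fib_card c_pos)

/-- the primes which are large compared to the number of elements with order divisible by them -/
def LargeQ {m : ℕ} (S : Multiset (ZMod m)) (r : ℕ) : Prop :=
  r.Prime ∧ 2 * cntp S r + 1 < r ∧
    (4 * cntp S r + 1 < r ∨ (∀ y ∈ S, ¬ 3 ∣ addOrderOf y) ∨ ∀ y ∈ S, ¬ 2 ∣ addOrderOf y)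

open Classical in
/-- the elements whose order is not divisible by a large prime -/
noncomputable def coreQ {m : ℕ} (S : Multiset (ZMod m)) : Multiset (ZMod m) :=
  S.filter fun x => ∀ r, LargeQ S r → ¬ r ∣ addOrderOf x

section

variable {m : ℕ} [NeZero m] {A : Type} [AddCommGroup A] (D : Datum m A)

theorem exists_io {c d : ℕ} [NeZero d] (hmd : m = c * d) (x : ZMod m) (hx : addOrderOf x ∣ d) :
    ∃ y : ZMod d, io c d m y = x := by
  have hd0 : 0 < d := Nat.pos_of_ne_zero (NeZero.ne d)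
  have h1 : ((d * x.val : ℕ) : ZMod m) = 0 := by
    have h := addOrderOf_dvd_iff_nsmul_eq_zero.1 hx
    rw [nsmul_eq_mul] at h
    rw [Nat.cast_mul, ZMod.natCast_val, ZMod.cast_id]
    exact h
  rw [ZMod.natCast_eq_zero_iff] at h1
  have h1' : d * c ∣ d * x.val := by
    refine dvd_trans ?_ h1
    rw [hmd, mul_comm]
  have h2 : c ∣ x.val := Nat.dvd_of_mul_dvd_mul_left hd0 h1'
  refine ⟨((x.val / c : ℕ) : ZMod d), ?_⟩
  rw [io_cast hmd, Nat.mul_div_cancel' h2, ZMod.natCast_val, ZMod.cast_id]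

/-- removal of large primes at a smaller level -/
theorem remove_level (S : Multiset (ZMod m))
    (hW : ∀ t, D.W t (S.map D.f).sum = 0) (d : ℕ) (hd : d ∣ m) (hd2 : Even d)
    (hS : ∀ x ∈ S, addOrderOf x ∣ d) (s : Finset ℕ)
    (hs : ∀ r ∈ s, r.Prime ∧ r ∣ d ∧ (4 * cntp S r + 1 < r ∨ (¬ 3 ∣ d ∧ 2 * cntp S r + 1 < r) ∨
      ((¬ 4 ∣ d ∧ ∀ x ∈ S, ¬ 2 ∣ addOrderOf x) ∧ 2 * cntp S r + 1 < r)) ∧ 3 ≤ r) :
    (S.map D.f).sum =
      ((S.filter fun x => ∀ r ∈ s, ¬ r ∣ addOrderOf x).map D.f).sum := by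
  classical
  obtain ⟨c, hmd⟩ := hd
  rw [mul_comm] at hmd
  have hd0 : NeZero d := ⟨by rintro rfl; exact NeZero.ne m (by rw [hmd, mul_zero])⟩
  obtain ⟨S', rfl⟩ : ∃ S' : Multiset (ZMod d), S'.map (io c d m) = S := by
    have hex : ∀ x : ZMod m, ∃ y : ZMod d, addOrderOf x ∣ d → io c d m y = x := by
      intro x
      by_cases hx : addOrderOf x ∣ d
      · obtain ⟨y, hy⟩ := exists_io hmd x hx
        exact ⟨y, fun _ => hy⟩
      · exact ⟨0, fun h => absurd h hx⟩
    choose g hg using hex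
    refine ⟨S.map g, ?_⟩
    rw [Multiset.map_map]
    refine (Multiset.map_congr rfl fun x hx => ?_).trans (Multiset.map_id S)
    exact hg x (hS x hx)
  have hcnt : ∀ r, cntp (S'.map (io c d m)) r = cntp S' r := by
    intro r
    unfold cntp
    rw [Multiset.filter_map, Multiset.card_map]
    congr 1
    refine Multiset.filter_congr fun x _ => ?_
    rw [Function.comp_apply, addOrderOf_io hmd]
  have h1 := RMain_remove (resD hmd D) hd2 S' s ?_ ?_
  · have h2 := congrArg (fun a : subR c d D => (a : A)) h1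
    have h3 : S'.filter (fun x => ∀ r ∈ s, ¬ r ∣ addOrderOf x) =
        S'.filter ((fun x : ZMod m => ∀ r ∈ s, ¬ r ∣ addOrderOf x) ∘ io c d m) := by
      refine Multiset.filter_congr fun x _ => ?_
      rw [Function.comp_apply, addOrderOf_io hmd]
    rw [Multiset.filter_map, ← h3]
    simp only [resD_sum] at h2
    exact h2
  · intro r hr
    have h := hs r hr
    rw [hcnt] at h
    refine ⟨h.1, h.2.1, ?_, h.2.2.2⟩
    rcases h.2.2.1 with h' | h' | ⟨⟨h4, ho⟩, h'⟩
    · exact Or.inl h'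
    · exact Or.inr (Or.inl h')
    · refine Or.inr (Or.inr ⟨⟨h4, fun x hx => ?_⟩, h'⟩)
      have h5 := ho (io c d m x) (Multiset.mem_map_of_mem _ hx)
      rwa [addOrderOf_io hmd] at h5
  · intro t
    change D.W (liftU hmd t) (((S'.map (resD hmd D).f).sum : subR c d D) : A) / c = 0
    rw [resD_sum, hW, Int.zero_ediv]

/-- The elements whose order is divisible by a large prime can be removed. -/
theorem remove_core (hm : Even m) (S : Multiset (ZMod m))
    (hW : ∀ t, D.W t (S.map D.f).sum = 0) :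
    (S.map D.f).sum = ((coreQ S).map D.f).sum := by
  classical
  have hm0 : m ≠ 0 := NeZero.ne m
  have hord : ∀ x : ZMod m, addOrderOf x ∣ m := fun x => by
    have := addOrderOf_dvd_card (x := x)
    rwa [ZMod.card] at this
  -- the set of large primes, in a level which contains all elements
  have key : ∀ d : ℕ, d ∣ m → Even d → (∀ x ∈ S, addOrderOf x ∣ d) →
      (∀ r, LargeQ S r → 4 * cntp S r + 1 < r ∨ ¬ 3 ∣ d ∨
        (¬ 4 ∣ d ∧ ∀ x ∈ S, ¬ 2 ∣ addOrderOf x)) →
      (S.map D.f).sum = ((coreQ S).map D.f).sum := by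
    intro d hd hd2 hS hl
    have hd0 : d ≠ 0 := by rintro rfl; exact hm0 (Nat.eq_zero_of_zero_dvd hd)
    rw [remove_level D S hW d hd hd2 hS
      (d.primeFactors.filter fun r => LargeQ S r ∧ 3 ≤ r) ?_]
    · congr 2
      refine Multiset.filter_congr fun x hx => ⟨fun h r hr hrx => ?_, fun h r hr => ?_⟩
      · have hcp : 0 < cntp S r := Multiset.card_pos_iff_exists_mem.2
          ⟨x, Multiset.mem_filter.2 ⟨hx, hrx⟩⟩
        refine h r ?_ hrx
        rw [mem_filter, Nat.mem_primeFactors]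
        exact ⟨⟨hr.1, hrx.trans (hS x hx), hd0⟩, hr, by have := hr.2.1; omega⟩
      · rw [mem_filter] at hr
        exact h r hr.2.1
    · intro r hr
      rw [mem_filter, Nat.mem_primeFactors] at hr
      obtain ⟨⟨hrp, hrd, _⟩, hL, h3⟩ := hr
      refine ⟨hrp, hrd, ?_, h3⟩
      rcases hl r hL with h | h | h
      · exact Or.inl h
      · exact Or.inr (Or.inl ⟨h, hL.2.1⟩)
      · exact Or.inr (Or.inr ⟨h, hL.2.1⟩)
  by_cases h3 : ∀ y ∈ S, ¬ 3 ∣ addOrderOf y
  · refine key (ordCompl[3] m) (Nat.ordCompl_dvd m 3) ?_ ?_ ?_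
    · have h4 : 2 ∣ ordProj[3] m * ordCompl[3] m := by
        rw [Nat.ordProj_mul_ordCompl_eq_self]
        exact hm.two_dvd
      exact even_iff_two_dvd.2 (Nat.Coprime.dvd_of_dvd_mul_left
        (Nat.Coprime.pow_right _ (by norm_num)) h4)
    · intro x hx
      have h4 : addOrderOf x ∣ ordProj[3] m * ordCompl[3] m := by
        rw [Nat.ordProj_mul_ordCompl_eq_self]
        exact hord x
      refine Nat.Coprime.dvd_of_dvd_mul_left (Nat.Coprime.pow_right _ ?_) h4
      exact ((Nat.Prime.coprime_iff_not_dvd Nat.prime_three).2 (h3 x hx)).symm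
    · intro r _
      exact Or.inr (Or.inl (Nat.not_dvd_ordCompl Nat.prime_three hm0))
  · by_cases h2 : ∀ y ∈ S, ¬ 2 ∣ addOrderOf y
    · have hpos : 0 < m.factorization 2 :=
        Nat.Prime.factorization_pos_of_dvd Nat.prime_two hm0 hm.two_dvd
      have hdm : 2 * ordCompl[2] m ∣ m := by
        conv_rhs => rw [← Nat.ordProj_mul_ordCompl_eq_self m 2]
        exact Nat.mul_dvd_mul_right (dvd_pow_self 2 hpos.ne') _
      refine key (2 * ordCompl[2] m) hdm (even_two_mul _) ?_ ?_
      · intro x hx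
        have h4 : addOrderOf x ∣ ordProj[2] m * ordCompl[2] m := by
          rw [Nat.ordProj_mul_ordCompl_eq_self]
          exact hord x
        refine Dvd.dvd.mul_left (Nat.Coprime.dvd_of_dvd_mul_left
          (Nat.Coprime.pow_right _ ?_) h4) 2
        exact ((Nat.Prime.coprime_iff_not_dvd Nat.prime_two).2 (h2 x hx)).symm
      · intro r _
        refine Or.inr (Or.inr ⟨fun h4 => ?_, h2⟩)
        have h5 := Nat.not_dvd_ordCompl Nat.prime_two hm0
        omega
    · refine key m dvd_rfl hm (fun x _ => hord x) ?_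
      intro r hL
      rcases hL.2.2 with h | h | h
      · exact Or.inl h
      · exact absurd h h3
      · exact absurd h h2

end

end Pool.Agent.FQ
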