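import Pool.Agent.FSU.Defs
import Pool.Agent.FQ.Chi

/-!
# Hodge characters of Fermat varieties: definitions of the version with square invariant characters

The system `Gen Z P m` contains the generators of `FSU.Gen P m` and, if `Z` holds, all Hodge
characters with an even number of elements which are invariant under the squares of the units.
-/

set_option autoImplicit false

namespace Pool.Agent.FQ

open Finset
open Pool.Agent.FS (IsHodge Datum qq hb emb rr)
open Pool.Agent.FSU (extra DatumX)

/-- invariance under the squares of the units -/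
def SqInv {m : ℕ} (S : Multiset (ZMod m)) : Prop :=
  ∀ u : (ZMod m)ˣ, (S.map fun x => (u : ZMod m) ^ 2 * x) = S

/-- The smallest system of multisets of elements of `ℤ/m` which contains the pairs, the standard
elements, the Hodge characters with four elements, the members of `extra` given by `P` and, if `Z`
holds, the Hodge characters with an even number of elements which are invariant under the squares
of the units, and is closed under joins and cancellation of pairs. -/
inductive Gen (Z : Prop) (P : Set (ℕ × ℕ)) (m : ℕ) [NeZero m] : Multiset (ZMod m) → Prop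
  | pair (x : ZMod m) (hx : x ≠ 0) : Gen Z P m {x, -x}
  | standard (r : ℕ) (hr : r.Prime) (hrm : r ∣ m) (x : ZMod m) (hx : (r : ZMod m) * x ≠ 0) :
      Gen Z P m ((univ.filter fun z : ZMod m => (r : ZMod m) * z = r * x).val + {-(r * x)} +
        (if r = 2 then {((m / 2 : ℕ) : ZMod m)} else 0))
  | surface (S : Multiset (ZMod m)) (h0 : (0 : ZMod m) ∉ S) (hc : S.card = 4)
      (hS : IsHodge S) : Gen Z P m S
  | fourfold (p q k : ℕ) (l : List ℕ) (h : (p, q, k, l) ∈ extra) (hP : (p, q) ∈ P) (hk : k ∣ m)
      (t : (ZMod m)ˣ) :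
      Gen Z P m ((l : Multiset ℕ).map fun a => (t : ZMod m) * ((m / k * a : ℕ) : ZMod m))
  | square (hZ : Z) (S : Multiset (ZMod m)) (h0 : (0 : ZMod m) ∉ S) (hc : Even S.card)
      (hS : IsHodge S) (hu : SqInv S) : Gen Z P m S
  | join (S T : Multiset (ZMod m)) (hS : Gen Z P m S) (hT : Gen Z P m T) : Gen Z P m (S + T)
  | cancel (S : Multiset (ZMod m)) (x : ZMod m) (hx : x ≠ 0) (hS : Gen Z P m (S + {x, -x})) :
      Gen Z P m S

/-- the vanishing of the square invariant Hodge characters -/
def SqV {m : ℕ} [NeZero m] {A : Type} [AddCommGroup A] (D : Datum m A) : Prop :=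
  ∀ S : Multiset (ZMod m), (0 : ZMod m) ∉ S → Even S.card → IsHodge S →
    (∀ u : (ZMod m)ˣ, (S.map fun x => (u : ZMod m) ^ 2 * x) = S) → (S.map D.f).sum = 0

/-- A datum on which the additional Hodge characters and, if `Z` holds, the square invariant Hodge
characters vanish. -/
structure DatumQ (Z : Prop) (P : Set (ℕ × ℕ)) (m : ℕ) [NeZero m] (A : Type) [AddCommGroup A]
    extends DatumX P m A where
  sq : Z → SqV toDatum

/-! ### notions used in the proof -/

instance (m : ℕ) (R : Finset ℕ) : NeZero (nR m R) :=
  ⟨Finset.prod_ne_zero_iff.2 fun l _ => (Nat.ordProj_pos m l).ne'⟩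

/-- admissible sets of primes -/
def OKR (m : ℕ) (R : Finset ℕ) : Prop := ∀ l ∈ R, l.Prime ∧ hb l ∣ m

/-- sign vectors -/
def Sgn (e : ℕ → ℤ) : Prop := ∀ l, e l = 1 ∨ e l = -1

/-- The number of elements of a set which are not congruent to `1` modulo `4`. -/
def nb (R : Finset ℕ) : ℕ := (R.filter fun l => l % 4 ≠ 1).card

/-- dependence on the residues modulo the primes of a set -/
def Dep (T : Finset ℕ) (φ : ℕ → ℤ) : Prop :=
  ∀ a b : ℕ, (∀ l ∈ T, a ≡ b [MOD hb l]) → φ a = φ b

/-- the sum over the units of the level of `R` with a weight -/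
noncomputable def Bk {m : ℕ} [NeZero m] {A : Type} [AddCommGroup A] (D : Datum m A)
    (R : Finset ℕ) (φ : ℕ → ℤ) : A :=
  ∑ w : (ZMod (nR m R))ˣ, φ (rr w) • D.f (emb m (nR m R) w)

/-- the indicator function of a quadratic class -/
def NF (R : Finset ℕ) (e : ℕ → ℤ) (a : ℕ) : ℤ :=
  if ∀ l ∈ R, chi l a = e l then 1 else 0

/-- the quadratic elements -/
noncomputable def qf {m : ℕ} [NeZero m] {A : Type} [AddCommGroup A] (D : Datum m A) (R : Finset ℕ)
    (e : ℕ → ℤ) : A :=
  Bk D R (NF R e)

/-- change of the sign at one prime -/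
def fl (l : ℕ) (e : ℕ → ℤ) : ℕ → ℤ := fun l' => if l' = l then - e l' else e l'

/-- the signs after multiplication by `l` -/
def tw (l : ℕ) (e : ℕ → ℤ) : ℕ → ℤ := fun l' => if chi l' l = -1 then - e l' else e l'

/-- the signs after multiplication by `-1` -/
def ng (e : ℕ → ℤ) : ℕ → ℤ := fun l' => if l' % 4 = 1 then e l' else - e l'

/-- the group generated by the quadratic elements of odd type for the subsets of `R` -/
def OO {m : ℕ} [NeZero m] {A : Type} [AddCommGroup A] (D : Datum m A) (R : Finset ℕ) :
    AddSubgroup A :=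
  AddSubgroup.closure {a | ∃ R' ⊆ R, Odd (nb R') ∧ ∃ e, Sgn e ∧ a = qf D R' e}

/-- the group generated by the quadratic elements of odd type for the proper subsets of `R` -/
def OL {m : ℕ} [NeZero m] {A : Type} [AddCommGroup A] (D : Datum m A) (R : Finset ℕ) :
    AddSubgroup A :=
  AddSubgroup.closure {a | ∃ R' ⊂ R, Odd (nb R') ∧ ∃ e, Sgn e ∧ a = qf D R' e}

end Pool.Agent.FQ
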