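import Mathlib

/-!
Pure algebra (only Mathlib): sign vectors.

`u T ε` are elements of an abelian group, `T` a finite set, `ε` signs, with the three properties `hcongr`, `hneg`, `hrel`.
`G 𝒯` is the subgroup generated by all `u J ε`, `J ∈ 𝒯`.

`diff_mem`: for all `K ⊆ Q` and all `a b` there is `z` in the group generated by the `u J ε`, `J ⊆ K`, with
`u K a - u K b = 2 • z`. `flip_mem`: for `s ⊆ Q` there is `z` in the group generated by the `u J ε`, `J ⊂ Q`, with
`u Q (a flipped on s) = (-1) ^ s.card • u Q a + 2 • z`. With `s = Q`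
and `hneg`: `- u Q a = u Q a + 2 • z` if `Q.card` is even.
-/

set_option autoImplicit false

namespace Pool.Agent.FQ

open Finset

private def diffFlip (s : Finset ℕ) (a : ℕ → ℤˣ) : ℕ → ℤˣ := fun l => if l ∈ s then -a l else a l

private theorem diffFlip_insert {s : Finset ℕ} {l : ℕ} (hl : l ∉ s) (a : ℕ → ℤˣ) :
    diffFlip (insert l s) a = Function.update (diffFlip s a) l (-(diffFlip s a l)) := by
  funext k
  by_cases hk : k = l
  · subst hk
    rw [Function.update_self]
    unfold diffFlip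
    rw [if_pos (mem_insert_self _ _), if_neg hl]
  · rw [Function.update_of_ne hk]
    unfold diffFlip
    by_cases hs : k ∈ s
    · rw [if_pos hs, if_pos (mem_insert_of_mem hs)]
    · rw [if_neg hs, if_neg (by rw [mem_insert, not_or]; exact ⟨hk, hs⟩)]

private theorem diff_unit {x y : ℤˣ} (h : x ≠ y) : y = -x := by
  rcases Int.units_eq_one_or x with rfl | rfl <;> rcases Int.units_eq_one_or y with rfl | rfl
  · exact absurd rfl h
  · rfl
  · rw [neg_neg]
  · exact absurd rfl h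

section

variable {A : Type} [AddCommGroup A] (u : Finset ℕ → (ℕ → ℤˣ) → A) (Q : Finset ℕ)

private def diffG (K : Finset ℕ) : AddSubgroup A :=
  AddSubgroup.closure {a | ∃ J ⊆ K, ∃ ε, a = u J ε}

private theorem diffG_mono {K K' : Finset ℕ} (h : K ⊆ K') : diffG u K ≤ diffG u K' := by
  refine AddSubgroup.closure_mono ?_
  rintro a ⟨J, hJ, ε, rfl⟩
  exact ⟨J, hJ.trans h, ε, rfl⟩

private theorem diff_mem
    (hcongr : ∀ T ⊆ Q, ∀ ε ε' : ℕ → ℤˣ, (∀ l ∈ T, ε l = ε' l) → u T ε = u T ε')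
    (hrel : ∀ T ⊆ Q, ∀ l ∈ T, ∀ ε : ℕ → ℤˣ, ∃ ε₁ : ℕ → ℤˣ,
      u T ε + u T (Function.update ε l (-ε l)) = u (T.erase l) ε - u (T.erase l) ε₁)
    (K : Finset ℕ) : K ⊆ Q → ∀ a b : ℕ → ℤˣ, ∃ z ∈ diffG u K, u K a - u K b = (2 : ℕ) • z := by
  induction K using Finset.strongInduction with
  | H K ih =>
    intro hK a b
    have hu : ∀ a, u K a ∈ diffG u K := fun a =>
      AddSubgroup.subset_closure ⟨K, Subset.refl K, a, rfl⟩
    have hone : ∀ l ∈ K, ∀ a : ℕ → ℤˣ, ∃ z ∈ diffG u K,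
        u K a - u K (Function.update a l (-a l)) = (2 : ℕ) • z := by
      intro l hl a
      obtain ⟨ε₁, hε⟩ := hrel K hK l hl a
      obtain ⟨z', hz', hz2⟩ := ih (K.erase l) (erase_ssubset hl) ((erase_subset l K).trans hK) a ε₁
      refine ⟨u K a - z', sub_mem (hu a) (diffG_mono u (erase_subset l K) hz'), ?_⟩
      rw [smul_sub, ← hz2, ← hε, two_nsmul]
      abel
    have hfl : ∀ s ⊆ K, ∃ z ∈ diffG u K, u K a - u K (diffFlip s a) = (2 : ℕ) • z := by
      intro s
      induction s using Finset.induction_on with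
      | empty =>
        intro _
        refine ⟨0, zero_mem _, ?_⟩
        have : diffFlip ∅ a = a := by
          funext l
          unfold diffFlip
          rw [if_neg (notMem_empty l)]
        rw [this, sub_self, smul_zero]
      | insert l s hl ihs =>
        intro hs
        obtain ⟨z1, hz1, e1⟩ := ihs ((subset_insert l s).trans hs)
        obtain ⟨z2, hz2, e2⟩ := hone l (hs (mem_insert_self l s)) (diffFlip s a)
        refine ⟨z1 + z2, add_mem hz1 hz2, ?_⟩
        rw [diffFlip_insert hl, smul_add, ← e1, ← e2]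
        abel
    obtain ⟨z, hz, e⟩ := hfl (K.filter fun l => a l ≠ b l) (filter_subset _ _)
    refine ⟨z, hz, ?_⟩
    rw [← e]
    congr 1
    refine hcongr K hK _ _ fun l hl => ?_
    unfold diffFlip
    by_cases h : a l = b l
    · rw [if_neg (by rw [mem_filter, not_and, not_not]; exact fun _ => h), h]
    · rw [if_pos (mem_filter.2 ⟨hl, h⟩)]
      exact diff_unit h

end

theorem even_class {A : Type} [AddCommGroup A] (u : Finset ℕ → (ℕ → ℤˣ) → A) (Q : Finset ℕ)
    (hcongr : ∀ T ⊆ Q, ∀ ε ε' : ℕ → ℤˣ, (∀ l ∈ T, ε l = ε' l) → u T ε = u T ε')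
    (hneg : ∀ T ⊆ Q, ∀ ε : ℕ → ℤˣ, u T (fun l => -ε l) = - u T ε)
    (hrel : ∀ T ⊆ Q, ∀ l ∈ T, ∀ ε : ℕ → ℤˣ, ∃ ε₁ : ℕ → ℤˣ,
      u T ε + u T (Function.update ε l (-ε l)) = u (T.erase l) ε - u (T.erase l) ε₁)
    (hempty : ∀ ε, u ∅ ε = 0) (heven : Even Q.card) (ε : ℕ → ℤˣ) :
    ∃ z ∈ AddSubgroup.closure {a | ∃ J ⊂ Q, ∃ ε, a = u J ε}, (2 : ℕ) • (u Q ε + z) = 0 := by
  have hfl : ∀ s ⊆ Q, ∃ z ∈ AddSubgroup.closure {a | ∃ J ⊂ Q, ∃ ε, a = u J ε},
      u Q (diffFlip s ε) = (-1 : ℤ) ^ s.card • u Q ε + (2 : ℕ) • z := by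
    intro s
    induction s using Finset.induction_on with
    | empty =>
      intro _
      refine ⟨0, zero_mem _, ?_⟩
      have : diffFlip ∅ ε = ε := by
        funext l
        unfold diffFlip
        rw [if_neg (notMem_empty l)]
      rw [this, smul_zero, card_empty, pow_zero, one_smul, add_zero]
    | insert l s hl ihs =>
      intro hs
      obtain ⟨z1, hz1, e1⟩ := ihs ((subset_insert l s).trans hs)
      have hlQ : l ∈ Q := hs (mem_insert_self l s)
      obtain ⟨ε₁, hε⟩ := hrel Q (Subset.refl Q) l hlQ (diffFlip s ε)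
      obtain ⟨z', hz', e2⟩ := diff_mem u Q hcongr hrel (Q.erase l) (erase_subset l Q)
        (diffFlip s ε) ε₁
      have hz'' : z' ∈ AddSubgroup.closure {a | ∃ J ⊂ Q, ∃ ε, a = u J ε} := by
        refine AddSubgroup.closure_mono ?_ hz'
        rintro a ⟨J, hJ, ε, rfl⟩
        exact ⟨J, lt_of_le_of_lt hJ (erase_ssubset hlQ), ε, rfl⟩
      refine ⟨z' - z1, sub_mem hz'' hz1, ?_⟩
      have e3 : u Q (diffFlip (insert l s) ε) =
          -u Q (diffFlip s ε) + (u (Q.erase l) (diffFlip s ε) - u (Q.erase l) ε₁) := by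
        rw [diffFlip_insert hl, ← hε]
        abel
      rw [e3, e2, e1, card_insert_of_notMem hl, pow_succ, mul_neg_one, neg_smul, smul_sub]
      abel
  obtain ⟨z, hz, e⟩ := hfl Q (Subset.refl Q)
  refine ⟨z, hz, ?_⟩
  have e1 : u Q (diffFlip Q ε) = -u Q ε := by
    rw [← hneg Q (Subset.refl Q)]
    refine hcongr Q (Subset.refl Q) _ _ fun l hl => ?_
    unfold diffFlip
    rw [if_pos hl]
  rw [e1, heven.neg_one_pow, one_smul] at e
  rw [smul_add, two_nsmul (u Q ε), add_assoc, ← e]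
  abel

end Pool.Agent.FQ
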