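import Pool.Agent.FF.T4
import Pool.Agent.FQ.CombOdd
import Pool.Agent.FS.Main

/-!
# FQ-Fam: the chain of levels for a family of sets of primes

`nR m R` is the product of the `l`-parts of `m`, `l ∈ R`. `Killer D R L` says that at the level
`nR m R` there is a combination with odd parity which comes from the levels `L`.
`zero_of_family`: if `F` is a family of sets of primes, closed under subsets, with killers for the
sets `R` with an even number of elements (`L` = levels of the members of `F` with fewer elements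
than `R`), then an element of the levels `nR m R`, `R ∈ F`, with zero weights is zero.
-/

set_option autoImplicit false

namespace Pool.Agent.FQ

open Finset Pool.Agent.FS
open Pool.Agent.FF
open Pool.Agent.Helper9.Fermat (fib mem_fib)

/-- the level of a set of primes -/
def nR (m : ℕ) (R : Finset ℕ) : ℕ := ∏ l ∈ R, qq m l

/-- the levels of the proper subsets -/
def lowR (m : ℕ) (R : Finset ℕ) : Set ℕ := {n | ∃ R' ⊂ R, n = nR m R'}

/-- the levels of the members of a family with fewer elements than `R` -/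
def lowF (m : ℕ) (F : Finset (Finset ℕ)) (R : Finset ℕ) : Set ℕ :=
  {n | ∃ R' ∈ F, R'.card < R.card ∧ n = nR m R'}

section

variable {m : ℕ} [NeZero m]

theorem nR_dvd {R : Finset ℕ} (hR : ∀ l ∈ R, l.Prime) : nR m R ∣ m := prod_qq_dvd R hR

theorem nR_ne {R : Finset ℕ} (hR : ∀ l ∈ R, l.Prime) : nR m R ≠ 0 :=
  fun h => NeZero.ne m (Nat.eq_zero_of_zero_dvd (h ▸ nR_dvd hR))

omit [NeZero m] in
theorem qq_dvd_nR {R : Finset ℕ} {l : ℕ} (hl : l ∈ R) : qq m l ∣ nR m R :=
  dvd_prod_of_mem _ hl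

omit [NeZero m] in
theorem mem_of_dvd_nR {R : Finset ℕ} (hR : ∀ l ∈ R, l.Prime) {l : ℕ} (hl : l.Prime)
    (h : l ∣ nR m R) : l ∈ R := by
  rw [nR, Prime.dvd_finsetProd_iff hl.prime] at h
  obtain ⟨l', hl', h2⟩ := h
  have h3 : l ∣ l' := hl.dvd_of_dvd_pow h2
  rw [(Nat.prime_dvd_prime_iff_eq hl (hR l' hl')).1 h3]
  exact hl'

theorem nR_unitary {R : Finset ℕ} (hR : ∀ l ∈ R, l.Prime) :
    (nR m R).Coprime (m / nR m R) :=
  unitary (nR_dvd hR) fun _ hl h => qq_dvd_nR (mem_of_dvd_nR hR hl h)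

omit [NeZero m] in
theorem ordCompl_nR {R : Finset ℕ} (hR : ∀ l ∈ R, l.Prime) {l : ℕ} (hl : l ∈ R) :
    ordCompl[l] (nR m R) = nR m (R.erase l) := by
  have h1 : nR m R = l ^ m.factorization l * nR m (R.erase l) := by
    unfold nR
    rw [← mul_prod_erase R _ hl]
    rfl
  rw [h1]
  refine ordCompl_pow_mul (hR l hl) fun h => ?_
  exact notMem_erase l R (mem_of_dvd_nR (fun a ha => hR a (mem_of_mem_erase ha)) (hR l hl) h)

variable {A : Type} [AddCommGroup A] (D : Datum m A)

/-- a combination of odd parity at the level of `R` which comes from the levels `L` -/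
def Killer (R : Finset ℕ) (L : Set ℕ) : Prop :=
  ∀ (n : ℕ) [NeZero n], n = nR m R → ∀ κ : ℕ → (ZMod n)ˣ →* (ZMod n)ˣ, IsProj n κ R.toList →
    ∃ N : (ZMod n)ˣ → ℤ, ∑ w : (ZMod n)ˣ, N w • D.f (emb m n w) ∈ D.lev L ∧
      ∃ g, Odd (oss (R.toList.map fun l => κ l (-1)) N g)

variable {D} in
theorem Killer.mono {R : Finset ℕ} {L L' : Set ℕ} (h : Killer D R L) (hL : L ⊆ L') :
    Killer D R L' := by
  intro n _ hn κ hκ
  obtain ⟨N, h1, h2⟩ := h n hn κ hκ
  exact ⟨N, lev_mono D hL h1, h2⟩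

theorem T_odd {n : ℕ} [NeZero n] (hn : n ∣ m) (hu : n.Coprime (m / n)) (ls : List ℕ)
    (hnd : ls.Nodup) (hlen : Odd ls.length) (hp : ∀ l ∈ ls, l.Prime ∧ hb l ∣ n)
    (hall : ∀ l : ℕ, l.Prime → l ∣ n → l ∈ ls) (L : Set ℕ) (hL : ∀ n' ∈ L, ∃ l ∈ ls, ¬ l ∣ n')
    (hLo : ∀ l ∈ ls, ordCompl[l] n ∈ L)
    (N : (ZMod n)ˣ → ℤ) (b : A) (hb : b ∈ D.lev L)
    (hW : ∀ t : (ZMod m)ˣ, D.W t (∑ w : (ZMod n)ˣ, N w • D.f (emb m n w) + b) = 0) :
    ∑ w : (ZMod n)ˣ, N w • D.f (emb m n w) ∈ D.lev L := by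
  have hdvhb : ∀ l : ℕ, l ∣ Pool.Agent.FS.hb l := by
    intro l
    unfold Pool.Agent.FS.hb
    split_ifs with h2
    · rw [h2]; norm_num
    · exact dvd_rfl
  have hp1 : ∀ l ∈ ls, l.Prime := fun l hl => (hp l hl).1
  have hp2 : ∀ l ∈ ls, l.Prime ∧ l ∣ n := fun l hl => ⟨hp1 l hl, (hdvhb l).trans (hp l hl).2⟩
  obtain ⟨κ, hκ⟩ := exists_proj n ls hp1
  have hP := proj_dec n ls hnd hp1 hall κ hκ
  have hH := half_sys n ls hp
  obtain ⟨R, hR, E, hE, hNE⟩ := comb_odd hP hH hlen N
    (fun ks hks g => mixed D hn hu ls hp2 hall L hL N b hb hW ks hks g)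
  have h3 : 3 ≤ n := by
    obtain ⟨l, hl⟩ : ∃ l, l ∈ ls := List.exists_mem_of_ne_nil ls (by
      rintro rfl
      simp at hlen)
    have h1 : 3 ≤ Pool.Agent.FS.hb l := by
      unfold Pool.Agent.FS.hb
      split_ifs with h2
      · norm_num
      · have := (hp1 l hl).two_le
        omega
    exact h1.trans (Nat.le_of_dvd (Nat.pos_of_ne_zero (NeZero.ne n)) (hp l hl).2)
  have h4 : ∑ w : (ZMod n)ˣ, N w • D.f (emb m n w) =
      ∑ w : (ZMod n)ˣ, R w • D.f (emb m n w) + ∑ w : (ZMod n)ˣ, E w • D.f (emb m n w) := by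
    rw [← Finset.sum_add_distrib]
    exact Finset.sum_congr rfl fun w _ => by rw [← add_smul, ← hNE]
  rw [h4, even_sum D hn h3 E hE, add_zero]
  exact dec_mem D hn hu ls hp2 L hLo R hR

private theorem oss_sub {G : Type*} [CommGroup G] (σs : List G) (F F' : G → ℤ) (g : G) :
    oss σs (fun g => F g - F' g) g = oss σs F g - oss σs F' g := by
  induction σs generalizing g with
  | nil => rfl
  | cons σ σs ih =>
    have e : ∀ (F : G → ℤ) (g : G), oss (σ :: σs) F g = oss σs F g + oss σs F (σ * g) :=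
      fun _ _ => rfl
    rw [e, e, e, ih, ih]
    ring

/-- removal of the level of one set of primes -/
theorem stepR {R : Finset ℕ} (hR : ∀ l ∈ R, l.Prime ∧ 3 ≤ qq m l) (hne : R.Nonempty)
    (L : Set ℕ) (hkill : Even R.card → Killer D R L) (hL : ∀ n' ∈ L, ∃ l ∈ R, ¬ l ∣ n')
    (hlow : lowR m R ⊆ L) (a : A) (ha : a ∈ D.lev (insert (nR m R) L))
    (hW : ∀ t, D.W t a = 0) : a ∈ D.lev L := by
  have hRp : ∀ l ∈ R, l.Prime := fun l hl => (hR l hl).1
  have hnm := nR_dvd (m := m) hRp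
  have hn0 := nR_ne (m := m) hRp
  have hu := nR_unitary (m := m) hRp
  obtain ⟨n, hn⟩ : ∃ n, n = nR m R := ⟨_, rfl⟩
  have hpL : ∀ l ∈ R.toList, l.Prime ∧ Pool.Agent.FS.hb l ∣ n := by
    intro l hl
    rw [mem_toList] at hl
    refine ⟨hRp l hl, ?_⟩
    rw [hn]
    exact (hb_dvd_qq' (hR l hl).2).trans (qq_dvd_nR hl)
  have hall : ∀ l : ℕ, l.Prime → l ∣ n → l ∈ R.toList := by
    intro l hl h
    rw [mem_toList]
    rw [hn] at h
    exact mem_of_dvd_nR hRp hl h
  have hLo : ∀ l ∈ R.toList, ordCompl[l] n ∈ L := by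
    intro l hl
    rw [mem_toList] at hl
    rw [hn, ordCompl_nR hRp hl]
    exact hlow ⟨R.erase l, erase_ssubset hl, rfl⟩
  have hL' : ∀ n' ∈ L, ∃ l ∈ R.toList, ¬ l ∣ n' := by
    intro n' hn'
    obtain ⟨l, hl, h⟩ := hL n' hn'
    exact ⟨l, mem_toList.2 hl, h⟩
  rw [← hn] at hnm hn0 hu ha
  have : NeZero n := ⟨hn0⟩
  obtain ⟨N, b, hb, rfl⟩ := exists_coeff D hnm L ha
  refine add_mem ?_ hb
  rcases Nat.even_or_odd R.card with hev | hodd
  · obtain ⟨κ, hκ⟩ := exists_proj n R.toList fun l hl => (hpL l hl).1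
    have hlen : Even R.toList.length := by rw [length_toList]; exact hev
    have hnl : R.toList ≠ [] := by
      rw [ne_eq, toList_eq_nil]
      exact hne.ne_empty
    by_cases hpar : ∃ g, Even (oss (R.toList.map fun l => κ l (-1)) N g)
    · exact T4 D hnm hu R.toList (nodup_toList R) hlen hnl hpL hall L hL' hLo κ hκ N b hb hW hpar
    · push Not at hpar
      obtain ⟨N', hN', g, hg⟩ := hkill hev n hn κ hκ
      have hN'L := hN'
      have e : ∑ w : (ZMod n)ˣ, (N w - N' w) • D.f (emb m n w) =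
          ∑ w : (ZMod n)ˣ, N w • D.f (emb m n w) - ∑ w : (ZMod n)ˣ, N' w • D.f (emb m n w) := by
        rw [← Finset.sum_sub_distrib]
        exact Finset.sum_congr rfl fun w _ => by rw [sub_smul]
      have h1 : ∑ w : (ZMod n)ˣ, (N w - N' w) • D.f (emb m n w) ∈ D.lev L := by
        refine T4 D hnm hu R.toList (nodup_toList R) hlen hnl hpL hall L hL' hLo κ hκ
          (fun w => N w - N' w) (∑ w : (ZMod n)ˣ, N' w • D.f (emb m n w) + b)
          (add_mem hN'L hb) ?_ ⟨g, ?_⟩
        · intro t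
          have h2 := hW t
          rw [e]
          have h3 : ∑ w : (ZMod n)ˣ, N w • D.f (emb m n w) -
              ∑ w : (ZMod n)ˣ, N' w • D.f (emb m n w) +
              (∑ w : (ZMod n)ˣ, N' w • D.f (emb m n w) + b) =
              ∑ w : (ZMod n)ˣ, N w • D.f (emb m n w) + b := by abel
          rw [h3]
          exact h2
        · rw [oss_sub]
          exact (Int.not_even_iff_odd.1 (hpar g)).sub_odd hg
      have h2 : ∑ w : (ZMod n)ˣ, N w • D.f (emb m n w) =
          ∑ w : (ZMod n)ˣ, (N w - N' w) • D.f (emb m n w) +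
            ∑ w : (ZMod n)ˣ, N' w • D.f (emb m n w) := by
        rw [e]
        abel
      rw [h2]
      exact add_mem h1 hN'L
  · exact T_odd D hnm hu R.toList (nodup_toList R) (by rw [length_toList]; exact hodd) hpL hall L
      hL' hLo N b hb hW

/-- the levels of a family -/
def levF (m : ℕ) (F : Finset (Finset ℕ)) : Set ℕ := {n | ∃ R ∈ F, n = nR m R}

theorem zero_of_family (F₀ : Finset (Finset ℕ)) (hpr : ∀ R ∈ F₀, ∀ l ∈ R, l.Prime ∧ 3 ≤ qq m l)
    (hdc : ∀ R ∈ F₀, ∀ R' ⊆ R, R' ∈ F₀)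
    (hkill : ∀ R ∈ F₀, R.Nonempty → Even R.card → Killer D R (lowF m F₀ R)) (N : ℕ) :
    ∀ F ⊆ F₀, F.card = N → (∀ R ∈ F₀, R ∉ F → ∀ T ∈ F, T.card ≤ R.card) →
    ∀ a : A, a ∈ D.lev (levF m F) → (∀ t, D.W t a = 0) → a = 0 := by
  induction N with
  | zero =>
    intro F _ hN _ a ha _
    rw [card_eq_zero] at hN
    subst hN
    have h1 : levF m ∅ = ∅ := by
      ext n
      simp [levF]
    rw [h1] at ha
    have h2 : D.lev (∅ : Set ℕ) = ⊥ := by
      unfold Datum.lev
      rw [eq_bot_iff, AddSubgroup.closure_le]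
      rintro _ ⟨z, hz, _⟩
      exact absurd hz (Set.notMem_empty _)
    rw [h2, AddSubgroup.mem_bot] at ha
    exact ha
  | succ N ih =>
    intro F hF hN hinv a ha hW
    have hneF : F.Nonempty := card_pos.1 (by omega)
    obtain ⟨T, hTF, hmax⟩ := exists_max_image F card hneF
    have hTF₀ := hF hTF
    have hcard : (F.erase T).card = N := by rw [card_erase_of_mem hTF, hN]; rfl
    have hT' : ∀ R ∈ F.erase T, ¬ T ⊆ R := by
      intro R hR hTR
      rw [mem_erase] at hR
      exact hR.1 (eq_of_subset_of_card_le hTR (hmax R hR.2)).symm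
    -- sets with fewer elements are members
    have hsm : ∀ R ∈ F₀, R.card < T.card → R ∈ F.erase T := by
      intro R hR hlt
      rw [mem_erase]
      refine ⟨?_, ?_⟩
      · rintro rfl
        exact absurd hlt (lt_irrefl _)
      · by_contra h
        exact absurd (hinv R hR h T hTF) (by omega)
    refine ih (F.erase T) ((erase_subset T F).trans hF) hcard ?_ a ?_ hW
    · intro R hR hRF T' hT'F
      have hT'F' := mem_of_mem_erase hT'F
      by_cases h : R ∈ F
      · have h2 : R = T := by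
          by_contra h3
          exact hRF (mem_erase.2 ⟨h3, h⟩)
        rw [h2]
        exact hmax T' hT'F'
      · exact hinv R hR h T' hT'F'
    · have h1 : levF m F ⊆ insert (nR m T) (levF m (F.erase T)) := by
        rintro n ⟨R, hR, rfl⟩
        by_cases h : R = T
        · exact Or.inl (by rw [h])
        · exact Or.inr ⟨R, mem_erase.2 ⟨h, hR⟩, rfl⟩
      have ha' := lev_mono D h1 ha
      rcases T.eq_empty_or_nonempty with hTe | hTne
      · -- the level one
        have h2 : D.lev (insert (nR m T) (levF m (F.erase T))) ≤ D.lev (levF m (F.erase T)) := by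
          unfold Datum.lev
          rw [AddSubgroup.closure_le]
          rintro b ⟨z, hz, rfl⟩
          rcases hz with hz | hz
          · rw [hTe, nR, prod_empty, AddMonoid.addOrderOf_eq_one_iff] at hz
            rw [hz, D.zero]
            exact AddSubgroup.zero_mem _
          · exact AddSubgroup.subset_closure ⟨z, hz, rfl⟩
        exact h2 ha'
      · refine stepR D (hpr T hTF₀) hTne _ (fun hev => (hkill T hTF₀ hTne hev).mono ?_) ?_ ?_
          a ha' hW
        · rintro n ⟨R, hR, hlt, rfl⟩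
          exact ⟨R, hsm R hR hlt, rfl⟩
        · rintro n' ⟨R, hR, rfl⟩
          obtain ⟨l, hl, hlR⟩ := not_subset.1 (hT' R hR)
          refine ⟨l, hl, fun h => hlR ?_⟩
          exact mem_of_dvd_nR (fun a ha => (hpr R (hF (mem_of_mem_erase hR)) a ha).1)
            (hpr T hTF₀ l hl).1 h
        · rintro n' ⟨R, hR, rfl⟩
          exact ⟨R, hsm R (hdc T hTF₀ R hR.subset) (card_lt_card hR), rfl⟩

end

end Pool.Agent.FQ
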