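import Pool.Agent.FQ.KillPP
import Pool.Agent.FS.RMain

/-!
# FQ-MainA: the main theorem for allowed orders and large primes
-/

set_option autoImplicit false

namespace Pool.Agent.FQ

open Finset Pool.Agent.FS
open Pool.Agent.FF

section

variable {m : ℕ} [NeZero m] {A : Type} [AddCommGroup A] (D : Datum m A)

/-- every order is the product of an allowed number and of a number all of whose prime factors are
large compared to the number of elements of `S` with order divisible by them -/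
def OrdA (Al : Finset ℕ → Prop) (S : Multiset (ZMod m)) : Prop :=
  ∀ x ∈ S, ∃ a b : ℕ, addOrderOf x = a * b ∧ GoodA Al a ∧
    ∀ p : ℕ, p.Prime → p ∣ b → 2 * cntp S p + 1 < p ∧
      (4 * cntp S p + 1 < p ∨ ¬ 3 ∣ m ∨ (¬ 4 ∣ m ∧ ∀ y ∈ S, ¬ 2 ∣ addOrderOf y))

theorem mainA (hm : Even m) {Al : Finset ℕ → Prop} (hAl : ∀ T, Al T → ∀ T' ⊆ T, Al T')
    (hkill : ∀ R, R ⊆ prs m → Al R → R.Nonempty → Even R.card →
      Killer D R (lowF m (famA Al m) R))
    (S : Multiset (ZMod m)) (hgood : OrdA Al S) (hW : ∀ t, D.W t (S.map D.f).sum = 0) :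
    (S.map D.f).sum = 0 := by
  classical
  have hm0 : m ≠ 0 := NeZero.ne m
  -- the large primes
  set s : Finset ℕ := m.primeFactors.filter fun r =>
    (4 * cntp S r + 1 < r ∨ (¬ 3 ∣ m ∧ 2 * cntp S r + 1 < r) ∨
      ((¬ 4 ∣ m ∧ ∀ x ∈ S, ¬ 2 ∣ addOrderOf x) ∧ 2 * cntp S r + 1 < r)) ∧ 3 ≤ r with hs
  have hrem := RMain_remove D hm S s (by
    intro r hr
    rw [hs, mem_filter, Nat.mem_primeFactors] at hr
    exact ⟨hr.1.1, hr.1.2.1, hr.2.1, hr.2.2⟩) hW
  rw [hrem]
  refine zero_of_allowed D hAl hm.two_dvd hkill _ ?_ fun t => by rw [← hrem]; exact hW t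
  refine AddSubgroup.multiset_sum_mem _ _ ?_
  intro a ha
  rw [Multiset.mem_map] at ha
  obtain ⟨x, hx, rfl⟩ := ha
  rw [Multiset.mem_filter] at hx
  refine AddSubgroup.subset_closure ⟨x, ?_, rfl⟩
  obtain ⟨a, b, hab, hga, hb⟩ := hgood x hx.1
  have hxm : addOrderOf x ∣ m := by
    have := addOrderOf_dvd_card (x := x)
    rwa [ZMod.card] at this
  have hb1 : b = 1 := by
    by_contra hne
    obtain ⟨p, hp, hpb⟩ := Nat.exists_prime_and_dvd hne
    have hpx : p ∣ addOrderOf x := hab ▸ hpb.mul_left a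
    refine hx.2 p ?_ hpx
    have hc : 0 < cntp S p := Multiset.card_pos_iff_exists_mem.2
      ⟨x, Multiset.mem_filter.2 ⟨hx.1, hpx⟩⟩
    rw [hs, mem_filter, Nat.mem_primeFactors]
    obtain ⟨h1, h2⟩ := hb p hp hpb
    refine ⟨⟨hp, hpx.trans hxm, hm0⟩, ?_, by omega⟩
    rcases h2 with h | h | h
    · exact Or.inl h
    · exact Or.inr (Or.inl ⟨h, h1⟩)
    · exact Or.inr (Or.inr ⟨h, h1⟩)
  rw [hab, hb1, mul_one]
  exact hga

/-- the weights vanish for Hodge characters -/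
theorem W_of_hodge {S : Multiset (ZMod m)} (h0 : (0 : ZMod m) ∉ S) (hS : IsHodge S)
    (t : (ZMod m)ˣ) : D.W t (S.map D.f).sum = 0 := by
  rw [W_hodge D S h0 t]
  have h3 := hS t
  have h4 : (2 : ℤ) * (((S.map fun x => ((t : ZMod m) * x).val).sum : ℕ) : ℤ) =
      m * S.card := by exact_mod_cast h3
  rw [h4, sub_self]

end

end Pool.Agent.FQ
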