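import Pool.Agent.SP.FinS
import Pool.Agent.FQ.MainA

/-!
# The main theorem for a datum: allowed sets of primes, sparse parts, large primes
-/

set_option autoImplicit false

namespace Pool.Agent.FQ

open Finset Pool.Agent.FS
open Pool.Agent.FF
open Pool.Agent.SP (cntW cntT Reg chainS dbl hh FinS_hh Large core)

/-- The condition on the number of elements for the sets of primes which are not allowed. -/
def SparseG {m : ℕ} (Al : Finset ℕ → Prop) (S : Multiset (ZMod m)) : Prop :=
  ∀ T : Finset ℕ, (∀ l ∈ T, l.Prime) → ¬ Al T → ∀ p ∈ T, ∀ q ∈ T, p < q →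
    cntW S T < hh p * hh q ∨ (p = 5 ∧ q = 7 ∧ T ≠ {5, 7} ∧ cntW S T < 10)

section

variable {m : ℕ} [NeZero m] {A : Type} [AddCommGroup A] (D : Datum m A)
  {Al : Finset ℕ → Prop} (hAl : ∀ T, Al T → ∀ T' ⊆ T, Al T')

include hAl

/-- the case without large primes -/
theorem zeroG (hm : 2 ∣ m)
    (hkill : ∀ R, R ⊆ prs m → Al R → R.Nonempty → Even R.card →
      Killer D R (lowF m (famA Al m) R))
    (S : Multiset (ZMod m)) (hc : SparseG Al S)
    (hW : ∀ t, D.W t (S.map D.f).sum = 0) : (S.map D.f).sum = 0 := by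
  classical
  obtain ⟨S', hreg, hf, hcnt⟩ := dbl (A := A) hm S
  have hf' := hf D
  have hW' : ∀ t, D.W t (S'.map D.f).sum = 0 := fun t => by rw [← hf']; exact hW t
  have hcS : ∀ T : Finset ℕ, (∀ l ∈ T, l.Prime) → ¬ Al T → ∀ p ∈ T, ∀ q ∈ T, p < q →
      cntT S' T < hh p * hh q ∨ (p = 5 ∧ q = 7 ∧ cntT S' T < 10 ∧ ∃ r ∈ T, 3 < hh r) := by
    intro T hTp hT p hp q hq hpq
    rw [hcnt T hTp]
    rcases hc T hTp hT p hp q hq hpq with h | ⟨rfl, rfl, hT57, h⟩
    · exact Or.inl h
    · by_cases hr : ∃ r ∈ T, 7 < r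
      · obtain ⟨r, hrT, hr⟩ := hr
        exact Or.inr ⟨rfl, rfl, h, r, hrT, FinS_hh (hTp r hrT) hr⟩
      · push Not at hr
        obtain ⟨s, hs, hs5, hs7⟩ : ∃ s ∈ T, s ≠ 5 ∧ s ≠ 7 := by
          by_contra hcon
          push Not at hcon
          apply hT57
          ext s
          rw [mem_insert, mem_singleton]
          constructor
          · intro hs
            by_cases h5 : s = 5
            · exact Or.inl h5
            · exact Or.inr (hcon s hs h5)
          · rintro (rfl | rfl)
            · exact hp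
            · exact hq
        have hs1 := hr s hs
        have hsp := hTp s hs
        have hs2 := hsp.two_le
        have h23 : s = 2 ∨ s = 3 := by
          have h4 : s ≠ 4 := by rintro rfl; exact absurd hsp (by norm_num)
          have h6 : s ≠ 6 := by rintro rfl; exact absurd hsp (by norm_num)
          omega
        rcases hc T hTp hT s hs 7 hq (by omega) with h' | ⟨h', _⟩
        · left
          have e1 : hh 5 = 2 := by decide
          have e2 : hh 2 = 1 := by decide
          have e3 : hh 3 = 1 := by decide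
          rcases h23 with rfl | rfl
          · rw [e2] at h'
            rw [e1]
            omega
          · rw [e3] at h'
            rw [e1]
            omega
        · exact absurd h' hs5
  obtain ⟨S₁, h1, h2⟩ := chainS D Al (fun T hT l _ => hAl T hT _ (erase_subset _ _)) S'
    hreg hcS hW'
  have h3 : (S'.map D.f).sum = (S₁.map D.f).sum := h2
  rw [hf', h3]
  refine zero_of_allowed D hAl hm hkill _ ?_ fun t => by rw [← h3]; exact hW' t
  refine AddSubgroup.multiset_sum_mem _ _ ?_
  intro a ha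
  obtain ⟨x, hx, rfl⟩ := Multiset.mem_map.1 ha
  exact AddSubgroup.subset_closure
    ⟨x, ⟨addOrderOf x, Or.inl rfl, (h1 x hx).2⟩, rfl⟩

/-- The main theorem for a datum. -/
theorem mainG (hm : Even m)
    (hkill : ∀ R, R ⊆ prs m → Al R → R.Nonempty → Even R.card →
      Killer D R (lowF m (famA Al m) R))
    (S : Multiset (ZMod m)) (h0 : (0 : ZMod m) ∉ S) (hc : SparseG Al (core S))
    (hS : IsHodge S) : (S.map D.f).sum = 0 := by
  classical
  have hm0 : m ≠ 0 := NeZero.ne m
  have hW : ∀ t, D.W t (S.map D.f).sum = 0 := W_of_hodge D h0 hS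
  -- the large primes
  set s : Finset ℕ := m.primeFactors.filter fun r => Large S r ∧ 3 ≤ r with hs
  have hrem := RMain_remove D hm S s (by
    intro r hr
    rw [hs, mem_filter, Nat.mem_primeFactors] at hr
    obtain ⟨⟨hrp, hrm, _⟩, ⟨_, h1, h2⟩, h3⟩ := hr
    refine ⟨hrp, hrm, ?_, h3⟩
    rcases h2 with h2 | h2 | h2
    · exact Or.inl h2
    · exact Or.inr (Or.inl ⟨h2, h1⟩)
    · exact Or.inr (Or.inr ⟨h2, h1⟩)) hW
  have hcore : (S.filter fun x => ∀ r ∈ s, ¬ r ∣ addOrderOf x) = core S := by
    refine Multiset.filter_congr fun x hx => ⟨fun h r hr hrx => ?_, fun h r hr => ?_⟩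
    · have hxm : addOrderOf x ∣ m := by
        have := addOrderOf_dvd_card (x := x)
        rwa [ZMod.card] at this
      have hcp : 0 < cntp S r := Multiset.card_pos_iff_exists_mem.2
        ⟨x, Multiset.mem_filter.2 ⟨hx, hrx⟩⟩
      refine h r ?_ hrx
      rw [hs, mem_filter, Nat.mem_primeFactors]
      exact ⟨⟨hr.1, hrx.trans hxm, hm0⟩, hr, by have := hr.2.1; omega⟩
    · rw [hs, mem_filter] at hr
      exact h r hr.2.1
  rw [hcore] at hrem
  rw [hrem]
  exact zeroG D hAl hm.two_dvd hkill (core S) hc fun t => by rw [← hrem]; exact hW t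

end

end Pool.Agent.FQ
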