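import Pool.Agent.FQ.Norm2
import Pool.Agent.FQ.Calc

/-!
# FQ-Flip: the relations between the quadratic elements

Plan.
* `chi_neg1`: `chi l b = chi l a` if `l % 4 = 1` and `a + b ≡ 0 [MOD hb l]` (as `chi_neg` in
  `Pool/Agent/FQ/Chi.lean`, with `ZMod.χ₄_nat_one_mod_four`).
* `qf_congr`: clear.
* `qf_flip`: for residues prime to `R`: `NF R e + NF R (fl l e) = NF (R.erase l) e` (`chi l a` is
  `e l` or `- e l`), which satisfies `Dep (R.erase l)` (`chi_mod`), so `bk_add` and `bk_norm` give
  `Bk D (R.erase l) (fun a => NF (R.erase l) e a - NF (R.erase l) e (l * a))`; and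
  `NF (R.erase l) e (l * a) = NF (R.erase l) (tw l e) a`, since for `l' ∈ R.erase l`
  `chi l' (l * a) = chi l' l * chi l' a` with `chi l' l = ± 1` (`chi_sq`: different primes are
  coprime). Use `bk_congr`, `bk_sub`.
* `qf_ng`: `bk_neg` with `chi_neg` (`l % 4 ≠ 1`; a prime with `l % 4 ≠ 1` satisfies `PPr`) and
  `chi_neg1`.
* `qf_zero`: `bk_even` (or `bk_empty` for the empty set), since all `chi l` are even.
-/

set_option autoImplicit false

namespace Pool.Agent.FQ

open Finset Pool.Agent.FS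

variable {m : ℕ} [NeZero m] {A : Type} [AddCommGroup A] (D : Datum m A)

theorem chi_neg1 {l a b : ℕ} (hl : l.Prime) (h1 : l % 4 = 1) (h : a + b ≡ 0 [MOD hb l]) :
    chi l b = chi l a := by
  have h2 : l ≠ 2 := by
    intro h3
    rw [h3] at h1
    omega
  unfold chi
  unfold hb at h
  rw [if_neg h2] at h
  rw [if_neg h2, if_neg h2]
  have hodd : Odd l := Nat.odd_iff.2 (by omega)
  have h3 : ((b : ℤ)) % l = (-(a : ℤ)) % l := by
    have h4 : (l : ℤ) ∣ (a : ℤ) + b := by
      have h5 : l ∣ a + b := (Nat.modEq_zero_iff_dvd).1 h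
      exact_mod_cast h5
    have h6 : (-(a : ℤ)) ≡ (b : ℤ) [ZMOD l] := by
      rw [Int.modEq_iff_dvd]
      have h5 : (b : ℤ) - -(a : ℤ) = (a : ℤ) + b := by ring
      rw [h5]
      exact h4
    exact h6.symm
  rw [jacobiSym.mod_left (b : ℤ), h3, ← jacobiSym.mod_left, jacobiSym.neg _ hodd,
    ZMod.χ₄_nat_one_mod_four h1]
  ring

theorem qf_congr {R : Finset ℕ} {e e' : ℕ → ℤ} (h : ∀ l ∈ R, e l = e' l) :
    qf D R e = qf D R e' := by
  unfold qf
  congr 1
  funext a
  unfold NF
  refine if_congr ?_ rfl rfl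
  constructor
  · intro h1 l hl
    rw [h1 l hl, h l hl]
  · intro h1 l hl
    rw [h1 l hl, h l hl]

/-- the indicator functions depend on the residues only -/
theorem NF_dep (R : Finset ℕ) (e : ℕ → ℤ) : Dep R (NF R e) := by
  intro a b h
  unfold NF
  refine if_congr ?_ rfl rfl
  constructor
  · intro h1 l hl
    rw [← chi_mod (h l hl)]
    exact h1 l hl
  · intro h1 l hl
    rw [chi_mod (h l hl)]
    exact h1 l hl

omit [NeZero m] in
theorem NF_flip {R : Finset ℕ} (hR : OKR m R) {l : ℕ} (hl : l ∈ R) (e : ℕ → ℤ) (he : Sgn e)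
    {a : ℕ} (ha : ∀ l' ∈ R, a.Coprime l') :
    NF R e a + NF R (fl l e) a = NF (R.erase l) e a := by
  unfold NF
  have h1 : (∀ l' ∈ R, chi l' a = e l') ↔ (chi l a = e l ∧ ∀ l' ∈ R.erase l, chi l' a = e l') := by
    constructor
    · intro h
      exact ⟨h l hl, fun l' hl' => h l' (Finset.mem_of_mem_erase hl')⟩
    · rintro ⟨h2, h3⟩ l' hl'
      by_cases h4 : l' = l
      · rw [h4]; exact h2
      · exact h3 l' (Finset.mem_erase.2 ⟨h4, hl'⟩)
  have h2 : (∀ l' ∈ R, chi l' a = fl l e l') ↔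
      (chi l a = - e l ∧ ∀ l' ∈ R.erase l, chi l' a = e l') := by
    constructor
    · intro h
      refine ⟨?_, fun l' hl' => ?_⟩
      · have h3 := h l hl
        unfold fl at h3
        rw [if_pos rfl] at h3
        exact h3
      · have h3 := h l' (Finset.mem_of_mem_erase hl')
        unfold fl at h3
        rw [if_neg (Finset.ne_of_mem_erase hl')] at h3
        exact h3
    · rintro ⟨h2, h3⟩ l' hl'
      unfold fl
      by_cases h4 : l' = l
      · rw [if_pos h4, h4]; exact h2
      · rw [if_neg h4]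
        exact h3 l' (Finset.mem_erase.2 ⟨h4, hl'⟩)
  by_cases h3 : ∀ l' ∈ R.erase l, chi l' a = e l'
  · rw [if_pos h3]
    have h4 := chi_sq (hR l hl).1 (ha l hl)
    by_cases h5 : chi l a = e l
    · rw [if_pos (h1.2 ⟨h5, h3⟩), if_neg]
      · rfl
      · intro h6
        have h7 := (h2.1 h6).1
        rcases he l with h8 | h8 <;> rw [h8] at h5 h7 <;> omega
    · rw [if_neg (fun h6 => h5 (h1.1 h6).1), if_pos]
      · rfl
      · refine h2.2 ⟨?_, h3⟩
        rcases he l with h8 | h8 <;> rcases h4 with h4 | h4 <;>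
          first
            | exact absurd (h4.trans h8.symm) h5
            | (rw [h4, h8]; try norm_num)
  · rw [if_neg h3, if_neg (fun h6 => h3 (h1.1 h6).2), if_neg (fun h6 => h3 (h2.1 h6).2)]
    rfl

omit [NeZero m] in
theorem NF_tw {R : Finset ℕ} (hR : OKR m R) {l : ℕ} (hl : l ∈ R) (e : ℕ → ℤ) (a : ℕ) :
    NF (R.erase l) e (l * a) = NF (R.erase l) (tw l e) a := by
  unfold NF
  refine if_congr ?_ rfl rfl
  have key : ∀ l' ∈ R.erase l, (chi l' (l * a) = e l' ↔ chi l' a = tw l e l') := by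
    intro l' hl'
    have h1 := (hR l hl).1
    have h2 := (hR l' (Finset.mem_of_mem_erase hl')).1
    have h3 : l.Coprime l' := (Nat.coprime_primes h1 h2).2 (Ne.symm (Finset.ne_of_mem_erase hl'))
    rw [chi_mul]
    unfold tw
    rcases chi_sq h2 h3 with h4 | h4
    · rw [h4, if_neg (by norm_num), one_mul]
    · rw [h4, if_pos rfl]
      constructor <;> intro h5 <;> linarith
  constructor
  · intro h l' hl'
    exact (key l' hl').1 (h l' hl')
  · intro h l' hl'
    exact (key l' hl').2 (h l' hl')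

omit [NeZero m] in
theorem okr_erase {R : Finset ℕ} (hR : OKR m R) (l : ℕ) : OKR m (R.erase l) :=
  fun l' hl' => hR l' (Finset.mem_of_mem_erase hl')

theorem qf_flip {R : Finset ℕ} (hR : OKR m R) {l : ℕ} (hl : l ∈ R) (e : ℕ → ℤ) (he : Sgn e) :
    qf D R e + qf D R (fl l e) = qf D (R.erase l) e - qf D (R.erase l) (tw l e) := by
  unfold qf
  rw [← bk_add, bk_congr D hR (fun a ha => NF_flip hR hl e he ha),
    bk_norm D hR hl (NF (R.erase l) e) (NF_dep _ e), bk_sub]
  congr 1
  exact bk_congr D (okr_erase hR l) (fun a _ => NF_tw hR hl e a)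

theorem qf_ng {R : Finset ℕ} (hR : OKR m R) (e : ℕ → ℤ) : qf D R (ng e) = - qf D R e := by
  unfold qf
  refine bk_neg D hR ?_
  intro a b _ hab
  unfold NF
  refine if_congr ?_ rfl rfl
  have key : ∀ l ∈ R, (chi l b = ng e l ↔ chi l a = e l) := by
    intro l hl
    unfold ng
    by_cases h1 : l % 4 = 1
    · rw [if_pos h1, chi_neg1 (hR l hl).1 h1 (hab l hl)]
    · rw [if_neg h1]
      have h2 : PPr l := by
        refine ⟨(hR l hl).1, ?_⟩
        rcases (hR l hl).1.eq_two_or_odd with h3 | h3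
        · exact Or.inl h3
        · right
          omega
      rw [chi_neg h2 (hab l hl)]
      constructor <;> intro h5 <;> linarith
  constructor
  · intro h l hl
    exact (key l hl).1 (h l hl)
  · intro h l hl
    exact (key l hl).2 (h l hl)

/-- no prime `2` or `3` modulo `4` -/
theorem qf_zero {R : Finset ℕ} (hR : OKR m R) (h : nb R = 0) (e : ℕ → ℤ) : qf D R e = 0 := by
  unfold qf
  rcases R.eq_empty_or_nonempty with h1 | h1
  · subst h1
    exact bk_empty D _
  · refine bk_even D hR h1 ?_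
    intro a b _ hab
    unfold NF
    refine if_congr ?_ rfl rfl
    have h4 : ∀ l ∈ R, l % 4 = 1 := by
      intro l hl
      by_contra h5
      unfold nb at h
      rw [Finset.card_eq_zero] at h
      have h6 : l ∈ R.filter (fun l => l % 4 ≠ 1) := Finset.mem_filter.2 ⟨hl, h5⟩
      rw [h] at h6
      simp at h6
    constructor
    · intro h2 l hl
      rw [← chi_neg1 (hR l hl).1 (h4 l hl) (hab l hl)]
      exact h2 l hl
    · intro h2 l hl
      rw [chi_neg1 (hR l hl).1 (h4 l hl) (hab l hl)]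
      exact h2 l hl

end Pool.Agent.FQ
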