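import Pool.Agent.FQ.Flip

/-!
# FQ-HalfF: indicator functions of quadratic residues and halves of them

`ss r` is the indicator of the quadratic residues, `hf p` (`p` congruent to `1` modulo `4`) the
indicator of one half of them.

Plan. All statements are short consequences of `chi_mul`, `chi_mod`, `chi_sq`, `chi_neg`,
`chi_neg1` (`Pool/Agent/FQ/Chi.lean`, `Flip.lean`) and, for `Half`, of the argument in
`Pool.Agent.FS.half_neg_iff` (`Half p a ↔ 2 * (a % p) < p` for a prime `p ≠ 2`; if
`a + b ≡ 0 [MOD p]` and `p` does not divide `a` then `a % p + b % p = p`). `hb p = p` for `p ≠ 2`.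
-/

set_option autoImplicit false

namespace Pool.Agent.FQ

open Finset Pool.Agent.FS

/-- the indicator of the quadratic residues -/
def ss (r a : ℕ) : ℤ := if chi r a = 1 then 1 else 0

/-- the indicator of a half of the quadratic residues -/
def hf (p a : ℕ) : ℤ := if chi p a = 1 ∧ Half p a then 1 else 0

theorem dep_ss (r : ℕ) : Dep {r} (ss r) := by
  intro a b h
  unfold ss
  rw [chi_mod (h r (by simp))]

theorem dep_hf (p : ℕ) : Dep {p} (hf p) := by
  intro a b h
  have h1 := h p (by simp)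
  have h2 : Half p a ↔ Half p b := by
    have h3 : a % hb p = b % hb p := h1
    unfold Half
    rw [h3]
  unfold hf
  rw [chi_mod h1]
  simp only [h2]

theorem dep_scale {T : Finset ℕ} {φ : ℕ → ℤ} (h : Dep T φ) (c : ℕ) :
    Dep T (fun a => φ (c * a)) := by
  intro a b hab
  exact h _ _ fun l hl => (hab l hl).mul_left c

theorem dep_mono {T T' : Finset ℕ} (hT : T ⊆ T') {φ : ℕ → ℤ} (h : Dep T φ) : Dep T' φ := by
  intro a b hab
  exact h _ _ fun l hl => hab l (hT hl)

theorem dep_mul {T : Finset ℕ} {φ ψ : ℕ → ℤ} (h : Dep T φ) (h' : Dep T ψ) :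
    Dep T (fun a => φ a * ψ a) := by
  intro a b hab
  simp only [h a b hab, h' a b hab]

theorem dep_sub {T : Finset ℕ} {φ ψ : ℕ → ℤ} (h : Dep T φ) (h' : Dep T ψ) :
    Dep T (fun a => φ a - ψ a) := by
  intro a b hab
  simp only [h a b hab, h' a b hab]

theorem dep_add {T : Finset ℕ} {φ ψ : ℕ → ℤ} (h : Dep T φ) (h' : Dep T ψ) :
    Dep T (fun a => φ a + ψ a) := by
  intro a b hab
  simp only [h a b hab, h' a b hab]

theorem dep_const (T : Finset ℕ) (c : ℤ) : Dep T (fun _ => c) := by
  intro a b _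
  rfl

theorem ss_neg {r a b : ℕ} (hr : PPr r) (ha : a.Coprime r) (h : a + b ≡ 0 [MOD hb r]) :
    ss r b = 1 - ss r a := by
  unfold ss
  rw [chi_neg hr h]
  rcases chi_sq hr.1 ha with h1 | h1
  · rw [h1]
    norm_num
  · rw [h1]
    norm_num

theorem ss_neg1 {p a b : ℕ} (hp : p.Prime) (hp1 : p % 4 = 1) (h : a + b ≡ 0 [MOD hb p]) :
    ss p b = ss p a := by
  unfold ss
  rw [chi_neg1 hp hp1 h]

private theorem half_neg' {p a b : ℕ} (hp : p.Prime) (hp1 : p % 4 = 1) (ha : a.Coprime p)
    (h : a + b ≡ 0 [MOD hb p]) : Half p b ↔ ¬ Half p a := by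
  have hb2 : hb p = p := by
    unfold hb
    rw [if_neg (by omega)]
  have h0 : (a + b) % p = 0 := by
    have h1 : (a + b) % hb p = 0 % hb p := h
    rw [hb2] at h1
    simpa using h1
  have h2 : a % p ≠ 0 := by
    intro h3
    have h4 : p ∣ a := Nat.dvd_of_mod_eq_zero h3
    have h5 : p ∣ Nat.gcd a p := Nat.dvd_gcd h4 dvd_rfl
    have h6 : Nat.gcd a p = 1 := ha
    rw [h6] at h5
    have := Nat.le_of_dvd one_pos h5
    have := hp.two_le
    omega
  have hpp := hp.pos
  have h3 : a % p < p := Nat.mod_lt _ hpp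
  have h4 : b % p < p := Nat.mod_lt _ hpp
  rw [Nat.add_mod] at h0
  have h5 : a % p + b % p = p := by
    obtain ⟨k, hk⟩ := Nat.dvd_of_mod_eq_zero h0
    have hk0 : k ≠ 0 := by
      rintro rfl
      rw [mul_zero] at hk
      omega
    have hk2 : k < 2 := by
      by_contra h7
      have h8 : p * 2 ≤ p * k := Nat.mul_le_mul_left p (by omega)
      omega
    have hk1 : k = 1 := by omega
    rw [hk, hk1, mul_one]
  unfold Half
  rw [hb2]
  omega

theorem hf_neg {p a b : ℕ} (hp : p.Prime) (hp1 : p % 4 = 1) (ha : a.Coprime p)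
    (h : a + b ≡ 0 [MOD hb p]) : hf p b = ss p a - hf p a := by
  unfold hf ss
  rw [chi_neg1 hp hp1 h]
  have h1 := half_neg' hp hp1 ha h
  by_cases hc : chi p a = 1
  · by_cases hh : Half p a
    · simp [hc, hh, h1]
    · simp [hc, hh, h1]
  · simp [hc]

theorem ss_mul_pos {r c a : ℕ} (hc : chi r c = 1) : ss r (c * a) = ss r a := by
  unfold ss
  rw [chi_mul, hc, one_mul]

theorem ss_mul_neg {r c a : ℕ} (hr : r.Prime) (hc : chi r c = -1) (ha : a.Coprime r) :
    ss r (c * a) = 1 - ss r a := by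
  unfold ss
  rw [chi_mul, hc]
  rcases chi_sq hr ha with h1 | h1
  · rw [h1]
    norm_num
  · rw [h1]
    norm_num

/-- the quadratic element with all signs equal to `1` -/
theorem NF_one (R : Finset ℕ) (a : ℕ) : NF R (fun _ => 1) a = ∏ l ∈ R, ss l a := by
  unfold NF ss
  rw [Finset.prod_ite_zero]
  simp

end Pool.Agent.FQ
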