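import Pool.Agent.FQ.HalfF

/-!
# FQ-Par: parities for a pair of primes

Plan.
* Let `n = nR m {x, y}`, `κ` projections, `g` a unit. `κ x (-1)` is `-1` modulo `ordProj[x] n` and
  `1` modulo `ordCompl[x] n` (`IsProj`, `mem_Kl`, `neg_one_val`), so `rr (κ x (-1) * g)` is
  congruent to `rr (-1 * g)` modulo `hb x` and to `rr g` modulo `hb y`
  (`hb y ∣ ordCompl[x] n`, `hb x ∣ ordProj[x] n`, see `half_chi` in `Pool/Agent/FQ/Chi.lean` and
  `t4A_hb_dvd` in `Pool/Agent/FF/T4A.lean`; `rr_mul`).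
* `({x, y} : Finset ℕ).toList` is `[x, y]` or `[y, x]` (`Finset.toList_insert`-type lemma:
  `(Finset.toList_insert h).perm`...; or: it is a `Nodup` list with the members `x`, `y`), and
  `oss [σ, τ] F g = F g + F (τ g) + (F (σ g) + F (τ (σ g)))`.
* `par_prod`: the four values of `u v` are the products.
* `par_sub`, `par_add`, ...: `oss` is additive (see `oss_sub` in `Pool/Agent/FQ/Fam.lean`).
-/

set_option autoImplicit false

namespace Pool.Agent.FQ

open Finset Pool.Agent.FS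
open Pool.Agent.FF

/-- the iterated sum over the signs at the primes of `R` -/
noncomputable def osR (m : ℕ) (R : Finset ℕ) (κ : ℕ → (ZMod (nR m R))ˣ →* (ZMod (nR m R))ˣ) (φ : ℕ → ℤ)
    (g : (ZMod (nR m R))ˣ) : ℤ :=
  oss (R.toList.map fun l => κ l (-1)) (fun w => φ (rr w)) g

/-- even parity everywhere -/
def EvP (m : ℕ) (R : Finset ℕ) (φ : ℕ → ℤ) : Prop :=
  ∀ κ : ℕ → (ZMod (nR m R))ˣ →* (ZMod (nR m R))ˣ, IsProj (nR m R) κ R.toList →
    ∀ g, Even (osR m R κ φ g)

/-- odd parity everywhere -/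
def OdP (m : ℕ) (R : Finset ℕ) (φ : ℕ → ℤ) : Prop :=
  ∀ κ : ℕ → (ZMod (nR m R))ˣ →* (ZMod (nR m R))ˣ, IsProj (nR m R) κ R.toList →
    ∀ g, Odd (osR m R κ φ g)

variable {m : ℕ} [NeZero m]

section aux

variable {n : ℕ} [NeZero n]

private lemma par_hb_dvd_proj {l : ℕ} (hl : l.Prime) (h : hb l ∣ n) : hb l ∣ ordProj[l] n := by
  have h1 : (hb l).Coprime (ordCompl[l] n) := by
    unfold hb
    split_ifs with h2
    · have h3 := (Nat.coprime_ordCompl hl (NeZero.ne n)).pow_left 2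
      rw [h2] at h3 ⊢
      exact h3
    · exact Nat.coprime_ordCompl hl (NeZero.ne n)
  refine h1.dvd_of_dvd_mul_right ?_
  rw [Nat.ordProj_mul_ordCompl_eq_self]
  exact h

omit [NeZero n] in
private lemma par_hb_dvd_compl {l l' : ℕ} (hl : l.Prime) (hl' : l'.Prime) (hne : l' ≠ l)
    (h : hb l ∣ n) : hb l ∣ ordCompl[l'] n := by
  have h3 : (hb l).Coprime (ordProj[l'] n) := by
    refine Nat.Coprime.pow_right _ ?_
    unfold hb
    split_ifs with h
    · subst h
      exact Nat.Coprime.pow_left 2 ((Nat.coprime_primes hl hl').2 (Ne.symm hne))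
    · exact (Nat.coprime_primes hl hl').2 (Ne.symm hne)
  refine h3.dvd_of_dvd_mul_left ?_
  rw [Nat.ordProj_mul_ordCompl_eq_self]
  exact h

private lemma par_neg_congr {d : ℕ} (hd : d ∣ n) {g h : (ZMod n)ˣ} (hgh : rr h ≡ rr g [MOD d]) :
    rr (-1 * h) ≡ rr (-1 * g) [MOD d] := by
  refine ((rr_mul (-1) h).of_dvd hd).trans ?_
  refine Nat.ModEq.trans ?_ ((rr_mul (-1) g).of_dvd hd).symm
  exact hgh.mul_left _

private lemma par_self {κ : ℕ → (ZMod n)ˣ →* (ZMod n)ˣ} {ls : List ℕ} (hκ : IsProj n κ ls)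
    {l : ℕ} (hl : l ∈ ls) (hp : l.Prime) (h : hb l ∣ n) (g : (ZMod n)ˣ) :
    rr (κ l (-1) * g) ≡ rr (-1 * g) [MOD hb l] := by
  refine ((rr_mul (κ l (-1)) g).of_dvd h).trans ?_
  refine Nat.ModEq.trans ?_ ((rr_mul (-1) g).of_dvd h).symm
  exact (((hκ l hl (-1)).2).of_dvd (par_hb_dvd_proj hp h)).mul_right _

private lemma par_other {κ : ℕ → (ZMod n)ˣ →* (ZMod n)ˣ} {ls : List ℕ} (hκ : IsProj n κ ls)
    {l l' : ℕ} (hl : l ∈ ls) (hp : l.Prime) (hp' : l'.Prime) (hne : l ≠ l') (h : hb l' ∣ n)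
    (g : (ZMod n)ˣ) :
    rr (κ l (-1) * g) ≡ rr g [MOD hb l'] :=
  Kl_mul_mod (hκ l hl (-1)).1 (par_hb_dvd_compl hp' hp hne h) g

private lemma par_two {G : Type*} [CommGroup G] (σ τ : G) (F : G → ℤ) (g : G) :
    oss [σ, τ] F g = F g + F (τ * g) + (F (σ * g) + F (τ * (σ * g))) := rfl

private lemma par_pair {x y : ℕ} (hxy : x ≠ y) :
    ({x, y} : Finset ℕ).toList = [x, y] ∨ ({x, y} : Finset ℕ).toList = [y, x] := by
  have h1 : ({x, y} : Finset ℕ).toList.length = 2 := by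
    rw [Finset.length_toList, Finset.card_pair hxy]
  have h2 : ({x, y} : Finset ℕ).toList.Nodup := Finset.nodup_toList _
  have h3 : ∀ a, a ∈ ({x, y} : Finset ℕ).toList ↔ (a = x ∨ a = y) := by
    intro a
    rw [Finset.mem_toList, Finset.mem_insert, Finset.mem_singleton]
  generalize ({x, y} : Finset ℕ).toList = L at h1 h2 h3
  match L, h1 with
  | [a, b], _ =>
    have ha := (h3 a).1 (by simp)
    have hb := (h3 b).1 (by simp)
    have hab : a ≠ b := by
      intro h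
      simp [h] at h2
    rcases ha with rfl | rfl <;> rcases hb with rfl | rfl
    · exact absurd rfl hab
    · left; rfl
    · right; rfl
    · exact absurd rfl hab

private lemma par_add {G : Type*} [CommGroup G] (σs : List G) (F F' : G → ℤ) (g : G) :
    oss σs (fun g => F g + F' g) g = oss σs F g + oss σs F' g := by
  induction σs generalizing g with
  | nil => rfl
  | cons σ σs ih =>
    have e : ∀ (F : G → ℤ) (g : G), oss (σ :: σs) F g = oss σs F g + oss σs F (σ * g) :=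
      fun _ _ => rfl
    rw [e, e, e, ih, ih]
    ring

private lemma par_sub {G : Type*} [CommGroup G] (σs : List G) (F F' : G → ℤ) (g : G) :
    oss σs (fun g => F g - F' g) g = oss σs F g - oss σs F' g := by
  induction σs generalizing g with
  | nil => rfl
  | cons σ σs ih =>
    have e : ∀ (F : G → ℤ) (g : G), oss (σ :: σs) F g = oss σs F g + oss σs F (σ * g) :=
      fun _ _ => rfl
    rw [e, e, e, ih, ih]
    ring

private lemma par_calc {x y : ℕ} (hxy : x ≠ y) (hx : x.Prime) (hy : y.Prime) (hxn : hb x ∣ n)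
    (hyn : hb y ∣ n) (κ : ℕ → (ZMod n)ˣ →* (ZMod n)ˣ) {ls : List ℕ} (hκ : IsProj n κ ls)
    (hxl : x ∈ ls) (hyl : y ∈ ls) (u v : ℕ → ℤ) (hu : Dep {x} u) (hv : Dep {y} v)
    (g : (ZMod n)ˣ) :
    oss [κ x (-1), κ y (-1)] (fun w => u (rr w) * v (rr w)) g =
      (u (rr g) + u (rr (-1 * g))) * (v (rr g) + v (rr (-1 * g))) := by
  have hu' : ∀ a b : ℕ, a ≡ b [MOD hb x] → u a = u b := fun a b h =>
    hu a b fun l hl => by rw [Finset.mem_singleton] at hl; rw [hl]; exact h
  have hv' : ∀ a b : ℕ, a ≡ b [MOD hb y] → v a = v b := fun a b h =>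
    hv a b fun l hl => by rw [Finset.mem_singleton] at hl; rw [hl]; exact h
  have a1 := hu' _ _ (par_other hκ hyl hy hx (Ne.symm hxy) hxn g)
  have a2 := hv' _ _ (par_self hκ hyl hy hyn g)
  have a3 := hu' _ _ (par_self hκ hxl hx hxn g)
  have a4 := hv' _ _ (par_other hκ hxl hx hy hxy hyn g)
  have a5 := hu' _ _ ((par_other hκ hyl hy hx (Ne.symm hxy) hxn (κ x (-1) * g)).trans
    (par_self hκ hxl hx hxn g))
  have a6 := hv' _ _ ((par_self hκ hyl hy hyn (κ x (-1) * g)).trans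
    (par_neg_congr hyn (par_other hκ hxl hx hy hxy hyn g)))
  rw [par_two, a1, a2, a3, a4, a5, a6]
  ring

end aux

theorem par_prod {x y : ℕ} (hxy : x ≠ y) (hR : OKR m {x, y})
    (κ : ℕ → (ZMod (nR m {x, y}))ˣ →* (ZMod (nR m {x, y}))ˣ)
    (hκ : IsProj (nR m {x, y}) κ ({x, y} : Finset ℕ).toList) (u v : ℕ → ℤ) (hu : Dep {x} u)
    (hv : Dep {y} v) (g : (ZMod (nR m {x, y}))ˣ) :
    osR m {x, y} κ (fun a => u a * v a) g =
      (u (rr g) + u (rr (-1 * g))) * (v (rr g) + v (rr (-1 * g))) := by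
  have hx := hR x (by simp)
  have hy := hR y (by simp)
  have hRp : ∀ l ∈ ({x, y} : Finset ℕ), l.Prime := fun l hl => (hR l hl).1
  have hq : ∀ l ∈ ({x, y} : Finset ℕ), hb l ∣ nR m {x, y} := by
    intro l hl
    refine dvd_trans ?_ (qq_dvd_nR hl)
    exact par_hb_dvd_proj (hR l hl).1 (hR l hl).2
  have hxl : x ∈ ({x, y} : Finset ℕ).toList := by simp
  have hyl : y ∈ ({x, y} : Finset ℕ).toList := by simp
  have hxn := hq x (by simp)
  have hyn := hq y (by simp)
  unfold osR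
  rcases par_pair hxy with h | h
  · have e : (({x, y} : Finset ℕ).toList.map fun l => κ l (-1)) = [κ x (-1), κ y (-1)] := by
      rw [h]; rfl
    rw [e]
    exact par_calc hxy hx.1 hy.1 hxn hyn κ hκ hxl hyl u v hu hv g
  · have e : (({x, y} : Finset ℕ).toList.map fun l => κ l (-1)) = [κ y (-1), κ x (-1)] := by
      rw [h]; rfl
    rw [e]
    have h2 := par_calc (Ne.symm hxy) hy.1 hx.1 hyn hxn κ hκ hyl hxl v u hv hu g
    have e2 : (fun w : (ZMod (nR m {x, y}))ˣ => u (rr w) * v (rr w)) =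
        fun w => v (rr w) * u (rr w) := by
      funext w
      ring
    rw [e2, h2]
    ring

omit [NeZero m] in
theorem osR_add (R : Finset ℕ) (κ : ℕ → (ZMod (nR m R))ˣ →* (ZMod (nR m R))ˣ) (φ ψ : ℕ → ℤ)
    (g : (ZMod (nR m R))ˣ) :
    osR m R κ (fun a => φ a + ψ a) g = osR m R κ φ g + osR m R κ ψ g :=
  par_add _ _ _ _

omit [NeZero m] in
theorem osR_sub (R : Finset ℕ) (κ : ℕ → (ZMod (nR m R))ˣ →* (ZMod (nR m R))ˣ) (φ ψ : ℕ → ℤ)
    (g : (ZMod (nR m R))ˣ) :
    osR m R κ (fun a => φ a - ψ a) g = osR m R κ φ g - osR m R κ ψ g :=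
  par_sub _ _ _ _

/-- the functions `u * v`, where one factor is even, have even parity -/
theorem evP_of_even {x y : ℕ} (hxy : x ≠ y) (hR : OKR m {x, y}) (u v : ℕ → ℤ) (hu : Dep {x} u)
    (hv : Dep {y} v)
    (h : ∀ a b : ℕ, a.Coprime y → a + b ≡ 0 [MOD hb y] → v b = v a) :
    EvP m {x, y} (fun a => u a * v a) := by
  intro κ hκ g
  rw [par_prod hxy hR κ hκ u v hu hv g]
  have hy := hR y (by simp)
  have hyn : hb y ∣ nR m {x, y} :=
    dvd_trans (par_hb_dvd_proj hy.1 hy.2) (qq_dvd_nR (by simp))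
  have h1 : rr g + rr (-1 * g) ≡ 0 [MOD hb y] := by
    rw [add_comm]
    exact (rr_neg g).of_dvd hyn
  have h2 : (rr g).Coprime y := by
    refine (rr_coprime g).coprime_dvd_right (dvd_trans ?_ hyn)
    unfold hb
    split_ifs with h
    · rw [h]; norm_num
    · exact dvd_rfl
  rw [h _ _ h2 h1, ← two_mul]
  exact (even_two_mul _).mul_left _

/-- the quadratic functions have even parity if one of the two primes is `1` modulo `4` -/
theorem evP_NF {x y : ℕ} (hxy : x ≠ y) (hR : OKR m {x, y}) (hy : y % 4 = 1) (e : ℕ → ℤ) :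
    EvP m {x, y} (NF {x, y} e) := by
  have h1 : NF {x, y} e = fun a => (if chi x a = e x then (1 : ℤ) else 0) *
      (if chi y a = e y then (1 : ℤ) else 0) := by
    funext a
    have h2 : (∀ l ∈ ({x, y} : Finset ℕ), chi l a = e l) ↔ (chi x a = e x ∧ chi y a = e y) := by
      simp
    unfold NF
    by_cases h3 : chi x a = e x
    · by_cases h4 : chi y a = e y
      · rw [if_pos (h2.2 ⟨h3, h4⟩), if_pos h3, if_pos h4, mul_one]
      · rw [if_neg (fun h => h4 (h2.1 h).2), if_neg h4, mul_zero]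
    · rw [if_neg (fun h => h3 (h2.1 h).1), if_neg h3, zero_mul]
  rw [h1]
  refine evP_of_even hxy hR _ _ ?_ ?_ ?_
  · intro a b h
    simp only
    rw [chi_mod (h x (Finset.mem_singleton_self x))]
  · intro a b h
    simp only
    rw [chi_mod (h y (Finset.mem_singleton_self y))]
  · intro a b _ h
    rw [chi_neg1 (hR y (by simp)).1 hy h]

/-- a killer from a function with odd parity -/
theorem killer_of_odP {A : Type} [AddCommGroup A] (D : Datum m A) {R : Finset ℕ} (φ : ℕ → ℤ)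
    (L : Set ℕ) (h : Bk D R φ ∈ D.lev L) (hφ : OdP m R φ) : Killer D R L := by
  intro n inst hn κ hκ
  subst hn
  have hi : inst = instNeZeroNatNR m R := Subsingleton.elim _ _
  subst hi
  exact ⟨fun w => φ (rr w), h, 1, hφ κ hκ 1⟩

end Pool.Agent.FQ
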