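import Pool.Agent.FQ.Fam

/-!
# FQ-T4x: removal of one level with different groups for the rest and for the result

Plan.
* `T4x`: the proof of `Pool.Agent.FF.T4` (`Pool/Agent/FF/T4.lean`) with `L` for `mixed` and `L₀` for
  `dec_mem`.
* `red_one`: as `stepR` in `Pool/Agent/FQ/Fam.lean` (there the case `Even R.card`). If the parity of
  `N` is even at some place use `T4x` for `N` and `b`. Otherwise there is a killer `N'` for this `n`
  and `κ` with `∑ N' f ∈ D.lev L₀`; use `T4x` for `N - N'` and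
  `∑ N' f + b ∈ D.lev (L ∪ L₀)` (all members of `L ∪ L₀` are not divisible by some `l ∈ R`).
-/

set_option autoImplicit false

namespace Pool.Agent.FQ

open Finset Pool.Agent.FS
open Pool.Agent.FF

variable {m : ℕ} [NeZero m] {A : Type} [AddCommGroup A] (D : Datum m A)

private theorem T4x_three_le {l n : ℕ} (hn0 : n ≠ 0) (hl : l.Prime) (h : hb l ∣ n) : 3 ≤ n := by
  have h1 : 3 ≤ hb l := by
    unfold hb
    split_ifs with h2
    · norm_num
    · have := hl.two_le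
      omega
  exact h1.trans (Nat.le_of_dvd (Nat.pos_of_ne_zero hn0) h)

private theorem T4x_dvd_hb (l : ℕ) : l ∣ hb l := by
  unfold hb
  split_ifs with h2
  · rw [h2]; norm_num
  · exact dvd_rfl

private theorem T4x_oss_sub {G : Type*} [CommGroup G] (σs : List G) (F F' : G → ℤ) (g : G) :
    oss σs (fun g => F g - F' g) g = oss σs F g - oss σs F' g := by
  induction σs generalizing g with
  | nil => rfl
  | cons σ σs ih =>
    have e : ∀ (F : G → ℤ) (g : G), oss (σ :: σs) F g = oss σs F g + oss σs F (σ * g) :=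
      fun _ _ => rfl
    rw [e, e, e, ih, ih]
    ring

theorem T4x {n : ℕ} [NeZero n] (hn : n ∣ m) (hu : n.Coprime (m / n)) (ls : List ℕ)
    (hnd : ls.Nodup) (hlen : Even ls.length) (hne : ls ≠ []) (hp : ∀ l ∈ ls, l.Prime ∧ hb l ∣ n)
    (hall : ∀ l : ℕ, l.Prime → l ∣ n → l ∈ ls) (L L₀ : Set ℕ)
    (hL : ∀ n' ∈ L, ∃ l ∈ ls, ¬ l ∣ n')
    (hLo : ∀ l ∈ ls, ordCompl[l] n ∈ L₀) (κ : ℕ → (ZMod n)ˣ →* (ZMod n)ˣ) (hκ : IsProj n κ ls)
    (N : (ZMod n)ˣ → ℤ) (b : A) (hb : b ∈ D.lev L)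
    (hW : ∀ t : (ZMod m)ˣ, D.W t (∑ w : (ZMod n)ˣ, N w • D.f (emb m n w) + b) = 0)
    (hpar : ∃ g, Even (oss (ls.map fun l => κ l (-1)) N g)) :
    ∑ w : (ZMod n)ˣ, N w • D.f (emb m n w) ∈ D.lev L₀ := by
  have hp1 : ∀ l ∈ ls, l.Prime := fun l hl => (hp l hl).1
  have hp2 : ∀ l ∈ ls, l.Prime ∧ l ∣ n := fun l hl => ⟨hp1 l hl, (T4x_dvd_hb l).trans (hp l hl).2⟩
  have hP := proj_dec n ls hnd hp1 hall κ hκ
  have hH := half_sys n ls hp
  obtain ⟨R, hR, E, hE, hNE⟩ := comb_even hP hH hlen N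
    (fun ks hks g => mixed D hn hu ls hp2 hall L hL N b hb hW ks hks g) hpar
  obtain ⟨l, hl⟩ := List.exists_mem_of_ne_nil ls hne
  have h3 : 3 ≤ n := T4x_three_le (NeZero.ne n) (hp l hl).1 (hp l hl).2
  have h4 : ∑ w : (ZMod n)ˣ, N w • D.f (emb m n w) =
      ∑ w : (ZMod n)ˣ, R w • D.f (emb m n w) + ∑ w : (ZMod n)ˣ, E w • D.f (emb m n w) := by
    rw [← Finset.sum_add_distrib]
    exact Finset.sum_congr rfl fun w _ => by rw [← add_smul, ← hNE]
  rw [h4, even_sum D hn h3 E hE, add_zero]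
  exact dec_mem D hn hu ls hp2 L₀ hLo R hR

theorem red_one {R : Finset ℕ} (hR : ∀ l ∈ R, l.Prime ∧ 3 ≤ qq m l) (hne : R.Nonempty)
    (hev : Even R.card) (L L₀ : Set ℕ) (hL : ∀ n' ∈ L, ∃ l ∈ R, ¬ l ∣ n')
    (hL₀ : ∀ n' ∈ L₀, ∃ l ∈ R, ¬ l ∣ n') (hlow : lowR m R ⊆ L₀) (n : ℕ) [NeZero n]
    (hn : n = nR m R) (N : (ZMod n)ˣ → ℤ)
    (hpar : Killer D R L₀ ∨ ∀ κ : ℕ → (ZMod n)ˣ →* (ZMod n)ˣ, IsProj n κ R.toList →
      ∃ g, Even (oss (R.toList.map fun l => κ l (-1)) N g))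
    (b : A) (hb : b ∈ D.lev L)
    (hW : ∀ t : (ZMod m)ˣ, D.W t (∑ w : (ZMod n)ˣ, N w • D.f (emb m n w) + b) = 0) :
    ∑ w : (ZMod n)ˣ, N w • D.f (emb m n w) ∈ D.lev L₀ := by
  have hRp : ∀ l ∈ R, l.Prime := fun l hl => (hR l hl).1
  have hnm := nR_dvd (m := m) hRp
  have hu := nR_unitary (m := m) hRp
  have hpL : ∀ l ∈ R.toList, l.Prime ∧ Pool.Agent.FS.hb l ∣ n := by
    intro l hl
    rw [mem_toList] at hl
    refine ⟨hRp l hl, ?_⟩
    rw [hn]
    exact (hb_dvd_qq' (hR l hl).2).trans (qq_dvd_nR hl)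
  have hall : ∀ l : ℕ, l.Prime → l ∣ n → l ∈ R.toList := by
    intro l hl h
    rw [mem_toList]
    rw [hn] at h
    exact mem_of_dvd_nR hRp hl h
  have hLo : ∀ l ∈ R.toList, ordCompl[l] n ∈ L₀ := by
    intro l hl
    rw [mem_toList] at hl
    rw [hn, ordCompl_nR hRp hl]
    exact hlow ⟨R.erase l, erase_ssubset hl, rfl⟩
  have hL' : ∀ n' ∈ L, ∃ l ∈ R.toList, ¬ l ∣ n' := by
    intro n' hn'
    obtain ⟨l, hl, h⟩ := hL n' hn'
    exact ⟨l, mem_toList.2 hl, h⟩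
  have hL₀' : ∀ n' ∈ L ∪ L₀, ∃ l ∈ R.toList, ¬ l ∣ n' := by
    rintro n' (hn' | hn')
    · exact hL' n' hn'
    · obtain ⟨l, hl, h⟩ := hL₀ n' hn'
      exact ⟨l, mem_toList.2 hl, h⟩
  have hlen : Even R.toList.length := by rw [length_toList]; exact hev
  have hnl : R.toList ≠ [] := by
    rw [ne_eq, toList_eq_nil]
    exact hne.ne_empty
  rw [← hn] at hnm hu
  obtain ⟨κ, hκ⟩ := exists_proj n R.toList fun l hl => (hpL l hl).1
  by_cases hpar' : ∃ g, Even (oss (R.toList.map fun l => κ l (-1)) N g)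
  · exact T4x D hnm hu R.toList (nodup_toList R) hlen hnl hpL hall L L₀ hL' hLo κ hκ N b hb hW
      hpar'
  · rcases hpar with hk | hk
    · push Not at hpar'
      obtain ⟨N', hN', g, hg⟩ := hk n hn κ hκ
      have e : ∑ w : (ZMod n)ˣ, (N w - N' w) • D.f (emb m n w) =
          ∑ w : (ZMod n)ˣ, N w • D.f (emb m n w) - ∑ w : (ZMod n)ˣ, N' w • D.f (emb m n w) := by
        rw [← Finset.sum_sub_distrib]
        exact Finset.sum_congr rfl fun w _ => by rw [sub_smul]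
      have h1 : ∑ w : (ZMod n)ˣ, (N w - N' w) • D.f (emb m n w) ∈ D.lev L₀ := by
        refine T4x D hnm hu R.toList (nodup_toList R) hlen hnl hpL hall (L ∪ L₀) L₀ hL₀' hLo κ hκ
          (fun w => N w - N' w) (∑ w : (ZMod n)ˣ, N' w • D.f (emb m n w) + b)
          (add_mem (lev_mono D Set.subset_union_right hN') (lev_mono D Set.subset_union_left hb))
          ?_ ⟨g, ?_⟩
        · intro t
          have h2 := hW t
          rw [e]
          have h3 : ∑ w : (ZMod n)ˣ, N w • D.f (emb m n w) -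
              ∑ w : (ZMod n)ˣ, N' w • D.f (emb m n w) +
              (∑ w : (ZMod n)ˣ, N' w • D.f (emb m n w) + b) =
              ∑ w : (ZMod n)ˣ, N w • D.f (emb m n w) + b := by abel
          rw [h3]
          exact h2
        · rw [T4x_oss_sub]
          exact (Int.not_even_iff_odd.1 (hpar' g)).sub_odd hg
      have h2 : ∑ w : (ZMod n)ˣ, N w • D.f (emb m n w) =
          ∑ w : (ZMod n)ˣ, (N w - N' w) • D.f (emb m n w) +
            ∑ w : (ZMod n)ˣ, N' w • D.f (emb m n w) := by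
        rw [e]
        abel
      rw [h2]
      exact add_mem h1 hN'
    · exact absurd (hk κ hκ) hpar'

end Pool.Agent.FQ
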