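import Pool.Agent.FQ.Rel
import Pool.Agent.FQ.Par
import Pool.Agent.FQ.T4x

/-!
# FQ-K2: killers for the pairs `{r, p}`, `p` congruent to `1` modulo `4`

`r₁`, `r₂` are primes `2` or `3` modulo `4`, `p` a prime `1` modulo `4`.

Plan. `rel_main` with `P = {p}` (so `∏ l ∈ P.erase p, ss l a = 1`, `insert r₁ {p} = {r₁, p}`).
* The members of `OL D {r₁, p}` are in `D.lev L₀`: generators `qf D R' e`, `R' ⊂ {r₁, p}`, are
  in the level of `R'` (`bk_mem`, `bk_empty`; `R'.card < 2`).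
  Also `Bk D {r₁, r₂, p} (hf p)` is in `D.lev L₀`: two times `bk_norm` (at `r₁`, `r₂`) gives
  `Bk D {p} _`.
* `N₁ a = s₁ a h a - s₁ (r₂ a) h (r₂ a) - [sign] NF {r₁, p} 1 a` with `s₁ = ss r₁`, `h = hf p`; its
  parity: `osR (s₁ h) g = (s₁ g + s₁ (-g)) (h g + h (-g)) = ss p (rr g)` (`par_prod`, `ss_neg`,
  `hf_neg`), `osR ((s₁ h)(r₂ ·)) g = ss p (r₂ * rr g)`, and `NF {r₁, p} 1` is even (`evP_NF`). So
  the parity of `N₁` is that of `ss p (rr g) - ss p (r₂ * rr g)`: odd everywhere if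
  `chi p r₂ = -1` (`ss_mul_neg`), even everywhere if `chi p r₂ = 1` (`ss_mul_pos`). Same for `N₂`
  with `r₁`, `r₂` exchanged.
* The relation reads `Bk D {r₁, p} N₁ + Bk D {r₂, p} N₂ + b₀ = 0` with `b₀ ∈ D.lev L₀`.
* `k2_rel` is this statement.
* `killer_k2`: by `red_one` for `R = {r₂, p}` (with `L = insert (nR m {r₁, p}) L₀`,
  `b = Bk D {r₁, p} N₁ + b₀`; `r₂` does not divide `nR m {r₁, p}`, `mem_of_dvd_nR`) the element
  `Bk D {r₂, p} N₂` is in `D.lev L₀`, so `Bk D {r₁, p} N₁ ∈ D.lev L₀`; then `killer_of_odP`.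
-/

set_option autoImplicit false

namespace Pool.Agent.FQ

open Finset Pool.Agent.FS
open Pool.Agent.FF (IsProj)

variable {m : ℕ} [NeZero m] {A : Type} [AddCommGroup A] (D : Datum m A)

private theorem k2_ne {r p : ℕ} (h : PPr r) (hp : p.Prime) (hp1 : p % 4 = 1) : r ≠ p := by
  rintro rfl
  rcases h.2 with h2 | h2 <;> omega

private theorem k2_hb (l : ℕ) : l ∣ hb l := by
  unfold hb
  split_ifs with h
  · rw [h]; norm_num
  · exact dvd_rfl

private theorem k2_hb_dvd {R : Finset ℕ} (hR : OKR m R) {l : ℕ} (hl : l ∈ R) : hb l ∣ nR m R :=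
  (hb_dvd_qq (hR l hl).1 (hR l hl).2).trans (qq_dvd_nR hl)

/-- the function of the relation -/
private def k2N (C : Prop) [Decidable C] (r₁ r₂ p a : ℕ) : ℤ :=
  (ss r₁ a * hf p a - ss r₁ (r₂ * a) * hf p (r₂ * a)) -
    (if C then 0 else NF {r₁, p} (fun _ => 1) a)

private theorem k2_os {r₁ p : ℕ} (h₁ : PPr r₁) (hp : p.Prime) (hp1 : p % 4 = 1)
    (hR : OKR m {r₁, p}) (c : ℕ) (hc1 : c.Coprime r₁) (hcp : c.Coprime p)
    (κ : ℕ → (ZMod (nR m {r₁, p}))ˣ →* (ZMod (nR m {r₁, p}))ˣ)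
    (hκ : IsProj (nR m {r₁, p}) κ ({r₁, p} : Finset ℕ).toList) (g : (ZMod (nR m {r₁, p}))ˣ) :
    osR m {r₁, p} κ (fun a => ss r₁ (c * a) * hf p (c * a)) g = ss p (c * rr g) := by
  have h1p := k2_ne h₁ hp hp1
  have hr1 : r₁ ∈ ({r₁, p} : Finset ℕ) := by simp
  have hpm : p ∈ ({r₁, p} : Finset ℕ) := by simp
  have hd1 := k2_hb_dvd hR hr1
  have hdp := k2_hb_dvd hR hpm
  rw [par_prod h1p hR κ hκ (fun a => ss r₁ (c * a)) (fun a => hf p (c * a))
    (dep_scale (dep_ss r₁) c) (dep_scale (dep_hf p) c) g]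
  have hneg : ∀ l : ℕ, hb l ∣ nR m {r₁, p} → c * rr g + c * rr (-1 * g) ≡ 0 [MOD hb l] := by
    intro l hl
    have h2 : rr g + rr (-1 * g) ≡ 0 [MOD hb l] := by
      rw [add_comm]
      exact (rr_neg g).of_dvd hl
    have h3 := h2.mul_left c
    rw [mul_zero, mul_add] at h3
    exact h3
  have hco : ∀ l : ℕ, hb l ∣ nR m {r₁, p} → (rr g).Coprime l := fun l hl =>
    (rr_coprime g).coprime_dvd_right ((k2_hb l).trans hl)
  have e1 : ss r₁ (c * rr (-1 * g)) = 1 - ss r₁ (c * rr g) :=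
    ss_neg h₁ (Nat.Coprime.mul_left hc1 (hco r₁ hd1)) (hneg r₁ hd1)
  have e2 : hf p (c * rr (-1 * g)) = ss p (c * rr g) - hf p (c * rr g) :=
    hf_neg hp hp1 (Nat.Coprime.mul_left hcp (hco p hdp)) (hneg p hdp)
  show (ss r₁ (c * rr g) + ss r₁ (c * rr (-1 * g))) *
    (hf p (c * rr g) + hf p (c * rr (-1 * g))) = _
  rw [e1, e2]
  ring

private theorem k2_par (C : Prop) [Decidable C] {r₁ r₂ p : ℕ} (h₁ : PPr r₁) (h₂ : PPr r₂)
    (h12 : r₁ ≠ r₂) (hp : p.Prime) (hp1 : p % 4 = 1) (hR : OKR m {r₁, p}) :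
    (chi p r₂ = -1 → OdP m {r₁, p} (k2N C r₁ r₂ p)) ∧
      (chi p r₂ = 1 → EvP m {r₁, p} (k2N C r₁ r₂ p)) := by
  have h1p := k2_ne h₁ hp hp1
  have h2p := k2_ne h₂ hp hp1
  have hpm : p ∈ ({r₁, p} : Finset ℕ) := by simp
  have hdp := k2_hb_dvd hR hpm
  have key : ∀ κ : ℕ → (ZMod (nR m {r₁, p}))ˣ →* (ZMod (nR m {r₁, p}))ˣ,
      IsProj (nR m {r₁, p}) κ ({r₁, p} : Finset ℕ).toList → ∀ g : (ZMod (nR m {r₁, p}))ˣ,
      ∃ z : ℤ, osR m {r₁, p} κ (k2N C r₁ r₂ p) g = ss p (rr g) - ss p (r₂ * rr g) - 2 * z := by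
    intro κ hκ g
    have e1 := k2_os h₁ hp hp1 hR 1 (Nat.coprime_one_left _) (Nat.coprime_one_left _) κ hκ g
    have e2 := k2_os h₁ hp hp1 hR r₂ ((Nat.coprime_primes h₂.1 h₁.1).2 (Ne.symm h12))
      ((Nat.coprime_primes h₂.1 hp).2 h2p) κ hκ g
    simp only [one_mul] at e1
    have e3 : ∃ z : ℤ, osR m {r₁, p} κ
        (fun a => if C then 0 else NF {r₁, p} (fun _ => 1) a) g = 2 * z := by
      by_cases hC : C
      · refine ⟨0, ?_⟩
        simp only [if_pos hC]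
        have e4 := osR_sub (m := m) {r₁, p} κ (fun _ => 0) (fun _ => 0) g
        simp only [sub_self] at e4
        rw [e4]
        ring
      · simp only [if_neg hC]
        have e4 := evP_NF h1p hR hp1 (fun _ => 1) κ hκ g
        obtain ⟨z, hz⟩ := e4
        exact ⟨z, by
          show osR m {r₁, p} κ (NF {r₁, p} fun _ => 1) g = _
          rw [hz]
          ring⟩
    obtain ⟨z, hz⟩ := e3
    refine ⟨z, ?_⟩
    have e5 : osR m {r₁, p} κ (k2N C r₁ r₂ p) g =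
        osR m {r₁, p} κ (fun a => (ss r₁ a * hf p a - ss r₁ (r₂ * a) * hf p (r₂ * a)) -
          (if C then 0 else NF {r₁, p} (fun _ => 1) a)) g := rfl
    rw [e5, osR_sub {r₁, p} κ (fun a => ss r₁ a * hf p a - ss r₁ (r₂ * a) * hf p (r₂ * a))
      (fun a => if C then 0 else NF {r₁, p} (fun _ => 1) a),
      osR_sub {r₁, p} κ (fun a => ss r₁ a * hf p a) (fun a => ss r₁ (r₂ * a) * hf p (r₂ * a)),
      e1, e2, hz]
  constructor
  · intro hc κ hκ g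
    obtain ⟨z, hz⟩ := key κ hκ g
    have h3 : (rr g).Coprime p := (rr_coprime g).coprime_dvd_right ((k2_hb p).trans hdp)
    rw [hz, ss_mul_neg hp hc h3]
    exact ⟨ss p (rr g) - z - 1, by ring⟩
  · intro hc κ hκ g
    obtain ⟨z, hz⟩ := key κ hκ g
    rw [hz, ss_mul_pos hc]
    exact ⟨-z, by ring⟩

private theorem k2_OL {R : Finset ℕ} (hR : OKR m R) (L₀ : Set ℕ)
    (hL₀ : ∀ R' ⊂ R, nR m R' ∈ L₀) {c : A} (hc : c ∈ OL D R) : c ∈ D.lev L₀ := by
  unfold OL at hc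
  induction hc using AddSubgroup.closure_induction with
  | mem x hx =>
    obtain ⟨R', hR', -, e, -, rfl⟩ := hx
    exact bk_mem D (fun l hl => hR l (hR'.1 hl)) _ L₀ (hL₀ R' hR')
  | zero => exact zero_mem _
  | add x y _ _ hx hy => exact add_mem hx hy
  | neg x _ hx => exact neg_mem hx

private theorem k2_bkN (C : Prop) [Decidable C] (r₁ r₂ p : ℕ) :
    Bk D {r₁, p} (k2N C r₁ r₂ p) =
      Bk D {r₁, p} (fun a => ss r₁ a * hf p a - ss r₁ (r₂ * a) * hf p (r₂ * a)) -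
        (if C then 0 else qf D {r₁, p} (fun _ => 1)) := by
  unfold k2N
  rw [bk_sub]
  by_cases hC : C
  · simp only [if_pos hC, sub_zero]
    have h := bk_sub D {r₁, p} (fun _ => 0) (fun _ => 0)
    simp only [sub_self] at h
    rw [h, sub_zero]
  · simp only [if_neg hC]
    rfl

theorem k2_rel (hm : Even m) (hsq : SqV D) {r₁ r₂ p : ℕ} (h₁ : PPr r₁) (h₂ : PPr r₂)
    (h12 : r₁ ≠ r₂) (hp : p.Prime) (hp1 : p % 4 = 1) (hR : OKR m {r₁, r₂, p}) (L₀ : Set ℕ)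
    (hL₀ : ∀ R' ⊂ ({r₁, p} : Finset ℕ), nR m R' ∈ L₀)
    (hL₀' : ∀ R' ⊂ ({r₂, p} : Finset ℕ), nR m R' ∈ L₀) :
    ∃ N₁ N₂ : ℕ → ℤ, ∃ b₀ ∈ D.lev L₀, Bk D {r₁, p} N₁ + Bk D {r₂, p} N₂ + b₀ = 0 ∧
      (chi p r₂ = -1 → OdP m {r₁, p} N₁) ∧ (chi p r₂ = 1 → EvP m {r₁, p} N₁) ∧
      (chi p r₁ = -1 → OdP m {r₂, p} N₂) ∧ (chi p r₁ = 1 → EvP m {r₂, p} N₂) := by
  have h1p := k2_ne h₁ hp hp1
  have h2p := k2_ne h₂ hp hp1
  have hR1 : OKR m {r₁, p} := by
    intro l hl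
    refine hR l ?_
    simp only [mem_insert, mem_singleton] at hl ⊢
    tauto
  have hR2 : OKR m {r₂, p} := by
    intro l hl
    refine hR l ?_
    simp only [mem_insert, mem_singleton] at hl ⊢
    tauto
  obtain ⟨c₁, hc₁, c₂, hc₂, hrel⟩ := rel_main D hm hsq (p := p) (P := {p}) h₁ h₂ h12
    (fun l hl => by rw [mem_singleton.1 hl]; exact hp1) (mem_singleton_self p) hR
  simp only [Finset.erase_singleton, Finset.prod_empty, mul_one] at hrel
  refine ⟨k2N (∏ l ∈ insert r₁ {p}, chi l r₂ = 1) r₁ r₂ p,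
    k2N (∏ l ∈ insert r₂ {p}, chi l r₁ = 1) r₂ r₁ p,
    c₁ + c₂ - Bk D (insert r₁ (insert r₂ {p})) (fun a => hf p a), ?_, ?_, ?_⟩
  · refine sub_mem (add_mem (k2_OL D hR1 L₀ hL₀ hc₁) (k2_OL D hR2 L₀ hL₀' hc₂)) ?_
    have hm1 : r₁ ∈ ({r₁, r₂, p} : Finset ℕ) := by simp
    have hm2 : r₂ ∈ ({r₁, r₂, p} : Finset ℕ).erase r₁ := by
      rw [mem_erase]
      exact ⟨Ne.symm h12, by simp⟩
    have hpm : ({p} : Finset ℕ) ⊆ (({r₁, r₂, p} : Finset ℕ).erase r₁).erase r₂ := by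
      intro x hx
      rw [mem_singleton] at hx
      subst hx
      rw [mem_erase, mem_erase]
      exact ⟨Ne.symm h2p, Ne.symm h1p, by simp⟩
    have hpm' : ({p} : Finset ℕ) ⊆ ({r₁, r₂, p} : Finset ℕ).erase r₁ :=
      hpm.trans (erase_subset _ _)
    rw [bk_norm D hR hm1 (fun a => hf p a) (dep_mono hpm' (dep_hf p)),
      bk_norm D (fun l hl => hR l (mem_of_mem_erase hl)) hm2 (fun a => hf p a - hf p (r₁ * a))
        (dep_sub (dep_mono hpm (dep_hf p)) (dep_mono hpm (dep_scale (dep_hf p) r₁)))]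
    have hset : (({r₁, r₂, p} : Finset ℕ).erase r₁).erase r₂ = {p} := by
      ext x
      simp only [mem_erase, mem_insert, mem_singleton]
      constructor
      · rintro ⟨a, b, c | c | c⟩
        · exact absurd c b
        · exact absurd c a
        · exact c
      · rintro rfl
        exact ⟨Ne.symm h2p, Ne.symm h1p, Or.inr (Or.inr rfl)⟩
    rw [hset]
    refine bk_mem D (fun l hl => hR l ?_) _ L₀ (hL₀ {p} ?_)
    · rw [mem_singleton] at hl
      rw [hl]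
      simp
    · refine ⟨?_, ?_⟩
      · intro x hx
        rw [mem_singleton] at hx
        rw [hx]
        simp
      · intro h
        have h3 : r₁ ∈ ({p} : Finset ℕ) := h (by simp)
        exact h1p (mem_singleton.1 h3)
  · rw [k2_bkN, k2_bkN]
    refine Eq.trans ?_ hrel
    abel
  · have hq1 := k2_par (m := m) (∏ l ∈ insert r₁ {p}, chi l r₂ = 1) h₁ h₂ h12 hp hp1 hR1
    have hq2 := k2_par (m := m) (∏ l ∈ insert r₂ {p}, chi l r₁ = 1) h₂ h₁ (Ne.symm h12) hp hp1 hR2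
    exact ⟨hq1.1, hq1.2, hq2.1, hq2.2⟩

theorem killer_k2 (hm : Even m) (hsq : SqV D) {r₁ r₂ p : ℕ} (h₁ : PPr r₁) (h₂ : PPr r₂)
    (h12 : r₁ ≠ r₂) (hp : p.Prime) (hp1 : p % 4 = 1) (hR : OKR m {r₁, r₂, p}) (L₀ : Set ℕ)
    (hL₀ : ∀ R' ⊂ ({r₁, p} : Finset ℕ), nR m R' ∈ L₀)
    (hL₀' : ∀ R' ⊂ ({r₂, p} : Finset ℕ), nR m R' ∈ L₀)
    (hnd : ∀ n' ∈ L₀, ∃ l ∈ ({r₂, p} : Finset ℕ), ¬ l ∣ n') (hchi : chi p r₂ = -1)
    (hk : chi p r₁ = 1 ∨ Killer D {r₂, p} L₀) : Killer D {r₁, p} L₀ := by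
  have h1p := k2_ne h₁ hp hp1
  have h2p := k2_ne h₂ hp hp1
  have hR1 : OKR m {r₁, p} := by
    intro l hl
    refine hR l ?_
    simp only [mem_insert, mem_singleton] at hl ⊢
    tauto
  have hR2 : OKR m {r₂, p} := by
    intro l hl
    refine hR l ?_
    simp only [mem_insert, mem_singleton] at hl ⊢
    tauto
  obtain ⟨N₁, N₂, b₀, hb₀, hrel, hp1', -, -, hp2'⟩ :=
    k2_rel D hm hsq h₁ h₂ h12 hp hp1 hR L₀ hL₀ hL₀'
  have h2 : Bk D {r₂, p} N₂ ∈ D.lev L₀ := by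
    refine red_one D (R := {r₂, p}) ?_ (insert_nonempty _ _) ?_ (insert (nR m {r₁, p}) L₀) L₀
      ?_ hnd ?_ (nR m {r₂, p}) rfl (fun w => N₂ (rr w)) ?_ (Bk D {r₁, p} N₁ + b₀) ?_ ?_
    · intro l hl
      refine ⟨(hR2 l hl).1, ?_⟩
      have h3 := hb_dvd_qq (hR2 l hl).1 (hR2 l hl).2
      have h4 := hb_pos (hR2 l hl).1
      have h5 : 0 < qq m l := Nat.ordProj_pos m l
      exact h4.trans (Nat.le_of_dvd h5 h3)
    · rw [card_pair h2p]
      exact even_two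
    · intro n' hn'
      rcases Set.mem_insert_iff.1 hn' with h3 | h3
      · refine ⟨r₂, by simp, ?_⟩
        rw [h3]
        intro h4
        have h5 := mem_of_dvd_nR (fun l hl => (hR1 l hl).1) h₂.1 h4
        simp only [mem_insert, mem_singleton] at h5
        rcases h5 with h5 | h5
        · exact h12 h5.symm
        · exact h2p h5
      · exact hnd n' h3
    · rintro n' ⟨R', hR', rfl⟩
      exact hL₀' R' hR'
    · rcases hk with h3 | h3
      · right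
        intro κ hκ
        exact ⟨1, hp2' h3 κ hκ 1⟩
      · left
        exact h3
    · refine add_mem ?_ (lev_mono D (Set.subset_insert _ _) hb₀)
      exact bk_mem D hR1 N₁ _ (Set.mem_insert _ _)
    · intro t
      have h3 : (∑ w : (ZMod (nR m {r₂, p}))ˣ, N₂ (rr w) • D.f (emb m (nR m {r₂, p}) w)) +
          (Bk D {r₁, p} N₁ + b₀) = 0 := by
        refine Eq.trans ?_ hrel
        unfold Bk
        abel
      rw [h3, map_zero]
  refine killer_of_odP D N₁ L₀ ?_ (hp1' hchi)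
  have h3 : Bk D {r₁, p} N₁ = -(Bk D {r₂, p} N₂ + b₀) := by
    rw [eq_neg_iff_add_eq_zero, ← add_assoc, hrel]
  rw [h3]
  exact neg_mem (add_mem h2 hb₀)

end Pool.Agent.FQ
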