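import Pool.Agent.FQ.K3B
import Pool.Agent.FQ.T4x

/-!
# FQ-K3: killers for the pairs `{p, q}` of primes `1` modulo `4`

Plan.
* `k3_rel`: `rel_main` with `P = {p, q}` (`P.erase p = {q}`, the product is `ss q a`;
  `insert r₁ {p, q} = {r₁, p, q}`). The two brackets are treated by `k3_neg` (`r = r₁`, `c = r₂`,
  `chi p r₂ = -1`, `chi q r₁ = -1`: `ψ₁` odd everywhere) and, for `r = r₂`, `c = r₁`, by `k3_pos`
  if `chi p r₁ = 1` and by `k3_neg` if `chi p r₁ = -1` (then `chi q r₂ = 1` by `hdet`, `ψ₂` even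
  everywhere, so `Bk D {p, q} ψ₂ ∈ MM`). The members of `OL D {r₁, p, q}` are in `MM`: generators
  `qf D R' e`, `R'` a proper subset with `nb R'` odd, so `R'` is `{r₁}`, `{r₁, p}` or `{r₁, q}`
  (levels in `Lp`, `bk_mem`). `Bk D {r₁, r₂, p, q} (hf p * ss q) ∈ MM`: `bk_norm` at `r₁` and `r₂`
  gives `Bk D {p, q}` of a combination of `(hf p * ss q)(c ·)`, which have even parity
  (`evP_of_even`). So `Bk D {p, q} ψ₁ ∈ MM`, i.e. `Bk D {p, q} ψ₁ = b + Bk D {p, q} ψ'` with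
  `b ∈ D.lev Lp`, `ψ'` of even parity (the generators of the second group form a subgroup), and
  `N = ψ₁ - ψ'`.
* `lev_split`: an element of `D.lev Lp` with `Lp` the set of the levels of the four pairs
  `{r₁, p}, {r₁, q}, {r₂, p}, {r₂, q}` and of `L₀` is a sum of elements `Bk D R' N'` of the four
  pairs and of an element of `D.lev L₀`: `Pool.Agent.FS.exists_coeff` four times. (A function on
  `(ZMod n)ˣ` is `fun w => N' (rr w)` for a suitable `N'`; or keep functions on the units.)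
* `killer_k3`: `Bk D {p, q} N = b`, `b = ∑_j Bk D R_j N_j + b₀`. For each `j` use `red_one` for
  `R_j`, the element `b - Bk D R_j N_j - Bk D {p, q} N` and the group `L` of the other levels
  (no member of `L` is divisible by both primes of `R_j`; `L₀` by hypothesis), with the killer for
  `R_j`: so `Bk D R_j N_j ∈ D.lev L₀`. Hence `Bk D {p, q} N ∈ D.lev L₀`; `killer_of_odP`.
-/

set_option autoImplicit false

namespace Pool.Agent.FQ

open Finset Pool.Agent.FS

variable {m : ℕ} [NeZero m] {A : Type} [AddCommGroup A] (D : Datum m A)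

private theorem k3_ne {r p : ℕ} (hr : PPr r) (hp1 : p % 4 = 1) : r ≠ p := by
  rintro rfl
  rcases hr.2 with h | h <;> omega

private theorem k3_OL {r p q : ℕ} (hp1 : p % 4 = 1) (hq1 : q % 4 = 1)
    (hR : OKR m {r, p, q}) (Lp : Set ℕ)
    (hLp : ∀ R' : Finset ℕ, (R' ⊆ {r, p} ∨ R' ⊆ {r, q}) → nR m R' ∈ Lp) {a : A}
    (ha : a ∈ OL D {r, p, q}) : a ∈ D.lev Lp := by
  refine (AddSubgroup.closure_le _).2 ?_ ha
  rintro _ ⟨R', hR', hodd, e, _, rfl⟩
  refine bk_mem D (fun l hl => hR l (hR'.subset hl)) _ Lp (hLp R' ?_)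
  have hmem : ∀ l ∈ R', l = r ∨ l = p ∨ l = q := by
    intro l hl
    have h := hR'.subset hl
    rw [mem_insert, mem_insert, mem_singleton] at h
    exact h
  have hr' : r ∈ R' := by
    by_contra hr'
    have h0 : nb R' = 0 := by
      rw [nb, card_eq_zero, filter_eq_empty_iff]
      intro l hl
      rw [not_not]
      rcases hmem l hl with rfl | rfl | rfl
      · exact absurd hl hr'
      · exact hp1
      · exact hq1
    rw [h0] at hodd
    exact absurd hodd (by decide)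
  obtain ⟨x, hx, hxR'⟩ := exists_of_ssubset hR'
  rw [mem_insert, mem_insert, mem_singleton] at hx
  rcases hx with rfl | rfl | rfl
  · exact absurd hr' hxR'
  · right
    intro l hl
    rw [mem_insert, mem_singleton]
    rcases hmem l hl with h | h | h
    · exact Or.inl h
    · exact absurd (h ▸ hl) hxR'
    · exact Or.inr h
  · left
    intro l hl
    rw [mem_insert, mem_singleton]
    rcases hmem l hl with h | h | h
    · exact Or.inl h
    · exact Or.inr h
    · exact absurd (h ▸ hl) hxR'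

private theorem k3_zeroP (p q : ℕ)
    (κ : ℕ → (ZMod (nR m {p, q}))ˣ →* (ZMod (nR m {p, q}))ˣ) (g : (ZMod (nR m {p, q}))ˣ) :
    osR m {p, q} κ (fun _ => 0) g = 0 := by
  have h := osR_sub (m := m) {p, q} κ (fun _ => 0) (fun _ => 0) g
  simpa using h

private theorem k3_zeroB (R : Finset ℕ) : Bk D R (fun _ => 0) = 0 := by
  simp [Bk]

private theorem k3_cl (p q : ℕ) {a : A}
    (ha : a ∈ AddSubgroup.closure {a | ∃ ψ : ℕ → ℤ, EvP m {p, q} ψ ∧ a = Bk D {p, q} ψ}) :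
    ∃ ψ : ℕ → ℤ, EvP m {p, q} ψ ∧ a = Bk D {p, q} ψ := by
  induction ha using AddSubgroup.closure_induction with
  | mem x hx => exact hx
  | zero =>
    refine ⟨fun _ => 0, ?_, (k3_zeroB D _).symm⟩
    intro κ _ g
    rw [k3_zeroP]
    exact Even.zero
  | add x y _ _ hx hy =>
    obtain ⟨ψ, hψ, rfl⟩ := hx
    obtain ⟨ψ', hψ', rfl⟩ := hy
    refine ⟨fun a => ψ a + ψ' a, ?_, (bk_add D _ _ _).symm⟩
    intro κ hκ g
    rw [osR_add]
    exact (hψ κ hκ g).add (hψ' κ hκ g)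
  | neg x _ hx =>
    obtain ⟨ψ, hψ, rfl⟩ := hx
    refine ⟨fun a => 0 - ψ a, ?_, ?_⟩
    · intro κ hκ g
      rw [osR_sub {p, q} κ (fun _ => 0) ψ, k3_zeroP]
      exact Even.zero.sub (hψ κ hκ g)
    · rw [bk_sub D {p, q} (fun _ => 0) ψ, k3_zeroB, zero_sub]

private theorem k3_four {r₁ r₂ p q : ℕ} (h₁ : PPr r₁) (h₂ : PPr r₂)
    (h12 : r₁ ≠ r₂) (hp : p.Prime) (hq : q.Prime) (hp1 : p % 4 = 1) (hq1 : q % 4 = 1)
    (hpq : p ≠ q) (hR : OKR m {r₁, r₂, p, q}) (Lp : Set ℕ) (hLp : nR m {r₂, p} ∈ Lp)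
    (hLq : nR m {r₂, q} ∈ Lp) :
    Bk D {r₁, r₂, p, q} (fun a => hf p a * ss q a) ∈ MM D p q Lp := by
  have herase : ({r₁, r₂, p, q} : Finset ℕ).erase r₁ = {r₂, p, q} := by
    refine erase_insert ?_
    rw [mem_insert, mem_insert, mem_singleton, not_or, not_or]
    exact ⟨h12, k3_ne h₁ hp1, k3_ne h₁ hq1⟩
  have hR2 : OKR m {r₂, p, q} := fun l hl => hR l (mem_insert_of_mem hl)
  have hdep : Dep {r₂, p, q} (fun a => hf p a * ss q a) := by
    refine dep_mul (dep_mono ?_ (dep_hf p)) (dep_mono ?_ (dep_ss q))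
    · intro l hl
      rw [mem_singleton] at hl
      rw [hl, mem_insert, mem_insert]
      exact Or.inr (Or.inl rfl)
    · intro l hl
      rw [mem_singleton] at hl
      rw [hl, mem_insert, mem_insert, mem_singleton]
      exact Or.inr (Or.inr rfl)
  have h1 := bk_norm D hR (mem_insert_self r₁ {r₂, p, q}) (fun a => hf p a * ss q a)
    (by rw [herase]; exact hdep)
  rw [herase] at h1
  rw [h1, bk_sub D {r₂, p, q} (fun a => hf p a * ss q a)
    (fun a => hf p (r₁ * a) * ss q (r₁ * a))]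
  refine sub_mem ?_ ?_
  · exact bkR_pq D h₂ hp hq hp1 hq1 hpq hR2 Lp hLp hLq (hf p) (ss q) (dep_hf p) (dep_ss q)
      fun a b _ hab => ss_neg1 hq hq1 hab
  · refine bkR_pq D h₂ hp hq hp1 hq1 hpq hR2 Lp hLp hLq (fun a => hf p (r₁ * a))
      (fun a => ss q (r₁ * a)) (dep_scale (dep_hf p) r₁) (dep_scale (dep_ss q) r₁)
      fun a b _ hab => ss_neg1 hq hq1 ?_
    have h2 := hab.mul_left r₁
    rw [mul_add, mul_zero] at h2
    exact h2

theorem k3_rel (hm : Even m) (hsq : SqV D) {r₁ r₂ p q : ℕ} (h₁ : PPr r₁) (h₂ : PPr r₂)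
    (h12 : r₁ ≠ r₂) (hp : p.Prime) (hq : q.Prime) (hp1 : p % 4 = 1) (hq1 : q % 4 = 1)
    (hpq : p ≠ q) (hR : OKR m {r₁, r₂, p, q}) (hpr : chi p r₂ = -1) (hqr : chi q r₁ = -1)
    (hdet : chi p r₁ = 1 ∨ chi q r₂ = 1) (Lp : Set ℕ)
    (hLp : ∀ R' : Finset ℕ, (R' ⊆ {r₁, p} ∨ R' ⊆ {r₁, q} ∨ R' ⊆ {r₂, p} ∨ R' ⊆ {r₂, q}) →
      nR m R' ∈ Lp) :
    ∃ N : ℕ → ℤ, OdP m {p, q} N ∧ Bk D {p, q} N ∈ D.lev Lp := by
  have hR1 : OKR m {r₁, p, q} := fun l hl => hR l (by
    rw [mem_insert, mem_insert, mem_singleton] at hl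
    rw [mem_insert, mem_insert, mem_insert, mem_singleton]
    tauto)
  have hR2 : OKR m {r₂, p, q} := fun l hl => hR l (mem_insert_of_mem hl)
  have h1p : nR m {r₁, p} ∈ Lp := hLp _ (Or.inl (Subset.refl _))
  have h1q : nR m {r₁, q} ∈ Lp := hLp _ (Or.inr (Or.inl (Subset.refl _)))
  have h2p : nR m {r₂, p} ∈ Lp := hLp _ (Or.inr (Or.inr (Or.inl (Subset.refl _))))
  have h2q : nR m {r₂, q} ∈ Lp := hLp _ (Or.inr (Or.inr (Or.inr (Subset.refl _))))
  have hc1 : ∀ l ∈ ({r₁, p, q} : Finset ℕ), r₂.Coprime l := by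
    intro l hl
    rw [mem_insert, mem_insert, mem_singleton] at hl
    rcases hl with rfl | rfl | rfl
    · exact (Nat.coprime_primes h₂.1 h₁.1).2 h12.symm
    · exact (Nat.coprime_primes h₂.1 hp).2 (k3_ne h₂ hp1)
    · exact (Nat.coprime_primes h₂.1 hq).2 (k3_ne h₂ hq1)
  have hc2 : ∀ l ∈ ({r₂, p, q} : Finset ℕ), r₁.Coprime l := by
    intro l hl
    rw [mem_insert, mem_insert, mem_singleton] at hl
    rcases hl with rfl | rfl | rfl
    · exact (Nat.coprime_primes h₁.1 h₂.1).2 h12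
    · exact (Nat.coprime_primes h₁.1 hp).2 (k3_ne h₁ hp1)
    · exact (Nat.coprime_primes h₁.1 hq).2 (k3_ne h₁ hq1)
  have herase : ({p, q} : Finset ℕ).erase p = {q} := by
    refine erase_insert ?_
    rw [mem_singleton]
    exact hpq
  have hP : ∀ l ∈ ({p, q} : Finset ℕ), l % 4 = 1 := by
    intro l hl
    rw [mem_insert, mem_singleton] at hl
    rcases hl with rfl | rfl
    · exact hp1
    · exact hq1
  obtain ⟨c₁, hc₁, c₂, hc₂, h⟩ := rel_main D hm hsq h₁ h₂ h12 hP (mem_insert_self p {q}) hR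
  simp only [herase, prod_singleton] at h
  have hc₁' : c₁ ∈ MM D p q Lp := AddSubgroup.mem_sup_left
    (k3_OL D hp1 hq1 hR1 Lp (fun R' hR' => hLp R' (by tauto)) hc₁)
  have hc₂' : c₂ ∈ MM D p q Lp := AddSubgroup.mem_sup_left
    (k3_OL D hp1 hq1 hR2 Lp (fun R' hR' => hLp R' (by tauto)) hc₂)
  have h4 := k3_four D h₁ h₂ h12 hp hq hp1 hq1 hpq hR Lp h2p h2q
  obtain ⟨ψ, hψ, _, hψm⟩ := k3_neg D h₁ hp hq hp1 hq1 hpq hR1 Lp h1p h1q r₂ hc1 hpr
  have h5 : Bk D {r₂, p, q} (fun a => ss r₂ a * (hf p a * ss q a) -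
        ss r₂ (r₁ * a) * (hf p (r₁ * a) * ss q (r₁ * a))) -
      (if ∏ l ∈ ({r₂, p, q} : Finset ℕ), chi l r₁ = 1 then 0
        else qf D {r₂, p, q} (fun _ => 1)) ∈ MM D p q Lp := by
    rcases chi_sq hp (hc2 p (by simp)) with h6 | h6
    · exact k3_pos D h₂ hp hq hp1 hq1 hpq hR2 Lp h2p h2q r₁ hc2 h6
    · obtain ⟨ψ', _, hψ', hm'⟩ := k3_neg D h₂ hp hq hp1 hq1 hpq hR2 Lp h2p h2q r₁ hc2 h6
      have h7 : chi q r₂ = 1 := hdet.resolve_left (by rw [h6]; norm_num)
      have h8 : Bk D {p, q} ψ' ∈ MM D p q Lp :=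
        AddSubgroup.mem_sup_right (AddSubgroup.subset_closure ⟨ψ', hψ' h7, rfl⟩)
      have h9 := add_mem hm' h8
      rwa [sub_add_cancel] at h9
  have h10 : Bk D {p, q} ψ ∈ MM D p q Lp := by
    have h11 := sub_mem (sub_mem h4 (add_mem h5 hc₂')) (add_mem hψm hc₁')
    have h12 : ∀ X₁ X₂ X₄ B : A, (X₁ + c₁) + (X₂ + c₂) - X₄ = 0 →
        X₄ - (X₂ + c₂) - (X₁ - B + c₁) = B := by
      intro X₁ X₂ X₄ B hX
      rw [← sub_eq_zero.1 hX]
      abel
    rwa [h12 _ _ _ _ h] at h11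
  obtain ⟨b, hb, s, hs, hbs⟩ := AddSubgroup.mem_sup.1 h10
  obtain ⟨ψ', hψ', rfl⟩ := k3_cl D p q hs
  refine ⟨fun a => ψ a - ψ' a, ?_, ?_⟩
  · intro κ hκ g
    rw [osR_sub]
    exact (hψ hqr κ hκ g).sub_even (hψ' κ hκ g)
  · rw [bk_sub, ← hbs, add_sub_cancel_right]
    exact hb

/-- removal of the levels of a family of pairs of primes with killers -/
private theorem k3_red (FF : Finset (Finset ℕ)) (L₀ L' : Set ℕ) (hLL : L₀ ⊆ L') (a : A) :
    ∀ c : A, (∀ R ∈ FF, OKR m R ∧ R.card = 2) →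
    (∀ R ∈ FF, ∀ n' ∈ L', ∃ l ∈ R, ¬ l ∣ n') → (∀ R ∈ FF, lowR m R ⊆ L₀) →
    (∀ R ∈ FF, Killer D R L₀) → a ∈ D.lev (L₀ ∪ {n | ∃ R ∈ FF, n = nR m R}) →
    c ∈ D.lev L' → (∀ t, D.W t (a + c) = 0) → a ∈ D.lev L₀ := by
  induction FF using Finset.induction_on generalizing a with
  | empty =>
    intro c _ _ _ _ ha _ _
    refine lev_mono D ?_ ha
    rintro n (hn | ⟨R, hR, _⟩)
    · exact hn
    · exact absurd hR (notMem_empty R)
  | insert R FF hRF ih =>
    intro c hO hL' hlow hk ha hc hW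
    obtain ⟨hOR, hcard⟩ := hO R (mem_insert_self R FF)
    have hRp : ∀ l ∈ R, l.Prime := fun l hl => (hOR l hl).1
    have hR3 : ∀ l ∈ R, l.Prime ∧ 3 ≤ qq m l := fun l hl =>
      ⟨hRp l hl, qq_ge (hRp l hl) (hOR l hl).2⟩
    have hne : R.Nonempty := card_pos.1 (by omega)
    have hev : Even R.card := by rw [hcard]; exact even_two
    -- split off the level of `R`
    have ha' : a ∈ D.lev (insert (nR m R) (L₀ ∪ {n | ∃ R' ∈ FF, n = nR m R'})) := by
      refine lev_mono D ?_ ha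
      rintro n (hn | ⟨R', hR', rfl⟩)
      · exact Or.inr (Or.inl hn)
      · rcases mem_insert.1 hR' with rfl | hR'
        · exact Or.inl rfl
        · exact Or.inr (Or.inr ⟨R', hR', rfl⟩)
    obtain ⟨N, b, hb, rfl⟩ := exists_coeff D (nR_dvd (m := m) hRp) _ ha'
    have hX : ∑ w : (ZMod (nR m R))ˣ, N w • D.f (emb m (nR m R) w) ∈ D.lev L₀ := by
      refine red_one D hR3 hne hev (L' ∪ {n | ∃ R' ∈ FF, n = nR m R'}) L₀ ?_ ?_
        (hlow R (mem_insert_self R FF)) (nR m R) rfl N (Or.inl (hk R (mem_insert_self R FF)))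
        (b + c) (add_mem (lev_mono D ?_ hb) (lev_mono D Set.subset_union_left hc)) ?_
      · rintro n' (hn' | ⟨R', hR', rfl⟩)
        · exact hL' R (mem_insert_self R FF) n' hn'
        · have hns : ¬ R ⊆ R' := by
            intro hsub
            have h1 := (hO R' (mem_insert_of_mem hR')).2
            have h2 : R = R' := eq_of_subset_of_card_le hsub (by rw [h1, hcard])
            exact hRF (h2 ▸ hR')
          obtain ⟨l, hl, hlR⟩ := not_subset.1 hns
          refine ⟨l, hl, fun h => hlR ?_⟩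
          exact mem_of_dvd_nR (fun x hx => ((hO R' (mem_insert_of_mem hR')).1 x hx).1)
            (hRp l hl) h
      · intro n' hn'
        exact hL' R (mem_insert_self R FF) n' (hLL hn')
      · exact Set.union_subset_union_left _ hLL
      · intro t
        rw [← add_assoc]
        exact hW t
    refine add_mem hX (ih b (∑ w : (ZMod (nR m R))ˣ, N w • D.f (emb m (nR m R) w) + c)
      (fun R' hR' => hO R' (mem_insert_of_mem hR')) (fun R' hR' => hL' R' (mem_insert_of_mem hR'))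
      (fun R' hR' => hlow R' (mem_insert_of_mem hR')) (fun R' hR' => hk R' (mem_insert_of_mem hR'))
      hb (add_mem (lev_mono D hLL hX) hc) fun t => ?_)
    have h1 := hW t
    have h2 : b + (∑ w : (ZMod (nR m R))ˣ, N w • D.f (emb m (nR m R) w) + c) =
        ∑ w : (ZMod (nR m R))ˣ, N w • D.f (emb m (nR m R) w) + b + c := by abel
    rw [h2]
    exact h1

theorem killer_k3 (hm : Even m) (hsq : SqV D) {r₁ r₂ p q : ℕ} (h₁ : PPr r₁) (h₂ : PPr r₂)
    (h12 : r₁ ≠ r₂) (hp : p.Prime) (hq : q.Prime) (hp1 : p % 4 = 1) (hq1 : q % 4 = 1)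
    (hpq : p ≠ q) (hR : OKR m {r₁, r₂, p, q}) (hpr : chi p r₂ = -1) (hqr : chi q r₁ = -1)
    (hdet : chi p r₁ = 1 ∨ chi q r₂ = 1) (L₀ : Set ℕ)
    (hL₀ : ∀ R' : Finset ℕ, R' ⊆ {r₁, r₂, p, q} → R'.card ≤ 1 → nR m R' ∈ L₀)
    (hnd : ∀ n' ∈ L₀, ∀ x ∈ ({r₁, r₂, p, q} : Finset ℕ), ∀ y ∈ ({r₁, r₂, p, q} : Finset ℕ),
      x ≠ y → ¬ x ∣ n' ∨ ¬ y ∣ n')
    (k1 : Killer D {r₁, p} L₀) (k2 : Killer D {r₁, q} L₀) (k3 : Killer D {r₂, p} L₀)
    (k4 : Killer D {r₂, q} L₀) : Killer D {p, q} L₀ := by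
  have e1 : r₁ ≠ p := k3_ne h₁ hp1
  have e2 : r₁ ≠ q := k3_ne h₁ hq1
  have e3 : r₂ ≠ p := k3_ne h₂ hp1
  have e4 : r₂ ≠ q := k3_ne h₂ hq1
  have hRp : ∀ l ∈ ({r₁, r₂, p, q} : Finset ℕ), l.Prime := fun l hl => (hR l hl).1
  -- the pairs
  have hFF : ∀ R ∈ ({{r₁, p}, {r₁, q}, {r₂, p}, {r₂, q}} : Finset (Finset ℕ)),
      R ⊆ {r₁, r₂, p, q} ∧ R.card = 2 ∧ Killer D R L₀ ∧ ¬ R ⊆ {p, q} := by
    intro R hRF
    rw [mem_insert, mem_insert, mem_insert, mem_singleton] at hRF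
    rcases hRF with rfl | rfl | rfl | rfl
    · refine ⟨?_, card_pair e1, k1, fun h => ?_⟩
      · intro l hl
        rw [mem_insert, mem_singleton] at hl
        rw [mem_insert, mem_insert, mem_insert, mem_singleton]
        tauto
      · have h1 := h (mem_insert_self r₁ {p})
        rw [mem_insert, mem_singleton] at h1
        tauto
    · refine ⟨?_, card_pair e2, k2, fun h => ?_⟩
      · intro l hl
        rw [mem_insert, mem_singleton] at hl
        rw [mem_insert, mem_insert, mem_insert, mem_singleton]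
        tauto
      · have h1 := h (mem_insert_self r₁ {q})
        rw [mem_insert, mem_singleton] at h1
        tauto
    · refine ⟨?_, card_pair e3, k3, fun h => ?_⟩
      · intro l hl
        rw [mem_insert, mem_singleton] at hl
        rw [mem_insert, mem_insert, mem_insert, mem_singleton]
        tauto
      · have h1 := h (mem_insert_self r₂ {p})
        rw [mem_insert, mem_singleton] at h1
        tauto
    · refine ⟨?_, card_pair e4, k4, fun h => ?_⟩
      · intro l hl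
        rw [mem_insert, mem_singleton] at hl
        rw [mem_insert, mem_insert, mem_insert, mem_singleton]
        tauto
      · have h1 := h (mem_insert_self r₂ {q})
        rw [mem_insert, mem_singleton] at h1
        tauto
  have hone : ∀ R' R : Finset ℕ, R' ⊂ R → R.card = 2 → R ⊆ {r₁, r₂, p, q} → nR m R' ∈ L₀ := by
    intro R' R hs hc hsub
    refine hL₀ R' (hs.subset.trans hsub) ?_
    have := card_lt_card hs
    omega
  obtain ⟨N, hN, hNm⟩ := k3_rel D hm hsq h₁ h₂ h12 hp hq hp1 hq1 hpq hR hpr hqr hdet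
    (L₀ ∪ {n | ∃ R ∈ ({{r₁, p}, {r₁, q}, {r₂, p}, {r₂, q}} : Finset (Finset ℕ)), n = nR m R}) (by
      intro R' hR'
      have key : ∀ R ∈ ({{r₁, p}, {r₁, q}, {r₂, p}, {r₂, q}} : Finset (Finset ℕ)), R' ⊆ R →
          nR m R' ∈ L₀ ∪ {n | ∃ R ∈ ({{r₁, p}, {r₁, q}, {r₂, p}, {r₂, q}} : Finset (Finset ℕ)),
            n = nR m R} := by
        intro R hRF hsub
        by_cases he : R' = R
        · exact Or.inr ⟨R, hRF, by rw [he]⟩
        · exact Or.inl (hone R' R (ssubset_of_subset_of_ne hsub he) (hFF R hRF).2.1 (hFF R hRF).1)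
      rcases hR' with h | h | h | h
      · exact key _ (by simp) h
      · exact key _ (by simp) h
      · exact key _ (by simp) h
      · exact key _ (by simp) h)
  have hpqm : ∀ l ∈ ({p, q} : Finset ℕ), l.Prime := by
    intro l hl
    rw [mem_insert, mem_singleton] at hl
    rcases hl with rfl | rfl
    · exact hp
    · exact hq
  refine killer_of_odP D N L₀ ?_ hN
  refine k3_red D {{r₁, p}, {r₁, q}, {r₂, p}, {r₂, q}} L₀ (insert (nR m {p, q}) L₀)
    (Set.subset_insert _ _) _ (- Bk D {p, q} N) (fun R hRF => ⟨fun l hl => hR l ((hFF R hRF).1 hl),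
      (hFF R hRF).2.1⟩) ?_ ?_ (fun R hRF => (hFF R hRF).2.2.1) hNm (neg_mem ?_) ?_
  · rintro R hRF n' (rfl | hn')
    · obtain ⟨l, hl, hlR⟩ := not_subset.1 (hFF R hRF).2.2.2
      exact ⟨l, hl, fun h => hlR (mem_of_dvd_nR hpqm (hRp l ((hFF R hRF).1 hl)) h)⟩
    · obtain ⟨x, y, hxy, rfl⟩ := card_eq_two.1 (hFF R hRF).2.1
      have hx : x ∈ ({x, y} : Finset ℕ) := mem_insert_self _ _
      have hy : y ∈ ({x, y} : Finset ℕ) := mem_insert_of_mem (mem_singleton_self y)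
      rcases hnd n' hn' x ((hFF _ hRF).1 hx) y ((hFF _ hRF).1 hy) hxy with h | h
      · exact ⟨x, hx, h⟩
      · exact ⟨y, hy, h⟩
  · rintro R hRF n ⟨R', hR', rfl⟩
    exact hone R' R hR' (hFF R hRF).2.1 (hFF R hRF).1
  · refine bk_mem D (fun l hl => hR l ?_) N _ (Set.mem_insert _ _)
    rw [mem_insert, mem_singleton] at hl
    rw [mem_insert, mem_insert, mem_insert, mem_singleton]
    tauto
  · intro t
    rw [add_neg_cancel, map_zero]

end Pool.Agent.FQ
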