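import Pool.Agent.FQ.Rel
import Pool.Agent.FQ.Par

/-!
# FQ-K3A: the calculus for the pairs `{p, q}` of primes `1` modulo `4`

`r` is a prime `2` or `3` modulo `4`; `p`, `q` are different primes `1` modulo `4`. `MM` is the
group generated by the levels of `Lp` and the elements `Bk D {p, q} ψ`, where `ψ` has even parity.
`Lp` contains the levels of the sets `{r, p}` and `{r, q}`.

Plan. `R = {r, p, q}`, `s = ss r`, `h = hf p`, `t = ss q`, `g = h t`, `c` prime to `r p q`.
* (a) `bkR_p`: if `Dep {r, p} φ` then `Bk D R φ ∈ MM`: `bk_norm` at `q`, `bk_mem`. Same for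
  `Dep {r, q}`.
* (b) `bkR_pq`: if `u` depends on `p`, `v` on `q`, and `v` is even, then `Bk D R (u v) ∈ MM`:
  `bk_norm` at `r` gives `Bk D {p, q} (u v - (u v)(r ·))`, and both parts have even parity
  (`evP_of_even`; `v (r ·)` is even as well).
* (c) `qf_two`: `qf D R 1 - 2 • Bk D R (s g) ∈ MM`: `NF R 1 = s (ss p) t` (`NF_one`),
  `s (ss p) t = s g + s (ss p - h) t`, and `Bk D R (s (ss p - h) t) = - Bk D R ((1 - s) h t)`
  (`bk_neg`, `ss_neg`, `hf_neg`, `ss_neg1`) `= - Bk D R (h t) + Bk D R (s g)`, `Bk D R (h t) ∈ MM`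
  by (b).
* (d) `bk_twist`: with `h' a = h (c a)`:
  `Bk D R (s (c a) h (c a) t (c a)) - (chi r c * chi q c) • Bk D R (s h' t) ∈ MM`: for
  `chi r c = -1` (`s (c a) = 1 - s a`): `Bk D R ((1 - s) h' v) = Bk D R (h' v) - Bk D R (s h' v)`
  with `v = t (c ·)`, the first is in `MM` by (b); for `chi q c = -1`:
  `Bk D R (s h' (1 - t)) = Bk D R (s h') - Bk D R (s h' t)`, the first is in `MM` by (a).
* (e) `bk_swap`: if `chi p c = 1` then `Bk D R (s h' t) - Bk D R (s g) ∈ MM`: let
  `k a = h a (1 - h' a)` (a function of `p`); then `h' - h = k (-·) - k` on residues prime to `p`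
  (`h (-a) = ss p a - h a`, `h' (-a) = ss p a - h' a`, `h, h' ≤ ss p`, values `0`, `1`), and
  `Bk D R (s k(-·) t) = - Bk D R ((1 - s) k t) = - Bk D R (k t) + Bk D R (s k t)`, with
  `Bk D R (k t) ∈ MM` by (b).
* `k3_pos`: if `chi p c = 1`: by (d), (e)
  `Bk D R (s g - (s g)(c ·)) ≡ (1 - chi r c chi q c) • Bk D R (s g)` modulo `MM`, and
  `∏ l ∈ R, chi l c = chi r c * chi q c`; if this is `1` the right side is `0`, if it is `-1` it is
  `2 • Bk D R (s g) ≡ qf D R 1` by (c).
-/

set_option autoImplicit false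

namespace Pool.Agent.FQ

open Finset Pool.Agent.FS

variable {m : ℕ} [NeZero m] {A : Type} [AddCommGroup A] (D : Datum m A)

/-- the group of the levels `Lp` and the elements of even parity for `{p, q}` -/
noncomputable def MM (p q : ℕ) (Lp : Set ℕ) : AddSubgroup A :=
  D.lev Lp ⊔ AddSubgroup.closure {a | ∃ ψ : ℕ → ℤ, EvP m {p, q} ψ ∧ a = Bk D {p, q} ψ}

private theorem k3A_rp {r p : ℕ} (hr : PPr r) (hp1 : p % 4 = 1) : r ≠ p := by
  rintro rfl
  rcases hr.2 with h | h <;> omega

private theorem k3A_er {r p q : ℕ} (hr : PPr r) (hp1 : p % 4 = 1) (hq1 : q % 4 = 1) :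
    ({r, p, q} : Finset ℕ).erase r = {p, q} := by
  have h1 := k3A_rp hr hp1
  have h2 := k3A_rp hr hq1
  ext x
  simp only [mem_erase, mem_insert, mem_singleton]
  constructor
  · rintro ⟨h, h' | h' | h'⟩
    · exact absurd h' h
    · exact Or.inl h'
    · exact Or.inr h'
  · rintro (h | h)
    · exact ⟨fun h' => h1 (h'.symm.trans h), Or.inr (Or.inl h)⟩
    · exact ⟨fun h' => h2 (h'.symm.trans h), Or.inr (Or.inr h)⟩

private theorem k3A_ep {r p q : ℕ} (hr : PPr r) (hp1 : p % 4 = 1) (hpq : p ≠ q) :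
    ({r, p, q} : Finset ℕ).erase p = {r, q} := by
  have h1 := k3A_rp hr hp1
  ext x
  simp only [mem_erase, mem_insert, mem_singleton]
  constructor
  · rintro ⟨h, h' | h' | h'⟩
    · exact Or.inl h'
    · exact absurd h' h
    · exact Or.inr h'
  · rintro (h | h)
    · exact ⟨fun h' => h1 (h.symm.trans h'), Or.inl h⟩
    · exact ⟨fun h' => hpq (h'.symm.trans h), Or.inr (Or.inr h)⟩

private theorem k3A_eq {r p q : ℕ} (hr : PPr r) (hq1 : q % 4 = 1) (hpq : p ≠ q) :
    ({r, p, q} : Finset ℕ).erase q = {r, p} := by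
  have h1 := k3A_rp hr hq1
  ext x
  simp only [mem_erase, mem_insert, mem_singleton]
  constructor
  · rintro ⟨h, h' | h' | h'⟩
    · exact Or.inl h'
    · exact Or.inr h'
    · exact absurd h' h
  · rintro (h | h)
    · exact ⟨fun h' => h1 (h.symm.trans h'), Or.inl h⟩
    · exact ⟨fun h' => hpq (h.symm.trans h'), Or.inr (Or.inl h)⟩

private theorem k3A_prod {M : Type*} [CommMonoid M] {r p q : ℕ} (hr : PPr r) (hp1 : p % 4 = 1)
    (hq1 : q % 4 = 1) (hpq : p ≠ q) (f : ℕ → M) :
    ∏ l ∈ ({r, p, q} : Finset ℕ), f l = f r * (f p * f q) := by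
  have h1 := k3A_rp hr hp1
  have h2 := k3A_rp hr hq1
  rw [prod_insert, prod_insert, prod_singleton]
  · rw [mem_singleton]
    exact hpq
  · rw [mem_insert, mem_singleton]
    rintro (h | h)
    · exact h1 h
    · exact h2 h

private theorem k3A_scale {l c a b : ℕ} (h : a + b ≡ 0 [MOD hb l]) : c * a + c * b ≡ 0 [MOD hb l] := by
  have h1 := h.mul_left c
  rw [mul_zero, mul_add] at h1
  exact h1

section

variable {r p q : ℕ} (hr : PPr r) (hp : p.Prime) (hq : q.Prime) (hp1 : p % 4 = 1)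
  (hq1 : q % 4 = 1) (hpq : p ≠ q) (hR : OKR m {r, p, q}) (Lp : Set ℕ) (hLp : nR m {r, p} ∈ Lp)
  (hLq : nR m {r, q} ∈ Lp)

include hr hp hq hp1 hq1 hpq hR hLp hLq

theorem bkR_p (φ : ℕ → ℤ) (hφ : Dep {r, p} φ) : Bk D {r, p, q} φ ∈ MM D p q Lp := by
  have hqR : q ∈ ({r, p, q} : Finset ℕ) := by simp
  have he := k3A_eq hr hq1 hpq
  have h1 := bk_norm D hR hqR φ (by rw [he]; exact hφ)
  rw [h1, he]
  refine (le_sup_left : D.lev Lp ≤ MM D p q Lp) ?_
  refine bk_mem D ?_ _ Lp hLp
  intro l hl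
  refine hR l ?_
  simp only [mem_insert, mem_singleton] at hl ⊢
  tauto

theorem bkR_q (φ : ℕ → ℤ) (hφ : Dep {r, q} φ) : Bk D {r, p, q} φ ∈ MM D p q Lp := by
  have hpR : p ∈ ({r, p, q} : Finset ℕ) := by simp
  have he := k3A_ep hr hp1 hpq
  have h1 := bk_norm D hR hpR φ (by rw [he]; exact hφ)
  rw [h1, he]
  refine (le_sup_left : D.lev Lp ≤ MM D p q Lp) ?_
  refine bk_mem D ?_ _ Lp hLq
  intro l hl
  refine hR l ?_
  simp only [mem_insert, mem_singleton] at hl ⊢
  tauto

theorem bkR_pq (u v : ℕ → ℤ) (hu : Dep {p} u) (hv : Dep {q} v)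
    (h : ∀ a b : ℕ, a.Coprime q → a + b ≡ 0 [MOD hb q] → v b = v a) :
    Bk D {r, p, q} (fun a => u a * v a) ∈ MM D p q Lp := by
  have hrR : r ∈ ({r, p, q} : Finset ℕ) := by simp
  have he := k3A_er hr hp1 hq1
  have hu' : Dep {p, q} u := dep_mono (by intro x hx; rw [mem_singleton] at hx; simp [hx]) hu
  have hv' : Dep {p, q} v := dep_mono (by intro x hx; rw [mem_singleton] at hx; simp [hx]) hv
  have hR' : OKR m {p, q} := by
    intro l hl
    refine hR l ?_
    simp only [mem_insert, mem_singleton] at hl ⊢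
    tauto
  have h1 := bk_norm D hR hrR (fun a => u a * v a) (by rw [he]; exact dep_mul hu' hv')
  rw [h1, he, bk_sub D {p, q} (fun a => u a * v a) (fun a => u (r * a) * v (r * a))]
  have hrq : r.Coprime q := by
    rw [Nat.coprime_primes hr.1 hq]
    exact k3A_rp hr hq1
  refine AddSubgroup.sub_mem _ ?_ ?_
  · refine (le_sup_right : AddSubgroup.closure {a | ∃ ψ : ℕ → ℤ, EvP m {p, q} ψ ∧ a = Bk D {p, q} ψ} ≤
      MM D p q Lp) ?_
    exact AddSubgroup.subset_closure ⟨_, evP_of_even hpq hR' u v hu hv h, rfl⟩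
  · refine (le_sup_right : AddSubgroup.closure {a | ∃ ψ : ℕ → ℤ, EvP m {p, q} ψ ∧ a = Bk D {p, q} ψ} ≤
      MM D p q Lp) ?_
    refine AddSubgroup.subset_closure ⟨_, evP_of_even hpq hR' (fun a => u (r * a))
      (fun a => v (r * a)) (dep_scale hu r) (dep_scale hv r) ?_, rfl⟩
    intro a b ha hab
    exact h (r * a) (r * b) (Nat.Coprime.mul_left hrq ha) (k3A_scale hab)

theorem qf_two : qf D {r, p, q} (fun _ => 1) -
    (2 : ℤ) • Bk D {r, p, q} (fun a => ss r a * (hf p a * ss q a)) ∈ MM D p q Lp := by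
  have h1 : qf D {r, p, q} (fun _ => 1) =
      Bk D {r, p, q} (fun a => ss r a * (hf p a * ss q a)) +
        Bk D {r, p, q} (fun a => ss r a * ((ss p a - hf p a) * ss q a)) := by
    rw [← bk_add]
    unfold qf
    refine bk_congr D hR ?_
    intro a _
    rw [NF_one, k3A_prod hr hp1 hq1 hpq]
    ring
  have h2 : Bk D {r, p, q} (fun a => ss r a * ((ss p a - hf p a) * ss q a)) =
      - Bk D {r, p, q} (fun a => (hf p a * ss q a) - ss r a * (hf p a * ss q a)) := by
    refine bk_neg D hR ?_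
    intro a b ha hab
    have hra := ha r (by simp)
    have hpa := ha p (by simp)
    have e1 := ss_neg hr hra (hab r (by simp))
    have e2 := ss_neg1 hp hp1 (hab p (by simp))
    have e3 := hf_neg hp hp1 hpa (hab p (by simp))
    have e4 := ss_neg1 hq hq1 (hab q (by simp))
    show ss r b * ((ss p b - hf p b) * ss q b) = _
    rw [e1, e2, e3, e4]
    ring
  rw [bk_sub D {r, p, q} (fun a => hf p a * ss q a) (fun a => ss r a * (hf p a * ss q a))] at h2
  have h3 := bkR_pq D hr hp hq hp1 hq1 hpq hR Lp hLp hLq (hf p) (ss q) (dep_hf p) (dep_ss q)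
    (fun _ _ _ hab => ss_neg1 hq hq1 hab)
  have h4 : qf D {r, p, q} (fun _ => 1) -
      (2 : ℤ) • Bk D {r, p, q} (fun a => ss r a * (hf p a * ss q a)) =
      - Bk D {r, p, q} (fun a => hf p a * ss q a) := by
    rw [h1, h2]
    abel
  rw [h4]
  exact AddSubgroup.neg_mem _ h3

theorem bk_twist (c : ℕ) (hc : ∀ l ∈ ({r, p, q} : Finset ℕ), c.Coprime l) :
    Bk D {r, p, q} (fun a => ss r (c * a) * (hf p (c * a) * ss q (c * a))) -
      (chi r c * chi q c) • Bk D {r, p, q} (fun a => ss r a * (hf p (c * a) * ss q a)) ∈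
        MM D p q Lp := by
  have hcr := hc r (by simp)
  have hcq := hc q (by simp)
  have dh' : Dep {p} (fun a => hf p (c * a)) := dep_scale (dep_hf p) c
  have dh : Dep {r, p} (fun a => ss r a * hf p (c * a)) := by
    refine dep_mul (dep_mono ?_ (dep_ss r)) (dep_mono ?_ dh')
    · intro x hx
      rw [mem_singleton] at hx
      simp [hx]
    · intro x hx
      rw [mem_singleton] at hx
      simp [hx]
  have hA := bkR_p D hr hp hq hp1 hq1 hpq hR Lp hLp hLq _ dh
  have hB := bkR_pq D hr hp hq hp1 hq1 hpq hR Lp hLp hLq (fun a => hf p (c * a)) (ss q) dh'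
    (dep_ss q) (fun _ _ _ hab => ss_neg1 hq hq1 hab)
  have hC := bkR_pq D hr hp hq hp1 hq1 hpq hR Lp hLp hLq (fun a => hf p (c * a))
    (fun a => 1 - ss q a) dh' (dep_sub (dep_const {q} 1) (dep_ss q))
    (fun a b _ hab => by
      show 1 - ss q b = 1 - ss q a
      rw [ss_neg1 hq hq1 hab])
  rcases chi_sq hr.1 hcr with h1 | h1 <;> rcases chi_sq hq hcq with h2 | h2
  · have e : Bk D {r, p, q} (fun a => ss r (c * a) * (hf p (c * a) * ss q (c * a))) =
        Bk D {r, p, q} (fun a => ss r a * (hf p (c * a) * ss q a)) := by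
      refine bk_congr D hR ?_
      intro a _
      rw [ss_mul_pos h1, ss_mul_pos h2]
    rw [e, h1, h2, one_mul, one_smul, sub_self]
    exact AddSubgroup.zero_mem _
  · have e : Bk D {r, p, q} (fun a => ss r (c * a) * (hf p (c * a) * ss q (c * a))) =
        Bk D {r, p, q} (fun a => ss r a * hf p (c * a)) -
        Bk D {r, p, q} (fun a => ss r a * (hf p (c * a) * ss q a)) := by
      rw [← bk_sub]
      refine bk_congr D hR ?_
      intro a ha
      rw [ss_mul_pos h1, ss_mul_neg hq h2 (ha q (by simp))]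
      ring
    have e2 : Bk D {r, p, q} (fun a => ss r (c * a) * (hf p (c * a) * ss q (c * a))) -
        (chi r c * chi q c) • Bk D {r, p, q} (fun a => ss r a * (hf p (c * a) * ss q a)) =
        Bk D {r, p, q} (fun a => ss r a * hf p (c * a)) := by
      rw [e, h1, h2, one_mul, neg_smul, one_smul]
      abel
    rw [e2]
    exact hA
  · have e : Bk D {r, p, q} (fun a => ss r (c * a) * (hf p (c * a) * ss q (c * a))) =
        Bk D {r, p, q} (fun a => hf p (c * a) * ss q a) -
        Bk D {r, p, q} (fun a => ss r a * (hf p (c * a) * ss q a)) := by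
      rw [← bk_sub]
      refine bk_congr D hR ?_
      intro a ha
      rw [ss_mul_neg hr.1 h1 (ha r (by simp)), ss_mul_pos h2]
      ring
    have e2 : Bk D {r, p, q} (fun a => ss r (c * a) * (hf p (c * a) * ss q (c * a))) -
        (chi r c * chi q c) • Bk D {r, p, q} (fun a => ss r a * (hf p (c * a) * ss q a)) =
        Bk D {r, p, q} (fun a => hf p (c * a) * ss q a) := by
      rw [e, h1, h2, mul_one, neg_smul, one_smul]
      abel
    rw [e2]
    exact hB
  · have e : Bk D {r, p, q} (fun a => ss r (c * a) * (hf p (c * a) * ss q (c * a))) =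
        Bk D {r, p, q} (fun a => hf p (c * a) * (1 - ss q a)) -
        (Bk D {r, p, q} (fun a => ss r a * hf p (c * a)) -
        Bk D {r, p, q} (fun a => ss r a * (hf p (c * a) * ss q a))) := by
      rw [← bk_sub, ← bk_sub]
      refine bk_congr D hR ?_
      intro a ha
      rw [ss_mul_neg hr.1 h1 (ha r (by simp)), ss_mul_neg hq h2 (ha q (by simp))]
      ring
    have e2 : Bk D {r, p, q} (fun a => ss r (c * a) * (hf p (c * a) * ss q (c * a))) -
        (chi r c * chi q c) • Bk D {r, p, q} (fun a => ss r a * (hf p (c * a) * ss q a)) =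
        Bk D {r, p, q} (fun a => hf p (c * a) * (1 - ss q a)) -
        Bk D {r, p, q} (fun a => ss r a * hf p (c * a)) := by
      rw [e, h1, h2, neg_mul_neg, one_mul, one_smul]
      abel
    rw [e2]
    exact AddSubgroup.sub_mem _ hC hA

theorem bk_swap (c : ℕ) (hc : ∀ l ∈ ({r, p, q} : Finset ℕ), c.Coprime l) (hcp : chi p c = 1) :
    Bk D {r, p, q} (fun a => ss r a * (hf p (c * a) * ss q a)) -
      Bk D {r, p, q} (fun a => ss r a * (hf p a * ss q a)) ∈ MM D p q Lp := by
  have hcp' := hc p (by simp)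
  have dh' : Dep {p} (fun a => hf p (c * a)) := dep_scale (dep_hf p) c
  have dk : Dep {p} (fun a => hf p a * (1 - hf p (c * a))) :=
    dep_mul (dep_hf p) (dep_sub (dep_const {p} 1) dh')
  have hB := bkR_pq D hr hp hq hp1 hq1 hpq hR Lp hLp hLq (fun a => hf p a * (1 - hf p (c * a))) (ss q)
    dk (dep_ss q) (fun _ _ _ hab => ss_neg1 hq hq1 hab)
  have h1 : Bk D {r, p, q} (fun a => ss r a * (hf p (c * a) * ss q a)) -
      Bk D {r, p, q} (fun a => ss r a * (hf p a * ss q a)) =
      Bk D {r, p, q} (fun a => ss r a * (((ss p a - hf p a) * (1 - ss p a + hf p (c * a))) * ss q a)) -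
      Bk D {r, p, q} (fun a => ss r a * ((hf p a * (1 - hf p (c * a))) * ss q a)) := by
    rw [← bk_sub, ← bk_sub]
    refine bk_congr D hR ?_
    intro a ha
    have hv : (ss p a = 1) ∨ (hf p a = 0 ∧ hf p (c * a) = 0 ∧ ss p a = 0) := by
      unfold ss hf
      by_cases h : chi p a = 1
      · left
        rw [if_pos h]
      · right
        refine ⟨if_neg fun h' => h h'.1, if_neg fun h' => h ?_, if_neg h⟩
        have h2 := h'.1
        rw [chi_mul, hcp, one_mul] at h2
        exact h2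
    rcases hv with h | ⟨h2, h3, h4⟩
    · rw [h]
      ring
    · rw [h2, h3, h4]
      ring
  have h2 : Bk D {r, p, q}
      (fun a => ss r a * (((ss p a - hf p a) * (1 - ss p a + hf p (c * a))) * ss q a)) =
      - Bk D {r, p, q} (fun a => (hf p a * (1 - hf p (c * a))) * ss q a -
        ss r a * ((hf p a * (1 - hf p (c * a))) * ss q a)) := by
    refine bk_neg D hR ?_
    intro a b ha hab
    have hra := ha r (by simp)
    have hpa := ha p (by simp)
    have e1 := ss_neg hr hra (hab r (by simp))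
    have e2 := ss_neg1 hp hp1 (hab p (by simp))
    have e3 := hf_neg hp hp1 hpa (hab p (by simp))
    have e4 := ss_neg1 hq hq1 (hab q (by simp))
    have e5 := hf_neg hp hp1 (Nat.Coprime.mul_left hcp' hpa) (k3A_scale (c := c) (hab p (by simp)))
    rw [ss_mul_pos hcp] at e5
    show ss r b * (((ss p b - hf p b) * (1 - ss p b + hf p (c * b))) * ss q b) = _
    rw [e1, e2, e3, e4, e5]
    ring
  rw [bk_sub D {r, p, q} (fun a => (hf p a * (1 - hf p (c * a))) * ss q a)
    (fun a => ss r a * ((hf p a * (1 - hf p (c * a))) * ss q a))] at h2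
  have h3 : Bk D {r, p, q} (fun a => ss r a * (hf p (c * a) * ss q a)) -
      Bk D {r, p, q} (fun a => ss r a * (hf p a * ss q a)) =
      - Bk D {r, p, q} (fun a => (hf p a * (1 - hf p (c * a))) * ss q a) := by
    rw [h1, h2]
    abel
  rw [h3]
  exact AddSubgroup.neg_mem _ hB

theorem k3_pos (c : ℕ) (hc : ∀ l ∈ ({r, p, q} : Finset ℕ), c.Coprime l) (hcp : chi p c = 1) :
    Bk D {r, p, q} (fun a => ss r a * (hf p a * ss q a) -
        ss r (c * a) * (hf p (c * a) * ss q (c * a))) -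
      (if ∏ l ∈ ({r, p, q} : Finset ℕ), chi l c = 1 then 0 else qf D {r, p, q} (fun _ => 1)) ∈
        MM D p q Lp := by
  have h1 := bk_twist D hr hp hq hp1 hq1 hpq hR Lp hLp hLq c hc
  have h2 := bk_swap D hr hp hq hp1 hq1 hpq hR Lp hLp hLq c hc hcp
  have h3 := qf_two D hr hp hq hp1 hq1 hpq hR Lp hLp hLq
  have hcr := hc r (by simp)
  have hcq := hc q (by simp)
  rw [k3A_prod hr hp1 hq1 hpq, hcp, one_mul,
    bk_sub D {r, p, q} (fun a => ss r a * (hf p a * ss q a))
      (fun a => ss r (c * a) * (hf p (c * a) * ss q (c * a)))]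
  obtain ⟨X, hX⟩ : ∃ X, X = Bk D {r, p, q} (fun a => ss r a * (hf p a * ss q a)) := ⟨_, rfl⟩
  obtain ⟨Y, hY⟩ : ∃ Y, Y = Bk D {r, p, q} (fun a => ss r (c * a) * (hf p (c * a) * ss q (c * a))) :=
    ⟨_, rfl⟩
  obtain ⟨Z, hZ⟩ : ∃ Z, Z = Bk D {r, p, q} (fun a => ss r a * (hf p (c * a) * ss q a)) := ⟨_, rfl⟩
  obtain ⟨Q, hQ⟩ : ∃ Q, Q = qf D {r, p, q} (fun _ => 1) := ⟨_, rfl⟩
  rw [← hX] at h2 h3 ⊢
  rw [← hY] at h1 ⊢
  rw [← hZ] at h1 h2
  rw [← hQ] at h3 ⊢
  have hε : chi r c * chi q c = 1 ∨ chi r c * chi q c = -1 := by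
    rcases chi_sq hr.1 hcr with h | h <;> rcases chi_sq hq hcq with h' | h' <;> rw [h, h'] <;> simp
  rcases hε with h | h
  · rw [h, one_smul] at h1
    rw [if_pos h, sub_zero]
    have e : X - Y = -((Y - Z) + (Z - X)) := by abel
    rw [e]
    exact AddSubgroup.neg_mem _ (AddSubgroup.add_mem _ h1 h2)
  · rw [h, neg_smul, one_smul, sub_neg_eq_add] at h1
    have hne : ¬ (chi r c * chi q c = 1) := by
      rw [h]
      norm_num
    rw [if_neg hne]
    have e : X - Y - Q = -((Y + Z) - (Z - X) + (Q - (2 : ℤ) • X)) := by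
      abel
    rw [e]
    exact AddSubgroup.neg_mem _ (AddSubgroup.add_mem _ (AddSubgroup.sub_mem _ h1 h2) h3)

end

end Pool.Agent.FQ
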