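import Pool.Agent.FQ.K3A

/-!
# FQ-K3B: the case of a nonresidue

Notation of `K3A`; now `chi p c = -1`.

Plan.
* `k3_odd`: `σ a = h a + h (c a)` satisfies `σ (-a) = 1 - σ a` on residues prime to `p` (`hf_neg`,
  `ss p a + ss p (c a) = 1` by `ss_mul_neg`). With `k = hf q`: `t = k + (t - k)` and
  `Bk D R (s σ (t - k)) = - Bk D R ((1 - s) (1 - σ) k)` (`bk_neg`: `(t - k)(-a) = k a`), so
  `Bk D R (s σ t) = Bk D R (s k + σ k - k)`. Here `s k` and `k` depend on `{r, q}` only
  (`bkR_q`), and `Bk D R (σ k) = Bk D {p, q} (σ k - (σ k)(r ·))` by `bk_norm` at `r`. So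
  `Bk D R (s σ t) - Bk D {p, q} (σ k - (σ k)(r ·)) ∈ MM`.
* Parity: `osR (σ k) g = (σ g + σ (-g)) (k g + k (-g)) = ss q (rr g)` (`par_prod`), and
  `osR ((σ k)(r ·)) g = ss q (r * rr g)`: the difference is odd everywhere if `chi q r = -1`, even
  everywhere if `chi q r = 1`. `ψ = σ k - (σ k)(r ·)`.
* `k3_neg`: with `x = Bk D R (s g)`, `x' = Bk D R (s h' t)`, `x + x' = Bk D R (s σ t)`; by
  `bk_twist` `Bk D R (s g - (s g)(c ·)) ≡ x - (chi r c chi q c) • x'` modulo `MM`. The product
  `∏ l ∈ R, chi l c` is `- chi r c * chi q c`. If `chi r c * chi q c = -1` the product is `1` and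
  the claim is `x + x' ≡ Bk D {p, q} ψ`. If `chi r c * chi q c = 1` the product is `-1`, and
  `x - x' - qf D R 1 ≡ x - x' - 2 x = -(x + x')` by `qf_two`, so the claim holds with `- ψ`
  instead of `ψ` (`bk_smul` with `-1`; the parity of `- ψ` is that of `ψ`).
-/

set_option autoImplicit false

namespace Pool.Agent.FQ

open Finset Pool.Agent.FS

variable {m : ℕ} [NeZero m] {A : Type} [AddCommGroup A] (D : Datum m A)

private theorem k3b_hb_dvd {R : Finset ℕ} (hR : OKR m R) {l : ℕ} (hl : l ∈ R) : hb l ∣ nR m R :=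
  (hb_dvd_qq (hR l hl).1 (hR l hl).2).trans (qq_dvd_nR hl)

private theorem k3b_cop {l a : ℕ} {n : ℕ} [NeZero n] (w : (ZMod n)ˣ) (h : hb l ∣ n)
    (ha : a = rr w) : a.Coprime l := by
  subst ha
  refine (rr_coprime w).coprime_dvd_right (dvd_trans ?_ h)
  unfold hb
  split_ifs with h
  · rw [h]; norm_num
  · exact dvd_rfl

/-- the sum of the two halves -/
private def sg (p c a : ℕ) : ℤ := hf p a + hf p (c * a)

private theorem dep_sg (p c : ℕ) : Dep {p} (sg p c) :=
  dep_add (dep_hf p) (dep_scale (dep_hf p) c)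

private theorem sg_neg {p c a b : ℕ} (hp : p.Prime) (hp1 : p % 4 = 1) (hc : c.Coprime p)
    (hcp : chi p c = -1) (ha : a.Coprime p) (h : a + b ≡ 0 [MOD hb p]) :
    sg p c b = 1 - sg p c a := by
  have h1 := hf_neg hp hp1 ha h
  have h2 : c * a + c * b ≡ 0 [MOD hb p] := by
    rw [← mul_add]
    exact (h.mul_left c).trans (by rw [mul_zero])
  have h3 := hf_neg hp hp1 (Nat.Coprime.mul_left hc ha) h2
  have h4 := ss_mul_neg hp hcp ha
  unfold sg
  rw [h1, h3, h4]
  ring

section

variable {r p q : ℕ} (hr : PPr r) (hp : p.Prime) (hq : q.Prime) (hp1 : p % 4 = 1)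
  (hq1 : q % 4 = 1) (hpq : p ≠ q) (hR : OKR m {r, p, q}) (Lp : Set ℕ) (hLp : nR m {r, p} ∈ Lp)
  (hLq : nR m {r, q} ∈ Lp)

include hr hp hq hp1 hq1 hpq hR hLp hLq

theorem k3_odd (c : ℕ) (hc : ∀ l ∈ ({r, p, q} : Finset ℕ), c.Coprime l) (hcp : chi p c = -1) :
    ∃ ψ : ℕ → ℤ, (chi q r = -1 → OdP m {p, q} ψ) ∧ (chi q r = 1 → EvP m {p, q} ψ) ∧
      Bk D {r, p, q} (fun a => ss r a * (hf p a * ss q a)) +
        Bk D {r, p, q} (fun a => ss r a * (hf p (c * a) * ss q a)) - Bk D {p, q} ψ ∈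
          MM D p q Lp := by
  have hrp : r ≠ p := by
    rintro rfl
    rcases hr.2 with h | h
    · rw [h] at hp1; omega
    · omega
  have hrq : r ≠ q := by
    rintro rfl
    rcases hr.2 with h | h
    · rw [h] at hq1; omega
    · omega
  have hrR : r ∈ ({r, p, q} : Finset ℕ) := by simp
  have hpR : p ∈ ({r, p, q} : Finset ℕ) := by simp
  have hqR : q ∈ ({r, p, q} : Finset ℕ) := by simp
  have herase : ({r, p, q} : Finset ℕ).erase r = {p, q} := by
    ext x
    simp only [Finset.mem_erase, Finset.mem_insert, Finset.mem_singleton]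
    constructor
    · rintro ⟨h1, h2 | h2 | h2⟩
      · exact absurd h2 h1
      · exact Or.inl h2
      · exact Or.inr h2
    · rintro (h | h)
      · exact ⟨fun h1 => hrp (h1.symm.trans h), Or.inr (Or.inl h)⟩
      · exact ⟨fun h1 => hrq (h1.symm.trans h), Or.inr (Or.inr h)⟩
  have hR2 : OKR m {p, q} := by
    intro l hl
    apply hR
    rw [← herase] at hl
    exact Finset.mem_of_mem_erase hl
  have hcc : c.Coprime p := hc p hpR
  have hpar : ∀ κ : ℕ → (ZMod (nR m {p, q}))ˣ →* (ZMod (nR m {p, q}))ˣ,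
      FF.IsProj (nR m {p, q}) κ ({p, q} : Finset ℕ).toList → ∀ g,
      osR m {p, q} κ (fun a => sg p c a * hf q a - sg p c (r * a) * hf q (r * a)) g =
        ss q (rr g) - ss q (r * rr g) := by
    intro κ hκ g
    have hpn : hb p ∣ nR m {p, q} := k3b_hb_dvd hR2 (by simp)
    have hqn : hb q ∣ nR m {p, q} := k3b_hb_dvd hR2 (by simp)
    have e1 : rr g + rr (-1 * g) ≡ 0 [MOD nR m {p, q}] := by
      rw [add_comm]
      exact rr_neg g
    have e1p := e1.of_dvd hpn
    have e1q := e1.of_dvd hqn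
    have e2 : r * rr g + r * rr (-1 * g) ≡ 0 [MOD nR m {p, q}] := by
      rw [← mul_add]
      exact (e1.mul_left r).trans (by rw [mul_zero])
    have e2p := e2.of_dvd hpn
    have e2q := e2.of_dvd hqn
    have cp : (rr g).Coprime p := k3b_cop g hpn rfl
    have cq : (rr g).Coprime q := k3b_cop g hqn rfl
    have crp : r.Coprime p := (Nat.coprime_primes hr.1 hp).2 hrp
    have crq : r.Coprime q := (Nat.coprime_primes hr.1 hq).2 hrq
    have cp' : (r * rr g).Coprime p := Nat.Coprime.mul_left crp cp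
    have cq' : (r * rr g).Coprime q := Nat.Coprime.mul_left crq cq
    rw [osR_sub, par_prod hpq hR2 κ hκ (sg p c) (hf q) (dep_sg p c) (dep_hf q) g,
      par_prod hpq hR2 κ hκ (fun a => sg p c (r * a)) (fun a => hf q (r * a))
        (dep_scale (dep_sg p c) r) (dep_scale (dep_hf q) r) g,
      sg_neg hp hp1 hcc hcp cp e1p, sg_neg hp hp1 hcc hcp cp' e2p, hf_neg hq hq1 cq e1q,
      hf_neg hq hq1 cq' e2q]
    ring
  refine ⟨fun a => sg p c a * hf q a - sg p c (r * a) * hf q (r * a), ?_, ?_, ?_⟩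
  · intro hqr κ hκ g
    rw [hpar κ hκ g]
    have hqn : hb q ∣ nR m {p, q} := k3b_hb_dvd hR2 (by simp)
    rw [ss_mul_neg hq hqr (k3b_cop g hqn rfl)]
    exact ⟨ss q (rr g) - 1, by ring⟩
  · intro hqr κ hκ g
    rw [hpar κ hκ g, ss_mul_pos hqr, sub_self]
    exact ⟨0, by ring⟩
  · -- the identity
    have h1 : Bk D {r, p, q} (fun a => ss r a * (hf p a * ss q a)) +
        Bk D {r, p, q} (fun a => ss r a * (hf p (c * a) * ss q a)) =
        Bk D {r, p, q} (fun a => ss r a * (sg p c a * hf q a)) +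
          Bk D {r, p, q} (fun a => ss r a * (sg p c a * (ss q a - hf q a))) := by
      rw [← bk_add, ← bk_add]
      refine bk_congr D hR fun a _ => ?_
      unfold sg
      ring
    have h2 : Bk D {r, p, q} (fun a => ss r a * (sg p c a * (ss q a - hf q a))) =
        - Bk D {r, p, q} (fun a => (hf q a - ss r a * hf q a) -
          (sg p c a * hf q a - ss r a * (sg p c a * hf q a))) := by
      refine bk_neg D hR fun a b ha hab => ?_
      rw [ss_neg hr (ha r hrR) (hab r hrR), sg_neg hp hp1 hcc hcp (ha p hpR) (hab p hpR),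
        ss_neg1 hq hq1 (hab q hqR), hf_neg hq hq1 (ha q hqR) (hab q hqR)]
      ring
    have h3 : Bk D {r, p, q} (fun a => sg p c a * hf q a) =
        Bk D {p, q} (fun a => sg p c a * hf q a - sg p c (r * a) * hf q (r * a)) := by
      have h4 : Dep (({r, p, q} : Finset ℕ).erase r) (fun a => sg p c a * hf q a) := by
        rw [herase]
        refine dep_mul (dep_mono ?_ (dep_sg p c)) (dep_mono ?_ (dep_hf q))
        · simp
        · simp
      have h5 := bk_norm D hR hrR (fun a => sg p c a * hf q a) h4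
      rw [herase] at h5
      exact h5
    rw [bk_sub, bk_sub, bk_sub] at h2
    have h6 : Bk D {r, p, q} (fun a => ss r a * hf q a) ∈ MM D p q Lp := by
      refine bkR_q D hr hp hq hp1 hq1 hpq hR Lp hLp hLq _ ?_
      refine dep_mul (dep_mono ?_ (dep_ss r)) (dep_mono ?_ (dep_hf q))
      · simp
      · simp
    have h7 : Bk D {r, p, q} (fun a => hf q a) ∈ MM D p q Lp := by
      refine bkR_q D hr hp hq hp1 hq1 hpq hR Lp hLp hLq _ (dep_mono ?_ (dep_hf q))
      simp
    have h8 : Bk D {r, p, q} (fun a => ss r a * (hf p a * ss q a)) +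
        Bk D {r, p, q} (fun a => ss r a * (hf p (c * a) * ss q a)) -
        Bk D {p, q} (fun a => sg p c a * hf q a - sg p c (r * a) * hf q (r * a)) =
        Bk D {r, p, q} (fun a => ss r a * hf q a) - Bk D {r, p, q} (fun a => hf q a) := by
      rw [h1, h2, ← h3]
      abel
    rw [h8]
    exact (MM D p q Lp).sub_mem h6 h7

theorem k3_neg (c : ℕ) (hc : ∀ l ∈ ({r, p, q} : Finset ℕ), c.Coprime l) (hcp : chi p c = -1) :
    ∃ ψ : ℕ → ℤ, (chi q r = -1 → OdP m {p, q} ψ) ∧ (chi q r = 1 → EvP m {p, q} ψ) ∧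
      Bk D {r, p, q} (fun a => ss r a * (hf p a * ss q a) -
          ss r (c * a) * (hf p (c * a) * ss q (c * a))) -
        (if ∏ l ∈ ({r, p, q} : Finset ℕ), chi l c = 1 then 0 else qf D {r, p, q} (fun _ => 1)) -
        Bk D {p, q} ψ ∈ MM D p q Lp := by
  have hrp : r ≠ p := by
    rintro rfl
    rcases hr.2 with h | h
    · rw [h] at hp1; omega
    · omega
  have hrq : r ≠ q := by
    rintro rfl
    rcases hr.2 with h | h
    · rw [h] at hq1; omega
    · omega
  have hrR : r ∈ ({r, p, q} : Finset ℕ) := by simp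
  have hqR : q ∈ ({r, p, q} : Finset ℕ) := by simp
  obtain ⟨ψ, hψo, hψe, hψ⟩ := k3_odd D hr hp hq hp1 hq1 hpq hR Lp hLp hLq c hc hcp
  have htw := bk_twist D hr hp hq hp1 hq1 hpq hR Lp hLp hLq c hc
  have hprod : ∏ l ∈ ({r, p, q} : Finset ℕ), chi l c = - (chi r c * chi q c) := by
    rw [Finset.prod_insert, Finset.prod_insert, Finset.prod_singleton, hcp]
    · ring
    · simpa using hpq
    · simp only [Finset.mem_insert, Finset.mem_singleton, not_or]
      exact ⟨hrp, hrq⟩
  have hχ : chi r c * chi q c = 1 ∨ chi r c * chi q c = -1 := by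
    rcases chi_sq hr.1 (hc r hrR) with h | h <;> rcases chi_sq hq (hc q hqR) with h' | h' <;>
      rw [h, h'] <;> norm_num
  rcases hχ with hχ | hχ
  · -- the product is `-1`
    refine ⟨fun a => ψ a - (ψ a + ψ a), ?_, ?_, ?_⟩
    · intro hqr κ hκ g
      rw [osR_sub, osR_add]
      have h1 : Odd (osR m {p, q} κ ψ g) := hψo hqr κ hκ g
      have h2 : osR m {p, q} κ (fun a => ψ a) g - (osR m {p, q} κ (fun a => ψ a) g +
        osR m {p, q} κ (fun a => ψ a) g) = - osR m {p, q} κ ψ g := by ring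
      rw [h2]
      exact h1.neg
    · intro hqr κ hκ g
      rw [osR_sub, osR_add]
      have h1 : Even (osR m {p, q} κ ψ g) := hψe hqr κ hκ g
      have h2 : osR m {p, q} κ (fun a => ψ a) g - (osR m {p, q} κ (fun a => ψ a) g +
        osR m {p, q} κ (fun a => ψ a) g) = - osR m {p, q} κ ψ g := by ring
      rw [h2]
      exact h1.neg
    · have h3 : ¬ (∏ l ∈ ({r, p, q} : Finset ℕ), chi l c = 1) := by
        rw [hprod, hχ]
        norm_num
      rw [if_neg h3, bk_sub, bk_sub, bk_add]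
      rw [hχ, one_smul] at htw
      have h4 := qf_two D hr hp hq hp1 hq1 hpq hR Lp hLp hLq
      have h5 : Bk D {r, p, q} (fun a => ss r a * (hf p a * ss q a)) -
          Bk D {r, p, q} (fun a => ss r (c * a) * (hf p (c * a) * ss q (c * a))) -
          qf D {r, p, q} (fun _ => 1) -
          (Bk D {p, q} (fun a => ψ a) - (Bk D {p, q} (fun a => ψ a) + Bk D {p, q} (fun a => ψ a))) =
          - (Bk D {r, p, q} (fun a => ss r (c * a) * (hf p (c * a) * ss q (c * a))) -
            Bk D {r, p, q} (fun a => ss r a * (hf p (c * a) * ss q a))) -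
          (qf D {r, p, q} (fun _ => 1) -
            (2 : ℤ) • Bk D {r, p, q} (fun a => ss r a * (hf p a * ss q a))) -
          (Bk D {r, p, q} (fun a => ss r a * (hf p a * ss q a)) +
            Bk D {r, p, q} (fun a => ss r a * (hf p (c * a) * ss q a)) - Bk D {p, q} ψ) := by
        have h6 : Bk D {p, q} (fun a => ψ a) = Bk D {p, q} ψ := rfl
        rw [h6, two_smul]
        abel
      rw [h5]
      exact (MM D p q Lp).sub_mem ((MM D p q Lp).sub_mem ((MM D p q Lp).neg_mem htw) h4) hψ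
  · -- the product is `1`
    refine ⟨ψ, hψo, hψe, ?_⟩
    have h3 : ∏ l ∈ ({r, p, q} : Finset ℕ), chi l c = 1 := by
      rw [hprod, hχ]
      norm_num
    rw [if_pos h3, bk_sub]
    rw [hχ, neg_one_smul] at htw
    have h5 : Bk D {r, p, q} (fun a => ss r a * (hf p a * ss q a)) -
        Bk D {r, p, q} (fun a => ss r (c * a) * (hf p (c * a) * ss q (c * a))) - 0 -
        Bk D {p, q} ψ =
        (Bk D {r, p, q} (fun a => ss r a * (hf p a * ss q a)) +
            Bk D {r, p, q} (fun a => ss r a * (hf p (c * a) * ss q a)) - Bk D {p, q} ψ) -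
        (Bk D {r, p, q} (fun a => ss r (c * a) * (hf p (c * a) * ss q (c * a))) -
            - Bk D {r, p, q} (fun a => ss r a * (hf p (c * a) * ss q a))) := by
      abel
    rw [h5]
    exact (MM D p q Lp).sub_mem hψ htw

end

end Pool.Agent.FQ
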