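import Pool.Agent.FQ.MainA
import Pool.Agent.FSU.Kill

/-!
# FQ-KillAl: killers for the pairs of primes of `Kill` and for the primes `2` or `3` modulo `4`
-/

set_option autoImplicit false

namespace Pool.Agent.FQ

open Finset Pool.Agent.FS
open Pool.Agent.FF
open Pool.Agent.FSU (DatumX Kill Y_memX)

/-- The allowed sets of primes: all are `2` or `3` modulo `4` (if `Z`), or there are at most three
and any two of them are of this kind (if `Z`) or satisfy `Kill`. -/
def AlZ (Z : Prop) (P : Set (ℕ × ℕ)) (T : Finset ℕ) : Prop :=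
  (Z ∧ ∀ l ∈ T, PPr l) ∨
    (T.card ≤ 3 ∧ ∀ p ∈ T, ∀ q ∈ T, p < q → (Z ∧ PPr p ∧ PPr q) ∨ Kill P p q)

theorem AlZ_mono {Z : Prop} {P : Set (ℕ × ℕ)} :
    ∀ T, AlZ Z P T → ∀ T' ⊆ T, AlZ Z P T' := by
  rintro T (⟨hZ, h⟩ | ⟨h1, h2⟩) T' hT'
  · exact Or.inl ⟨hZ, fun l hl => h l (hT' hl)⟩
  · exact Or.inr ⟨(card_le_card hT').trans h1, fun p hp q hq => h2 p (hT' hp) q (hT' hq)⟩

section

variable {m : ℕ} [NeZero m] {A : Type} [AddCommGroup A] {P : Set (ℕ × ℕ)} (D : DatumX P m A)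

theorem killZ {Z : Prop} (hm : 2 ∣ m) (hsq : Z → HSq D.toDatum) (R : Finset ℕ) (hR : R ⊆ prs m)
    (hA : AlZ Z P R) (hne : R.Nonempty) (hev : Even R.card) :
    Killer D.toDatum R (lowF m (famA (AlZ Z P) m) R) := by
  have hPP : Z → (∀ l ∈ R, PPr l) → Killer D.toDatum R (lowF m (famA (AlZ Z P) m) R) :=
    fun hZ h => (killPP D.toDatum hm (hsq hZ) hR h hev).mono (lowR_subset AlZ_mono hR hA)
  rcases id hA with ⟨hZ, h⟩ | ⟨h1, h2⟩
  · exact hPP hZ h
  · have hc : R.card = 2 := by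
      have h3 := card_pos.2 hne
      obtain ⟨k, hk⟩ := hev
      omega
    -- the two primes
    obtain ⟨p, q, hlt, hpq⟩ : ∃ p q, p < q ∧ R = {p, q} := by
      obtain ⟨x, y, hxy, hxyR⟩ := card_eq_two.1 hc
      rcases lt_or_gt_of_ne hxy with h | h
      · exact ⟨x, y, h, hxyR⟩
      · exact ⟨y, x, h, by rw [hxyR, pair_comm]⟩
    have hpR : p ∈ R := by rw [hpq]; simp
    have hqR : q ∈ R := by rw [hpq]; simp
    rcases h2 p hpR q hqR hlt with ⟨hZ, hp, hq⟩ | hk
    · refine hPP hZ fun l hl => ?_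
      rw [hpq, mem_insert, mem_singleton] at hl
      rcases hl with rfl | rfl
      · exact hp
      · exact hq
    · have hR' : ∀ l ∈ R, l.Prime ∧ 3 ≤ qq m l := by
        intro l hl
        have h1 := hR hl
        rw [prs, mem_filter] at h1
        exact ⟨Nat.prime_of_mem_primeFactors h1.1, h1.2⟩
      have hsing : ∀ l ∈ R, qq m l ∈ lowF m (famA (AlZ Z P) m) R := by
        intro l hl
        refine ⟨{l}, mem_famA.2 ⟨?_, ?_⟩, ?_, ?_⟩
        · rw [singleton_subset_iff]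
          exact hR hl
        · exact AlZ_mono R hA {l} (singleton_subset_iff.2 hl)
        · rw [card_singleton, hc]
          norm_num
        · rw [nR, prod_singleton]
      have hY := Y_memX D hm p q hk (hb_dvd (hR' p hpR).2) (hb_dvd (hR' q hqR).2)
        (lowF m (famA (AlZ Z P) m) R) (hsing p hpR) (hsing q hqR)
      have hK := killer_of_Y D.toDatum (hR' p hpR) (hR' q hqR) hlt.ne _ hY
      rw [← hpq] at hK
      exact hK

end

end Pool.Agent.FQ
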