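import Pool.Agent.FQ.Chi

/-!
# FQ-KillHalf: killers from half systems
-/

set_option autoImplicit false

namespace Pool.Agent.FQ

open Finset Pool.Agent.FS
open Pool.Agent.FF

section

variable {m : ℕ} [NeZero m] {A : Type} [AddCommGroup A] (D : Datum m A)

open Classical in
theorem killer_of_half {R : Finset ℕ} (hR : ∀ l ∈ R, l.Prime ∧ 3 ≤ qq m l) (L : Set ℕ)
    (Pn : ℕ → ℕ → Prop)
    (hH : ∀ (n : ℕ) [NeZero n], n = nR m R →
      HalfSys (Kl n) (-1) (fun l => {g : (ZMod n)ˣ | Pn l (rr g)}) R.toList)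
    (hsum : ∀ (n : ℕ) [NeZero n], n = nR m R →
      ∑ w ∈ univ.filter (fun w : (ZMod n)ˣ => ∀ l ∈ R, Pn l (rr w)), D.f (emb m n w) ∈
        D.lev L) : Killer D R L := by
  intro n _ hn κ hκ
  have hRp : ∀ l ∈ R, l.Prime := fun l hl => (hR l hl).1
  have hp : ∀ l ∈ R.toList, l.Prime := fun l hl => hRp l (mem_toList.1 hl)
  have hall : ∀ l : ℕ, l.Prime → l ∣ n → l ∈ R.toList := by
    intro l hl h
    rw [mem_toList]
    rw [hn] at h
    exact mem_of_dvd_nR hRp hl h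
  have hP := proj_dec n R.toList (nodup_toList R) hp hall κ hκ
  have hH' := hH n hn
  refine ⟨ind (fun l => {g : (ZMod n)ˣ | Pn l (rr g)}) R.toList, ?_, 1, ?_⟩
  · have h1 := hsum n hn
    rw [sum_filter] at h1
    have h2 : ∑ w : (ZMod n)ˣ, ind (fun l => {g : (ZMod n)ˣ | Pn l (rr g)}) R.toList w •
        D.f (emb m n w) =
        ∑ w : (ZMod n)ˣ, if ∀ l ∈ R, Pn l (rr w) then D.f (emb m n w) else 0 := by
      refine sum_congr rfl fun w _ => ?_
      unfold ind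
      by_cases h : ∀ l ∈ R, Pn l (rr w)
      · rw [if_pos h, if_pos, one_smul]
        intro l hl
        exact h l (mem_toList.1 hl)
      · rw [if_neg h, if_neg, zero_smul]
        intro h3
        exact h fun l hl => h3 l (mem_toList.2 hl)
    rw [h2]
    exact h1
  · have h1 := oss_parity hP hH' 1 0 0 (zero_mem _) 1
    have h2 : (fun g : (ZMod n)ˣ => 1 * ind (fun l => {g : (ZMod n)ˣ | Pn l (rr g)}) R.toList g +
        (0 : (ZMod n)ˣ → ℤ) g + ((0 : (ZMod n)ˣ → ℤ) g + (0 : (ZMod n)ˣ → ℤ) (-1 * g))) =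
        ind (fun l => {g : (ZMod n)ˣ | Pn l (rr g)}) R.toList := by
      funext g
      simp
    rw [h2] at h1
    rw [← Int.not_even_iff_odd, h1]
    decide

/-- killers from the classes `Y` -/
theorem killer_of_Y {l₁ l₂ : ℕ} (h₁ : l₁.Prime ∧ 3 ≤ qq m l₁) (h₂ : l₂.Prime ∧ 3 ≤ qq m l₂)
    (hne : l₁ ≠ l₂) (L : Set ℕ) (hY : D.Y l₁ l₂ ∈ D.lev L) : Killer D {l₁, l₂} L := by
  classical
  have hR : ∀ l ∈ ({l₁, l₂} : Finset ℕ), l.Prime ∧ 3 ≤ qq m l := by
    intro l hl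
    rw [mem_insert, mem_singleton] at hl
    rcases hl with rfl | rfl
    · exact h₁
    · exact h₂
  refine killer_of_half D hR L Half ?_ ?_
  · intro n _ hn
    refine half_sys n _ fun l hl => ?_
    rw [mem_toList] at hl
    refine ⟨(hR l hl).1, ?_⟩
    rw [hn]
    exact (hb_dvd_qq' (hR l hl).2).trans (qq_dvd_nR hl)
  · intro n _ hn
    have hn' : n = qq m l₁ * qq m l₂ := by
      rw [hn, nR, prod_pair hne]
    have h1 := Y_eq_sum D (l₁ := l₁) (l₂ := l₂) hn'
    rw [← h1] at hY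
    refine (congrArg (· ∈ D.lev L) (sum_congr ?_ fun _ _ => rfl)).mpr hY
    ext w
    simp

end

end Pool.Agent.FQ
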