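import Pool.Agent.FQ.Quad
import Pool.Agent.FQ.KillHalf
import Pool.Agent.FQ.Allow

/-!
# FQ-KillPP: killers of the sets of an even number of primes `2` or `3` modulo `4`
-/

set_option autoImplicit false

namespace Pool.Agent.FQ

open Finset Pool.Agent.FS
open Pool.Agent.FF
open Pool.Agent.Helper9.Fermat (fib mem_fib)

section

variable {m : ℕ} [NeZero m]

/-- the half is fixed by the units -/
theorem unit_half (hm : 2 ∣ m) (u : (ZMod m)ˣ) :
    (u : ZMod m) * ((m / 2 : ℕ) : ZMod m) = ((m / 2 : ℕ) : ZMod m) := by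
  have h1 : (u : ZMod m) = ((rr u : ℕ) : ZMod m) := (ZMod.natCast_zmod_val _).symm
  have h2 : ¬ 2 ∣ rr u := by
    intro h
    have h3 := Nat.dvd_gcd h hm
    have h4 := rr_coprime u
    rw [Nat.Coprime] at h4
    rw [h4] at h3
    omega
  obtain ⟨c, hc⟩ : ∃ c, rr u = 2 * c + 1 := ⟨rr u / 2, by omega⟩
  have h3 : ((m / 2 : ℕ) : ZMod m) + ((m / 2 : ℕ) : ZMod m) = 0 := by
    have := Pool.Agent.Helper9.Fermat.half_neg (m := m) hm
    rw [neg_eq_iff_add_eq_zero] at this
    exact this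
  rw [h1, hc]
  push_cast
  linear_combination (c : ZMod m) * h3

theorem QS_sq {R : Finset ℕ} (hR : ∀ l ∈ R, PPr l ∧ hb l ∣ m) (u : (ZMod m)ˣ) :
    (QS m R).val.map (fun x => (u : ZMod m) ^ 2 * x) = (QS m R).val := by
  have hinj : Function.Injective (fun x : ZMod m => (u : ZMod m) ^ 2 * x) := by
    intro x y h
    have h1 : (((u ^ 2 : (ZMod m)ˣ) : ZMod m)) * x = ((u ^ 2 : (ZMod m)ˣ) : ZMod m) * y := by
      rw [Units.val_pow_eq_pow_val]
      exact h
    exact (Units.mul_right_inj _).1 h1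
  have h1 : (QS m R).image (fun x => (u : ZMod m) ^ 2 * x) = QS m R := by
    refine eq_of_subset_of_card_le ?_ ?_
    · intro x hx
      obtain ⟨y, hy, rfl⟩ := mem_image.1 hx
      obtain ⟨v, hv, rfl⟩ := mem_image.1 hy
      rw [mem_filter] at hv
      refine mem_image.2 ⟨u ^ 2 * v, mem_filter.2 ⟨mem_univ _, fun l hl => ?_⟩, ?_⟩
      · have h2 : rr (u ^ 2 * v) ≡ rr u * rr u * rr v [MOD hb l] := by
          refine Nat.ModEq.of_dvd (hR l hl).2 ?_
          refine (rr_mul _ _).trans ?_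
          rw [pow_two]
          exact (rr_mul u u).mul_right _
        rw [chi_mod h2, chi_mul, chi_mul, hv.2 l hl, mul_one]
        have h3 : (rr u).Coprime l := by
          refine (rr_coprime u).coprime_dvd_right (dvd_trans ?_ (hR l hl).2)
          unfold hb
          split_ifs with h
          · rw [h]; norm_num
          · exact dvd_rfl
        rcases chi_sq (hR l hl).1.1 h3 with h | h <;> rw [h] <;> norm_num
      · rw [Units.val_mul, Units.val_pow_eq_pow_val, mul_assoc]
    · rw [card_image_of_injective _ hinj]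
  conv_rhs => rw [← h1, image_val_of_injOn hinj.injOn]

theorem QS_zero {R : Finset ℕ} (hR : ∀ l ∈ R, PPr l ∧ hb l ∣ m) (hne : R.Nonempty) :
    (0 : ZMod m) ∉ (QS m R).val := by
  rw [mem_val]
  intro h
  obtain ⟨u, _, hu⟩ := mem_image.1 h
  have h1 := order_bR (m := m) (fun l hl => (hR l hl).1.1) u
  rw [hu, addOrderOf_zero] at h1
  obtain ⟨l, hl⟩ := hne
  have h2 := hb_dvd_nR hR hl
  rw [← h1] at h2
  have h3 := hb_pos (hR l hl).1.1
  have := Nat.le_of_dvd one_pos h2
  omega

variable {A : Type} [AddCommGroup A] (D : Datum m A)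

/-- the sum over the quadratic set -/
noncomputable def PS (R : Finset ℕ) : A := ∑ x ∈ QS m R, D.f x

theorem PS_empty : PS D ∅ = 0 := by
  unfold PS
  refine sum_eq_zero fun x hx => ?_
  obtain ⟨u, _, rfl⟩ := mem_image.1 hx
  have h1 : bR m ∅ = 0 := by
    unfold bR nR
    rw [prod_empty, Nat.div_one, ZMod.natCast_self]
  rw [h1, mul_zero, D.zero]

theorem PS_lev {R : Finset ℕ} (hR : ∀ l ∈ R, l.Prime) : PS D R ∈ D.lev {nR m R} := by
  unfold PS
  refine sum_mem fun x hx => ?_
  obtain ⟨u, _, rfl⟩ := mem_image.1 hx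
  exact f_mem D (order_bR hR u)

/-- the sum over the half system -/
theorem sum_PS {R : Finset ℕ} (hR : ∀ l ∈ R, PPr l ∧ hb l ∣ m) (n : ℕ) [NeZero n]
    (hn : n = nR m R) [DecidablePred fun w : (ZMod n)ˣ => ∀ l ∈ R, chi l (rr w) = 1] :
    ∑ w ∈ univ.filter (fun w : (ZMod n)ˣ => ∀ l ∈ R, chi l (rr w) = 1), D.f (emb m n w) =
      PS D R := by
  have hRp : ∀ l ∈ R, l.Prime := fun l hl => (hR l hl).1.1
  have hnm : n ∣ m := hn ▸ nR_dvd hRp
  have key : ∀ u : (ZMod m)ˣ, emb m n (ZMod.unitsMap hnm u : (ZMod n)ˣ) = (u : ZMod m) * bR m R := by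
    intro u
    have h1 : (((ZMod.unitsMap hnm u : (ZMod n)ˣ) : ZMod n)).val ≡ rr u [MOD n] := by
      rw [← ZMod.natCast_eq_natCast_iff, ZMod.natCast_zmod_val]
      change (ZMod.castHom hnm (ZMod n)) (u : ZMod m) = _
      rw [ZMod.castHom_apply, rr, ZMod.natCast_val]
    unfold emb bR
    rw [emb_modEq hnm h1, ← hn, Nat.cast_mul, mul_comm, rr, ZMod.natCast_zmod_val]
  have krr : ∀ u : (ZMod m)ˣ, rr (ZMod.unitsMap hnm u) ≡ rr u [MOD n] := by
    intro u
    rw [← ZMod.natCast_eq_natCast_iff, rr, ZMod.natCast_zmod_val]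
    change (ZMod.castHom hnm (ZMod n)) (u : ZMod m) = _
    rw [ZMod.castHom_apply, rr, ZMod.natCast_val]
  have hcond : ∀ u : (ZMod m)ˣ, (∀ l ∈ R, chi l (rr (ZMod.unitsMap hnm u)) = 1) ↔
      ∀ l ∈ R, chi l (rr u) = 1 := by
    intro u
    constructor
    · intro h l hl
      rw [← chi_mod ((krr u).of_dvd (hn ▸ hb_dvd_nR hR hl))]
      exact h l hl
    · intro h l hl
      rw [chi_mod ((krr u).of_dvd (hn ▸ hb_dvd_nR hR hl))]
      exact h l hl
  unfold PS
  refine sum_bij (fun w _ => emb m n (w : ZMod n)) ?_ ?_ ?_ ?_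
  · intro w hw
    rw [mem_filter] at hw
    obtain ⟨u, rfl⟩ := ZMod.unitsMap_surjective hnm w
    rw [key u]
    exact mem_image.2 ⟨u, mem_filter.2 ⟨mem_univ _, (hcond u).1 hw.2⟩, rfl⟩
  · intro w _ w' _ h
    exact Units.ext (emb_inj hnm h)
  · intro x hx
    obtain ⟨u, hu, rfl⟩ := mem_image.1 hx
    rw [mem_filter] at hu
    exact ⟨ZMod.unitsMap hnm u, mem_filter.2 ⟨mem_univ _, (hcond u).2 hu.2⟩, key u⟩
  · intro w _
    rfl

/-- the property which comes from the square invariant Hodge characters -/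
def HSq : Prop :=
  ∀ S : Multiset (ZMod m), (0 : ZMod m) ∉ S → Even S.card → IsHodge S →
    (∀ u : (ZMod m)ˣ, S.map (fun x => (u : ZMod m) ^ 2 * x) = S) → (S.map D.f).sum = 0

theorem closure_rep {R₀ : Finset ℕ} (hR : ∀ l ∈ R₀, PPr l ∧ hb l ∣ m) (a : A)
    (ha : a ∈ AddSubgroup.closure {a | ∃ R ⊆ R₀, a = PS D R}) :
    ∃ S : Multiset (ZMod m), (0 : ZMod m) ∉ S ∧
      (∀ u : (ZMod m)ˣ, S.map (fun x => (u : ZMod m) ^ 2 * x) = S) ∧ a = (S.map D.f).sum := by
  induction ha using AddSubgroup.closure_induction with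
  | mem a ha =>
    obtain ⟨R, hRR, rfl⟩ := ha
    rcases R.eq_empty_or_nonempty with rfl | hne
    · refine ⟨0, by simp, by simp, ?_⟩
      rw [PS_empty]
      simp
    · have hR' : ∀ l ∈ R, PPr l ∧ hb l ∣ m := fun l hl => hR l (hRR hl)
      exact ⟨(QS m R).val, QS_zero hR' hne, QS_sq hR', rfl⟩
  | zero => exact ⟨0, by simp, by simp, by simp⟩
  | add a b _ _ iha ihb =>
    obtain ⟨S, h1, h2, h3⟩ := iha
    obtain ⟨S', h1', h2', h3'⟩ := ihb
    refine ⟨S + S', ?_, ?_, ?_⟩
    · rw [Multiset.mem_add, not_or]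
      exact ⟨h1, h1'⟩
    · intro u
      rw [Multiset.map_add, h2, h2']
    · rw [Multiset.map_add, Multiset.sum_add, ← h3, ← h3']
  | neg a _ ih =>
    obtain ⟨S, h1, h2, h3⟩ := ih
    refine ⟨S.map fun x => -x, ?_, ?_, ?_⟩
    · rw [Multiset.mem_map]
      rintro ⟨x, hx, hx0⟩
      rw [neg_eq_zero] at hx0
      exact h1 (hx0 ▸ hx)
    · intro u
      have h4 : (S.map fun x => -x).map (fun x => (u : ZMod m) ^ 2 * x) =
          (S.map fun x => (u : ZMod m) ^ 2 * x).map fun x => -x := by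
        rw [Multiset.map_map, Multiset.map_map]
        refine Multiset.map_congr rfl fun x _ => ?_
        rw [Function.comp_apply, Function.comp_apply, mul_neg]
      rw [h4, h2]
    · rw [Multiset.map_map, h3]
      have h4 : (D.f ∘ fun x : ZMod m => -x) = fun x => - D.f x := by
        funext x
        rw [Function.comp_apply, D.odd]
      rw [h4, Multiset.sum_map_neg]

/-- the value at the half -/
theorem f_half_eq (hm : 2 ∣ m) : D.f ((m / 2 : ℕ) : ZMod m) = 0 := by
  have h := f_half D hm 0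
  rw [zero_add, mul_zero, D.zero, sub_zero] at h
  exact h

/-- the weights of a multiset without zero -/
theorem W_hodge (S : Multiset (ZMod m)) (h0 : (0 : ZMod m) ∉ S) (t : (ZMod m)ˣ) :
    D.W t (S.map D.f).sum =
      2 * (((S.map fun x => ((t : ZMod m) * x).val).sum : ℕ) : ℤ) - m * S.card := by
  rw [map_multiset_sum, Multiset.map_map]
  have h1 : S.map (D.W t ∘ D.f) = S.map fun x => 2 * (((t : ZMod m) * x).val : ℤ) - m := by
    refine Multiset.map_congr rfl fun x hx => ?_
    have hx0 : (t : ZMod m) * x ≠ 0 := by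
      intro h
      have h2 := (t.isUnit.mul_right_eq_zero).1 h
      exact h0 (h2 ▸ hx)
    rw [Function.comp_apply, D.wf, sw, if_neg hx0]
  rw [h1]
  clear h1 h0
  induction S using Multiset.induction_on with
  | empty => simp
  | cons x U ih =>
    rw [Multiset.map_cons, Multiset.sum_cons, ih, Multiset.map_cons, Multiset.sum_cons,
      Multiset.card_cons]
    push_cast
    ring

/-- elements of the span of the quadratic sets with zero weights vanish -/
theorem closure_zero (hm : 2 ∣ m) (hsq : HSq D) {R₀ : Finset ℕ}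
    (hR : ∀ l ∈ R₀, PPr l ∧ hb l ∣ m) (a : A)
    (ha : a ∈ AddSubgroup.closure {a | ∃ R ⊆ R₀, a = PS D R}) (hW : ∀ t, D.W t a = 0) : a = 0 := by
  obtain ⟨S, h0, hinv, rfl⟩ := closure_rep D hR a ha
  set h := ((m / 2 : ℕ) : ZMod m) with hh
  have hS : IsHodge S := by
    intro t
    have h1 := hW t
    rw [W_hodge D S h0 t] at h1
    have h2 : (2 : ℤ) * (((S.map fun x => ((t : ZMod m) * x).val).sum : ℕ) : ℤ) =
        m * S.card := by linarith
    exact_mod_cast h2
  rcases Nat.even_or_odd S.card with hev | hodd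
  · exact hsq S h0 hev hS hinv
  · have hh0 : h ≠ 0 := Pool.Agent.Helper9.Fermat.half_ne hm
    have h1 := hsq (S + {h}) ?_ ?_ ?_ ?_
    · rw [Multiset.map_add, Multiset.sum_add, Multiset.map_singleton, Multiset.sum_singleton,
        f_half_eq D hm, add_zero] at h1
      exact h1
    · rw [Multiset.mem_add, not_or, Multiset.mem_singleton]
      exact ⟨h0, hh0.symm⟩
    · rw [Multiset.card_add, Multiset.card_singleton]
      exact hodd.add_one
    · intro t
      have h2 := hS t
      rw [Multiset.map_add, Multiset.sum_add, Multiset.map_singleton, Multiset.sum_singleton,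
        Multiset.card_add, Multiset.card_singleton, unit_half hm t]
      have h3 : (h.val) = m / 2 := by
        rw [hh, ZMod.val_natCast]
        refine Nat.mod_eq_of_lt ?_
        have := NeZero.pos m
        omega
      rw [h3, mul_add, h2, mul_add, mul_one, Nat.mul_div_cancel' hm]
    · intro u
      have h2 := unit_half hm (u ^ 2)
      rw [Units.val_pow_eq_pow_val] at h2
      rw [Multiset.map_add, Multiset.map_singleton, hinv u, h2]

/-- the sum over the quadratic set of an even number of primes comes from lower levels -/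
theorem PS_mem (hm : 2 ∣ m) (hsq : HSq D) {R : Finset ℕ} (hR : ∀ l ∈ R, PPr l ∧ hb l ∣ m)
    (hev : Even R.card) : PS D R ∈ D.lev (lowR m R) := by
  set g : (ZMod m)ˣ → ZMod m → ℤ := fun t x => D.W t (D.f x) with hg
  have hdist : ∀ t, IsDist (g t) := by
    intro t r hr hrm y
    simp only [hg]
    rw [← map_sum, D.dist r hr hrm y]
  have hodd : ∀ t x, g t (-x) = - g t x := by
    intro t x
    simp only [hg]
    rw [D.odd, map_neg]
  obtain ⟨z, hz, hzero⟩ := vec_even g hdist hodd R hR hev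
  -- the homomorphism
  set Φ : A →+ ((ZMod m)ˣ → ℤ) :=
    { toFun := fun a t => m.totient * D.W t a
      map_zero' := by funext t; simp
      map_add' := by intro a b; funext t; simp [mul_add] } with hΦ
  have hΦPS : ∀ T ⊆ R, Φ (PS D T) = vec g T := by
    intro T hT
    funext t
    change (m.totient : ℤ) * D.W t (PS D T) = AA (g t) T
    rw [AA_QS (g t) fun l hl => hR l (hT hl), PS, map_sum]
  have hz' : ∃ a ∈ AddSubgroup.closure {a | ∃ T ⊂ R, a = PS D T}, Φ a = z := by
    have h1 : AddSubgroup.closure {v | ∃ T ⊂ R, v = vec g T} ≤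
        (AddSubgroup.closure {a | ∃ T ⊂ R, a = PS D T}).map Φ := by
      rw [AddSubgroup.closure_le]
      rintro v ⟨T, hT, rfl⟩
      exact ⟨PS D T, AddSubgroup.subset_closure ⟨T, hT, rfl⟩, hΦPS T hT.subset⟩
    obtain ⟨a, ha, haz⟩ := h1 hz
    exact ⟨a, ha, haz⟩
  obtain ⟨a, ha, haz⟩ := hz'
  have h0 : PS D R + a = 0 := by
    refine closure_zero D hm hsq hR _ (add_mem ?_ ?_) ?_
    · exact AddSubgroup.subset_closure ⟨R, Subset.refl R, rfl⟩
    · refine AddSubgroup.closure_mono ?_ ha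
      rintro b ⟨T, hT, rfl⟩
      exact ⟨T, hT.subset, rfl⟩
    · intro t
      have h1 : Φ (PS D R + a) = 0 := by
        rw [map_add, hΦPS R (Subset.refl R), haz, hzero]
      have h2 := congrFun h1 t
      change (m.totient : ℤ) * D.W t (PS D R + a) = 0 at h2
      refine (mul_eq_zero.1 h2).resolve_left ?_
      have := Nat.totient_pos.2 (NeZero.pos m)
      exact_mod_cast this.ne'
  have h1 : PS D R = - a := eq_neg_of_add_eq_zero_left h0
  rw [h1]
  refine neg_mem ?_
  refine (AddSubgroup.closure_le _).2 ?_ ha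
  rintro b ⟨T, hT, rfl⟩
  refine lev_mono D ?_ (PS_lev D fun l hl => (hR l (hT.subset hl)).1.1)
  rintro n rfl
  exact ⟨T, hT, rfl⟩

/-- killers of the sets of an even number of primes `2` or `3` modulo `4` -/
theorem killPP (hm : 2 ∣ m) (hsq : HSq D) {R : Finset ℕ} (hR : R ⊆ prs m)
    (hPP : ∀ l ∈ R, PPr l) (hev : Even R.card) : Killer D R (lowR m R) := by
  have hR' : ∀ l ∈ R, l.Prime ∧ 3 ≤ qq m l := by
    intro l hl
    have h1 := hR hl
    rw [prs, mem_filter] at h1
    exact ⟨Nat.prime_of_mem_primeFactors h1.1, h1.2⟩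
  have hRh : ∀ l ∈ R, PPr l ∧ hb l ∣ m := fun l hl =>
    ⟨hPP l hl, (hb_dvd_qq' (hR' l hl).2).trans (qq_dvd m l)⟩
  refine killer_of_half D hR' _ (fun l w => chi l w = 1) ?_ ?_
  · intro n _ hn
    refine half_chi n _ fun l hl => ?_
    rw [mem_toList] at hl
    exact ⟨hPP l hl, hn ▸ hb_dvd_nR hRh hl⟩
  · intro n _ hn
    have h2 := PS_mem D hm hsq hRh hev
    rw [← @sum_PS m _ A _ D R hRh n _ hn fun w => Classical.propDecidable _] at h2
    refine (congrArg (· ∈ D.lev (lowR m R)) (sum_congr ?_ fun _ _ => rfl)).mpr h2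
    ext w
    simp only [mem_filter, mem_univ, true_and]

omit [NeZero m] in
theorem lowR_subset {Al : Finset ℕ → Prop} (hAl : ∀ T, Al T → ∀ T' ⊆ T, Al T') {R : Finset ℕ}
    (hR : R ⊆ prs m) (hA : Al R) : lowR m R ⊆ lowF m (famA Al m) R := by
  rintro n ⟨T, hT, rfl⟩
  exact ⟨T, mem_famA.2 ⟨hT.subset.trans hR, hAl R hA T hT.subset⟩, card_lt_card hT, rfl⟩

/-- all orders with prime factors `2` and `3` modulo `4` -/
theorem zero_of_PP (hm : 2 ∣ m) (hsq : HSq D) (a : A)
    (ha : a ∈ AddSubgroup.closure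
      {a | ∃ x : ZMod m, GoodA (fun T => ∀ l ∈ T, PPr l) (addOrderOf x) ∧ a = D.f x})
    (hW : ∀ t, D.W t a = 0) : a = 0 := by
  have hAl : ∀ T : Finset ℕ, (∀ l ∈ T, PPr l) → ∀ T' ⊆ T, ∀ l ∈ T', PPr l :=
    fun T hT T' hT' l hl => hT l (hT' hl)
  refine zero_of_allowed D hAl hm (fun R hR hA _ hev => ?_) a ha hW
  exact (killPP D hm hsq hR hA hev).mono (lowR_subset hAl hR hA)

end

end Pool.Agent.FQ
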