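import Pool.Agent.FQ.K2
import Pool.Agent.FQ.K3
import Pool.Agent.FQ.KillPP
import Pool.Agent.FQ.Allow
import Pool.Agent.FQ.Quot
import Pool.Agent.FSU.Kill

/-!
# FQ-KillAll: killers for all allowed sets of primes
-/

set_option autoImplicit false

namespace Pool.Agent.FQ

open Finset Pool.Agent.FS
open Pool.Agent.FSU (DatumX Kill Y_memX)

/-- `5`, `13` and `17` -/
def SpP (P : Set (ℕ × ℕ)) (l : ℕ) : Prop :=
  l = 5 ∨ (l = 13 ∧ (2, 13) ∈ P) ∨ (l = 17 ∧ (3, 17) ∈ P)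

/-- `r` is a prime `2` or `3` modulo `4`, `p` a prime `1` modulo `4`, `r` is a square modulo `p`
and some prime `2` or `3` modulo `4` whose base level divides `m` is not -/
def Res (m r p : ℕ) : Prop :=
  PPr r ∧ p.Prime ∧ p % 4 = 1 ∧ chi p r = 1 ∧ ∃ r₂, PPr r₂ ∧ hb r₂ ∣ m ∧ chi p r₂ = -1

/-- pairs of primes whose class vanishes if `Z` holds -/
def KilM (P : Set (ℕ × ℕ)) (m p q : ℕ) : Prop :=
  (PPr p ∧ PPr q) ∨ (12 ∣ m ∧ (PPr p ∨ SpP P p) ∧ (PPr q ∨ SpP P q)) ∨ Res m p q ∨ Res m q p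

/-- The allowed sets of primes. -/
def AlM (Z : Prop) (P : Set (ℕ × ℕ)) (m : ℕ) (T : Finset ℕ) : Prop :=
  (Z ∧ ∀ l ∈ T, PPr l) ∨
    (T.card ≤ 3 ∧ ∀ p ∈ T, ∀ q ∈ T, p < q → Kill P p q ∨ (Z ∧ KilM P m p q))

theorem AlM_mono {Z : Prop} {P : Set (ℕ × ℕ)} {m : ℕ} (T : Finset ℕ) (h : AlM Z P m T)
    (T' : Finset ℕ) (hT : T' ⊆ T) : AlM Z P m T' := by
  rcases h with ⟨hZ, h⟩ | ⟨h1, h2⟩
  · exact Or.inl ⟨hZ, fun l hl => h l (hT hl)⟩
  · exact Or.inr ⟨(card_le_card hT).trans h1,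
      fun p hp q hq hpq => h2 p (hT hp) q (hT hq) hpq⟩

section

variable {Z : Prop} {P : Set (ℕ × ℕ)} {m : ℕ} [NeZero m] {A : Type} [AddCommGroup A]

theorem mem_prs_iff {l : ℕ} : l ∈ prs m ↔ l.Prime ∧ 3 ≤ qq m l := by
  constructor
  · intro h
    rw [prs, mem_filter] at h
    exact ⟨Nat.prime_of_mem_primeFactors h.1, h.2⟩
  · rintro ⟨h1, h2⟩
    exact mem_prs h1 h2

theorem hb_dvd_of_mem {l : ℕ} (h : l ∈ prs m) : hb l ∣ m :=
  hb_dvd (mem_prs_iff.1 h).2

omit [NeZero m] in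
theorem PPr_of {l : ℕ} (hl : l.Prime) (h : l % 4 ≠ 1) : PPr l := by
  refine ⟨hl, ?_⟩
  rcases hl.eq_two_or_odd with h2 | h2
  · exact Or.inl h2
  · right
    omega

/-- the levels of the singles and of the empty set -/
theorem single_mem_lowF {Al : Finset ℕ → Prop} {R R' : Finset ℕ} (hR : R.card = 2)
    (hR' : R'.card ≤ 1) (hp : R' ⊆ prs m) (hA : Al R') : nR m R' ∈ lowF m (famA Al m) R :=
  ⟨R', mem_famA.2 ⟨hp, hA⟩, by omega, rfl⟩

theorem lowF_not_dvd {Al : Finset ℕ → Prop} {R : Finset ℕ} (hR : R.card = 2) {x y : ℕ}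
    (hx : x.Prime) (hy : y.Prime) (hxy : x ≠ y) {n' : ℕ} (hn : n' ∈ lowF m (famA Al m) R) :
    ¬ x ∣ n' ∨ ¬ y ∣ n' := by
  obtain ⟨R', hR', hc, rfl⟩ := hn
  have hpr : ∀ l ∈ R', l.Prime := fun l hl => (mem_prs_iff.1 ((mem_famA.1 hR').1 hl)).1
  by_contra hcon
  push Not at hcon
  have h1 := mem_of_dvd_nR hpr hx hcon.1
  have h2 := mem_of_dvd_nR hpr hy hcon.2
  have h3 : 1 < R'.card := one_lt_card.2 ⟨x, h1, y, h2, hxy⟩
  omega

/-- pairs with a vanishing class in the sense of `FSU` -/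
theorem killer_FSU (D : DatumX P m A) (hm : 2 ∣ m) {p q : ℕ} (hp : p ∈ prs m) (hq : q ∈ prs m)
    (hpq : p ≠ q) (hK : Kill P p q) (L : Set ℕ) (hLp : nR m {p} ∈ L) (hLq : nR m {q} ∈ L) :
    Killer D.toDatum {p, q} L := by
  have hp' := mem_prs_iff.1 hp
  have hq' := mem_prs_iff.1 hq
  rw [nR, prod_singleton] at hLp hLq
  exact killer_of_Y D.toDatum hp' hq' hpq L
    (Y_memX D hm p q hK (hb_dvd hp'.2) (hb_dvd hq'.2) L hLp hLq)

end

section

variable {Z : Prop} {P : Set (ℕ × ℕ)} {m : ℕ} [NeZero m] {A : Type} [AddCommGroup A]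
  (D : DatumQ Z P m A)

/-- the special primes -/
def Sp (P : Set (ℕ × ℕ)) (p r₂ : ℕ) : Prop :=
  (p = 5 ∧ r₂ = 2) ∨ (p = 13 ∧ r₂ = 2 ∧ (2, 13) ∈ P) ∨ (p = 17 ∧ r₂ = 3 ∧ (3, 17) ∈ P)

omit [NeZero m] in
theorem Sp.facts {p r₂ : ℕ} (h : Sp P p r₂) : p.Prime ∧ p % 4 = 1 ∧ PPr r₂ ∧ chi p r₂ = -1 ∧
    Kill P r₂ p ∧ (r₂ = 2 ∨ r₂ = 3) := by
  rcases h with ⟨rfl, rfl⟩ | ⟨rfl, rfl, h⟩ | ⟨rfl, rfl, h⟩
  · refine ⟨by norm_num, by norm_num, ⟨by norm_num, Or.inl rfl⟩, ?_, Or.inl (by decide),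
      Or.inl rfl⟩
    unfold chi
    rw [if_neg (by norm_num)]
    norm_num
  · refine ⟨by norm_num, by norm_num, ⟨by norm_num, Or.inl rfl⟩, ?_, Or.inr ⟨h, by decide⟩,
      Or.inl rfl⟩
    unfold chi
    rw [if_neg (by norm_num)]
    norm_num
  · refine ⟨by norm_num, by norm_num, ⟨by norm_num, Or.inr (by norm_num)⟩, ?_,
      Or.inr ⟨h, by decide⟩, Or.inr rfl⟩
    unfold chi
    rw [if_neg (by norm_num)]
    norm_num

theorem prs_two_three (h12 : 12 ∣ m) {r : ℕ} (hr : r = 2 ∨ r = 3) : r ∈ prs m := by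
  rcases hr with rfl | rfl
  · refine mem_prs Nat.prime_two (qq_ge Nat.prime_two ?_)
    exact (by decide : hb 2 ∣ 12).trans h12
  · refine mem_prs Nat.prime_three (qq_ge Nat.prime_three ?_)
    exact (by decide : hb 3 ∣ 12).trans h12

/-- the pairs of a prime `2` or `3` modulo `4` and `5`, `13` or `17` -/
theorem killer_rp (hZ : Z) (h12 : 12 ∣ m) {r p r₂ : ℕ} (hr : r ∈ prs m) (hr4 : r % 4 ≠ 1)
    (hp : p ∈ prs m) (hs : Sp P p r₂) (L : Set ℕ)
    (hL : ∀ R' : Finset ℕ, R' ⊆ {r, r₂, p} → R'.card ≤ 1 → nR m R' ∈ L)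
    (hnd : ∀ n' ∈ L, ¬ r₂ ∣ n' ∨ ¬ p ∣ n') : Killer D.toDatum {r, p} L := by
  obtain ⟨hpp, hp1, hr2, hchi, hK, h23⟩ := hs.facts
  have hm : 2 ∣ m := (by norm_num : 2 ∣ 12).trans h12
  have hr2m := prs_two_three h12 h23
  have hrP := mem_prs_iff.1 hr
  have hrp : r ≠ p := by rintro rfl; exact hr4 hp1
  have hr2p : r₂ ≠ p := by
    rintro rfl
    rcases hr2.2 with h | h <;> omega
  have hk2 : Killer D.toDatum {r₂, p} L := by
    refine killer_FSU D.toDatumX hm hr2m hp hr2p hK L (hL _ ?_ (by simp)) (hL _ ?_ (by simp))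
    · intro x hx
      rw [mem_singleton] at hx
      rw [hx]
      simp
    · intro x hx
      rw [mem_singleton] at hx
      rw [hx]
      simp
  by_cases hrr : r = r₂
  · rw [hrr]
    exact hk2
  · refine killer_k2 D.toDatum (even_iff_two_dvd.2 hm) (D.sq hZ) (PPr_of hrP.1 hr4) hr2 hrr hpp hp1 ?_ L ?_ ?_ ?_
      hchi (Or.inr hk2)
    · intro l hl
      simp only [mem_insert, mem_singleton] at hl
      rcases hl with rfl | rfl | rfl
      · exact ⟨hrP.1, hb_dvd hrP.2⟩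
      · exact ⟨hr2.1, hb_dvd_of_mem hr2m⟩
      · exact ⟨hpp, hb_dvd_of_mem hp⟩
    · intro R' hR'
      refine hL R' (hR'.subset.trans ?_) ?_
      · intro x hx
        simp only [mem_insert, mem_singleton] at hx ⊢
        tauto
      · have h1 := card_lt_card hR'
        have h2 := card_le_two (a := r) (b := p)
        omega
    · intro R' hR'
      refine hL R' (hR'.subset.trans ?_) ?_
      · intro x hx
        simp only [mem_insert, mem_singleton] at hx ⊢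
        tauto
      · have h1 := card_lt_card hR'
        have h2 := card_le_two (a := r₂) (b := p)
        omega
    · intro n' hn'
      rcases hnd n' hn' with h | h
      · exact ⟨r₂, by simp, h⟩
      · exact ⟨p, by simp, h⟩

/-- two primes among `5`, `13`, `17` -/
def Sp2 (P : Set (ℕ × ℕ)) (p q r₁ r₂ : ℕ) : Prop :=
  (p = 5 ∧ q = 13 ∧ r₁ = 2 ∧ r₂ = 3 ∧ (2, 13) ∈ P) ∨
    (p = 5 ∧ q = 17 ∧ r₁ = 3 ∧ r₂ = 2 ∧ (3, 17) ∈ P) ∨
    (p = 13 ∧ q = 17 ∧ r₁ = 3 ∧ r₂ = 2 ∧ (2, 13) ∈ P ∧ (3, 17) ∈ P)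

omit [NeZero m] in
theorem Sp2.facts {p q r₁ r₂ : ℕ} (h : Sp2 P p q r₁ r₂) : PPr r₁ ∧ PPr r₂ ∧ r₁ ≠ r₂ ∧
    p.Prime ∧ q.Prime ∧ p % 4 = 1 ∧ q % 4 = 1 ∧ p ≠ q ∧ chi p r₂ = -1 ∧ chi q r₁ = -1 ∧
    (chi p r₁ = 1 ∨ chi q r₂ = 1) ∧ (r₁ = 2 ∨ r₁ = 3) ∧ (r₂ = 2 ∨ r₂ = 3) ∧
    (∃ s, Sp P p s) ∧ ∃ s, Sp P q s := by
  have h2 : PPr 2 := ⟨by norm_num, Or.inl rfl⟩
  have h3 : PPr 3 := ⟨by norm_num, Or.inr (by norm_num)⟩
  have c52 : chi 5 2 = -1 := by unfold chi; rw [if_neg (by norm_num)]; norm_num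
  have c53 : chi 5 3 = -1 := by unfold chi; rw [if_neg (by norm_num)]; norm_num
  have c132 : chi 13 2 = -1 := by unfold chi; rw [if_neg (by norm_num)]; norm_num
  have c133 : chi 13 3 = 1 := by unfold chi; rw [if_neg (by norm_num)]; norm_num
  have c172 : chi 17 2 = 1 := by unfold chi; rw [if_neg (by norm_num)]; norm_num
  have c173 : chi 17 3 = -1 := by unfold chi; rw [if_neg (by norm_num)]; norm_num
  rcases h with ⟨rfl, rfl, rfl, rfl, h⟩ | ⟨rfl, rfl, rfl, rfl, h⟩ | ⟨rfl, rfl, rfl, rfl, h, h'⟩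
  · exact ⟨h2, h3, by norm_num, by norm_num, by norm_num, by norm_num, by norm_num, by norm_num,
      c53, c132, Or.inr c133, Or.inl rfl, Or.inr rfl, ⟨2, Or.inl ⟨rfl, rfl⟩⟩,
      ⟨2, Or.inr (Or.inl ⟨rfl, rfl, h⟩)⟩⟩
  · exact ⟨h3, h2, by norm_num, by norm_num, by norm_num, by norm_num, by norm_num, by norm_num,
      c52, c173, Or.inr c172, Or.inr rfl, Or.inl rfl, ⟨2, Or.inl ⟨rfl, rfl⟩⟩,
      ⟨3, Or.inr (Or.inr ⟨rfl, rfl, h⟩)⟩⟩
  · exact ⟨h3, h2, by norm_num, by norm_num, by norm_num, by norm_num, by norm_num, by norm_num,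
      c132, c173, Or.inl c133, Or.inr rfl, Or.inl rfl, ⟨2, Or.inr (Or.inl ⟨rfl, rfl, h⟩)⟩,
      ⟨3, Or.inr (Or.inr ⟨rfl, rfl, h'⟩)⟩⟩

theorem killer_pq (hZ : Z) (h12 : 12 ∣ m) {p q r₁ r₂ : ℕ} (hs : Sp2 P p q r₁ r₂)
    (hp : p ∈ prs m) (hq : q ∈ prs m) (L : Set ℕ)
    (hL : ∀ R' : Finset ℕ, R' ⊆ {2, 3, p, q} → R'.card ≤ 1 → nR m R' ∈ L)
    (hnd : ∀ n' ∈ L, ∀ x y : ℕ, x.Prime → y.Prime → x ≠ y → ¬ x ∣ n' ∨ ¬ y ∣ n') :
    Killer D.toDatum {p, q} L := by
  obtain ⟨h1, h2, hne, hpp, hqp, hp1, hq1, hpq, c1, c2, c3, e1, e2, ⟨s, hsp⟩, ⟨s', hsq⟩⟩ :=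
    hs.facts
  have hm : 2 ∣ m := (by norm_num : 2 ∣ 12).trans h12
  have k : ∀ r x s : ℕ, (r = 2 ∨ r = 3) → (x = p ∨ x = q) → Sp P x s →
      Killer D.toDatum {r, x} L := by
    intro r x s hr hx hs
    obtain ⟨-, -, hs4, -, -, hs23⟩ := hs.facts
    have hxm : x ∈ prs m := by rcases hx with rfl | rfl <;> assumption
    refine killer_rp D hZ h12 (prs_two_three h12 hr) ?_ hxm hs L ?_ ?_
    · rcases hr with rfl | rfl <;> norm_num
    · intro R' hR' hc
      refine hL R' (hR'.trans ?_) hc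
      intro y hy
      simp only [mem_insert, mem_singleton] at hy ⊢
      rcases hy with rfl | rfl | rfl
      · rcases hr with h | h
        · exact Or.inl h
        · exact Or.inr (Or.inl h)
      · rcases hs23 with h | h
        · exact Or.inl h
        · exact Or.inr (Or.inl h)
      · rcases hx with h | h
        · exact Or.inr (Or.inr (Or.inl h))
        · exact Or.inr (Or.inr (Or.inr h))
    · intro n' hn'
      refine hnd n' hn' s x hs4.1 (mem_prs_iff.1 hxm).1 ?_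
      rintro rfl
      obtain ⟨-, h, -⟩ := hs.facts
      rcases hs23 with h' | h' <;> omega
  refine killer_k3 D.toDatum (even_iff_two_dvd.2 hm) (D.sq hZ) h1 h2 hne hpp hqp hp1 hq1 hpq ?_ c1 c2 c3 L ?_ ?_
    (k r₁ p s e1 (Or.inl rfl) hsp) (k r₁ q s' e1 (Or.inr rfl) hsq)
    (k r₂ p s e2 (Or.inl rfl) hsp) (k r₂ q s' e2 (Or.inr rfl) hsq)
  · intro l hl
    simp only [mem_insert, mem_singleton] at hl
    rcases hl with rfl | rfl | rfl | rfl
    · exact ⟨h1.1, hb_dvd_of_mem (prs_two_three h12 e1)⟩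
    · exact ⟨h2.1, hb_dvd_of_mem (prs_two_three h12 e2)⟩
    · exact ⟨hpp, hb_dvd_of_mem hp⟩
    · exact ⟨hqp, hb_dvd_of_mem hq⟩
  · intro R' hR' hc
    refine hL R' (hR'.trans ?_) hc
    intro y hy
    simp only [mem_insert, mem_singleton] at hy ⊢
    rcases hy with rfl | rfl | rfl | rfl
    · rcases e1 with h | h
      · exact Or.inl h
      · exact Or.inr (Or.inl h)
    · rcases e2 with h | h
      · exact Or.inl h
      · exact Or.inr (Or.inl h)
    · exact Or.inr (Or.inr (Or.inl rfl))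
    · exact Or.inr (Or.inr (Or.inr rfl))
  · have hpr : ∀ x ∈ ({r₁, r₂, p, q} : Finset ℕ), x.Prime := by
      intro x hx
      simp only [mem_insert, mem_singleton] at hx
      rcases hx with rfl | rfl | rfl | rfl
      · exact h1.1
      · exact h2.1
      · exact hpp
      · exact hqp
    intro n' hn' x hx y hy hxy
    exact hnd n' hn' x y (hpr x hx) (hpr y hy) hxy

/-- a prime `2` or `3` modulo `4` which is a square modulo a prime `1` modulo `4` -/
theorem killer_res (hZ : Z) (hm : Even m) {r p : ℕ} (h : Res m r p) (hr : r ∈ prs m)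
    (hp : p ∈ prs m) (L : Set ℕ)
    (hL : ∀ R' : Finset ℕ, R'.card ≤ 1 → R' ⊆ prs m → (∀ l ∈ R', PPr l ∨ l = p) → nR m R' ∈ L)
    (hnd : ∀ n' ∈ L, ∀ x y : ℕ, x.Prime → y.Prime → x ≠ y → ¬ x ∣ n' ∨ ¬ y ∣ n') :
    Killer D.toDatum {r, p} L := by
  obtain ⟨hr1, hpp, hp1, hc, r₂, hr2, hrm, hc2⟩ := h
  have hr2m : r₂ ∈ prs m := mem_prs hr2.1 (qq_ge hr2.1 hrm)
  have hrr : r ≠ r₂ := by
    rintro rfl
    rw [hc] at hc2
    norm_num at hc2
  have hr2p : r₂ ≠ p := by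
    rintro rfl
    rcases hr2.2 with h | h <;> omega
  have hlev : ∀ (x : ℕ), PPr x → x ∈ prs m → ∀ R' ⊂ ({x, p} : Finset ℕ), nR m R' ∈ L := by
    intro x hx hxm R' hR'
    refine hL R' ?_ ?_ ?_
    · have h1 := card_lt_card hR'
      have h2 := card_le_two (a := x) (b := p)
      omega
    · intro l hl
      have h1 := hR'.subset hl
      rw [mem_insert, mem_singleton] at h1
      rcases h1 with rfl | rfl <;> assumption
    · intro l hl
      have h1 := hR'.subset hl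
      rw [mem_insert, mem_singleton] at h1
      rcases h1 with rfl | rfl
      · exact Or.inl hx
      · exact Or.inr rfl
  refine killer_k2 D.toDatum hm (D.sq hZ) hr1 hr2 hrr hpp hp1 ?_ L (hlev r hr1 hr)
    (hlev r₂ hr2 hr2m) ?_ hc2 (Or.inl hc)
  · intro l hl
    simp only [mem_insert, mem_singleton] at hl
    rcases hl with rfl | rfl | rfl
    · exact ⟨hr1.1, hb_dvd_of_mem hr⟩
    · exact ⟨hr2.1, hrm⟩
    · exact ⟨hpp, hb_dvd_of_mem hp⟩
  · intro n' hn'
    rcases hnd n' hn' r₂ p hr2.1 hpp hr2p with h | h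
    · exact ⟨r₂, by simp, h⟩
    · exact ⟨p, by simp, h⟩

omit [NeZero m] in
theorem SpP.exists_sp {l : ℕ} (h : SpP P l) : ∃ s, Sp P l s := by
  rcases h with h | h | h
  · exact ⟨2, Or.inl ⟨h, rfl⟩⟩
  · exact ⟨2, Or.inr (Or.inl ⟨h.1, rfl, h.2⟩)⟩
  · exact ⟨3, Or.inr (Or.inr ⟨h.1, rfl, h.2⟩)⟩

theorem killers (hm : Even m) (R : Finset ℕ) (hR : R ⊆ prs m) (hA : AlM Z P m R)
    (hne : R.Nonempty) (hev : Even R.card) :
    Killer D.toDatum R (lowF m (famA (AlM Z P m) m) R) := by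
  -- only primes `2` or `3` modulo `4`
  have hPPr : Z → (∀ l ∈ R, PPr l) → Killer D.toDatum R (lowF m (famA (AlM Z P m) m) R) := by
    intro hZ h
    refine (killPP D.toDatum hm.two_dvd (D.sq hZ) hR h hev).mono ?_
    rintro n ⟨R', hR', rfl⟩
    refine ⟨R', mem_famA.2 ⟨hR'.subset.trans hR, ?_⟩, card_lt_card hR', rfl⟩
    exact Or.inl ⟨hZ, fun l hl => h l (hR'.subset hl)⟩
  rcases id hA with ⟨hZ, h⟩ | ⟨h1, h2⟩
  · exact hPPr hZ h
  have hc : R.card = 2 := by
    obtain ⟨j, hj⟩ := hev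
    have := card_pos.2 hne
    omega
  obtain ⟨x, y, hxy, hRe⟩ := card_eq_two.1 hc
  have hxR : x ∈ R := by rw [hRe]; simp
  have hyR : y ∈ R := by rw [hRe]; simp
  have hnd : ∀ n' ∈ lowF m (famA (AlM Z P m) m) R, ∀ x y : ℕ, x.Prime → y.Prime → x ≠ y →
      ¬ x ∣ n' ∨ ¬ y ∣ n' := fun n' hn' x y hx hy hxy => lowF_not_dvd hc hx hy hxy hn'
  -- the levels
  have hL1 : ∀ R' : Finset ℕ, R'.card ≤ 1 → R' ⊆ prs m →
      nR m R' ∈ lowF m (famA (AlM Z P m) m) R := by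
    intro R' hcR hR'
    refine single_mem_lowF hc hcR hR' (Or.inr ⟨by omega, ?_⟩)
    intro p hp q hq hpq
    exfalso
    have h3 : 1 < R'.card := one_lt_card.2 ⟨p, hp, q, hq, hpq.ne⟩
    omega
  -- the symmetric statement
  have key : ∀ p q : ℕ, R = {p, q} → p < q →
      Killer D.toDatum R (lowF m (famA (AlM Z P m) m) R) := by
    intro p q hRe' hpq
    have hpR : p ∈ R := by rw [hRe']; simp
    have hqR : q ∈ R := by rw [hRe']; simp
    have hpP := mem_prs_iff.1 (hR hpR)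
    have hqP := mem_prs_iff.1 (hR hqR)
    rcases h2 p hpR q hqR hpq with hK | ⟨hZ, ⟨hp, hq⟩ | ⟨h12, hp, hq⟩ | hres | hres⟩
    · have h3 := killer_FSU D.toDatumX hm.two_dvd (hR hpR) (hR hqR) hpq.ne hK
        (lowF m (famA (AlM Z P m) m) R)
        (hL1 _ (by simp) (singleton_subset_iff.2 (hR hpR)))
        (hL1 _ (by simp) (singleton_subset_iff.2 (hR hqR)))
      rw [← hRe'] at h3
      exact h3
    · refine hPPr hZ fun l hl => ?_
      rw [hRe', mem_insert, mem_singleton] at hl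
      rcases hl with rfl | rfl <;> assumption
    · -- the special primes
      have hL : ∀ R' : Finset ℕ, R' ⊆ {2, 3} ∪ R → R'.card ≤ 1 →
          nR m R' ∈ lowF m (famA (AlM Z P m) m) R := by
        intro R' hR' hcR
        refine hL1 R' hcR fun l hl => ?_
        rcases mem_union.1 (hR' hl) with h | h
        · rw [mem_insert, mem_singleton] at h
          exact prs_two_three h12 h
        · exact hR h
      have hmix : ∀ r p s : ℕ, R = {r, p} → PPr r → Sp P p s →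
          Killer D.toDatum R (lowF m (famA (AlM Z P m) m) R) := by
        intro r p s hRe' hr hs
        obtain ⟨hpp, hp1, hs4, -, -, hs23⟩ := hs.facts
        have hrR : r ∈ R := by rw [hRe']; simp
        have hpR : p ∈ R := by rw [hRe']; simp
        have hr4 : r % 4 ≠ 1 := by rcases hr.2 with h | h <;> omega
        have h4 := killer_rp D hZ h12 (hR hrR) hr4 (hR hpR) hs
          (lowF m (famA (AlM Z P m) m) R) ?_ ?_
        · rw [← hRe'] at h4
          exact h4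
        · intro R' hR' hcR
          refine hL R' (hR'.trans ?_) hcR
          intro y hy
          simp only [mem_insert, mem_singleton, mem_union] at hy ⊢
          rcases hy with rfl | rfl | rfl
          · exact Or.inr hrR
          · exact Or.inl hs23
          · exact Or.inr hpR
        · intro n' hn'
          refine hnd n' hn' s p hs4.1 hpp ?_
          rintro rfl
          rcases hs23 with h' | h' <;> omega
      have hpq' : ∀ p q r₁ r₂ : ℕ, R = {p, q} → Sp2 P p q r₁ r₂ →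
          Killer D.toDatum R (lowF m (famA (AlM Z P m) m) R) := by
        intro p q r₁ r₂ hRe' hs
        have hpR : p ∈ R := by rw [hRe']; simp
        have hqR : q ∈ R := by rw [hRe']; simp
        have h4 := killer_pq D hZ h12 hs (hR hpR) (hR hqR) (lowF m (famA (AlM Z P m) m) R) ?_ hnd
        · rw [← hRe'] at h4
          exact h4
        · intro R' hR' hcR
          refine hL R' (hR'.trans ?_) hcR
          intro y hy
          simp only [mem_insert, mem_singleton, mem_union] at hy ⊢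
          rcases hy with rfl | rfl | rfl | rfl
          · exact Or.inl (Or.inl rfl)
          · exact Or.inl (Or.inr rfl)
          · exact Or.inr hpR
          · exact Or.inr hqR
      rcases hp with hp | hp
      · rcases hq with hq | hq
        · refine hPPr hZ fun l hl => ?_
          rw [hRe', mem_insert, mem_singleton] at hl
          rcases hl with rfl | rfl <;> assumption
        · obtain ⟨s, hs⟩ := hq.exists_sp
          exact hmix p q s hRe' hp hs
      · rcases hq with hq | hq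
        · obtain ⟨s, hs⟩ := hp.exists_sp
          exact hmix q p s (by rw [hRe', pair_comm]) hq hs
        · -- both special
          rcases hp with rfl | ⟨rfl, hp⟩ | ⟨rfl, hp⟩
          · rcases hq with rfl | ⟨rfl, hq⟩ | ⟨rfl, hq⟩
            · exact absurd hpq (lt_irrefl _)
            · exact hpq' 5 13 2 3 hRe' (Or.inl ⟨rfl, rfl, rfl, rfl, hq⟩)
            · exact hpq' 5 17 3 2 hRe' (Or.inr (Or.inl ⟨rfl, rfl, rfl, rfl, hq⟩))
          · rcases hq with rfl | ⟨rfl, hq⟩ | ⟨rfl, hq⟩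
            · exact absurd hpq (by norm_num)
            · exact absurd hpq (lt_irrefl _)
            · exact hpq' 13 17 3 2 hRe' (Or.inr (Or.inr ⟨rfl, rfl, rfl, rfl, hp, hq⟩))
          · rcases hq with rfl | ⟨rfl, hq⟩ | ⟨rfl, hq⟩
            · exact absurd hpq (by norm_num)
            · exact absurd hpq (by norm_num)
            · exact absurd hpq (lt_irrefl _)
    · have h3 := killer_res D hZ hm hres (hR hpR) (hR hqR) (lowF m (famA (AlM Z P m) m) R)
        (fun R' hcR hR' _ => hL1 R' hcR hR') hnd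
      rw [← hRe'] at h3
      exact h3
    · have h3 := killer_res D hZ hm hres (hR hqR) (hR hpR) (lowF m (famA (AlM Z P m) m) R)
        (fun R' hcR hR' _ => hL1 R' hcR hR') hnd
      rw [pair_comm, ← hRe'] at h3
      exact h3
  rcases lt_or_gt_of_ne hxy with hlt | hlt
  · exact key x y hRe hlt
  · exact key y x (by rw [hRe, pair_comm]) hlt

/-- Elements of the subgroup generated by the values at the elements of allowed orders with zero
weights are zero. -/
theorem zero_of_goodQ (hm : Even m) (a : A)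
    (ha : a ∈ AddSubgroup.closure {a | ∃ x : ZMod m, GoodA (AlM Z P m) (addOrderOf x) ∧
      a = D.f x})
    (hW : ∀ t, D.W t a = 0) : a = 0 :=
  zero_of_allowed D.toDatum (fun T hT T' hT' => AlM_mono T hT T' hT') hm.two_dvd
    (killers D hm) a ha hW

end

end Pool.Agent.FQ
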