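import Pool.Agent.FQ.Rel
import Pool.Agent.FQ.Diff
import Pool.Agent.SP.ArA

/-!
The class of an even set of primes which are `2` or `3` modulo `4` vanishes.
-/

set_option autoImplicit false

namespace Pool.Agent.FQ

open Finset
open Pool.Agent.FS
open Pool.Agent.SP (nn SS pr ngR RR)

variable {m : ℕ} [NeZero m] {A : Type} [AddCommGroup A]

theorem KillQ_dvd_hb {l : ℕ} : l ∣ hb l := by
  unfold hb
  split_ifs with h
  · rw [h]
    norm_num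
  · exact dvd_rfl

theorem KillQ_mem_Hsq {Q : Finset ℕ} (i : Q) (w : (ZMod (hb i))ˣ) :
    (show RR Q i from w) ∈ Hsq Q i ↔ IsSquare w := by
  classical
  unfold Hsq
  rw [mem_filter]
  exact ⟨fun h => h.2, fun h => ⟨mem_univ _, h⟩⟩

theorem Hsq_half {Q : Finset ℕ} (hQ : ∀ l ∈ Q, l.Prime ∧ (l = 2 ∨ l % 4 = 3)) (i : Q)
    (ρ : RR Q i) : ngR Q i ρ ∈ Hsq Q i ↔ ρ ∉ Hsq Q i := by
  have hi := hQ i i.2
  have : NeZero (hb (i : ℕ)) := ⟨hb_ne_zero hi.1⟩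
  obtain ⟨w, hw⟩ : ∃ w : (ZMod (hb i))ˣ, w = ρ := ⟨ρ, rfl⟩
  have h1 : ngR Q i ρ ∈ Hsq Q i ↔ IsSquare (-w) := by
    rw [← hw]
    exact KillQ_mem_Hsq i (-w)
  have h2 : ρ ∈ Hsq Q i ↔ IsSquare w := by
    rw [← hw]
    exact KillQ_mem_Hsq i w
  rw [h1, h2]
  have hu : (((rr w : ℕ) : ℤ) : ZMod (hb i)) = (w : ZMod (hb i)) := by
    rw [Int.cast_natCast, rr, ZMod.natCast_zmod_val]
  have hu' : ((-((rr w : ℕ) : ℤ) : ℤ) : ZMod (hb i)) = ((-w : (ZMod (hb i))ˣ) : ZMod (hb i)) := by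
    rw [Int.cast_neg, hu, Units.val_neg]
  rw [isSquare_iff hi.1 w _ hu, isSquare_iff hi.1 (-w) _ hu']
  have hcop : IsCoprime ((rr w : ℕ) : ℤ) ((i : ℕ) : ℤ) :=
    Nat.isCoprime_iff_coprime.2 ((rr_coprime w).coprime_dvd_right KillQ_dvd_hb)
  have h3 := sign_iff hi.1 hi.2 ((rr w : ℕ) : ℤ) hcop 1
  rw [Units.val_neg, Units.val_one] at h3
  simp only [one_mul, neg_one_mul] at h3
  rw [← h3]
  constructor
  · rintro ⟨b, hb'⟩
    refine ⟨b, ?_⟩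
    have h4 := hb'.neg
    rwa [neg_neg] at h4
  · rintro ⟨b, hb'⟩
    refine ⟨b, ?_⟩
    have h4 := hb'.neg
    rwa [neg_neg] at h4

theorem SS_hI (D : Datum m A) {Q : Finset ℕ} (hQ : ∀ l ∈ Q, hb l ∣ qq m l)
    (hG : ∀ l ∈ Q, Gp m l) : SS D Q (hI (pr hQ) (Hsq Q) univ) = uu D.f Q (fun _ => 1) := by
  classical
  have hp : ∀ l ∈ Q, l.Prime := fun l hl => (hG l hl).1
  have : NeZero (eT Q) := ⟨eT_ne_zero hp⟩
  have hen : eT Q ∣ nn m Q := Finset.prod_dvd_prod_of_dvd _ _ hQ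
  have hn : nn m Q ∣ m := (Pool.Agent.SP.nn_uni hp).1
  have hpf : ∀ p : ℕ, p.Prime → p ∣ nn m Q → p ∣ eT Q := by
    intro p hpp h
    rw [Pool.Agent.SP.prime_dvd_nn hp hQ hpp] at h
    exact (prime_dvd_eT hp hpp).2 h
  have hcond : ∀ w : (ZMod (nn m Q))ˣ,
      (∀ i ∈ (univ : Finset Q), pr hQ i (Pool.Agent.SP.co m Q w i) ∈ Hsq Q i) ↔
      (∀ j ∈ Q, ∃ b : ℤ, (rr (ZMod.unitsMap hen w) : ℤ) ≡
        (((1 : ℤˣ) : ℤˣ) : ℤ) * b ^ 2 [ZMOD (hb j : ℕ)]) := by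
    intro w
    have hone : ∀ i : Q, pr hQ i (Pool.Agent.SP.co m Q w i) ∈ Hsq Q i ↔
        ∃ b : ℤ, (rr (ZMod.unitsMap hen w) : ℤ) ≡
          (((1 : ℤˣ) : ℤˣ) : ℤ) * b ^ 2 [ZMOD (hb i : ℕ)] := by
      intro i
      have : NeZero (hb (i : ℕ)) := ⟨hb_ne_zero (hp i i.2)⟩
      have h1 : pr hQ i (Pool.Agent.SP.co m Q w i) ∈ Hsq Q i ↔
          IsSquare (ZMod.unitsMap (hQ i i.2) (Pool.Agent.SP.co m Q w i)) :=
        KillQ_mem_Hsq i (ZMod.unitsMap (hQ i i.2) (Pool.Agent.SP.co m Q w i))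
      have h2 : rr (ZMod.unitsMap hen w) ≡
          rr (ZMod.unitsMap (hQ i i.2) (Pool.Agent.SP.co m Q w i)) [MOD hb i] := by
        have a1 : rr (ZMod.unitsMap hen w) ≡ rr w [MOD hb i] :=
          (Rel_unitsMap hen w).of_dvd (hb_dvd_eT i.2)
        have a2 := Rel_unitsMap (hQ i i.2) (Pool.Agent.SP.co m Q w i)
        have a3 : rr (Pool.Agent.SP.co m Q w i) ≡ rr w [MOD hb i] :=
          (Pool.Agent.SP.rr_co w i).of_dvd (hQ i i.2)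
        exact a1.trans (a3.symm.trans a2.symm)
      have hu : (((rr (ZMod.unitsMap hen w) : ℕ) : ℤ) : ZMod (hb i)) =
          ((ZMod.unitsMap (hQ i i.2) (Pool.Agent.SP.co m Q w i) : (ZMod (hb i))ˣ) :
            ZMod (hb i)) := by
        rw [Int.cast_natCast, (ZMod.natCast_eq_natCast_iff _ _ _).2 h2, rr,
          ZMod.natCast_zmod_val]
      rw [h1, isSquare_iff (hp i i.2) _ _ hu, Units.val_one]
      simp only [one_mul]
    constructor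
    · intro h j hj
      exact (hone ⟨j, hj⟩).1 (h ⟨j, hj⟩ (mem_univ _))
    · intro h i _
      exact (hone i).2 (h i i.2)
  have hs : SS D Q (hI (pr hQ) (Hsq Q) univ) = ∑ w ∈ univ.filter (fun w : (ZMod (nn m Q))ˣ =>
      ∀ j ∈ Q, ∃ b : ℤ, (rr (ZMod.unitsMap hen w) : ℤ) ≡
        (((1 : ℤˣ) : ℤˣ) : ℤ) * b ^ 2 [ZMOD (hb j : ℕ)]), D.f (emb m (nn m Q) w) := by
    unfold SS
    rw [Finset.sum_filter]
    apply Finset.sum_congr rfl
    intro w _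
    unfold hI
    by_cases hc : ∀ j ∈ Q, ∃ b : ℤ, (rr (ZMod.unitsMap hen w) : ℤ) ≡
        (((1 : ℤˣ) : ℤˣ) : ℤ) * b ^ 2 [ZMOD (hb j : ℕ)]
    · rw [if_pos hc, if_pos ((hcond w).2 hc), one_smul]
    · rw [if_neg hc, if_neg (fun h => hc ((hcond w).1 h)), zero_smul]
  rw [hs]
  have hmaps : ∀ w ∈ univ.filter (fun w : (ZMod (nn m Q))ˣ =>
      ∀ j ∈ Q, ∃ b : ℤ, (rr (ZMod.unitsMap hen w) : ℤ) ≡
        (((1 : ℤˣ) : ℤˣ) : ℤ) * b ^ 2 [ZMOD (hb j : ℕ)]),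
      ZMod.unitsMap hen w ∈ univ.filter (fun v : (ZMod (eT Q))ˣ =>
      ∀ j ∈ Q, ∃ b : ℤ, (rr v : ℤ) ≡ (((fun _ => 1 : ℕ → ℤˣ) j : ℤˣ) : ℤ) * b ^ 2
        [ZMOD (hb j : ℕ)]) := by
    intro w hw
    rw [mem_filter] at hw ⊢
    exact ⟨mem_univ _, hw.2⟩
  unfold uu
  rw [Rel_sum D.f hG (fun _ => 1), ← Finset.sum_fiberwise_of_maps_to hmaps]
  apply Finset.sum_congr rfl
  intro v hv
  rw [← lift_sum D hen hn hpf v]
  apply Finset.sum_congr ?_ (fun _ _ => rfl)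
  ext w
  rw [mem_filter, mem_filter, mem_filter]
  constructor
  · rintro ⟨-, h⟩
    exact ⟨mem_univ _, h⟩
  · rintro ⟨-, h⟩
    refine ⟨⟨mem_univ _, ?_⟩, h⟩
    rw [h]
    exact (mem_filter.1 hv).2

theorem uu_lev (D : Datum m A) {J : Finset ℕ} (hG : ∀ l ∈ J, Gp m l) (ε : ℕ → ℤˣ) (L : Set ℕ)
    (hL : nn m J ∈ L) : uu D.f J ε ∈ D.lev L := by
  unfold uu
  refine sum_mem fun x hx => ?_
  by_cases hx0 : x = 0
  · rw [hx0, D.zero]
    exact zero_mem _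
  · have hp : ∀ l ∈ J, l.Prime := fun l hl => (hG l hl).1
    have h1 := f_mem_lev D x hx0
    rw [Vsq_order hG ε x hx] at h1
    have h2 : (eT J).primeFactors = J := by
      ext l
      rw [Nat.mem_primeFactors]
      constructor
      · rintro ⟨hl, h, -⟩
        exact (prime_dvd_eT hp hl).1 h
      · intro hl
        exact ⟨hp l hl, (prime_dvd_eT hp (hp l hl)).2 hl, eT_ne_zero hp⟩
    rw [h2] at h1
    refine AddSubgroup.closure_mono ?_ h1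
    rintro a ⟨z, hz, rfl⟩
    refine ⟨z, ?_, rfl⟩
    rw [Set.mem_singleton_iff] at hz
    rw [hz]
    exact hL

theorem kill_sq {P : Set (ℕ × ℕ)} {R : Set ℕ} (D : DatumQ P R m A) {Q : Finset ℕ}
    (hQ : ∀ l ∈ Q, hb l ∣ qq m l) (hG : ∀ l ∈ Q, l ∈ R ∧ Gp m l) (heven : Even Q.card)
    (L : Set ℕ) (hL : ∀ J ⊂ Q, nn m J ∈ L) :
    SS D.toDatum Q (hI (pr hQ) (Hsq Q) univ) ∈ D.lev L := by
  have hG' : ∀ l ∈ Q, Gp m l := fun l hl => (hG l hl).2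
  rw [SS_hI D.toDatum hQ hG']
  obtain ⟨z, hz, h2⟩ := even_class (uu D.f) Q
    (fun T _ ε ε' h => uu_congr D.f ε ε' h)
    (fun T hT ε => uu_neg D.toDatum (fun l hl => hG' l (hT hl)) ε)
    (fun T hT l hl ε => uu_rel D.toDatum (fun l hl => hG' l (hT hl)) hl ε)
    (fun ε => uu_empty D.toDatum ε) heven (fun _ => 1)
  have hmem : uu D.f Q (fun _ => 1) + z ∈ UU D.f {T | ∀ l ∈ T, l ∈ R ∧ Gp m l} := by
    unfold UU
    refine add_mem (AddSubgroup.subset_closure ⟨Q, hG, _, rfl⟩) ?_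
    refine AddSubgroup.closure_mono ?_ hz
    rintro a ⟨J, hJ, ε, rfl⟩
    exact ⟨J, fun l hl => hG l (hJ.1 hl), ε, rfl⟩
  have hW : ∀ t, D.W t (uu D.f Q (fun _ => 1) + z) = 0 := by
    intro t
    have h3 := congrArg (D.W t) h2
    rw [map_nsmul, map_zero, nsmul_eq_mul] at h3
    rcases mul_eq_zero.1 h3 with h4 | h4
    · norm_num at h4
    · exact h4
  have h0 := D.squares _ hmem hW
  have hzl : z ∈ D.lev L := by
    have hle : AddSubgroup.closure {a | ∃ J ⊂ Q, ∃ ε, a = uu D.f J ε} ≤ D.lev L := by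
      rw [AddSubgroup.closure_le]
      rintro a ⟨J, hJ, ε, rfl⟩
      exact uu_lev D.toDatum (fun l hl => hG' l (hJ.1 hl)) ε L (hL J hJ)
    exact hle hz
  rw [eq_neg_of_add_eq_zero_left h0]
  exact neg_mem hzl

end Pool.Agent.FQ
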