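import Pool.Agent.FQ.Defs

/-!
# Distribution relations for units
-/

set_option autoImplicit false

namespace Pool.Agent.FQ

open Finset
open Pool.Agent.FS
open Pool.Agent.Helper9.Fermat (fib mem_fib)

/-- an element of the fibre has order dividing `n`; either the order is `n` or some prime divisor of `n`
can be removed -/
private theorem Lift_ord {m : ℕ} [NeZero m] {n e d : ℕ} [NeZero n] (hn0 : n ≠ 0)
    (hned : n = d * e) {y z : ZMod m} (hyo : addOrderOf y = n)
    (h1 : (d : ZMod m) * z = (d : ZMod m) * y)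
    (hz : ∀ p q : ℕ, p.Prime → p ∣ n → n = p * q → (q : ZMod m) * z = 0 → p ∣ e) :
    addOrderOf z = n := by
  have hnz : addOrderOf z ∣ n := by
    rw [addOrderOf_dvd_iff_nsmul_eq_zero, nsmul_eq_mul, hned, mul_comm d e, Nat.cast_mul,
      mul_assoc, h1, ← mul_assoc, ← Nat.cast_mul, mul_comm e d, ← hned, ← nsmul_eq_mul,
      ← hyo]
    exact addOrderOf_nsmul_eq_zero y
  obtain ⟨k, hk⟩ := hnz
  by_cases hk1 : k = 1
  · rw [hk, hk1, mul_one]
  · exfalso
    obtain ⟨p, hp, q, hq⟩ := Nat.exists_prime_and_dvd hk1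
    have hpn : p ∣ n := by
      rw [hk, hq]
      exact (Dvd.intro q rfl : p ∣ p * q).mul_left _
    have hz0 : ((addOrderOf z * q : ℕ) : ZMod m) * z = 0 := by
      rw [mul_comm (addOrderOf z) q, Nat.cast_mul, mul_assoc, ← nsmul_eq_mul (addOrderOf z),
        addOrderOf_nsmul_eq_zero, mul_zero]
    have hnpq : n = p * (addOrderOf z * q) := by
      rw [hk, hq]
      ring
    obtain ⟨e', he'⟩ := hz p _ hp hpn hnpq hz0
    have h6 : addOrderOf z * q = e' * d := by
      have h7 : p * (addOrderOf z * q) = p * (e' * d) := by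
        rw [← hnpq, hned, he']
        ring
      exact Nat.eq_of_mul_eq_mul_left hp.pos h7
    rw [h6, Nat.cast_mul, mul_assoc, h1, ← mul_assoc, ← Nat.cast_mul, ← h6] at hz0
    have h8 : n ∣ addOrderOf z * q := by
      rw [← hyo, addOrderOf_dvd_iff_nsmul_eq_zero, nsmul_eq_mul]
      exact hz0
    have h9 : 0 < addOrderOf z * q := by
      rcases Nat.eq_zero_or_pos (addOrderOf z * q) with h | h
      · rw [h, mul_zero] at hnpq
        exact absurd hnpq hn0
      · exact h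
    have h10 := Nat.le_of_dvd h9 h8
    have h11 : 2 * (addOrderOf z * q) ≤ p * (addOrderOf z * q) :=
      Nat.mul_le_mul_right _ hp.two_le
    rw [hnpq] at h10
    omega

private theorem Lift_a {m : ℕ} [NeZero m] {A : Type} [AddCommGroup A] (D : Datum m A) {e n d : ℕ}
    [NeZero n] (hn : n ∣ m) (hned : n = d * e) (hpf : ∀ p : ℕ, p.Prime → p ∣ n → p ∣ e)
    (w₀ : (ZMod n)ˣ) :
    ∑ w ∈ univ.filter (fun w : (ZMod n)ˣ => rr w ≡ rr w₀ [MOD e]), D.f (emb m n w) =
      D.f ((d : ZMod m) * emb m n (w₀ : ZMod n)) := by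
  classical
  have hn0 : n ≠ 0 := NeZero.ne n
  have hdm : d ∣ m := (hned ▸ Dvd.intro e rfl : d ∣ n).trans hn
  set y : ZMod m := emb m n (w₀ : ZMod n) with hy
  have hyo : addOrderOf y = n := (exists_emb hn y).2 ⟨w₀, rfl⟩
  rw [← dist_gen D d hdm y]
  have hiff : ∀ w : (ZMod n)ˣ, (d : ZMod m) * emb m n (w : ZMod n) = (d : ZMod m) * y ↔
      rr w ≡ rr w₀ [MOD e] := by
    intro w
    rw [hy, mul_emb_eq_iff hn hned, ZMod.cast_eq_val, ZMod.cast_eq_val,
      ZMod.natCast_eq_natCast_iff]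
    rfl
  refine Finset.sum_nbij (fun w : (ZMod n)ˣ => emb m n (w : ZMod n)) ?_ ?_ ?_ ?_
  · intro w hw
    rw [mem_filter] at hw
    rw [mem_fib]
    exact (hiff w).2 hw.2
  · intro w _ w' _ h
    exact Units.ext (emb_inj hn h)
  · intro z hz
    rw [mem_coe, mem_fib] at hz
    have ho : addOrderOf z = n :=
      Lift_ord hn0 hned hyo hz (fun p q hp hpn _ _ => hpf p hp hpn)
    obtain ⟨w, hw⟩ := (exists_emb hn z).1 ho
    refine ⟨w, ?_, hw.symm⟩
    rw [mem_coe, mem_filter]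
    refine ⟨mem_univ _, (hiff w).1 ?_⟩
    rw [← hw]
    exact hz
  · intro w _
    rfl

private theorem Lift_b {m : ℕ} [NeZero m] {A : Type} [AddCommGroup A] (D : Datum m A)
    {n e l d' c k : ℕ} [NeZero n] (hn : n ∣ m) (hd' : n = e * l * d') (hc : m = n * c)
    (hl : l.Prime) (hle : ¬ l ∣ e)
    (hpf : ∀ p : ℕ, p.Prime → p ∣ n → p = l ∨ p ∣ e) (w₀ : (ZMod n)ˣ)
    (hv1 : l * k ≡ rr w₀ [MOD e]) :
    ∑ w ∈ univ.filter (fun w : (ZMod n)ˣ => rr w ≡ rr w₀ [MOD e]), D.f (emb m n w) =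
      D.f (((l * d' : ℕ) : ZMod m) * emb m n (w₀ : ZMod n)) -
        D.f ((d' : ZMod m) * ((c * (l * k) : ℕ) : ZMod m)) := by
  classical
  have hn0 : n ≠ 0 := NeZero.ne n
  have hm0 : m ≠ 0 := NeZero.ne m
  have he0 : e ≠ 0 := by
    rintro rfl
    rw [zero_mul, zero_mul] at hd'
    exact hn0 hd'
  have hl0 : 0 < l := hl.pos
  have hd'0 : d' ≠ 0 := by
    rintro rfl
    rw [mul_zero] at hd'
    exact hn0 hd'
  set d := l * d' with hd
  have hned : n = d * e := by rw [hd', hd]; ring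
  have hnl : n = l * (e * d') := by rw [hd']; ring
  have hd0 : d ≠ 0 := Nat.mul_ne_zero hl0.ne' hd'0
  have hmn : m / n = c := by
    conv_lhs => rw [hc]
    exact Nat.mul_div_cancel_left c (Nat.pos_of_ne_zero hn0)
  have hdm : d ∣ m := (hned ▸ Dvd.intro e rfl : d ∣ n).trans hn
  have hd'm : d' ∣ m := (Dvd.intro_left l rfl : d' ∣ d).trans hdm
  set y : ZMod m := emb m n (w₀ : ZMod n) with hy
  have hyo : addOrderOf y = n := (exists_emb hn y).2 ⟨w₀, rfl⟩
  have hcop : Nat.Coprime e l := ((Nat.Prime.coprime_iff_not_dvd hl).2 hle).symm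
  set y' : ZMod m := ((c * (l * k) : ℕ) : ZMod m) with hy'
  have hyv : y = ((c * rr w₀ : ℕ) : ZMod m) := by
    rw [hy, emb, hmn]
    rfl
  have hdy : (d : ZMod m) * y' = (d : ZMod m) * y := by
    rw [hy', hyv, ← Nat.cast_mul, ← Nat.cast_mul, ZMod.natCast_eq_natCast_iff]
    have h1 := Nat.ModEq.mul_left' (d * c) hv1
    have h2 : d * c * e = m := by rw [hc, hned]; ring
    rw [h2] at h1
    have e1 : d * (c * (l * k)) = d * c * (l * k) := by ring
    have e2 : d * (c * rr w₀) = d * c * rr w₀ := by ring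
    rw [e1, e2]
    exact h1
  have hly : ((e * d' : ℕ) : ZMod m) * y' = 0 := by
    rw [hy', ← Nat.cast_mul, ZMod.natCast_eq_zero_iff]
    refine ⟨k, ?_⟩
    rw [hc, hnl]
    ring
  have hs1 := dist_gen D d hdm y
  have hs2 := dist_gen D d' hd'm y'
  -- the second part of the fibre
  have hF2 : (fib m d ((d : ZMod m) * y)).filter (fun z => ((e * d' : ℕ) : ZMod m) * z = 0) =
      fib m d' ((d' : ZMod m) * y') := by
    ext z
    rw [mem_filter, mem_fib, mem_fib]
    constructor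
    · rintro ⟨h1, h2⟩
      have h3 : addOrderOf (z - y') ∣ l * d' := by
        rw [addOrderOf_dvd_iff_nsmul_eq_zero, nsmul_eq_mul, ← hd, mul_sub, h1, hdy, sub_self]
      have h4 : addOrderOf (z - y') ∣ e * d' := by
        rw [addOrderOf_dvd_iff_nsmul_eq_zero, nsmul_eq_mul, mul_sub, h2, hly, sub_self]
      have h5 : addOrderOf (z - y') ∣ d' := by
        have h6 := Nat.dvd_gcd h3 h4
        rw [Nat.gcd_mul_right, Nat.Coprime.gcd_eq_one hcop.symm, one_mul] at h6
        exact h6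
      rw [addOrderOf_dvd_iff_nsmul_eq_zero, nsmul_eq_mul, mul_sub, sub_eq_zero] at h5
      exact h5
    · intro h1
      constructor
      · rw [← hdy, hd, Nat.cast_mul, mul_assoc, mul_assoc, h1]
      · rw [Nat.cast_mul, mul_assoc, h1, ← mul_assoc, ← Nat.cast_mul]
        exact hly
  -- the first part of the fibre
  have hF1 : ∑ w ∈ univ.filter (fun w : (ZMod n)ˣ => rr w ≡ rr w₀ [MOD e]), D.f (emb m n w) =
      ∑ z ∈ (fib m d ((d : ZMod m) * y)).filter
        (fun z => ¬ ((e * d' : ℕ) : ZMod m) * z = 0), D.f z := by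
    have hiff : ∀ w : (ZMod n)ˣ, (d : ZMod m) * emb m n (w : ZMod n) = (d : ZMod m) * y ↔
        rr w ≡ rr w₀ [MOD e] := by
      intro w
      rw [hy, mul_emb_eq_iff hn hned, ZMod.cast_eq_val, ZMod.cast_eq_val,
        ZMod.natCast_eq_natCast_iff]
      rfl
    refine Finset.sum_nbij (fun w : (ZMod n)ˣ => emb m n (w : ZMod n)) ?_ ?_ ?_ ?_
    · intro w hw
      rw [mem_filter] at hw
      rw [mem_filter, mem_fib]
      refine ⟨(hiff w).2 hw.2, ?_⟩
      intro h0
      have h1 : addOrderOf (emb m n (w : ZMod n)) = n := (exists_emb hn _).2 ⟨w, rfl⟩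
      have h2 : n ∣ e * d' := by
        rw [← h1, addOrderOf_dvd_iff_nsmul_eq_zero, nsmul_eq_mul]
        exact h0
      have h3 := Nat.le_of_dvd (Nat.pos_of_ne_zero (Nat.mul_ne_zero he0 hd'0)) h2
      have h4 : 2 * (e * d') ≤ l * (e * d') := Nat.mul_le_mul_right _ hl.two_le
      have h5 : 0 < e * d' := Nat.pos_of_ne_zero (Nat.mul_ne_zero he0 hd'0)
      rw [hnl] at h3
      omega
    · intro w _ w' _ h
      exact Units.ext (emb_inj hn h)
    · intro z hz
      rw [mem_coe, mem_filter, mem_fib] at hz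
      obtain ⟨h1, h2⟩ := hz
      have ho : addOrderOf z = n := by
        refine Lift_ord hn0 hned hyo h1 (fun p q hp hpn hnpq hz0 => ?_)
        rcases hpf p hp hpn with rfl | hpe
        · exfalso
          apply h2
          have h6 : e * d' = q := by
            have h7 : p * (e * d') = p * q := hnl.symm.trans hnpq
            exact Nat.eq_of_mul_eq_mul_left hp.pos h7
          rw [h6]
          exact hz0
        · exact hpe
      obtain ⟨w, hw⟩ := (exists_emb hn z).1 ho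
      refine ⟨w, ?_, hw.symm⟩
      rw [mem_coe, mem_filter]
      refine ⟨mem_univ _, (hiff w).1 ?_⟩
      rw [← hw]
      exact h1
    · intro w _
      rfl
  rw [hF1, ← hs1, ← hs2, ← hF2, eq_sub_iff_add_eq, add_comm]
  exact Finset.sum_filter_add_sum_filter_not _ _ _

private theorem Lift_map_iff {e n : ℕ} [NeZero e] [NeZero n] (hen : e ∣ n) (w w₀ : (ZMod n)ˣ) :
    ZMod.unitsMap hen w = ZMod.unitsMap hen w₀ ↔ rr w ≡ rr w₀ [MOD e] := by
  rw [Units.ext_iff, ZMod.unitsMap_val, ZMod.unitsMap_val, ZMod.cast_eq_val, ZMod.cast_eq_val,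
    ZMod.natCast_eq_natCast_iff]
  rfl

private theorem Lift_val {e n : ℕ} [NeZero e] [NeZero n] (hen : e ∣ n) (w₀ : (ZMod n)ˣ) :
    ((rr w₀ : ℕ) : ZMod e) = (ZMod.unitsMap hen w₀ : (ZMod e)ˣ) := by
  rw [ZMod.unitsMap_val, ZMod.cast_eq_val]
  rfl

/-- `d * c * a = emb m e b` if `a ≡ b` modulo `e` and `d c e = m` -/
private theorem Lift_emb {m e d c a : ℕ} [NeZero m] [NeZero e] (hm : d * c * e = m) {b : ZMod e}
    (hab : ((a : ℕ) : ZMod e) = b) : ((d * c * a : ℕ) : ZMod m) = emb m e b := by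
  have he0 : 0 < e := Nat.pos_of_ne_zero (NeZero.ne e)
  have hme : m / e = d * c := by
    rw [← hm]
    exact Nat.mul_div_cancel _ he0
  rw [emb, hme, ZMod.natCast_eq_natCast_iff]
  have h1 : a ≡ b.val [MOD e] := by
    rw [← ZMod.natCast_eq_natCast_iff, hab, ZMod.natCast_zmod_val]
  have h2 := Nat.ModEq.mul_left' (d * c) h1
  rw [hm] at h2
  exact h2

theorem lift_sum {m : ℕ} [NeZero m] {A : Type} [AddCommGroup A] (D : Datum m A) {e n : ℕ}
    [NeZero e] [NeZero n] (hen : e ∣ n) (hn : n ∣ m) (hpf : ∀ p : ℕ, p.Prime → p ∣ n → p ∣ e)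
    (v : (ZMod e)ˣ) :
    ∑ w ∈ univ.filter (fun w : (ZMod n)ˣ => ZMod.unitsMap hen w = v), D.f (emb m n w) =
      D.f (emb m e v) := by
  obtain ⟨w₀, rfl⟩ := ZMod.unitsMap_surjective hen v
  obtain ⟨d, hd⟩ := id hen
  obtain ⟨c, hc⟩ := id hn
  have hned : n = d * e := by rw [hd]; ring
  have hn0 : 0 < n := Nat.pos_of_ne_zero (NeZero.ne n)
  have hfil : univ.filter (fun w : (ZMod n)ˣ => ZMod.unitsMap hen w = ZMod.unitsMap hen w₀) =
      univ.filter (fun w : (ZMod n)ˣ => rr w ≡ rr w₀ [MOD e]) := by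
    ext w
    rw [mem_filter, mem_filter, Lift_map_iff]
  rw [hfil, Lift_a D hn hned hpf w₀]
  congr 1
  have hmn : m / n = c := by
    conv_lhs => rw [hc]
    exact Nat.mul_div_cancel_left c hn0
  have h1 : (d : ZMod m) * emb m n (w₀ : ZMod n) = ((d * c * rr w₀ : ℕ) : ZMod m) := by
    rw [emb, hmn, ← Nat.cast_mul, mul_assoc]
    rfl
  rw [h1]
  exact Lift_emb (by rw [hc, hned]; ring) (Lift_val hen w₀)

theorem low_exp {m : ℕ} [NeZero m] {A : Type} [AddCommGroup A] (D : Datum m A) {e n l : ℕ}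
    [NeZero e] [NeZero n] (hen : e ∣ n) (hn : n ∣ m) (hl : l.Prime) (hle : ¬ l ∣ e)
    (hel : e * l ∣ n) (hpf : ∀ p : ℕ, p.Prime → p ∣ n → p = l ∨ p ∣ e) (v lam : (ZMod e)ˣ)
    (hlam : (l : ZMod e) * lam = 1) :
    ∑ w ∈ univ.filter (fun w : (ZMod n)ˣ => ZMod.unitsMap hen w = v), D.f (emb m n w) =
      D.f (emb m e v) - D.f (emb m e ((lam * v : (ZMod e)ˣ) : ZMod e)) := by
  obtain ⟨w₀, rfl⟩ := ZMod.unitsMap_surjective hen v
  obtain ⟨d', hd'⟩ := id hel
  obtain ⟨c, hc⟩ := id hn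
  have hn0 : 0 < n := Nat.pos_of_ne_zero (NeZero.ne n)
  have hfil : univ.filter (fun w : (ZMod n)ˣ => ZMod.unitsMap hen w = ZMod.unitsMap hen w₀) =
      univ.filter (fun w : (ZMod n)ˣ => rr w ≡ rr w₀ [MOD e]) := by
    ext w
    rw [mem_filter, mem_filter, Lift_map_iff]
  set k : ℕ := ((lam * ZMod.unitsMap hen w₀ : (ZMod e)ˣ) : ZMod e).val with hk
  have hkv : ((k : ℕ) : ZMod e) = ((lam * ZMod.unitsMap hen w₀ : (ZMod e)ˣ) : ZMod e) := by
    rw [hk, ZMod.natCast_zmod_val]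
  have hv1 : l * k ≡ rr w₀ [MOD e] := by
    rw [← ZMod.natCast_eq_natCast_iff, Nat.cast_mul, hkv, Units.val_mul, ← mul_assoc, hlam,
      one_mul, Lift_val hen w₀]
  rw [hfil, Lift_b D hn hd' hc hl hle hpf w₀ hv1]
  have hmn : m / n = c := by
    conv_lhs => rw [hc]
    exact Nat.mul_div_cancel_left c hn0
  have hdce : l * d' * c * e = m := by rw [hc, hd']; ring
  have h1 : ((l * d' : ℕ) : ZMod m) * emb m n (w₀ : ZMod n) =
      ((l * d' * c * rr w₀ : ℕ) : ZMod m) := by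
    rw [emb, hmn, ← Nat.cast_mul, mul_assoc (l * d') c]
    rfl
  have h2 : (d' : ZMod m) * ((c * (l * k) : ℕ) : ZMod m) = ((l * d' * c * k : ℕ) : ZMod m) := by
    rw [← Nat.cast_mul]
    congr 1
    ring
  rw [h1, h2, Lift_emb hdce (Lift_val hen w₀), Lift_emb hdce hkv]

end Pool.Agent.FQ
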