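import Pool.Agent.FQ.FinG
import Pool.Agent.FQ.KillAl
import Pool.Agent.FQ.Quot

/-!
# The main theorem with the square invariant characters
-/

set_option autoImplicit false

namespace Pool.Agent.FQ

open Finset Pool.Agent.FS
open Pool.Agent.SP (core)

theorem mainZ (Z : Prop) (P : Set (ℕ × ℕ)) (m : ℕ) [NeZero m] (hm : Even m)
    (S : Multiset (ZMod m)) (h0 : (0 : ZMod m) ∉ S) (heven : Even S.card)
    (hc : SparseG (AlZ Z P) (core S)) (hS : IsHodge S) : Gen Z P m S := by
  obtain ⟨A, _, D, hD⟩ := exists_datumQ Z P m hm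
  refine hD S h0 heven ?_
  have hsq : Z → HSq D.toDatum := fun hZ => D.sq hZ
  exact mainG D.toDatum AlZ_mono hm
    (fun R hR hA hne hev => killZ D.toDatumX hm.two_dvd hsq R hR hA hne hev) S h0 hc hS

end Pool.Agent.FQ
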