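import Pool.Agent.FQ.Defs

/-!
# FQ-Norm2: the norm relation as an equality

Plan.
* `norm_sum`: copy the proof of `Pool.Agent.FS.coset_sum_mem` (`Pool/Agent/FS/Norm.lean`), which
  shows for the coset of `w`
  `∑_{k ∈ Kl n l} f (emb m n (k w)) = f (q z0) - f (l^a z1)`, `z0 = emb m n w`, `q = ordProj[l] n`,
  `n = q n'`, `z1 = l λ z0`, `λ` an inverse of `l` modulo `n'`. Here `q z0 = (m / n') w` is
  `emb m n' (w mod n')` and `l^a z1 = λ (q z0)` is `emb m n' (u⁻¹ (w mod n'))`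
  (`rr u ≡ l` modulo `n'`, `λ u = 1` in `ZMod n'`; an equality `x emb = emb` follows from
  `natCast_eq_natCast_iff` with `m = (m / n') n'`). Sum over the fibres of `ZMod.unitsMap hd`
  (surjective: `ZMod.unitsMap_surjective hd`): the fibre of `v` is a coset of
  `Kl n l = (unitsMap).ker`. So the left side is
  `∑_v φ v (f (emb v) - f (emb (u⁻¹ v)))`; substitute `v ↦ u v` in the second part
  (`Equiv.sum_comp (Equiv.mulLeft u)`).
  The case `n' = 1` is allowed: `emb m 1 _ = 0`, both sides are zero.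
* `bk_norm`: `n = nR m R`, `n' = nR m (R.erase l)` (`ordCompl_nR`), the unit `u` of `l` exists as
  `l` is prime to `nR m (R.erase l)`; `Dep (R.erase l) φ` with `hb l' ∣ nR m (R.erase l)` for
  `l' ∈ R.erase l` (`Pool.Agent.FS.hb_dvd_qq`, `qq_dvd_nR`) shows that `φ (rr w)` depends on
  `unitsMap w` only and that `φ (rr (u v)) = φ (l * rr v)` (`rr_mul`).
-/

set_option autoImplicit false

namespace Pool.Agent.FQ

open Finset Pool.Agent.FS
open Pool.Agent.Helper9.Fermat (fib mem_fib)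

variable {m : ℕ} [NeZero m] {A : Type} [AddCommGroup A] (D : Datum m A)

theorem n2_emb_mul {n n' q : ℕ} [NeZero n] [NeZero n'] (hn : n ∣ m) (hq : n = q * n')
    (x : ZMod n) (y : ZMod n') (k : ℕ)
    (h : k * x.val ≡ y.val [MOD n']) :
    (k : ZMod m) * ((q : ZMod m) * emb m n x) = emb m n' y := by
  obtain ⟨c, hc⟩ := hn
  have hm0 : m ≠ 0 := NeZero.ne m
  have hn0 : 0 < n := Nat.pos_of_ne_zero (NeZero.ne n)
  have hn'0 : 0 < n' := Nat.pos_of_ne_zero (NeZero.ne n')
  have hmn : m / n = c := by rw [hc]; exact Nat.mul_div_cancel_left c hn0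
  have e2 : m = (q * c) * n' := by rw [hc, hq]; ring
  have hmn' : m / n' = q * c := by
    rw [e2]
    exact Nat.mul_div_cancel _ hn'0
  unfold emb
  rw [hmn, hmn', ← Nat.cast_mul, ← Nat.cast_mul, ZMod.natCast_eq_natCast_iff]
  have e : k * (q * (c * x.val)) = q * c * (k * x.val) := by ring
  rw [e]
  have h1 := Nat.ModEq.mul_left' (q * c) h
  rw [← e2] at h1
  exact h1

theorem n2_coset {n n' : ℕ} [NeZero n] [NeZero n'] (hn : n ∣ m) (l : ℕ) (hl : l.Prime)
    (hln : l ∣ n) (hn' : n' = ordCompl[l] n) (hd : n' ∣ n) (u : (ZMod n')ˣ)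
    (hu : rr u ≡ l [MOD n']) (v : (ZMod n')ˣ) :
    ∑ w ∈ univ.filter (fun w : (ZMod n)ˣ => ZMod.unitsMap hd w = v), D.f (emb m n w) =
      D.f (emb m n' v) - D.f (emb m n' ((u⁻¹ * v : (ZMod n')ˣ) : ZMod n')) := by
  classical
  obtain ⟨w, hw⟩ := ZMod.unitsMap_surjective hd v
  have hn0 : n ≠ 0 := NeZero.ne n
  obtain ⟨a, ha⟩ : ∃ a, n.factorization l = a + 1 := by
    refine ⟨n.factorization l - 1, ?_⟩
    have := hl.factorization_pos_of_dvd hn0 hln
    omega
  set q := l ^ (a + 1) with hq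
  have hqn : n = q * n' := by
    rw [hq, ← ha, hn']
    exact (Nat.ordProj_mul_ordCompl_eq_self n l).symm
  have hcop : l.Coprime n' := by
    rw [hn']
    exact Nat.coprime_ordCompl hl hn0
  have hql : q = l ^ a * l := pow_succ l a
  have hqm : q ∣ m := (hqn ▸ Dvd.intro n' rfl : q ∣ n).trans hn
  have hqlm : l ^ a ∣ m := (hql ▸ Dvd.intro l rfl : l ^ a ∣ q).trans hqm
  have hn'0 : n' ≠ 0 := NeZero.ne n'
  set z0 : ZMod m := emb m n (w : ZMod n) with hz0
  have hord0 : addOrderOf z0 = n := (exists_emb hn z0).2 ⟨w, rfl⟩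
  -- inverse of `l` modulo `n'`
  set lam : ℕ := rr (u⁻¹) with hlamdef
  have hlam : ((l * lam : ℕ) : ZMod n') = 1 := by
    have h1 : ((l : ℕ) : ZMod n') = (u : ZMod n') := by
      have h2 := (ZMod.natCast_eq_natCast_iff _ _ _).2 hu
      rw [← h2, rr, ZMod.natCast_zmod_val]
    rw [Nat.cast_mul, h1, hlamdef, rr, ZMod.natCast_zmod_val]
    exact Units.mul_inv u
  have hlam' : ∀ y : ZMod m, (n' : ZMod m) * y = 0 → (l : ZMod m) * ((lam : ZMod m) * y) = y := by
    intro y hy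
    have h1 : (n' : ℤ) ∣ ((l * lam : ℕ) : ℤ) - 1 := by
      rw [← ZMod.intCast_zmod_eq_zero_iff_dvd]
      push_cast at hlam ⊢
      rw [hlam, sub_self]
    obtain ⟨k, hk⟩ := h1
    have h2 : ((l * lam : ℕ) : ZMod m) - 1 = (n' : ZMod m) * (k : ZMod m) := by
      have := congrArg (Int.cast : ℤ → ZMod m) hk
      push_cast at this ⊢
      exact this
    push_cast at h2
    linear_combination y * h2 + (k : ZMod m) * hy
  have hnz0 : (n' : ZMod m) * ((q : ZMod m) * z0) = 0 := by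
    have h1 : (n : ZMod m) * z0 = 0 := by
      rw [← nsmul_eq_mul, ← hord0]
      exact addOrderOf_nsmul_eq_zero z0
    have h2 : (n : ZMod m) = (q : ZMod m) * (n' : ZMod m) := by
      rw [← Nat.cast_mul, ← hqn]
    rw [h2] at h1
    linear_combination h1
  have hlq : (q : ZMod m) = (l : ZMod m) ^ a * (l : ZMod m) := by
    rw [hql]
    push_cast
    ring
  set z1 : ZMod m := (l : ZMod m) * ((lam : ZMod m) * z0) with hz1
  have hy1 : ((l ^ a : ℕ) : ZMod m) * z1 = (lam : ZMod m) * ((q : ZMod m) * z0) := by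
    rw [hz1, hlq]
    push_cast
    ring
  -- the orders of the two elements
  have ho1 : addOrderOf ((q : ZMod m) * z0) = n' := by
    rw [← nsmul_eq_mul, addOrderOf_nsmul' z0 (pow_ne_zero _ hl.ne_zero), hord0, hqn,
      Nat.gcd_eq_right (Dvd.intro n' rfl), Nat.mul_div_cancel_left n' (pow_pos hl.pos _)]
  -- the characterisation of the elements of smaller order
  have hX2 : (fib m q ((q : ZMod m) * z0)).filter (fun z => ¬ addOrderOf z = n) =
      fib m (l ^ a) (((l ^ a : ℕ) : ZMod m) * z1) := by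
    ext z
    rw [mem_filter, mem_fib, mem_fib, hy1]
    constructor
    · rintro ⟨hz, ho⟩
      have h1 : addOrderOf z ∣ n := by
        rw [addOrderOf_dvd_iff_nsmul_eq_zero, nsmul_eq_mul]
        have h2 : (n : ZMod m) = (n' : ZMod m) * (q : ZMod m) := by
          rw [← Nat.cast_mul, mul_comm n' q, ← hqn]
        rw [h2, mul_assoc, hz, hnz0]
      have h2 : n' ∣ addOrderOf z := by
        rw [← ho1, ← hz, ← nsmul_eq_mul]
        exact addOrderOf_smul_dvd q
      obtain ⟨N, hN⟩ := h2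
      have h3 : N ∣ l ^ (a + 1) := by
        rw [hN, hqn, mul_comm n' N] at h1
        exact Nat.dvd_of_mul_dvd_mul_right (Nat.pos_of_ne_zero hn'0) h1
      obtain ⟨j, hj, rfl⟩ := (Nat.dvd_prime_pow hl).1 h3
      have h4 : j ≤ a := by
        rcases Nat.lt_or_ge j (a + 1) with h | h
        · omega
        · exfalso
          apply ho
          have : j = a + 1 := by omega
          rw [hN, this, hqn, mul_comm]
      have h5 : (n' : ZMod m) * (((l ^ a : ℕ) : ZMod m) * z) = 0 := by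
        have h6 : addOrderOf z ∣ n' * l ^ a := by
          rw [hN]
          exact Nat.mul_dvd_mul_left n' (pow_dvd_pow l h4)
        rw [addOrderOf_dvd_iff_nsmul_eq_zero, nsmul_eq_mul] at h6
        push_cast at h6 ⊢
        linear_combination h6
      rw [← hlam' _ h5, ← hz, hlq]
      push_cast
      ring
    · intro hz
      have h1 : (q : ZMod m) * z = (q : ZMod m) * z0 := by
        have h2 := hlam' _ hnz0
        rw [← hz] at h2
        rw [← h2, hlq]
        push_cast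
        ring
      refine ⟨h1, ?_⟩
      intro ho
      have h3 : ((n' * l ^ a : ℕ) : ZMod m) * z = 0 := by
        push_cast at hz ⊢
        linear_combination (n' : ZMod m) * hz + (lam : ZMod m) * hnz0
      rw [← nsmul_eq_mul, ← addOrderOf_dvd_iff_nsmul_eq_zero, ho, hqn, mul_comm n' (l ^ a)] at h3
      have h4 := Nat.dvd_of_mul_dvd_mul_right (Nat.pos_of_ne_zero hn'0) h3
      have h5 := Nat.le_of_dvd (pow_pos hl.pos a) h4
      rw [hql] at h5
      have h6 := hl.two_le
      have h7 : 0 < l ^ a := pow_pos hl.pos a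
      nlinarith
  have hsplit := Finset.sum_filter_add_sum_filter_not (fib m q ((q : ZMod m) * z0))
    (fun z => addOrderOf z = n) D.f
  rw [hX2, dist_gen D q hqm z0, dist_gen D (l ^ a) hqlm z1] at hsplit
  -- the sum over the coset
  have hcoset : ∑ w' ∈ univ.filter (fun w' : (ZMod n)ˣ => ZMod.unitsMap hd w' = v),
      D.f (emb m n w') =
      ∑ z ∈ (fib m q ((q : ZMod m) * z0)).filter (fun z => addOrderOf z = n), D.f z := by
    refine Finset.sum_bij (fun k _ => emb m n (k : ZMod n)) ?_ ?_ ?_ ?_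
    · intro k hk
      rw [mem_filter] at hk
      rw [mem_filter, mem_fib]
      refine ⟨?_, (exists_emb hn _).2 ⟨_, rfl⟩⟩
      rw [hz0, mul_emb_eq_iff hn hqn]
      have h1 : ZMod.unitsMap hd k = ZMod.unitsMap hd w := by
        rw [hk.2, hw]
      have h2 := congrArg (fun u : (ZMod n')ˣ => (u : ZMod n')) h1
      exact h2
    · intro k _ k' _ h
      exact Units.val_injective (emb_inj hn h)
    · intro z hz
      rw [mem_filter, mem_fib] at hz
      obtain ⟨k, hk⟩ := (exists_emb hn z).1 hz.2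
      have h1 := hz.1
      rw [hk, hz0, mul_emb_eq_iff hn hqn] at h1
      refine ⟨k, ?_, hk.symm⟩
      rw [mem_filter]
      refine ⟨mem_univ _, ?_⟩
      rw [← hw]
      ext
      exact h1
    · intro k _
      rfl
  have hv1 : (v : ZMod n').val ≡ (w : ZMod n).val [MOD n'] := by
    rw [← ZMod.natCast_eq_natCast_iff, ZMod.natCast_zmod_val, ← hw]
    change (ZMod.castHom hd (ZMod n')) (w : ZMod n) = _
    rw [ZMod.castHom_apply, ZMod.natCast_val]
  have e1 : ((q : ℕ) : ZMod m) * z0 = emb m n' (v : ZMod n') := by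
    have h1 := n2_emb_mul hn hqn (w : ZMod n) (v : ZMod n') 1 (by rw [one_mul]; exact hv1.symm)
    rw [Nat.cast_one, one_mul] at h1
    exact h1
  have e2 : (lam : ZMod m) * ((q : ZMod m) * z0) =
      emb m n' ((u⁻¹ * v : (ZMod n')ˣ) : ZMod n') := by
    refine n2_emb_mul hn hqn (w : ZMod n) _ lam ?_
    have h1 : rr (u⁻¹ * v) ≡ rr (u⁻¹) * rr v [MOD n'] := rr_mul _ _
    exact ((hv1.symm.mul_left lam)).trans h1.symm
  rw [hcoset, eq_sub_of_add_eq hsplit, hy1, e2, e1]

theorem norm_sum {n n' : ℕ} [NeZero n] [NeZero n'] (hn : n ∣ m) (l : ℕ) (hl : l.Prime)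
    (hln : l ∣ n) (hn' : n' = ordCompl[l] n) (hd : n' ∣ n) (φ : (ZMod n')ˣ → ℤ) (u : (ZMod n')ˣ)
    (hu : rr u ≡ l [MOD n']) :
    ∑ w : (ZMod n)ˣ, φ (ZMod.unitsMap hd w) • D.f (emb m n w) =
      ∑ v : (ZMod n')ˣ, (φ v - φ (u * v)) • D.f (emb m n' v) := by
  classical
  have h1 : ∑ w : (ZMod n)ˣ, φ (ZMod.unitsMap hd w) • D.f (emb m n w) =
      ∑ v : (ZMod n')ˣ, φ v • ∑ w ∈ univ.filter (fun w : (ZMod n)ˣ => ZMod.unitsMap hd w = v),
        D.f (emb m n w) := by
    rw [← Finset.sum_fiberwise univ (fun w : (ZMod n)ˣ => ZMod.unitsMap hd w)]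
    refine Finset.sum_congr rfl fun v _ => ?_
    rw [Finset.smul_sum]
    refine Finset.sum_congr rfl fun w hw => ?_
    rw [(mem_filter.1 hw).2]
  rw [h1]
  have h2 : ∀ v : (ZMod n')ˣ,
      (φ v • ∑ w ∈ univ.filter (fun w : (ZMod n)ˣ => ZMod.unitsMap hd w = v), D.f (emb m n w)) =
      φ v • D.f (emb m n' v) - φ v • D.f (emb m n' ((u⁻¹ * v : (ZMod n')ˣ) : ZMod n')) := by
    intro v
    rw [n2_coset D hn l hl hln hn' hd u hu v, smul_sub]
  rw [Finset.sum_congr rfl fun v _ => h2 v, Finset.sum_sub_distrib]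
  have h3 : ∑ v : (ZMod n')ˣ, φ v • D.f (emb m n' ((u⁻¹ * v : (ZMod n')ˣ) : ZMod n')) =
      ∑ v : (ZMod n')ˣ, φ (u * v) • D.f (emb m n' v) := by
    rw [← Equiv.sum_comp (Equiv.mulLeft u)]
    refine Finset.sum_congr rfl fun v _ => ?_
    rw [Equiv.coe_mulLeft, inv_mul_cancel_left]
  rw [h3, ← Finset.sum_sub_distrib]
  refine Finset.sum_congr rfl fun v _ => ?_
  rw [sub_smul]

theorem n2_rr_unitsMap {n n' : ℕ} [NeZero n] [NeZero n'] (hd : n' ∣ n) (w : (ZMod n)ˣ) :
    rr (ZMod.unitsMap hd w) ≡ rr w [MOD n'] := by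
  rw [← ZMod.natCast_eq_natCast_iff, rr, ZMod.natCast_zmod_val, rr]
  change (ZMod.castHom hd (ZMod n')) (w : ZMod n) = _
  rw [ZMod.castHom_apply, ZMod.natCast_val]

theorem n2_hb_dvd {R : Finset ℕ} (hR : OKR m R) {l : ℕ} (hl : l ∈ R) : hb l ∣ nR m R :=
  (hb_dvd_qq (hR l hl).1 (hR l hl).2).trans (qq_dvd_nR hl)

theorem bk_norm {R : Finset ℕ} (hR : OKR m R) {l : ℕ} (hl : l ∈ R) (φ : ℕ → ℤ)
    (hφ : Dep (R.erase l) φ) :
    Bk D R φ = Bk D (R.erase l) (fun a => φ a - φ (l * a)) := by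
  have hRp : ∀ l ∈ R, l.Prime := fun l hl => (hR l hl).1
  have hR' : OKR m (R.erase l) := fun l' hl' => hR l' (mem_of_mem_erase hl')
  have hn : nR m R ∣ m := prod_qq_dvd R hRp
  have hlhb : l ∣ hb l := by
    unfold hb
    split_ifs with h
    · rw [h]; norm_num
    · exact dvd_rfl
  have hln : l ∣ nR m R := hlhb.trans (n2_hb_dvd hR hl)
  have hn' : nR m (R.erase l) = ordCompl[l] (nR m R) := (ordCompl_nR hRp hl).symm
  have hd : nR m (R.erase l) ∣ nR m R := by
    rw [hn']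
    exact Nat.ordCompl_dvd _ _
  have hcop : l.Coprime (nR m (R.erase l)) := by
    rw [hn']
    exact Nat.coprime_ordCompl (hRp l hl) (NeZero.ne _)
  have hu : rr (ZMod.unitOfCoprime l hcop) ≡ l [MOD nR m (R.erase l)] := by
    rw [← ZMod.natCast_eq_natCast_iff, rr, ZMod.natCast_zmod_val, ZMod.coe_unitOfCoprime]
  have hdep : ∀ a b : ℕ, a ≡ b [MOD nR m (R.erase l)] → φ a = φ b := by
    intro a b hab
    exact hφ a b fun l' hl' => hab.of_dvd (n2_hb_dvd hR' hl')
  have h1 := norm_sum D hn l (hRp l hl) hln hn' hd (fun v => φ (rr v))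
    (ZMod.unitOfCoprime l hcop) hu
  have h2 : Bk D R φ = ∑ w : (ZMod (nR m R))ˣ, φ (rr (ZMod.unitsMap hd w)) •
      D.f (emb m (nR m R) w) := by
    unfold Bk
    refine Finset.sum_congr rfl fun w _ => ?_
    rw [hdep _ _ (n2_rr_unitsMap hd w)]
  rw [h2, h1]
  unfold Bk
  refine Finset.sum_congr rfl fun v _ => ?_
  congr 2
  refine hdep _ _ ((rr_mul _ v).trans ?_)
  exact hu.mul_right _

end Pool.Agent.FQ
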