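import Pool.Agent.FQ.Flip

/-!
# FQ-QInt: integrality

Plan. Write `w a` for the function `t ↦ D.W t a` (values in `ℤ`, no torsion), and for sign vectors
`d` for the number of `l ∈ R` with `e l ≠ e' l`. Induction on `R.card` (`Finset.strongInduction` or
`Finset.induction` on the cardinality), both statements together; `OL D R ≤ OO D R`,
`OO D (R.erase l) ≤ OL D R` for `l ∈ R` (a subset of `R.erase l` is a proper subset of `R`).
* One flip: for `l ∈ R`, `w (qf R e) + w (qf R (fl l e)) = w (qf (R.erase l) e) -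
  w (qf (R.erase l) (tw l e))` (`qf_flip`), and this is `2 w c` with `c ∈ OO D (R.erase l) ≤ OL D R`
  by the second statement for `R.erase l` in the form `∃ c ∈ OO D (R.erase l), w (qf e) - w (qf e')
  = 2 w c` (`(**)` below).
* Several flips: for all sign vectors `w (qf R e) = (-1)^d w (qf R e') + 2 w c`, `c ∈ OL D R`
  (induction on the number `d` of differing places in `R`; `qf_congr` if `d = 0`). This is
  `q_sign`: the sign is `∏ l ∈ R, (e l * e' l)` (each factor is `± 1`).
* `Even (nb R)`: with `e' = ng e` the sign is `(-1)^(nb R) = 1`, and `w (qf R (ng e)) = - w (qf R e)`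
  (`qf_ng`), so `2 w (qf R e) = 2 w c`, hence `w (qf R e) = w c`, `c ∈ OL D R`. This is `q_int`.
* `(**)`: `∃ c ∈ OO D R, w (qf R e) - w (qf R e') = 2 w c`: if the sign is `1` this is `q_sign`; if
  it is `-1` then `w (qf R e) - w (qf R e') = 2 w (qf R e) - 2 w c`, and `w (qf R e) = w c'` with
  `c' ∈ OL D R` if `nb R` is even (`q_int`), while `qf R e ∈ OO D R` if `nb R` is odd.
The products: `∏ l ∈ R, (e l * ng e l) = (-1)^(nb R)`: a factor is `-1` iff `l % 4 ≠ 1`
(`Finset.prod_ite`-type computation, or by induction on `R`).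
-/

set_option autoImplicit false

namespace Pool.Agent.FQ

open Finset Pool.Agent.FS

variable {m : ℕ} [NeZero m] {A : Type} [AddCommGroup A] (D : Datum m A)

private theorem qint_OL_le (R : Finset ℕ) : OL D R ≤ OO D R := by
  refine AddSubgroup.closure_mono ?_
  rintro a ⟨R', hR', h⟩
  exact ⟨R', hR'.subset, h⟩

private theorem qint_OO_le {R : Finset ℕ} {l : ℕ} (hl : l ∈ R) : OO D (R.erase l) ≤ OL D R := by
  refine AddSubgroup.closure_mono ?_
  rintro a ⟨R', hR', h⟩
  exact ⟨R', lt_of_le_of_lt hR' (erase_ssubset hl), h⟩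

private theorem qint_sgn_ng {e : ℕ → ℤ} (he : Sgn e) : Sgn (ng e) := by
  intro l
  unfold ng
  rcases he l with h | h <;> split_ifs <;> simp [h]

private theorem qint_sgn_fl {e : ℕ → ℤ} (he : Sgn e) (l : ℕ) : Sgn (fl l e) := by
  intro l'
  unfold fl
  rcases he l' with h | h <;> split_ifs <;> simp [h]

private theorem qint_sgn_tw {e : ℕ → ℤ} (he : Sgn e) (l : ℕ) : Sgn (tw l e) := by
  intro l'
  unfold tw
  rcases he l' with h | h <;> split_ifs <;> simp [h]

private theorem qint_prod_sgn {e e' : ℕ → ℤ} (he : Sgn e) (he' : Sgn e') (R : Finset ℕ) :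
    ∏ l ∈ R, (e l * e' l) = 1 ∨ ∏ l ∈ R, (e l * e' l) = -1 := by
  classical
  induction R using Finset.induction_on with
  | empty => left; rw [prod_empty]
  | insert l R hl ih =>
    rw [prod_insert hl]
    rcases he l with h1 | h1 <;> rcases he' l with h2 | h2 <;> rcases ih with h3 | h3 <;>
      rw [h1, h2, h3] <;> norm_num

private theorem qint_prod_ng {e : ℕ → ℤ} (he : Sgn e) (R : Finset ℕ) :
    ∏ l ∈ R, (e l * ng e l) = (-1) ^ nb R := by
  classical
  induction R using Finset.induction_on with
  | empty => simp [nb]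
  | insert l R hl ih =>
    rw [prod_insert hl, ih]
    have h0 : l ∉ R.filter fun l => l % 4 ≠ 1 := fun h => hl (mem_filter.1 h).1
    by_cases h : l % 4 = 1
    · have h1 : nb (insert l R) = nb R := by
        unfold nb
        rw [filter_insert, if_neg (not_not.2 h)]
      have h2 : ng e l = e l := if_pos h
      rw [h1, h2]
      rcases he l with h3 | h3 <;> rw [h3] <;> norm_num
    · have h1 : nb (insert l R) = nb R + 1 := by
        unfold nb
        rw [filter_insert, if_pos h, card_insert_of_notMem h0]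
      have h2 : ng e l = - e l := if_neg h
      rw [h1, h2, pow_succ]
      rcases he l with h3 | h3 <;> rw [h3] <;> ring

/-- several flips -/
private theorem qint_flips {R : Finset ℕ} (hR : OKR m R)
    (hlow : ∀ l ∈ R, ∀ e e', Sgn e → Sgn e' → ∃ c ∈ OO D (R.erase l), ∀ t,
      D.W t (qf D (R.erase l) e) - D.W t (qf D (R.erase l) e') = 2 * D.W t c)
    (E : Finset ℕ) : E ⊆ R → ∀ e e', Sgn e → Sgn e' → (∀ l ∈ R, l ∉ E → e l = e' l) →
    (∀ l ∈ E, e' l = - e l) → ∃ c ∈ OL D R, ∀ t,
      D.W t (qf D R e) - (∏ l ∈ R, (e l * e' l)) * D.W t (qf D R e') = 2 * D.W t c := by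
  classical
  induction E using Finset.induction_on with
  | empty =>
    intro _ e e' he _ h1 _
    refine ⟨0, zero_mem _, fun t => ?_⟩
    have h2 : ∀ l ∈ R, e l = e' l := fun l hl => h1 l hl (notMem_empty l)
    have h3 : ∏ l ∈ R, (e l * e' l) = 1 := by
      refine prod_eq_one fun l hl => ?_
      rw [← h2 l hl]
      rcases he l with h | h <;> rw [h] <;> norm_num
    rw [h3, qf_congr D h2, map_zero]
    ring
  | insert l E hl ih =>
    intro hE e e' he he' h1 h2
    have hlR : l ∈ R := hE (mem_insert_self _ _)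
    have hfl : Sgn (fl l e') := qint_sgn_fl he' l
    obtain ⟨c1, hc1, hc1t⟩ := ih ((subset_insert l E).trans hE) e (fl l e') he hfl
      (by
        intro l' hl' hlE
        by_cases h : l' = l
        · rw [h]
          have h3 : fl l e' l = - e' l := if_pos rfl
          rw [h3, h2 l (mem_insert_self _ _)]
          ring
        · have h3 : fl l e' l' = e' l' := if_neg h
          rw [h3]
          exact h1 l' hl' fun h4 => (mem_insert.1 h4).elim h hlE)
      (by
        intro l' hl'
        have h : l' ≠ l := by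
          rintro rfl
          exact hl hl'
        have h3 : fl l e' l' = e' l' := if_neg h
        rw [h3]
        exact h2 l' (mem_insert_of_mem hl'))
    obtain ⟨c2, hc2, hc2t⟩ := hlow l hlR e' (tw l e') he' (qint_sgn_tw he' l)
    set Q := ∏ l' ∈ R, (e l' * fl l e' l') with hQ
    have hP : ∏ l' ∈ R, (e l' * e' l') = - Q := by
      rw [hQ, ← mul_prod_erase R _ hlR, ← mul_prod_erase R (fun l' => e l' * fl l e' l') hlR]
      have h3 : fl l e' l = - e' l := if_pos rfl
      have h4 : ∏ l' ∈ R.erase l, (e l' * fl l e' l') = ∏ l' ∈ R.erase l, (e l' * e' l') := by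
        refine prod_congr rfl fun l' hl' => ?_
        have h5 : fl l e' l' = e' l' := if_neg (mem_erase.1 hl').1
        rw [h5]
      rw [h4, h3]
      ring
    refine ⟨c1 + Q • c2, add_mem hc1 (AddSubgroup.zsmul_mem _ (qint_OO_le D hlR hc2) Q),
      fun t => ?_⟩
    have h3 := congrArg (D.W t) (qf_flip D hR hlR e' he')
    rw [map_add, map_sub, hc2t t] at h3
    have h4 := hc1t t
    rw [map_add, map_zsmul, hP, smul_eq_mul]
    linear_combination h4 + Q * h3

theorem q_all (R : Finset ℕ) (hR : OKR m R) :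
    (∀ e e', Sgn e → Sgn e' → ∃ c ∈ OL D R, ∀ t,
      D.W t (qf D R e) - (∏ l ∈ R, (e l * e' l)) * D.W t (qf D R e') = 2 * D.W t c) ∧
    (Even (nb R) → ∀ e, Sgn e → ∃ c ∈ OL D R, ∀ t, D.W t (qf D R e) = D.W t c) ∧
    (∀ e e', Sgn e → Sgn e' → ∃ c ∈ OO D R, ∀ t,
      D.W t (qf D R e) - D.W t (qf D R e') = 2 * D.W t c) := by
  classical
  revert hR
  induction R using Finset.strongInduction with
  | H R ih =>
    intro hR
    have h1 : ∀ e e', Sgn e → Sgn e' → ∃ c ∈ OL D R, ∀ t,
        D.W t (qf D R e) - (∏ l ∈ R, (e l * e' l)) * D.W t (qf D R e') = 2 * D.W t c := by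
      intro e e' he he'
      refine qint_flips D hR ?_ (R.filter fun l => e l ≠ e' l) (filter_subset _ _) e e' he he' ?_ ?_
      · intro l hl
        exact (ih (R.erase l) (erase_ssubset hl)
          fun a ha => hR a (mem_of_mem_erase ha)).2.2
      · intro l hl hlE
        by_contra h
        exact hlE (mem_filter.2 ⟨hl, h⟩)
      · intro l hl
        have h2 := (mem_filter.1 hl).2
        rcases he l with h3 | h3 <;> rcases he' l with h4 | h4
        · exact absurd (h3.trans h4.symm) h2
        · rw [h3, h4]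
        · rw [h3, h4]
          norm_num
        · exact absurd (h3.trans h4.symm) h2
    have h2 : Even (nb R) → ∀ e, Sgn e → ∃ c ∈ OL D R, ∀ t, D.W t (qf D R e) = D.W t c := by
      intro hev e he
      obtain ⟨c, hc, hct⟩ := h1 e (ng e) he (qint_sgn_ng he)
      refine ⟨c, hc, fun t => ?_⟩
      have h3 := hct t
      rw [qint_prod_ng he, hev.neg_one_pow, one_mul, qf_ng D hR, map_neg] at h3
      linarith
    refine ⟨h1, h2, fun e e' he he' => ?_⟩
    obtain ⟨c, hc, hct⟩ := h1 e e' he he'
    rcases qint_prod_sgn he he' R with hP | hP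
    · refine ⟨c, qint_OL_le D R hc, fun t => ?_⟩
      have h3 := hct t
      rw [hP, one_mul] at h3
      exact h3
    · rcases Nat.even_or_odd (nb R) with hev | hodd
      · obtain ⟨c', hc', hct'⟩ := h2 hev e he
        refine ⟨c' - c, sub_mem (qint_OL_le D R hc') (qint_OL_le D R hc), fun t => ?_⟩
        have h3 := hct t
        rw [hP] at h3
        rw [map_sub, ← hct' t]
        linear_combination -h3
      · refine ⟨qf D R e - c, sub_mem ?_ (qint_OL_le D R hc), fun t => ?_⟩
        · exact AddSubgroup.subset_closure ⟨R, Subset.refl R, hodd, e, he, rfl⟩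
        · have h3 := hct t
          rw [hP] at h3
          rw [map_sub]
          linear_combination -h3

theorem q_sign {R : Finset ℕ} (hR : OKR m R) (e e' : ℕ → ℤ) (he : Sgn e) (he' : Sgn e') :
    ∃ c ∈ OL D R, ∀ t,
      D.W t (qf D R e) - (∏ l ∈ R, (e l * e' l)) * D.W t (qf D R e') = 2 * D.W t c :=
  (q_all D R hR).1 e e' he he'

theorem q_int {R : Finset ℕ} (hR : OKR m R) (hev : Even (nb R)) (e : ℕ → ℤ) (he : Sgn e) :
    ∃ c ∈ OL D R, ∀ t, D.W t (qf D R e) = D.W t c :=
  (q_all D R hR).2.1 hev e he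

end Pool.Agent.FQ
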