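import Pool.Agent.FQ.Char2

/-!
# FQ-Quad: the quadratic sets
-/

set_option autoImplicit false

namespace Pool.Agent.FQ

open Finset Pool.Agent.FS
open Pool.Agent.FF
open Pool.Agent.Helper9.Fermat (fib mem_fib)

section

variable {m : ℕ} [NeZero m]

/-- the quadratic set of a set of primes -/
def QS (m : ℕ) [NeZero m] (R : Finset ℕ) : Finset (ZMod m) :=
  (univ.filter fun u : (ZMod m)ˣ => ∀ l ∈ R, chi l (rr u) = 1).image
    fun u : (ZMod m)ˣ => (u : ZMod m) * bR m R

theorem hb_dvd_nR {R : Finset ℕ} (hR : ∀ l ∈ R, PPr l ∧ hb l ∣ m) {l : ℕ} (hl : l ∈ R) :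
    hb l ∣ nR m R :=
  (hb_dvd_qq' (Pool.Agent.FS.qq_ge (hR l hl).1.1 (hR l hl).2)).trans (qq_dvd_nR hl)

/-- `u bR = v bR` iff `u` and `v` are congruent modulo the level -/
theorem mul_bR_eq {R : Finset ℕ} (hR : ∀ l ∈ R, l.Prime) (u v : (ZMod m)ˣ) :
    (u : ZMod m) * bR m R = (v : ZMod m) * bR m R ↔ rr u ≡ rr v [MOD nR m R] := by
  have h3 := nR_ne (m := m) hR
  have h2 := nR_dvd (m := m) hR
  obtain ⟨c, hc⟩ := h2
  have hc0 : 0 < c := Nat.pos_of_ne_zero (by
    rintro rfl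
    rw [mul_zero] at hc
    exact NeZero.ne m hc)
  have e1 : m / nR m R = c := Nat.div_eq_of_eq_mul_right (Nat.pos_of_ne_zero h3) hc
  have e2 : ∀ u : (ZMod m)ˣ, (u : ZMod m) * bR m R = ((rr u * c : ℕ) : ZMod m) := by
    intro u
    rw [bR, e1, Nat.cast_mul, rr, ZMod.natCast_zmod_val]
  rw [e2, e2, ZMod.natCast_eq_natCast_iff]
  constructor
  · intro h
    have h4 : rr u * c ≡ rr v * c [MOD nR m R * c] := by rwa [← hc]
    exact Nat.ModEq.mul_right_cancel' hc0.ne' h4
  · intro h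
    have h4 := Nat.ModEq.mul_right' c h
    rwa [← hc] at h4

/-- the condition depends on the element only -/
theorem cond_iff {R : Finset ℕ} (hR : ∀ l ∈ R, PPr l ∧ hb l ∣ m) {u v : (ZMod m)ˣ}
    (h : (u : ZMod m) * bR m R = (v : ZMod m) * bR m R) :
    (∀ l ∈ R, chi l (rr u) = 1) ↔ ∀ l ∈ R, chi l (rr v) = 1 := by
  rw [mul_bR_eq (fun l hl => (hR l hl).1.1)] at h
  constructor
  · intro h1 l hl
    rw [← chi_mod (h.of_dvd (hb_dvd_nR hR hl))]
    exact h1 l hl
  · intro h1 l hl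
    rw [chi_mod (h.of_dvd (hb_dvd_nR hR hl))]
    exact h1 l hl

/-- number of the units fixing the base element -/
theorem card_stab {R : Finset ℕ} (hR : ∀ l ∈ R, l.Prime) (x : (ZMod m)ˣ) :
    ((univ.filter fun u : (ZMod m)ˣ =>
      (u : ZMod m) * bR m R = (x : ZMod m) * bR m R).card : ℤ) * (nR m R).totient = m.totient := by
  have h3 := nR_ne (m := m) hR
  have h2 := nR_dvd (m := m) hR
  have : NeZero (nR m R) := ⟨h3⟩
  have e1 : (univ.filter fun u : (ZMod m)ˣ =>
      (u : ZMod m) * bR m R = (x : ZMod m) * bR m R).card =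
      (univ.filter fun u : (ZMod m)ˣ => u ∈ (ZMod.unitsMap h2).ker).card := by
    refine card_nbij' (fun u => u * x⁻¹) (fun u => u * x) ?_ ?_ ?_ ?_
    · intro u hu
      rw [mem_coe, mem_filter] at hu ⊢
      refine ⟨mem_univ _, ?_⟩
      rw [MonoidHom.mem_ker, map_mul, map_inv, mul_inv_eq_one]
      have h4 := (mul_bR_eq hR u x).1 hu.2
      rw [← ZMod.natCast_eq_natCast_iff] at h4
      apply Units.ext
      change (ZMod.castHom h2 (ZMod (nR m R))) (u : ZMod m) =
        (ZMod.castHom h2 (ZMod (nR m R))) (x : ZMod m)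
      rw [ZMod.castHom_apply, ZMod.castHom_apply, ← ZMod.natCast_val, ← ZMod.natCast_val]
      exact h4
    · intro u hu
      rw [mem_coe, mem_filter] at hu ⊢
      refine ⟨mem_univ _, ?_⟩
      rw [mul_bR_eq hR]
      have h4 := hu.2
      rw [MonoidHom.mem_ker] at h4
      have h5 : ZMod.unitsMap h2 (u * x) = ZMod.unitsMap h2 x := by rw [map_mul, h4, one_mul]
      rw [← ZMod.natCast_eq_natCast_iff]
      have h6 := congrArg (Units.val) h5
      change (ZMod.castHom h2 (ZMod (nR m R))) ((u * x : (ZMod m)ˣ) : ZMod m) =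
        (ZMod.castHom h2 (ZMod (nR m R))) (x : ZMod m) at h6
      rw [ZMod.castHom_apply, ZMod.castHom_apply, ← ZMod.natCast_val, ← ZMod.natCast_val] at h6
      exact h6
    · intro u _
      simp
    · intro u _
      simp
  have e2 := Subgroup.card_eq_card_quotient_mul_card_subgroup (ZMod.unitsMap h2).ker
  have e3 : Nat.card ((ZMod m)ˣ ⧸ (ZMod.unitsMap h2).ker) = Nat.card (ZMod (nR m R))ˣ :=
    Nat.card_congr (QuotientGroup.quotientKerEquivOfSurjective _
      (ZMod.unitsMap_surjective h2)).toEquiv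
  rw [e3, Nat.card_eq_fintype_card, Nat.card_eq_fintype_card, ZMod.card_units_eq_totient,
    ZMod.card_units_eq_totient] at e2
  have e4 : Nat.card (ZMod.unitsMap h2).ker =
      (univ.filter fun u : (ZMod m)ˣ => u ∈ (ZMod.unitsMap h2).ker).card := by
    rw [Nat.card_eq_fintype_card, Fintype.card_subtype]
  rw [e4] at e2
  rw [e1, e2]
  push_cast
  ring

theorem Ph_eq {R : Finset ℕ} (hR : ∀ l ∈ R, l.Prime ∧ l ∣ m) :
    Ph m R = (nR m R).totient := by
  unfold Ph nR
  induction R using Finset.induction_on with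
  | empty => simp
  | insert l R hl ih =>
    have ih' := ih fun a ha => hR a (mem_insert_of_mem ha)
    obtain ⟨hlp, hlm⟩ := hR l (mem_insert_self _ _)
    rw [prod_insert hl, prod_insert hl, ih', card_Kl l hlp hlm, Nat.totient_mul]
    · have h5 : qq m l / l * (l - 1) = (qq m l).totient := by
        obtain ⟨a, ha⟩ : ∃ a, m.factorization l = a + 1 := by
          refine ⟨m.factorization l - 1, ?_⟩
          have := hlp.factorization_pos_of_dvd (NeZero.ne m) hlm
          omega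
        rw [qq, ha, Nat.totient_prime_pow_succ hlp, pow_succ, Nat.mul_div_cancel _ hlp.pos]
      rw [h5, Nat.cast_mul]
    · refine Nat.Coprime.prod_right fun a ha => ?_
      refine qq_coprime hlp (hR a (mem_insert_of_mem ha)).1 ?_
      rintro rfl
      exact hl ha

theorem AA_QS (g : ZMod m → ℤ) {R : Finset ℕ} (hR : ∀ l ∈ R, PPr l ∧ hb l ∣ m) :
    AA g R = m.totient * ∑ x ∈ QS m R, g x := by
  have hRp : ∀ l ∈ R, l.Prime := fun l hl => (hR l hl).1.1
  have hRd : ∀ l ∈ R, l.Prime ∧ l ∣ m := by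
    intro l hl
    refine ⟨(hR l hl).1.1, dvd_trans ?_ (hR l hl).2⟩
    unfold hb
    split_ifs with h
    · rw [h]; norm_num
    · exact dvd_rfl
  unfold AA
  rw [Ph_eq hRd]
  have h1 : ∑ u ∈ univ.filter (fun u : (ZMod m)ˣ => ∀ l ∈ R, chi l (rr u) = 1),
      g ((u : ZMod m) * bR m R) =
      ∑ x ∈ QS m R, ∑ u ∈ (univ.filter (fun u : (ZMod m)ˣ => ∀ l ∈ R, chi l (rr u) = 1)).filter
        (fun u : (ZMod m)ˣ => (u : ZMod m) * bR m R = x), g ((u : ZMod m) * bR m R) := by
    refine (sum_fiberwise_of_maps_to ?_ _).symm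
    intro u hu
    exact mem_image_of_mem _ hu
  rw [h1, mul_sum, mul_sum]
  refine sum_congr rfl fun x hx => ?_
  obtain ⟨v, hv, rfl⟩ := mem_image.1 hx
  rw [mem_filter] at hv
  have h2 : ∑ u ∈ (univ.filter (fun u : (ZMod m)ˣ => ∀ l ∈ R, chi l (rr u) = 1)).filter
      (fun u : (ZMod m)ˣ => (u : ZMod m) * bR m R = (v : ZMod m) * bR m R),
        g ((u : ZMod m) * bR m R) =
      ∑ u ∈ univ.filter (fun u : (ZMod m)ˣ => (u : ZMod m) * bR m R = (v : ZMod m) * bR m R),
        g ((v : ZMod m) * bR m R) := by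
    refine sum_congr ?_ ?_
    · ext u
      rw [mem_filter, mem_filter, mem_filter]
      constructor
      · rintro ⟨⟨_, _⟩, h⟩
        exact ⟨mem_univ _, h⟩
      · rintro ⟨_, h⟩
        exact ⟨⟨mem_univ _, (cond_iff hR h).2 hv.2⟩, h⟩
    · intro u hu
      rw [mem_filter] at hu
      rw [hu.2]
  rw [h2, sum_const, nsmul_eq_mul, ← card_stab hRp v]
  ring

end

end Pool.Agent.FQ
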