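import Pool.Agent.FQ.Calc

/-!
# FQ-SqVan: combinations of quadratic elements with zero weights are zero

Plan.
* `G`: the set of all `a = ∑ x : ZMod m, c x • D.f x` with `c : ZMod m → ℤ`,
  `c (u ^ 2 * x) = c x` for all units `u`, is an additive subgroup; it contains `qf D R e`
  (`OKR m R`): `c x = ∑ w with emb m (nR m R) w = x, NF R e (rr w)`; for a unit `u` of `ZMod m` with
  image `v` in `ZMod (nR m R)` one has `u ^ 2 * emb m n w = emb m n (v ^ 2 * w)` and
  `NF R e (rr (v ^ 2 * w)) = NF R e (rr w)` (`chi_mul`, `chi_mod`, `chi_sq`; `hb l ∣ nR m R`).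
* Let `c` be such a function with `∑ x, c x * sw (t * x) = 0` for all units `t` (this is
  `D.W t a = 0` by `D.wf`). Let `S` be the multiset in which `x ≠ 0` has the multiplicity
  `(c x).toNat + (-(c (-x))).toNat`, i.e.
  `S = ∑ x ≠ 0, ((c x).toNat • {x} + (-(c x)).toNat • {-x})`. Then `0 ∉ S`,
  `(S.map D.f).sum = a` (`D.odd`, `D.zero`: `(c x).toNat - (-(c x)).toNat = c x`), `S` is invariant
  under the squares, and `∑_{x ∈ S} sw (t x) = 0`, i.e. `2 ∑ (t x).val = m * S.card`
  (`Pool.Agent.FS.Quot.sw_of_ne`), so `IsHodge S`.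
* If `S.card` is odd add the element `m / 2` (`m` even): `t (m / 2) = m / 2`
  (`Pool.Agent.Helper9.Fermat`: `half_neg`, `half_ne`; `sw (t * (m / 2)) = 0` is
  `Pool.Agent.FS.Quot.sw_half`), `D.f (m / 2) = 0` (from the distribution relation for `2` at `0`:
  the fibre of `0` is `{0, m / 2}`; or `Pool.Agent.FS.f_half D hm 0`).
  Squares of units fix `m / 2`.
* `hsq` gives `(S.map D.f).sum = 0`, so `a = 0`.
-/

set_option autoImplicit false

namespace Pool.Agent.FQ

open Finset Pool.Agent.FS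

variable {m : ℕ} [NeZero m] {A : Type} [AddCommGroup A] (D : Datum m A)

/-- the multiset of a coefficient function -/
noncomputable def sqvS (c : ZMod m → ℤ) : Multiset (ZMod m) :=
  ∑ x ∈ univ.erase (0 : ZMod m),
    ((c x).toNat • ({x} : Multiset (ZMod m)) + (-(c x)).toNat • ({-x} : Multiset (ZMod m)))

theorem sqv_sum {B : Type} [AddCommGroup B] (c : ZMod m → ℤ) (g : ZMod m → B)
    (hodd : ∀ x, g (-x) = - g x) (h0 : g 0 = 0) :
    ((sqvS c).map g).sum = ∑ x, c x • g x := by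
  classical
  set Φ : Multiset (ZMod m) →+ B :=
    (Multiset.sumAddMonoidHom).comp (Multiset.mapAddMonoidHom g) with hΦ
  have hΦ1 : ∀ T : Multiset (ZMod m), (T.map g).sum = Φ T := fun T => rfl
  have hΦ2 : ∀ x : ZMod m, Φ {x} = g x := by
    intro x
    rw [← hΦ1, Multiset.map_singleton, Multiset.sum_singleton]
  rw [hΦ1, sqvS, map_sum, ← Finset.sum_erase_add univ _ (mem_univ (0 : ZMod m)), h0, smul_zero,
    add_zero]
  refine Finset.sum_congr rfl fun x _ => ?_
  rw [map_add, map_nsmul, map_nsmul, hΦ2, hΦ2, hodd, ← natCast_zsmul, ← natCast_zsmul, smul_neg,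
    ← sub_eq_add_neg, ← sub_smul, Int.toNat_sub_toNat_neg]

theorem sqv_zero_notMem (c : ZMod m → ℤ) : (0 : ZMod m) ∉ sqvS c := by
  intro h
  unfold sqvS at h
  rw [Multiset.mem_sum] at h
  obtain ⟨x, hx, h1⟩ := h
  have hx0 : x ≠ 0 := (mem_erase.1 hx).1
  rw [Multiset.mem_add] at h1
  rcases h1 with h1 | h1
  · have h2 := Multiset.mem_of_mem_nsmul h1
    rw [Multiset.mem_singleton] at h2
    exact hx0 h2.symm
  · have h2 := Multiset.mem_of_mem_nsmul h1
    rw [Multiset.mem_singleton] at h2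
    exact hx0 (neg_eq_zero.1 h2.symm)

theorem sqv_inv (c : ZMod m → ℤ)
    (hc : ∀ (u : (ZMod m)ˣ) (x : ZMod m), c ((u : ZMod m) ^ 2 * x) = c x) (u : (ZMod m)ˣ) :
    ((sqvS c).map fun x => (u : ZMod m) ^ 2 * x) = sqvS c := by
  classical
  set Φ : Multiset (ZMod m) →+ Multiset (ZMod m) :=
    Multiset.mapAddMonoidHom (fun x => (u : ZMod m) ^ 2 * x) with hΦ
  have hΦ1 : ∀ T : Multiset (ZMod m), (T.map fun x => (u : ZMod m) ^ 2 * x) = Φ T := fun T => rfl
  have hΦ2 : ∀ x : ZMod m, Φ {x} = {(u : ZMod m) ^ 2 * x} := by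
    intro x
    rw [← hΦ1, Multiset.map_singleton]
  rw [hΦ1, sqvS, map_sum]
  have hml : ∀ x : ZMod m, (u ^ 2).mulLeft x = (u : ZMod m) ^ 2 * x := fun x => by
    rw [← Units.val_pow_eq_pow_val]
    rfl
  refine Finset.sum_equiv (Units.mulLeft (u ^ 2)) ?_ ?_
  · intro x
    simp only [mem_erase, mem_univ, and_true, ne_eq]
    rw [not_iff_not, hml, (IsUnit.mul_right_eq_zero (u.isUnit.pow 2))]
  · intro x _
    rw [map_add, map_nsmul, map_nsmul, hΦ2, hΦ2, hml, hc, mul_neg]

omit [NeZero m] in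
theorem sqv_hodge {S : Multiset (ZMod m)} (h0 : (0 : ZMod m) ∉ S) (t : (ZMod m)ˣ) :
    (S.map fun x => sw ((t : ZMod m) * x)).sum =
      2 * (((S.map fun x => ((t : ZMod m) * x).val).sum : ℕ) : ℤ) - m * S.card := by
  induction S using Multiset.induction_on with
  | empty => simp
  | cons a S ih =>
    have ha : a ≠ 0 := fun h => h0 (h ▸ Multiset.mem_cons_self a S)
    have h0' : (0 : ZMod m) ∉ S := fun h => h0 (Multiset.mem_cons_of_mem h)
    have h1 : (t : ZMod m) * a ≠ 0 := by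
      rw [ne_eq, IsUnit.mul_right_eq_zero t.isUnit]
      exact ha
    rw [Multiset.map_cons, Multiset.sum_cons, ih h0', Multiset.map_cons, Multiset.sum_cons,
      Multiset.card_cons, Pool.Agent.FS.Quot.sw_of_ne h1]
    push_cast
    ring

theorem sqv_half (hm : 2 ∣ m) (t : (ZMod m)ˣ) :
    (t : ZMod m) * ((m / 2 : ℕ) : ZMod m) = ((m / 2 : ℕ) : ZMod m) := by
  have h1 := ZMod.val_coe_unit_coprime t
  have h2 : (t : ZMod m).val % 2 = 1 := by
    have h3 : ¬ 2 ∣ (t : ZMod m).val := fun h => by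
      have h4 := Nat.dvd_gcd h hm
      rw [h1] at h4
      omega
    omega
  have h3 : (t : ZMod m) = (((t : ZMod m).val : ℕ) : ZMod m) := (ZMod.natCast_zmod_val _).symm
  obtain ⟨k, hk⟩ : ∃ k, (t : ZMod m).val = 2 * k + 1 := ⟨(t : ZMod m).val / 2, by omega⟩
  have h4 : (2 : ZMod m) * ((m / 2 : ℕ) : ZMod m) = 0 := by
    have h5 : 2 * (m / 2) = m := Nat.mul_div_cancel' hm
    have h6 := congrArg (Nat.cast : ℕ → ZMod m) h5
    push_cast at h6
    rw [h6, ZMod.natCast_self]
  rw [h3, hk]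
  push_cast
  linear_combination (k : ZMod m) * h4

theorem sq_inv_zero (hm : Even m) (hsq : SqV D) (c : ZMod m → ℤ)
    (hc : ∀ (u : (ZMod m)ˣ) (x : ZMod m), c ((u : ZMod m) ^ 2 * x) = c x)
    (hW : ∀ t, D.W t (∑ x : ZMod m, c x • D.f x) = 0) : ∑ x : ZMod m, c x • D.f x = 0 := by
  classical
  have hm2 : 2 ∣ m := even_iff_two_dvd.1 hm
  have hfh : D.f ((m / 2 : ℕ) : ZMod m) = 0 := by
    have h := f_half D hm2 0
    rw [zero_add, mul_zero, sub_self] at h
    exact h
  set T : Multiset (ZMod m) := if Odd (sqvS c).card then {((m / 2 : ℕ) : ZMod m)} else 0 with hT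
  have hT0 : (0 : ZMod m) ∉ T := by
    rw [hT]
    split_ifs with h
    · rw [Multiset.mem_singleton]
      exact fun h' => Pool.Agent.Helper9.Fermat.half_ne hm2 h'.symm
    · exact Multiset.notMem_zero _
  have hTg : ∀ {B : Type} [AddCommGroup B] (g : ZMod m → B), g ((m / 2 : ℕ) : ZMod m) = 0 →
      (T.map g).sum = 0 := by
    intro B _ g hg
    rw [hT]
    split_ifs with h
    · rw [Multiset.map_singleton, Multiset.sum_singleton, hg]
    · simp
  have hTc : Even ((sqvS c) + T).card := by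
    rw [Multiset.card_add, hT]
    split_ifs with h
    · rw [Multiset.card_singleton]
      exact h.add_odd odd_one
    · rw [Multiset.card_zero, add_zero]
      exact Nat.not_odd_iff_even.1 h
  have hTi : ∀ u : (ZMod m)ˣ, (T.map fun x => (u : ZMod m) ^ 2 * x) = T := by
    intro u
    rw [hT]
    split_ifs with h
    · rw [Multiset.map_singleton, ← Units.val_pow_eq_pow_val, sqv_half hm2]
    · rfl
  have h0 : (0 : ZMod m) ∉ (sqvS c) + T := by
    rw [Multiset.mem_add, not_or]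
    exact ⟨sqv_zero_notMem c, hT0⟩
  have hsum : ∀ t : (ZMod m)ˣ,
      (((sqvS c) + T).map fun x => sw ((t : ZMod m) * x)).sum = 0 := by
    intro t
    rw [Multiset.map_add, Multiset.sum_add,
      hTg (fun x => sw ((t : ZMod m) * x)) (Pool.Agent.FS.Quot.sw_half hm2 _), add_zero,
      sqv_sum c (fun x => sw ((t : ZMod m) * x))
        (fun x => by rw [mul_neg, Pool.Agent.FS.Quot.sw_neg])
        (by rw [mul_zero, Pool.Agent.FS.Quot.sw_zero])]
    have h1 := hW t
    rw [map_sum] at h1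
    rw [← h1]
    refine Finset.sum_congr rfl fun x _ => ?_
    rw [map_zsmul, D.wf]
  have hH : IsHodge ((sqvS c) + T) := by
    intro t
    have h1 := sqv_hodge h0 t
    rw [hsum t] at h1
    have h2 : (2 : ℤ) * (((((sqvS c) + T).map fun x => ((t : ZMod m) * x).val).sum : ℕ) : ℤ) =
      m * ((sqvS c) + T).card := by linarith
    exact_mod_cast h2
  have hfin := hsq ((sqvS c) + T) h0 hTc hH (fun u => by
    rw [Multiset.map_add, sqv_inv c hc u, hTi u])
  rw [Multiset.map_add, Multiset.sum_add, hTg D.f hfh, add_zero, sqv_sum c D.f D.odd D.zero] at hfin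
  exact hfin

theorem sqv_chi {R : Finset ℕ} (hR : OKR m R) (e : ℕ → ℤ) (v w : (ZMod (nR m R))ˣ) :
    NF R e (rr (v ^ 2 * w)) = NF R e (rr w) := by
  have h1 : ∀ l ∈ R, chi l (rr (v ^ 2 * w)) = chi l (rr w) := by
    intro l hl
    have hlp := (hR l hl).1
    have hhb : hb l ∣ nR m R := (hb_dvd_qq hlp (hR l hl).2).trans (qq_dvd_nR hl)
    have hlhb : l ∣ hb l := by
      unfold hb
      split_ifs with h
      · rw [h]; norm_num
      · exact dvd_rfl
    have h2 : rr (v ^ 2 * w) ≡ rr v * rr v * rr w [MOD hb l] := by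
      have h3 : rr (v * v * w) ≡ rr v * rr v * rr w [MOD nR m R] :=
        (rr_mul (v * v) w).trans ((rr_mul v v).mul_right _)
      rw [pow_two]
      exact h3.of_dvd hhb
    rw [chi_mod h2, chi_mul, chi_mul]
    have h4 : (rr v).Coprime l := (rr_coprime v).coprime_dvd_right (hlhb.trans hhb)
    rcases chi_sq hlp h4 with h5 | h5 <;> rw [h5] <;> ring
  unfold NF
  have h2 : (∀ l ∈ R, chi l (rr (v ^ 2 * w)) = e l) ↔ (∀ l ∈ R, chi l (rr w) = e l) := by
    constructor
    · intro h l hl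
      rw [← h1 l hl, h l hl]
    · intro h l hl
      rw [h1 l hl, h l hl]
  by_cases h3 : ∀ l ∈ R, chi l (rr w) = e l
  · rw [if_pos h3, if_pos (h2.2 h3)]
  · rw [if_neg h3, if_neg (fun h => h3 (h2.1 h))]

theorem sqv_qf {R : Finset ℕ} (hR : OKR m R) (e : ℕ → ℤ) :
    ∃ c : ZMod m → ℤ, (∀ (u : (ZMod m)ˣ) (x : ZMod m), c ((u : ZMod m) ^ 2 * x) = c x) ∧
      qf D R e = ∑ x : ZMod m, c x • D.f x := by
  classical
  have hn : nR m R ∣ m := nR_dvd fun l hl => (hR l hl).1
  refine ⟨fun x => ∑ w : (ZMod (nR m R))ˣ,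
    if emb m (nR m R) (w : ZMod (nR m R)) = x then NF R e (rr w) else 0, ?_, ?_⟩
  · intro u x
    show ∑ w : (ZMod (nR m R))ˣ,
      (if emb m (nR m R) (w : ZMod (nR m R)) = (u : ZMod m) ^ 2 * x then NF R e (rr w) else 0) = _
    rw [← Equiv.sum_comp (Equiv.mulLeft ((ZMod.unitsMap hn u) ^ 2))]
    refine Finset.sum_congr rfl fun w _ => ?_
    rw [Equiv.coe_mulLeft]
    have h1 : emb m (nR m R) (((ZMod.unitsMap hn u) ^ 2 * w : (ZMod (nR m R))ˣ) : ZMod (nR m R)) =
        (u : ZMod m) ^ 2 * emb m (nR m R) (w : ZMod (nR m R)) := by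
      rw [← Units.val_pow_eq_pow_val, Mixed_mul_emb hn (u ^ 2), map_pow, Units.val_mul]
    rw [h1, sqv_chi hR]
    have h2 : (u : ZMod m) ^ 2 * emb m (nR m R) (w : ZMod (nR m R)) = (u : ZMod m) ^ 2 * x ↔
        emb m (nR m R) (w : ZMod (nR m R)) = x := by
      constructor
      · intro h
        exact (u.isUnit.pow 2).mul_left_cancel h
      · intro h
        rw [h]
    by_cases h3 : emb m (nR m R) (w : ZMod (nR m R)) = x
    · rw [if_pos h3, if_pos (h2.2 h3)]
    · rw [if_neg h3, if_neg (fun h => h3 (h2.1 h))]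
  · unfold qf Bk
    simp only [Finset.sum_smul]
    rw [Finset.sum_comm]
    refine Finset.sum_congr rfl fun w _ => ?_
    rw [Finset.sum_eq_single (emb m (nR m R) (w : ZMod (nR m R)))]
    · rw [if_pos rfl]
    · intro y _ hy
      rw [if_neg (Ne.symm hy), zero_smul]
    · intro h
      exact absurd (mem_univ _) h

theorem sq_zero (hm : Even m) (hsq : SqV D) (a : A)
    (ha : a ∈ AddSubgroup.closure {a | ∃ R e, OKR m R ∧ a = qf D R e})
    (hW : ∀ t, D.W t a = 0) : a = 0 := by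
  have h1 : ∃ c : ZMod m → ℤ, (∀ (u : (ZMod m)ˣ) (x : ZMod m), c ((u : ZMod m) ^ 2 * x) = c x) ∧
      a = ∑ x : ZMod m, c x • D.f x := by
    clear hW
    induction ha using AddSubgroup.closure_induction with
    | mem x hx =>
      obtain ⟨R, e, hR, rfl⟩ := hx
      exact sqv_qf D hR e
    | zero => exact ⟨fun _ => 0, fun _ _ => rfl, by simp⟩
    | add x y _ _ hx hy =>
      obtain ⟨c, hc, rfl⟩ := hx
      obtain ⟨d, hd, rfl⟩ := hy
      refine ⟨fun x => c x + d x, fun u x => by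
        show c _ + d _ = _
        rw [hc, hd], ?_⟩
      rw [← Finset.sum_add_distrib]
      exact Finset.sum_congr rfl fun x _ => (add_smul _ _ _).symm
    | neg x _ hx =>
      obtain ⟨c, hc, rfl⟩ := hx
      refine ⟨fun x => - c x, fun u x => by
        show - c _ = _
        rw [hc], ?_⟩
      rw [← Finset.sum_neg_distrib]
      exact Finset.sum_congr rfl fun x _ => (neg_smul _ _).symm
  obtain ⟨c, hc, rfl⟩ := h1
  exact sq_inv_zero D hm hsq c hc hW

end Pool.Agent.FQ
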