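import Pool.Agent.FQ.HalfF
import Pool.Agent.FQ.QInt
import Pool.Agent.FQ.SqVan

/-!
# FQ-Rel: the basic relation

`R₀ = {r₁, r₂} ∪ P`, all elements of `P` are congruent to `1` modulo `4`, `p ∈ P`;
`T = ∏ l ∈ P, ss l`, `g = hf p * ∏ l ∈ P.erase p, ss l`, so that `g (-a) = T a - g a`.

Plan. Write `s₁ = ss r₁`, `s₂ = ss r₂`.
* `rel_half`: `bk_add`: `s₁ s₂ T = s₁ s₂ g + s₁ s₂ (T - g)`; `bk_neg` for the second part with
  `ψ = (1 - s₁) (1 - s₂) g` (`ss_neg`, and `T (-a) = T a`, `g (-a) = T a - g a` by `ss_neg1`,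
  `hf_neg`). So `Bk R₀ (s₁ s₂ T) = Bk R₀ (s₁ s₂ g - (1 - s₁) (1 - s₂) g)`, and
  `s₁ s₂ g - (1 - s₁) (1 - s₂) g = s₁ g + s₂ g - g`. Then `bk_norm` at `r₂` for `s₁ g`
  (`Dep (R₀.erase r₂)`) and at `r₁` for `s₂ g`.
* `rel_two`: the same with `T` instead of `g`: `Bk R₀ (s₁ s₂ T) = - Bk R₀ ((1 - s₁) (1 - s₂) T)`,
  so `2 Bk R₀ (s₁ s₂ T) = Bk R₀ (s₁ T) + Bk R₀ (s₂ T) - Bk R₀ T`, `Bk R₀ T = 0` (`bk_even`), and
  `Bk R₀ (s₁ T) = Bk R₁ (s₁ T - (s₁ T)(r₂ ·)) = qf D R₁ 1 - qf D R₁ (tw r₂ 1)`,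
  `R₁ = R₀.erase r₂` (`bk_norm`, `bk_sub`, `NF_one`; `NF R₁ (tw r₂ 1) a = NF R₁ 1 (r₂ * a)` on
  residues prime to `R₁`, as in `qf_flip`).
* `rel_main`: by `q_sign` for `R₁`, `e = 1`, `e' = tw r₂ 1`, with
  `ε₁ = ∏ l ∈ R₁, tw r₂ 1 l`, which is `1` or `-1`: there is `c₁ ∈ OL D R₁` with
  `D.W t (qf R₁ 1) - ε₁ D.W t (qf R₁ (tw r₂ 1)) = 2 D.W t c₁`; if `ε₁ = 1` take `κ₁ = c₁`, if
  `ε₁ = -1` take `κ₁ = qf R₁ 1 - c₁`; then `D.W t (qf R₁ 1 - qf R₁ (tw r₂ 1)) = 2 D.W t κ₁`. Same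
  for `R₂`. So `D.W t (qf R₀ 1 - κ₁ - κ₂) = 0` (`rel_two`, divide by `2`), and
  `qf R₀ 1 = κ₁ + κ₂` by `sq_zero`. With `rel_half` this is the claim.
-/

set_option autoImplicit false

namespace Pool.Agent.FQ

open Finset Pool.Agent.FS

variable {m : ℕ} [NeZero m] {A : Type} [AddCommGroup A] (D : Datum m A)

private theorem rel_notin {r : ℕ} {P : Finset ℕ} (h : PPr r) (hP : ∀ l ∈ P, l % 4 = 1) :
    r ∉ P := by
  intro hr
  have h1 := hP r hr
  rcases h.2 with h2 | h2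
  · rw [h2] at h1
    omega
  · omega

private theorem rel_prod_neg {Q : Finset ℕ} (hQ : ∀ l ∈ Q, l.Prime ∧ l % 4 = 1) {a b : ℕ}
    (h : ∀ l ∈ Q, a + b ≡ 0 [MOD hb l]) : ∏ l ∈ Q, ss l b = ∏ l ∈ Q, ss l a :=
  prod_congr rfl fun l hl => ss_neg1 (hQ l hl).1 (hQ l hl).2 (h l hl)

private theorem rel_g_neg {p : ℕ} {P : Finset ℕ} (hP : ∀ l ∈ P, l.Prime ∧ l % 4 = 1) (hp : p ∈ P)
    {a b : ℕ} (ha : a.Coprime p) (h : ∀ l ∈ P, a + b ≡ 0 [MOD hb l]) :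
    hf p b * ∏ l ∈ P.erase p, ss l b =
      (∏ l ∈ P, ss l a) - hf p a * ∏ l ∈ P.erase p, ss l a := by
  rw [hf_neg (hP p hp).1 (hP p hp).2 ha (h p hp),
    rel_prod_neg (fun l hl => hP l (mem_of_mem_erase hl)) (fun l hl => h l (mem_of_mem_erase hl)),
    ← mul_prod_erase P (fun l => ss l a) hp]
  ring

private theorem rel_dep {r p : ℕ} {P : Finset ℕ} (hp : p ∈ P) :
    Dep (insert r P) (fun a => ss r a * (hf p a * ∏ l ∈ P.erase p, ss l a)) := by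
  intro a b h
  show ss r a * (hf p a * ∏ l ∈ P.erase p, ss l a) = ss r b * (hf p b * ∏ l ∈ P.erase p, ss l b)
  have h1 : ∏ l ∈ P.erase p, ss l a = ∏ l ∈ P.erase p, ss l b := by
    refine prod_congr rfl fun l hl => dep_ss l a b ?_
    intro l' hl'
    rw [mem_singleton] at hl'
    subst hl'
    exact h _ (mem_insert_of_mem (mem_of_mem_erase hl))
  rw [h1, dep_ss r a b (fun l' hl' => by
      rw [mem_singleton] at hl'
      subst hl'
      exact h _ (mem_insert_self _ _)),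
    dep_hf p a b (fun l' hl' => by
      rw [mem_singleton] at hl'
      subst hl'
      exact h _ (mem_insert_of_mem hp))]

private theorem rel_dep_t {r : ℕ} {P : Finset ℕ} :
    Dep (insert r P) (fun a => ss r a * ∏ l ∈ P, ss l a) := by
  intro a b h
  show ss r a * ∏ l ∈ P, ss l a = ss r b * ∏ l ∈ P, ss l b
  have h1 : ∏ l ∈ P, ss l a = ∏ l ∈ P, ss l b := by
    refine prod_congr rfl fun l hl => dep_ss l a b ?_
    intro l' hl'
    rw [mem_singleton] at hl'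
    subst hl'
    exact h _ (mem_insert_of_mem hl)
  rw [h1, dep_ss r a b (fun l' hl' => by
      rw [mem_singleton] at hl'
      subst hl'
      exact h _ (mem_insert_self _ _))]

private theorem rel_erase {r₁ r₂ : ℕ} {P : Finset ℕ} (h : r₁ ∉ insert r₂ P) :
    (insert r₁ (insert r₂ P)).erase r₁ = insert r₂ P := erase_insert h

private theorem rel_erase' {r₁ r₂ : ℕ} {P : Finset ℕ} (h : r₂ ∉ insert r₁ P) :
    (insert r₁ (insert r₂ P)).erase r₂ = insert r₁ P := by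
  rw [Finset.insert_comm]
  exact erase_insert h

private theorem rel_nf {r₁ r₂ : ℕ} {P : Finset ℕ} (h : r₁ ∉ insert r₂ P) (h' : r₂ ∉ P) (a : ℕ) :
    NF (insert r₁ (insert r₂ P)) (fun _ => 1) a = ss r₁ a * ss r₂ a * ∏ l ∈ P, ss l a := by
  rw [NF_one, prod_insert h, prod_insert h', mul_assoc]

theorem rel_half {r₁ r₂ p : ℕ} {P : Finset ℕ} (h₁ : PPr r₁) (h₂ : PPr r₂) (h12 : r₁ ≠ r₂)
    (hP : ∀ l ∈ P, l % 4 = 1) (hp : p ∈ P) (hR : OKR m (insert r₁ (insert r₂ P))) :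
    qf D (insert r₁ (insert r₂ P)) (fun _ => 1) =
      Bk D (insert r₁ P) (fun a => ss r₁ a * (hf p a * ∏ l ∈ P.erase p, ss l a) -
        ss r₁ (r₂ * a) * (hf p (r₂ * a) * ∏ l ∈ P.erase p, ss l (r₂ * a))) +
      Bk D (insert r₂ P) (fun a => ss r₂ a * (hf p a * ∏ l ∈ P.erase p, ss l a) -
        ss r₂ (r₁ * a) * (hf p (r₁ * a) * ∏ l ∈ P.erase p, ss l (r₁ * a))) -
      Bk D (insert r₁ (insert r₂ P)) (fun a => hf p a * ∏ l ∈ P.erase p, ss l a) := by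
  have n1 : r₁ ∉ P := rel_notin h₁ hP
  have n2 : r₂ ∉ P := rel_notin h₂ hP
  have n1' : r₁ ∉ insert r₂ P := by
    rw [mem_insert, not_or]
    exact ⟨h12, n1⟩
  have n2' : r₂ ∉ insert r₁ P := by
    rw [mem_insert, not_or]
    exact ⟨h12.symm, n2⟩
  have hPP : ∀ l ∈ P, l.Prime ∧ l % 4 = 1 := fun l hl =>
    ⟨(hR l (mem_insert_of_mem (mem_insert_of_mem hl))).1, hP l hl⟩
  have e1 : qf D (insert r₁ (insert r₂ P)) (fun _ => 1) =
      Bk D (insert r₁ (insert r₂ P)) (fun a =>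
        ss r₁ a * ss r₂ a * (hf p a * ∏ l ∈ P.erase p, ss l a) +
        ss r₁ a * ss r₂ a * ((∏ l ∈ P, ss l a) - hf p a * ∏ l ∈ P.erase p, ss l a)) := by
    unfold qf
    refine bk_congr D hR fun a _ => ?_
    rw [rel_nf n1' n2]
    ring
  have e2 : Bk D (insert r₁ (insert r₂ P)) (fun a =>
        ss r₁ a * ss r₂ a * ((∏ l ∈ P, ss l a) - hf p a * ∏ l ∈ P.erase p, ss l a)) =
      - Bk D (insert r₁ (insert r₂ P)) (fun a =>
        (1 - ss r₁ a) * (1 - ss r₂ a) * (hf p a * ∏ l ∈ P.erase p, ss l a)) := by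
    refine bk_neg D hR fun a b ha hab => ?_
    have m1 : r₁ ∈ insert r₁ (insert r₂ P) := mem_insert_self _ _
    have m2 : r₂ ∈ insert r₁ (insert r₂ P) := mem_insert_of_mem (mem_insert_self _ _)
    have m3 : ∀ l ∈ P, l ∈ insert r₁ (insert r₂ P) := fun l hl =>
      mem_insert_of_mem (mem_insert_of_mem hl)
    rw [ss_neg h₁ (ha _ m1) (hab _ m1), ss_neg h₂ (ha _ m2) (hab _ m2),
      rel_g_neg hPP hp (ha _ (m3 _ hp)) (fun l hl => hab _ (m3 _ hl)),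
      rel_prod_neg hPP (fun l hl => hab _ (m3 _ hl))]
    ring
  have e3 : Bk D (insert r₁ (insert r₂ P)) (fun a =>
        ss r₁ a * ss r₂ a * (hf p a * ∏ l ∈ P.erase p, ss l a)) -
      Bk D (insert r₁ (insert r₂ P)) (fun a =>
        (1 - ss r₁ a) * (1 - ss r₂ a) * (hf p a * ∏ l ∈ P.erase p, ss l a)) =
      Bk D (insert r₁ (insert r₂ P)) (fun a => ss r₁ a * (hf p a * ∏ l ∈ P.erase p, ss l a)) +
      Bk D (insert r₁ (insert r₂ P)) (fun a => ss r₂ a * (hf p a * ∏ l ∈ P.erase p, ss l a)) -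
      Bk D (insert r₁ (insert r₂ P)) (fun a => hf p a * ∏ l ∈ P.erase p, ss l a) := by
    rw [← bk_sub, ← bk_add, ← bk_sub]
    refine bk_congr D hR fun a _ => ?_
    ring
  have e4 := bk_norm D hR (l := r₂) (mem_insert_of_mem (mem_insert_self _ _))
    (fun a => ss r₁ a * (hf p a * ∏ l ∈ P.erase p, ss l a)) (by
      rw [rel_erase' n2']
      exact rel_dep hp)
  have e5 := bk_norm D hR (l := r₁) (mem_insert_self _ _)
    (fun a => ss r₂ a * (hf p a * ∏ l ∈ P.erase p, ss l a)) (by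
      rw [rel_erase n1']
      exact rel_dep hp)
  rw [rel_erase' n2'] at e4
  rw [rel_erase n1'] at e5
  rw [e1, bk_add, e2, ← sub_eq_add_neg, e3, e4, e5]

private theorem rel_tw {l r : ℕ} (hl : l.Prime) (hr : r.Prime) (hne : l ≠ r) :
    tw r (fun _ => 1) l = chi l r := by
  unfold tw
  rcases chi_sq hl ((Nat.coprime_primes hr hl).2 hne.symm) with h | h
  · rw [h, if_neg (by norm_num)]
  · rw [h, if_pos rfl]

private theorem rel_nf_tw {R : Finset ℕ} {r : ℕ} (hR : ∀ l ∈ R, l.Prime) (hr : r.Prime)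
    (hn : r ∉ R) (a : ℕ) (_ha : ∀ l ∈ R, a.Coprime l) :
    NF R (tw r fun _ => 1) a = NF R (fun _ => 1) (r * a) := by
  have key : (∀ l ∈ R, chi l a = tw r (fun _ => 1) l) ↔ ∀ l ∈ R, chi l (r * a) = (1 : ℤ) := by
    refine forall₂_congr fun l hl => ?_
    have hne : l ≠ r := fun h => hn (h ▸ hl)
    rw [rel_tw (hR l hl) hr hne, chi_mul]
    rcases chi_sq (hR l hl) ((Nat.coprime_primes hr (hR l hl)).2 hne.symm) with h | h
    · rw [h, one_mul]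
    · rw [h]
      constructor
      · intro h1
        rw [h1]
        norm_num
      · intro h1
        linarith
  unfold NF
  by_cases h : ∀ l ∈ R, chi l (r * a) = (1 : ℤ)
  · rw [if_pos h, if_pos (key.2 h)]
  · rw [if_neg h, if_neg (fun h1 => h (key.1 h1))]

theorem rel_two {r₁ r₂ : ℕ} {P : Finset ℕ} (h₁ : PPr r₁) (h₂ : PPr r₂) (h12 : r₁ ≠ r₂)
    (hP : ∀ l ∈ P, l % 4 = 1) (hR : OKR m (insert r₁ (insert r₂ P))) :
    (2 : ℤ) • qf D (insert r₁ (insert r₂ P)) (fun _ => 1) =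
      (qf D (insert r₁ P) (fun _ => 1) - qf D (insert r₁ P) (tw r₂ fun _ => 1)) +
      (qf D (insert r₂ P) (fun _ => 1) - qf D (insert r₂ P) (tw r₁ fun _ => 1)) := by
  have n1 : r₁ ∉ P := rel_notin h₁ hP
  have n2 : r₂ ∉ P := rel_notin h₂ hP
  have n1' : r₁ ∉ insert r₂ P := by
    rw [mem_insert, not_or]
    exact ⟨h12, n1⟩
  have n2' : r₂ ∉ insert r₁ P := by
    rw [mem_insert, not_or]
    exact ⟨h12.symm, n2⟩
  have m1 : r₁ ∈ insert r₁ (insert r₂ P) := mem_insert_self _ _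
  have m2 : r₂ ∈ insert r₁ (insert r₂ P) := mem_insert_of_mem (mem_insert_self _ _)
  have m3 : ∀ l ∈ P, l ∈ insert r₁ (insert r₂ P) := fun l hl =>
    mem_insert_of_mem (mem_insert_of_mem hl)
  have hPP : ∀ l ∈ P, l.Prime ∧ l % 4 = 1 := fun l hl => ⟨(hR l (m3 l hl)).1, hP l hl⟩
  have hR1 : OKR m (insert r₁ P) := fun l hl => hR l (by
    rw [mem_insert] at hl
    rcases hl with rfl | hl
    · exact m1
    · exact m3 l hl)
  have hR2 : OKR m (insert r₂ P) := fun l hl => hR l (by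
    rw [mem_insert] at hl
    rcases hl with rfl | hl
    · exact m2
    · exact m3 l hl)
  have e1 : qf D (insert r₁ (insert r₂ P)) (fun _ => 1) =
      Bk D (insert r₁ (insert r₂ P)) (fun a => ss r₁ a * ss r₂ a * ∏ l ∈ P, ss l a) := by
    unfold qf
    refine bk_congr D hR fun a _ => ?_
    rw [rel_nf n1' n2]
  have e2 : Bk D (insert r₁ (insert r₂ P)) (fun a => ss r₁ a * ss r₂ a * ∏ l ∈ P, ss l a) =
      - Bk D (insert r₁ (insert r₂ P)) (fun a =>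
        (1 - ss r₁ a) * (1 - ss r₂ a) * ∏ l ∈ P, ss l a) := by
    refine bk_neg D hR fun a b ha hab => ?_
    rw [ss_neg h₁ (ha _ m1) (hab _ m1), ss_neg h₂ (ha _ m2) (hab _ m2),
      rel_prod_neg hPP (fun l hl => hab _ (m3 _ hl))]
  have e3 : Bk D (insert r₁ (insert r₂ P)) (fun a => ∏ l ∈ P, ss l a) = 0 :=
    bk_even D hR ⟨r₁, m1⟩ fun a b _ hab => rel_prod_neg hPP (fun l hl => hab _ (m3 _ hl))
  have e4 : Bk D (insert r₁ (insert r₂ P)) (fun a => ss r₁ a * ss r₂ a * ∏ l ∈ P, ss l a) -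
      Bk D (insert r₁ (insert r₂ P)) (fun a =>
        (1 - ss r₁ a) * (1 - ss r₂ a) * ∏ l ∈ P, ss l a) =
      Bk D (insert r₁ (insert r₂ P)) (fun a => ss r₁ a * ∏ l ∈ P, ss l a) +
      Bk D (insert r₁ (insert r₂ P)) (fun a => ss r₂ a * ∏ l ∈ P, ss l a) -
      Bk D (insert r₁ (insert r₂ P)) (fun a => ∏ l ∈ P, ss l a) := by
    rw [← bk_sub, ← bk_add, ← bk_sub]
    refine bk_congr D hR fun a _ => ?_
    ring
  have e5 := bk_norm D hR (l := r₂) m2 (fun a => ss r₁ a * ∏ l ∈ P, ss l a) (by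
      rw [rel_erase' n2']
      exact rel_dep_t)
  have e6 := bk_norm D hR (l := r₁) m1 (fun a => ss r₂ a * ∏ l ∈ P, ss l a) (by
      rw [rel_erase n1']
      exact rel_dep_t)
  rw [rel_erase' n2'] at e5
  rw [rel_erase n1'] at e6
  have e7 : Bk D (insert r₁ P) (fun a => ss r₁ a * ∏ l ∈ P, ss l a -
      ss r₁ (r₂ * a) * ∏ l ∈ P, ss l (r₂ * a)) =
      qf D (insert r₁ P) (fun _ => 1) - qf D (insert r₁ P) (tw r₂ fun _ => 1) := by
    unfold qf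
    rw [← bk_sub]
    refine bk_congr D hR1 fun a ha => ?_
    rw [rel_nf_tw (fun l hl => (hR1 l hl).1) h₂.1 n2' a ha, NF_one, NF_one, prod_insert n1,
      prod_insert n1]
  have e8 : Bk D (insert r₂ P) (fun a => ss r₂ a * ∏ l ∈ P, ss l a -
      ss r₂ (r₁ * a) * ∏ l ∈ P, ss l (r₁ * a)) =
      qf D (insert r₂ P) (fun _ => 1) - qf D (insert r₂ P) (tw r₁ fun _ => 1) := by
    unfold qf
    rw [← bk_sub]
    refine bk_congr D hR2 fun a ha => ?_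
    rw [rel_nf_tw (fun l hl => (hR2 l hl).1) h₁.1 n1' a ha, NF_one, NF_one, prod_insert n2,
      prod_insert n2]
  have e9 : (2 : ℤ) • qf D (insert r₁ (insert r₂ P)) (fun _ => 1) =
      Bk D (insert r₁ (insert r₂ P)) (fun a => ss r₁ a * ss r₂ a * ∏ l ∈ P, ss l a) -
      Bk D (insert r₁ (insert r₂ P)) (fun a =>
        (1 - ss r₁ a) * (1 - ss r₂ a) * ∏ l ∈ P, ss l a) := by
    rw [two_zsmul, e1, sub_eq_add_neg, ← e2]
  rw [e9, e4, e3, sub_zero, e5, e6, e7, e8]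

private theorem rel_kap {R : Finset ℕ} (hR : OKR m R) {r : ℕ} (hr : r.Prime) (hn : r ∉ R) :
    ∃ c ∈ OL D R, ∀ t, D.W t (qf D R (fun _ => 1)) - D.W t (qf D R (tw r fun _ => 1)) =
      2 * D.W t ((if ∏ l ∈ R, chi l r = 1 then 0 else qf D R (fun _ => 1)) - c) := by
  have s1 : Sgn (fun _ => 1) := fun _ => Or.inl rfl
  have s2 : Sgn (tw r fun _ => 1) := by
    intro l
    unfold tw
    split_ifs
    · exact Or.inr rfl
    · exact Or.inl rfl
  obtain ⟨c, hc, hct⟩ := q_sign D hR _ _ s1 s2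
  have hprod : ∏ l ∈ R, ((fun _ => 1 : ℕ → ℤ) l * tw r (fun _ => 1) l) = ∏ l ∈ R, chi l r := by
    refine prod_congr rfl fun l hl => ?_
    rw [rel_tw (hR l hl).1 hr (fun h => hn (h ▸ hl)), one_mul]
  have hpm : ∏ l ∈ R, chi l r = 1 ∨ ∏ l ∈ R, chi l r = -1 := by
    refine prod_induction _ (fun x : ℤ => x = 1 ∨ x = -1) ?_ (Or.inl rfl) ?_
    · rintro a b (rfl | rfl) (rfl | rfl)
      · exact Or.inl rfl
      · exact Or.inr rfl
      · exact Or.inr rfl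
      · exact Or.inl rfl
    · intro l hl
      exact chi_sq (hR l hl).1 ((Nat.coprime_primes hr (hR l hl).1).2
        (fun h => hn (h ▸ hl)))
  rw [hprod] at hct
  rcases hpm with h | h
  · refine ⟨-c, neg_mem hc, fun t => ?_⟩
    have h1 := hct t
    rw [h] at h1
    rw [h, if_pos rfl, map_sub, map_neg, map_zero]
    linarith
  · refine ⟨c, hc, fun t => ?_⟩
    have h1 := hct t
    rw [h] at h1
    rw [h, if_neg (by norm_num), map_sub]
    linarith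

private theorem rel_ol_le {R : Finset ℕ} (hR : OKR m R) :
    OL D R ≤ AddSubgroup.closure {a | ∃ R e, OKR m R ∧ a = qf D R e} := by
  unfold OL
  refine AddSubgroup.closure_mono ?_
  rintro a ⟨R', hR', -, e, -, he⟩
  exact ⟨R', e, fun l hl => hR l (hR'.1 hl), he⟩

/-- the basic relation -/
theorem rel_main (hm : Even m) (hsq : SqV D) {r₁ r₂ p : ℕ} {P : Finset ℕ} (h₁ : PPr r₁)
    (h₂ : PPr r₂) (h12 : r₁ ≠ r₂) (hP : ∀ l ∈ P, l % 4 = 1) (hp : p ∈ P)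
    (hR : OKR m (insert r₁ (insert r₂ P))) :
    ∃ c₁ ∈ OL D (insert r₁ P), ∃ c₂ ∈ OL D (insert r₂ P),
      (Bk D (insert r₁ P) (fun a => ss r₁ a * (hf p a * ∏ l ∈ P.erase p, ss l a) -
          ss r₁ (r₂ * a) * (hf p (r₂ * a) * ∏ l ∈ P.erase p, ss l (r₂ * a))) -
        (if ∏ l ∈ insert r₁ P, chi l r₂ = 1 then 0 else qf D (insert r₁ P) (fun _ => 1)) + c₁) +
      (Bk D (insert r₂ P) (fun a => ss r₂ a * (hf p a * ∏ l ∈ P.erase p, ss l a) -
          ss r₂ (r₁ * a) * (hf p (r₁ * a) * ∏ l ∈ P.erase p, ss l (r₁ * a))) -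
        (if ∏ l ∈ insert r₂ P, chi l r₁ = 1 then 0 else qf D (insert r₂ P) (fun _ => 1)) + c₂) -
      Bk D (insert r₁ (insert r₂ P)) (fun a => hf p a * ∏ l ∈ P.erase p, ss l a) = 0 := by
  have n1 : r₁ ∉ P := rel_notin h₁ hP
  have n2 : r₂ ∉ P := rel_notin h₂ hP
  have n1' : r₁ ∉ insert r₂ P := by
    rw [mem_insert, not_or]
    exact ⟨h12, n1⟩
  have n2' : r₂ ∉ insert r₁ P := by
    rw [mem_insert, not_or]
    exact ⟨h12.symm, n2⟩
  have m3 : ∀ l ∈ P, l ∈ insert r₁ (insert r₂ P) := fun l hl =>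
    mem_insert_of_mem (mem_insert_of_mem hl)
  have hR1 : OKR m (insert r₁ P) := fun l hl => hR l (by
    rw [mem_insert] at hl
    rcases hl with rfl | hl
    · exact mem_insert_self _ _
    · exact m3 l hl)
  have hR2 : OKR m (insert r₂ P) := fun l hl => hR l (by
    rw [mem_insert] at hl
    rcases hl with rfl | hl
    · exact mem_insert_of_mem (mem_insert_self _ _)
    · exact m3 l hl)
  obtain ⟨c₁, hc₁, hc₁t⟩ := rel_kap D hR1 h₂.1 n2'
  obtain ⟨c₂, hc₂, hc₂t⟩ := rel_kap D hR2 h₁.1 n1'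
  refine ⟨c₁, hc₁, c₂, hc₂, ?_⟩
  have h3 := rel_half D h₁ h₂ h12 hP hp hR
  have h4 := rel_two D h₁ h₂ h12 hP hR
  obtain ⟨k₁, hk₁⟩ : ∃ k₁, k₁ =
      (if ∏ l ∈ insert r₁ P, chi l r₂ = 1 then 0 else qf D (insert r₁ P) (fun _ => 1)) := ⟨_, rfl⟩
  obtain ⟨k₂, hk₂⟩ : ∃ k₂, k₂ =
      (if ∏ l ∈ insert r₂ P, chi l r₁ = 1 then 0 else qf D (insert r₂ P) (fun _ => 1)) := ⟨_, rfl⟩
  rw [← hk₁] at hc₁t ⊢
  rw [← hk₂] at hc₂t ⊢
  have hk₁m : k₁ ∈ AddSubgroup.closure {a | ∃ R e, OKR m R ∧ a = qf D R e} := by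
    rw [hk₁]
    split_ifs
    · exact zero_mem _
    · exact AddSubgroup.subset_closure ⟨_, _, hR1, rfl⟩
  have hk₂m : k₂ ∈ AddSubgroup.closure {a | ∃ R e, OKR m R ∧ a = qf D R e} := by
    rw [hk₂]
    split_ifs
    · exact zero_mem _
    · exact AddSubgroup.subset_closure ⟨_, _, hR2, rfl⟩
  have hz : qf D (insert r₁ (insert r₂ P)) (fun _ => 1) - (k₁ - c₁) - (k₂ - c₂) = 0 := by
    refine sq_zero D hm hsq _ ?_ fun t => ?_
    · refine sub_mem (sub_mem ?_ (sub_mem hk₁m (rel_ol_le D hR1 hc₁)))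
        (sub_mem hk₂m (rel_ol_le D hR2 hc₂))
      exact AddSubgroup.subset_closure ⟨_, _, hR, rfl⟩
    · have h5 := congrArg (D.W t) h4
      rw [map_zsmul, map_add, map_sub, map_sub, hc₁t t, hc₂t t, smul_eq_mul] at h5
      rw [map_sub, map_sub]
      linarith
  rw [h3] at hz
  rw [← hz]
  abel

end Pool.Agent.FQ
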