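import Pool.Agent.FQ.MainA
import Pool.Agent.Helper9.Fermat.GenC

/-!
# FQ-Restr: the restriction of a datum to a smaller level
-/

set_option autoImplicit false

namespace Pool.Agent.FQ

open Finset Pool.Agent.FS
open Pool.Agent.Helper9.Fermat (io io_val io_cast mul_io io_neg io_mul io_ne_zero fib mem_fib
  fib_card c_pos)

section

variable {c d m : ℕ} [NeZero d] [NeZero m] (hmd : m = c * d) {A : Type} [AddCommGroup A]
  (D : Datum m A)

theorem io_zero (c d m : ℕ) [NeZero d] : io c d m 0 = 0 := by
  unfold io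
  rw [ZMod.val_zero, mul_zero, Nat.cast_zero]

include hmd in
theorem io_inj : Function.Injective (io c d m) := by
  intro x y h
  have h1 := congrArg ZMod.val h
  rw [io_val hmd, io_val hmd] at h1
  exact ZMod.val_injective d (Nat.eq_of_mul_eq_mul_left (c_pos hmd) h1)

include hmd in
theorem sw_io (y : ZMod d) : sw (io c d m y) = c * sw y := by
  by_cases hy : y = 0
  · rw [hy, io_zero]
    unfold sw
    rw [if_pos rfl, if_pos rfl, mul_zero]
  · unfold sw
    rw [if_neg (io_ne_zero hmd hy), if_neg hy, io_val hmd]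
    have h4 : (m : ℤ) = (c : ℤ) * d := by rw [hmd]; push_cast; ring
    rw [h4]
    push_cast
    ring

include hmd in
theorem unit_io (t : (ZMod m)ˣ) (y : ZMod d) :
    (t : ZMod m) * io c d m y =
      io c d m ((ZMod.unitsMap (Dvd.intro_left c hmd.symm) t : (ZMod d)ˣ) * y) := by
  rw [mul_io hmd]
  rfl

include hmd in
theorem addOrderOf_io (y : ZMod d) : addOrderOf (io c d m y) = addOrderOf y := by
  refine addOrderOf_eq_addOrderOf_iff.2 fun k => ?_
  rw [nsmul_eq_mul, nsmul_eq_mul, ← io_mul hmd]
  constructor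
  · intro h
    refine io_inj hmd ?_
    rw [h, io_zero]
  · intro h
    rw [h, io_zero]

/-- a lift of a unit -/
noncomputable def liftU (t : (ZMod d)ˣ) : (ZMod m)ˣ :=
  Function.surjInv (ZMod.unitsMap_surjective (Dvd.intro_left c hmd.symm)) t

theorem liftU_spec (t : (ZMod d)ˣ) :
    ZMod.unitsMap (Dvd.intro_left c hmd.symm) (liftU hmd t) = t :=
  Function.surjInv_eq _ t

include hmd in
theorem fib_io {r : ℕ} (hr : 0 < r) (hrd : r ∣ d) (y : ZMod d) :
    fib m r ((r : ZMod m) * io c d m y) = (fib d r ((r : ZMod d) * y)).image (io c d m) := by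
  symm
  refine Finset.eq_of_subset_of_card_le ?_ ?_
  · intro z hz
    obtain ⟨w, hw, rfl⟩ := mem_image.1 hz
    rw [mem_fib] at hw ⊢
    rw [← io_mul hmd, hw, io_mul hmd]
  · rw [card_image_of_injective _ (io_inj hmd), fib_card hr hrd,
      fib_card hr (hrd.trans (Dvd.intro_left c hmd.symm))]

/-- the subgroup generated by the values on the level `d` -/
def subR (c d : ℕ) (D : Datum m A) : AddSubgroup A :=
  AddSubgroup.closure (Set.range fun w : ZMod d => D.f (io c d m w))

include hmd in
theorem dvd_W (t : (ZMod m)ˣ) (a : A) (ha : a ∈ subR c d D) : (c : ℤ) ∣ D.W t a := by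
  induction ha using AddSubgroup.closure_induction with
  | mem x hx =>
    obtain ⟨w, rfl⟩ := hx
    change (c : ℤ) ∣ D.W t (D.f (io c d m w))
    rw [D.wf, unit_io hmd, sw_io hmd]
    exact dvd_mul_right _ _
  | zero => rw [map_zero]; exact dvd_zero _
  | add x y _ _ hx hy => rw [map_add]; exact dvd_add hx hy
  | neg x _ hx => rw [map_neg]; exact (dvd_neg).2 hx

/-- the restricted weight -/
noncomputable def WR (t : (ZMod d)ˣ) : subR c d D →+ ℤ where
  toFun a := D.W (liftU hmd t) a / c
  map_zero' := by
    rw [ZeroMemClass.coe_zero, map_zero, Int.zero_ediv]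
  map_add' a b := by
    rw [AddMemClass.coe_add, map_add]
    exact Int.add_ediv_of_dvd_left (dvd_W hmd D _ _ a.2)

/-- the restricted datum -/
noncomputable def resD : Datum d (subR c d D) where
  f w := ⟨D.f (io c d m w), AddSubgroup.subset_closure ⟨w, rfl⟩⟩
  W := WR hmd D
  zero := by
    refine Subtype.ext ?_
    change D.f (io c d m 0) = 0
    rw [io_zero, D.zero]
  odd x := by
    refine Subtype.ext ?_
    change D.f (io c d m (-x)) = - D.f (io c d m x)
    rw [io_neg hmd, D.odd]
  dist r hr hrd y := by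
    refine Subtype.ext ?_
    rw [AddSubgroup.val_finset_sum]
    change ∑ z ∈ fib d r ((r : ZMod d) * y), D.f (io c d m z) = D.f (io c d m ((r : ZMod d) * y))
    have h1 := D.dist r hr (hrd.trans (Dvd.intro_left c hmd.symm)) (io c d m y)
    rw [fib_io hmd hr.pos hrd, sum_image fun a _ b _ h => io_inj hmd h] at h1
    rw [h1, io_mul hmd]
  wf t x := by
    change D.W (liftU hmd t) (D.f (io c d m x)) / c = sw ((t : ZMod d) * x)
    rw [D.wf, unit_io hmd, liftU_spec, sw_io hmd]
    refine Int.mul_ediv_cancel_left _ ?_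
    have := c_pos hmd
    positivity
  surf S h0 hc hS := by
    refine Subtype.ext ?_
    rw [AddSubgroup.val_multiset_sum, Multiset.map_map]
    change (S.map fun x => D.f (io c d m x)).sum = 0
    have h1 := D.surf (S.map (io c d m)) ?_ ?_ ?_
    · rw [Multiset.map_map] at h1
      exact h1
    · intro h
      obtain ⟨x, hx, hx0⟩ := Multiset.mem_map.1 h
      refine io_ne_zero hmd ?_ hx0
      rintro rfl
      exact h0 hx
    · rw [Multiset.card_map, hc]
    · intro t
      rw [Multiset.map_map, Multiset.card_map]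
      have h2 := hS (ZMod.unitsMap (Dvd.intro_left c hmd.symm) t)
      have h3 : S.map ((fun x : ZMod m => ((t : ZMod m) * x).val) ∘ io c d m) =
          S.map fun x => c *
            (((ZMod.unitsMap (Dvd.intro_left c hmd.symm) t : (ZMod d)ˣ) : ZMod d) * x).val := by
        refine Multiset.map_congr rfl fun x _ => ?_
        rw [Function.comp_apply, unit_io hmd, io_val hmd]
      rw [h3, Multiset.sum_map_mul_left, ← mul_assoc, mul_comm 2 c, mul_assoc, h2, hmd]
      ring

theorem resD_sum (S : Multiset (ZMod d)) :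
    (((S.map (resD hmd D).f).sum : subR c d D) : A) = ((S.map (io c d m)).map D.f).sum := by
  rw [AddSubgroup.val_multiset_sum, Multiset.map_map, Multiset.map_map]
  rfl

end

end Pool.Agent.FQ
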