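import Pool.Agent.FQ.MainQ
import Pool.Agent.FF.Fin2

/-!
# Hodge characters with at most six elements: version with square invariant characters

`sixQ`: under a condition on the pairs of primes which divide `m`, every Hodge character with at
most six elements is generated. `sixZ`: no condition if `12 ∣ m` and the square invariant
characters and two explicit sets are available. `sixN`: no additional generators if `m` is not
divisible by `35, 44, 51, 52, 55, 57`.
-/

set_option autoImplicit false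

namespace Pool.Agent.FQ

open Finset
open Pool.Agent.FS (IsHodge Datum sw cntp hb)
open Pool.Agent.FSU (Kill DatumX)
open Pool.Agent.FF (OKo OKo2 OKr six_lev2)

/-- the pairs of primes which occur for at most six elements -/
def prs6 : List (ℕ × ℕ) :=
  [(2, 3), (2, 5), (2, 7), (3, 5), (3, 7), (5, 7), (2, 11), (3, 11), (5, 11), (2, 13), (3, 13),
    (3, 17), (3, 19)]

private theorem pairs_of_subset7 {T : Finset ℕ} (hT : T ⊆ {2, 3, 5, 7}) {p q : ℕ} (hp : p ∈ T)
    (hq : q ∈ T) (hpq : p < q) : (p, q) ∈ prs6 := by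
  have h1 := hT hp
  have h2 := hT hq
  simp only [mem_insert, mem_singleton] at h1 h2
  rcases h1 with rfl | rfl | rfl | rfl <;> rcases h2 with rfl | rfl | rfl | rfl <;>
    first
    | omega
    | (simp [prs6]; done)

private theorem pairs_of_subset11 {T : Finset ℕ} (hT : T ⊆ {2, 3, 5, 11}) {p q : ℕ} (hp : p ∈ T)
    (hq : q ∈ T) (hpq : p < q) : (p, q) ∈ prs6 := by
  have h1 := hT hp
  have h2 := hT hq
  simp only [mem_insert, mem_singleton] at h1 h2
  rcases h1 with rfl | rfl | rfl | rfl <;> rcases h2 with rfl | rfl | rfl | rfl <;>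
    first
    | omega
    | (simp [prs6]; done)

private theorem pairs_of_OKr {r e : ℕ} (hr : r.Prime) (hr11 : 11 ≤ r) (he : e ∈ OKr r) :
    e.primeFactors.card ≤ 3 ∧
      ∀ p ∈ e.primeFactors, ∀ q ∈ e.primeFactors, p < q → (p, q) ∈ prs6 := by
  have key : ∀ (l c : ℕ), l.Prime → l < r → (c : ℕ).primeFactors = {l} → (l, r) ∈ prs6 →
      (c * r).primeFactors.card ≤ 3 ∧
      ∀ p ∈ (c * r).primeFactors, ∀ q ∈ (c * r).primeFactors, p < q → (p, q) ∈ prs6 := by
    intro l c hl hlr hc hk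
    have hc0 : c ≠ 0 := by
      rintro rfl
      rw [Nat.primeFactors_zero] at hc
      exact absurd hc.symm (singleton_ne_empty l)
    have h1 : (c * r).primeFactors = {l, r} := by
      rw [Nat.primeFactors_mul hc0 hr.ne_zero, hc, hr.primeFactors]
      rfl
    rw [h1]
    refine ⟨(card_le_two).trans (by norm_num), ?_⟩
    intro p hp q hq hpq
    simp only [mem_insert, mem_singleton] at hp hq
    rcases hp with rfl | rfl <;> rcases hq with rfl | rfl
    · omega
    · exact hk
    · omega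
    · omega
  rcases he with rfl | ⟨h19, rfl⟩ | ⟨h13, rfl⟩
  · rw [hr.primeFactors, card_singleton]
    refine ⟨by norm_num, ?_⟩
    intro p hp q hq hpq
    rw [mem_singleton] at hp hq
    omega
  · refine key 3 3 (by norm_num) (by omega) (Nat.Prime.primeFactors (by norm_num)) ?_
    interval_cases r
    all_goals first
      | (simp [prs6]; done)
      | exact absurd hr (by norm_num)
  · refine key 2 4 (by norm_num) (by omega) ?_ ?_
    · rw [show (4 : ℕ) = 2 ^ 2 by norm_num, Nat.primeFactors_pow _ (by norm_num),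
        Nat.Prime.primeFactors (by norm_num)]
    · interval_cases r
      all_goals first
        | (simp [prs6]; done)
        | exact absurd hr (by norm_num)

/-- the orders which remain: a good representative -/
private theorem OKo2_rep {e : ℕ} (he0 : e ≠ 0) (he : OKo2 e) :
    ∃ e' : ℕ, (e = e' ∨ e = 2 * e') ∧ (2 ∣ e' → 4 ∣ e') ∧ e'.primeFactors.card ≤ 3 ∧
      ∀ p ∈ e'.primeFactors, ∀ q ∈ e'.primeFactors, p < q → (p, q) ∈ prs6 := by
  have h0 : ∃ e' : ℕ, (e = e' ∨ e = 2 * e') ∧ e'.primeFactors.card ≤ 3 ∧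
      ∀ p ∈ e'.primeFactors, ∀ q ∈ e'.primeFactors, p < q → (p, q) ∈ prs6 := by
    rcases he with (⟨e', he', h1, h2⟩ | ⟨r, hr, hr11, he⟩) | ⟨e', he', h1, h2⟩
    · exact ⟨e', he', h2, fun p hp q hq hpq => pairs_of_subset7 h1 hp hq hpq⟩
    · exact ⟨e, Or.inl rfl, pairs_of_OKr hr hr11 he⟩
    · exact ⟨e', he', h2, fun p hp q hq hpq => pairs_of_subset11 h1 hp hq hpq⟩
  obtain ⟨e', he', hc, hp⟩ := h0
  by_cases h2 : 2 ∣ e' → 4 ∣ e'
  · exact ⟨e', he', h2, hc, hp⟩
  · push Not at h2
    obtain ⟨⟨c, rfl⟩, h4⟩ := h2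
    have hc0 : c ≠ 0 := by
      rintro rfl
      exact h4 (by norm_num)
    have hsub : c.primeFactors ⊆ (2 * c).primeFactors :=
      Nat.primeFactors_mono (Dvd.intro_left 2 rfl) (by omega)
    have hodd : ¬ 2 ∣ c := by
      rintro ⟨d, rfl⟩
      exact h4 ⟨d, by ring⟩
    rcases he' with rfl | rfl
    · exact ⟨c, Or.inr rfl, fun h => absurd h hodd, (card_le_card hsub).trans hc,
        fun p hp' q hq' hpq => hp p (hsub hp') q (hsub hq') hpq⟩
    · have hpf : (2 * (2 * c)).primeFactors = (2 * c).primeFactors := by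
        rw [Nat.primeFactors_mul (by norm_num) (by omega), Nat.primeFactors_mul (by norm_num) hc0,
          ← union_assoc, union_idempotent]
      refine ⟨2 * (2 * c), Or.inl rfl, fun _ => ⟨c, by ring⟩, ?_, ?_⟩
      · rw [hpf]
        exact hc
      · rw [hpf]
        exact hp

/-- Hodge characters with at most six elements. -/
theorem sixQ (Z : Prop) (P : Set (ℕ × ℕ)) (m : ℕ) [NeZero m] (hm : Even m)
    (hK : ∀ p q : ℕ, (p, q) ∈ prs6 → hb p ∣ m → hb q ∣ m → Kill P p q ∨ (Z ∧ KilM P m p q))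
    (S : Multiset (ZMod m)) (h0 : (0 : ZMod m) ∉ S) (heven : Even S.card) (hc : S.card ≤ 6)
    (hS : IsHodge S) : Gen Z P m S := by
  classical
  obtain ⟨A, _, D, hD⟩ := exists_datumQ Z P m hm
  refine hD S h0 heven ?_
  -- the weights
  have hW : ∀ t, D.W t (S.map D.f).sum = 0 := by
    intro t
    rw [map_multiset_sum, Multiset.map_map]
    have h1 : S.map (D.W t ∘ D.f) = S.map fun x => 2 * (((t : ZMod m) * x).val : ℤ) - m := by
      refine Multiset.map_congr rfl fun x hx => ?_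
      have hx0 : (t : ZMod m) * x ≠ 0 := by
        intro h
        have h2 := (t.isUnit.mul_right_eq_zero).1 h
        exact h0 (h2 ▸ hx)
      rw [Function.comp_apply, D.wf, sw, if_neg hx0]
    rw [h1]
    have h2 : ∀ (U : Multiset (ZMod m)),
        (U.map fun x => 2 * (((t : ZMod m) * x).val : ℤ) - m).sum =
          2 * (((U.map fun x => ((t : ZMod m) * x).val).sum : ℕ) : ℤ) - m * U.card := by
      intro U
      induction U using Multiset.induction_on with
      | empty => simp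
      | cons x U ih =>
        rw [Multiset.map_cons, Multiset.sum_cons, ih, Multiset.map_cons, Multiset.sum_cons,
          Multiset.card_cons]
        push_cast
        ring
    rw [h2]
    have h3 := hS t
    have h4 : (2 : ℤ) * (((S.map fun x => ((t : ZMod m) * x).val).sum : ℕ) : ℤ) =
        m * S.card := by exact_mod_cast h3
    rw [h4, sub_self]
  refine zero_of_allowed D.toDatum (Al := AlM Z P m) (fun T hT T' hT' => AlM_mono T hT T' hT')
    hm.two_dvd (fun R hR hA hne hev => killers D hm R hR hA hne hev) _ ?_ hW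
  refine (AddSubgroup.closure_mono ?_) (six_lev2 D.toDatum hm S hc hW)
  rintro a ⟨x, hx, rfl⟩
  refine ⟨x, ?_, rfl⟩
  have hm0 : m ≠ 0 := NeZero.ne m
  have hxm : addOrderOf x ∣ m := by
    have h := addOrderOf_dvd_card (x := x)
    rwa [ZMod.card] at h
  have he0 : addOrderOf x ≠ 0 := fun h => hm0 (Nat.eq_zero_of_zero_dvd (h ▸ hxm))
  obtain ⟨e', he', h24, hc3, hp⟩ := OKo2_rep he0 hx
  have he'm : e' ∣ m := by
    rcases he' with h | h
    · rw [← h]
      exact hxm
    · exact (Dvd.intro_left 2 h.symm).trans hxm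
  have hbd : ∀ p ∈ e'.primeFactors, hb p ∣ m := by
    intro p hp'
    have hpe := Nat.dvd_of_mem_primeFactors hp'
    unfold hb
    split_ifs with h2
    · rw [h2] at hpe
      exact (h24 hpe).trans he'm
    · exact hpe.trans he'm
  refine ⟨e', he', Or.inr ⟨hc3, ?_⟩⟩
  intro p hp' q hq' hpq
  exact hK p q (hp p hp' q hq' hpq) (hbd p hp') (hbd q hq')

/-- the two pairs with an explicit set -/
def P2 : Set (ℕ × ℕ) := {(2, 13), (3, 17)}

/-- Hodge characters with at most six elements, all levels. -/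
theorem sixZ (m : ℕ) [NeZero m] (h12 : 12 ∣ m) (S : Multiset (ZMod m)) (h0 : (0 : ZMod m) ∉ S)
    (heven : Even S.card) (hc : S.card ≤ 6) (hS : IsHodge S) : Gen True P2 m S := by
  have h213 : (2, 13) ∈ P2 := by simp [P2]
  have h317 : (3, 17) ∈ P2 := by simp [P2]
  refine sixQ True P2 m (even_iff_two_dvd.2 ((by norm_num : 2 ∣ 12).trans h12)) ?_ S h0 heven hc hS
  intro p q hpq _ _
  have p3 : ∀ l : ℕ, l.Prime → l % 4 = 3 → PPr l := fun l hl h => ⟨hl, Or.inr h⟩
  have p2 : PPr 2 := ⟨Nat.prime_two, Or.inl rfl⟩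
  simp only [prs6, List.mem_cons, Prod.mk.injEq, List.not_mem_nil, or_false] at hpq
  unfold Kill KilM
  rcases hpq with ⟨rfl, rfl⟩ | ⟨rfl, rfl⟩ | ⟨rfl, rfl⟩ | ⟨rfl, rfl⟩ | ⟨rfl, rfl⟩ | ⟨rfl, rfl⟩ |
    ⟨rfl, rfl⟩ | ⟨rfl, rfl⟩ | ⟨rfl, rfl⟩ | ⟨rfl, rfl⟩ | ⟨rfl, rfl⟩ | ⟨rfl, rfl⟩ | ⟨rfl, rfl⟩
  · left; left; simp
  · left; left; simp
  · left; left; simp
  · left; left; simp
  · left; left; simp
  · right
    exact ⟨trivial, Or.inr (Or.inl ⟨h12, Or.inr (Or.inl rfl), Or.inl (p3 7 (by norm_num) rfl)⟩)⟩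
  · right
    exact ⟨trivial, Or.inl ⟨p2, p3 11 (by norm_num) rfl⟩⟩
  · left; left; simp
  · right
    exact ⟨trivial, Or.inr (Or.inl ⟨h12, Or.inr (Or.inl rfl), Or.inl (p3 11 (by norm_num) rfl)⟩)⟩
  · left; right
    exact ⟨h213, by simp⟩
  · left; left; simp
  · left; right
    exact ⟨h317, by simp⟩
  · right
    exact ⟨trivial, Or.inl ⟨p3 3 (by norm_num) rfl, p3 19 (by norm_num) rfl⟩⟩

/-- Hodge characters with at most six elements, without additional generators. -/
theorem sixN (m : ℕ) [NeZero m] (hm : Even m) (hn : ∀ c ∈ [35, 44, 51, 52, 55, 57], ¬ c ∣ m)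
    (S : Multiset (ZMod m)) (h0 : (0 : ZMod m) ∉ S)
    (heven : Even S.card) (hc : S.card ≤ 6) (hS : IsHodge S) : Gen False ∅ m S := by
  refine sixQ False ∅ m hm ?_ S h0 heven hc hS
  intro p q hpq hp hq
  simp only [List.mem_cons, List.not_mem_nil, or_false, forall_eq_or_imp, forall_eq] at hn
  obtain ⟨h35, h44, h51, h52, h55, h57⟩ := hn
  have hco : ∀ a b c : ℕ, a * b = c → Nat.Coprime a b → a ∣ m → b ∣ m → c ∣ m := by
    intro a b c h hab ha hb
    rw [← h]
    exact hab.mul_dvd_of_dvd_of_dvd ha hb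
  simp only [prs6, List.mem_cons, Prod.mk.injEq, List.not_mem_nil, or_false] at hpq
  left
  unfold Kill
  rcases hpq with ⟨rfl, rfl⟩ | ⟨rfl, rfl⟩ | ⟨rfl, rfl⟩ | ⟨rfl, rfl⟩ | ⟨rfl, rfl⟩ | ⟨rfl, rfl⟩ |
    ⟨rfl, rfl⟩ | ⟨rfl, rfl⟩ | ⟨rfl, rfl⟩ | ⟨rfl, rfl⟩ | ⟨rfl, rfl⟩ | ⟨rfl, rfl⟩ | ⟨rfl, rfl⟩
  · left; simp
  · left; simp
  · left; simp
  · left; simp
  · left; simp
  · exact absurd (hco 5 7 35 (by norm_num) (by norm_num) hp hq) h35
  · exact absurd (hco 4 11 44 (by norm_num) (by norm_num) hp hq) h44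
  · left; simp
  · exact absurd (hco 5 11 55 (by norm_num) (by norm_num) hp hq) h55
  · exact absurd (hco 4 13 52 (by norm_num) (by norm_num) hp hq) h52
  · left; simp
  · exact absurd (hco 3 17 51 (by norm_num) (by norm_num) hp hq) h51
  · exact absurd (hco 3 19 57 (by norm_num) (by norm_num) hp hq) h57

end Pool.Agent.FQ
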