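import Pool.Agent.FQ.Defs

/-!
Elementary facts on `eT T = ∏ l ∈ T, hb l` (`hb l = 4` if `l = 2` and `hb l = l` otherwise).
-/

set_option autoImplicit false

namespace Pool.Agent.FQ

open Finset
open Pool.Agent.FS

variable {m : ℕ} [NeZero m] {T : Finset ℕ}

private theorem VsA_prime_dvd_hb {l p : ℕ} (hl : l.Prime) (hp : p.Prime) (h : p ∣ hb l) : p = l := by
  unfold hb at h
  split_ifs at h with h2
  · subst h2
    have h4 : (4 : ℕ) = 2 ^ 2 := by norm_num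
    rw [h4] at h
    exact (Nat.prime_dvd_prime_iff_eq hp Nat.prime_two).1 (hp.dvd_of_dvd_pow h)
  · exact (Nat.prime_dvd_prime_iff_eq hp hl).1 h

private theorem VsA_dvd_hb (l : ℕ) : l ∣ hb l := by
  unfold hb
  split_ifs with h2
  · subst h2
    exact ⟨2, by norm_num⟩
  · exact dvd_rfl

theorem hb_ne_zero {l : ℕ} (hl : l.Prime) : hb l ≠ 0 := by
  unfold hb
  split_ifs with h2
  · norm_num
  · exact hl.ne_zero

theorem eT_ne_zero (hT : ∀ l ∈ T, l.Prime) : eT T ≠ 0 :=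
  Finset.prod_ne_zero_iff.2 fun l hl => hb_ne_zero (hT l hl)

theorem eT_dvd (hT : ∀ l ∈ T, l.Prime ∧ hb l ∣ m) : eT T ∣ m := by
  refine Finset.prod_dvd_of_isRelPrime ?_ fun l hl => (hT l hl).2
  intro l hl l' hl' hne
  refine Nat.coprime_iff_isRelPrime.1 ?_
  refine Nat.Coprime.symm (Nat.coprime_of_dvd ?_)
  intro p hp h1 h2
  exact hne ((VsA_prime_dvd_hb (hT l hl).1 hp h2).symm.trans (VsA_prime_dvd_hb (hT l' hl').1 hp h1))

theorem hb_dvd_eT {l : ℕ} (hl : l ∈ T) : hb l ∣ eT T := Finset.dvd_prod_of_mem hb hl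

theorem prime_dvd_eT (hT : ∀ l ∈ T, l.Prime) {l : ℕ} (hl : l.Prime) : l ∣ eT T ↔ l ∈ T := by
  constructor
  · intro h
    unfold eT at h
    rw [Prime.dvd_finsetProd_iff hl.prime] at h
    obtain ⟨l', hl', h2⟩ := h
    rw [VsA_prime_dvd_hb (hT l' hl') hl h2]
    exact hl'
  · intro h
    exact (VsA_dvd_hb l).trans (hb_dvd_eT h)

end Pool.Agent.FQ
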